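import Pool.Agent.H74.RS.Pin

set_option autoImplicit false
set_option linter.unusedSectionVars false

/-!
Approximation by smooth forms, and the cohomological hypothesis for forms of class `C¹`.
-/

open scoped Manifold ContDiff Topology Polynomial
open Set Filter MeasureTheory Polynomial

namespace Pool.Agent.H74.RS

open Pool.Agent.H721R2

section vec

variable {F : Type*} [NormedAddCommGroup F] [NormedSpace ℝ F] [FiniteDimensional ℝ F]
  [MeasurableSpace F] [BorelSpace F] {μ : Measure F} [μ.IsAddHaarMeasure]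
  {W : Type*} [NormedAddCommGroup W] [NormedSpace ℝ W] [CompleteSpace W]
  {ρ : F → ℝ} {ε : ℝ}

theorem cv_near (h : Mol μ ρ ε) {A : F → W} (hA : Continuous A) {δ : ℝ} (p : F)
    (hδ : ∀ v, ‖v‖ < ε → ‖A (p - v) - A p‖ ≤ δ) : ‖cv μ ρ A p - A p‖ ≤ δ := by
  have i1 : Integrable (fun v => ρ v • A (p - v)) μ :=
    h.integrable_smul (g := fun v => A (p - v)) (hA.comp (continuous_const.sub continuous_id))
  have i2 : Integrable (fun v => ρ v • A p) μ :=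
    h.integrable_smul (g := fun v => A p) continuous_const
  have h1 : cv μ ρ A p - A p = ∫ v, (ρ v • A (p - v) - ρ v • A p) ∂μ := by
    rw [integral_sub i1 i2, integral_smul_const, h.int, one_smul]
    rfl
  have h2 : ‖cv μ ρ A p - A p‖ ≤ ∫ v, ρ v * δ ∂μ := by
    rw [h1]
    apply norm_integral_le_of_norm_le (h.integrable.mul_const δ)
    refine Eventually.of_forall fun v => ?_
    rw [← smul_sub, norm_smul, Real.norm_of_nonneg (h.nonneg v)]
    by_cases hv : ε ≤ ‖v‖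
    · rw [h.far v hv]; simp
    · push Not at hv
      exact mul_le_mul_of_nonneg_left (hδ v hv) (h.nonneg v)
  rwa [integral_mul_const, h.int, one_mul] at h2

end vec

variable {E : Type*} [NormedAddCommGroup E] [NormedSpace ℝ E] [FiniteDimensional ℝ E]
  {M : Type*} [MetricSpace M] [CompactSpace M] [ChartedSpace E M]
  [IsManifold 𝓘(ℝ, E) 1 M] [IsManifold 𝓘(ℝ, E) 2 M]
  {F : Type*} [NormedAddCommGroup F] [InnerProductSpace ℝ F] [FiniteDimensional ℝ F]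
  {e : M → F} {f : M ≃ₜ M} {Es Eu : M → Submodule ℝ E} {C a b Ls Lu : ℝ} {u : ℕ}
  [MeasurableSpace F] [BorelSpace F] {μ : Measure F} [μ.IsAddHaarMeasure] (D : SmD E μ e)

include D in
/-- smooth approximation of continuous forms -/
theorem approx (he : ContMDiff 𝓘(ℝ, E) 𝓘(ℝ, F) 2 e) {k : ℕ} {w : M → E [⋀^Fin k]→L[ℝ] ℝ}
    (hw : C0Form w) {δ : ℝ} (hδ : 0 < δ) :
    ∃ (θ : M → E [⋀^Fin k]→L[ℝ] ℝ) (η : M → E [⋀^Fin (k + 1)]→L[ℝ] ℝ), C1Form θ ∧ C1Form η ∧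
      IsEx η θ ∧ IsEx 0 η ∧ Bd e (w - θ) δ := by
  have he1 : ContMDiff 𝓘(ℝ, E) 𝓘(ℝ, F) 1 e := he.of_le (by norm_num)
  have hA := D.A_cont hw
  have hu : UniformContinuous (D.A w) := (D.A_supp w).uniformContinuous_of_continuous hA
  obtain ⟨r, hr, hur⟩ := Metric.uniformContinuous_iff.mp hu δ hδ
  obtain ⟨ρ, hρ⟩ := exists_mol μ hr
  set B : F → F [⋀^Fin k]→L[ℝ] ℝ := cv μ ρ (D.A w) with hB
  have hBs : ContDiff ℝ ∞ B := cv_smooth hρ hA
  have hBd : ContDiff ℝ ∞ (extDeriv B) := by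
    have h1 : ContDiff ℝ ∞ (fderiv ℝ B) := hBs.fderiv_right (m := ∞) (by simp)
    exact (ContinuousAlternatingMap.alternatizeUncurryFinCLM (n := k) ℝ F ℝ).contDiff.comp h1
  refine ⟨pM e (B ∘ e), pM e (extDeriv B ∘ e), pM_c1 he fun _ => (hBs.of_le (by simp)).contDiffAt,
    pM_c1 he fun _ => (hBd.of_le (by simp)).contDiffAt,
    pM_isEx he fun _ => (hBs.of_le (by simp)).contDiffAt, ?_, ?_⟩
  · have h1 := pM_isEx (E := E) he (B := extDeriv B) fun _ => (hBd.of_le (by simp)).contDiffAt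
    have h2 : extDeriv (extDeriv B) = 0 :=
      extDeriv_extDeriv hBs (by
        rw [minSmoothness_of_isRCLikeNormedField]
        norm_cast)
    rw [h2] at h1
    exact h1
  · have h2 : pM e (pF D.r w ∘ e) = w := pM_pF he1 D.inv (fun x =>
      (D.smooth (e x) (D.near_mem (x := x) (by
        rw [sub_self, norm_zero]; have := D.ε_pos; linarith))).self_of_nhds.of_le (by simp)) w
    have h3 : w - pM e (B ∘ e) = pM (E := E) e (fun x => D.A w (e x) - B (e x)) := by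
      funext x
      ext v
      have h0 : ‖e x - e x‖ < 2 * D.ε := by
        rw [sub_self, norm_zero]; have := D.ε_pos; linarith
      have h6 : w x v = pF D.r w (e x) (fun i => dm E e x (v i)) := by
        conv_lhs => rw [← h2]
        rfl
      show w x v - B (e x) (fun i => dm E e x (v i)) =
        D.A w (e x) (fun i => dm E e x (v i)) - B (e x) (fun i => dm E e x (v i))
      rw [h6, (D.A_near w h0).self_of_nhds]
    rw [h3]
    apply pM_bd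
    intro x
    rw [norm_sub_rev]
    apply cv_near hρ hA
    intro v hv
    have h4 := hur (a := e x - v) (b := e x) (by
      rw [dist_eq_norm, show e x - v - e x = -v by abel, norm_neg]; exact hv)
    rw [dist_eq_norm] at h4
    exact h4.le

theorem Pinch.congr (he : ContMDiff 𝓘(ℝ, E) 𝓘(ℝ, F) 1 e)
    (hinj : ∀ x, Function.Injective (dm E e x))
    (h : EAnosov e f Es Eu C a b Ls Lu) (hu : ∀ x, Module.finrank ℝ (Eu x) = u)
    {w w' : M → E [⋀^Fin u]→L[ℝ] ℝ} (hw : C0Form w) (hw' : C0Form w')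
    (hnz : ∀ z, ∀ v : Fin u → E, (∀ j, v j ∈ Eu z) → LinearIndependent ℝ v → w z v ≠ 0)
    (hnz' : ∀ z, ∀ v : Fin u → E, (∀ j, v j ∈ Eu z) → LinearIndependent ℝ v → w' z v ≠ 0)
    (hp : Pinch e f Es Eu w) : Pinch e f Es Eu w' := by
  obtain ⟨K₁, hK₁, h1⟩ := form_compare he hinj h hu hw' hw hnz
  obtain ⟨K₂, hK₂, h2⟩ := form_compare he hinj h hu hw hw' hnz'
  intro κ hκ
  obtain ⟨n, c, hc, hlow, hup⟩ := hp (κ / (K₁ ^ 2 * K₂ ^ 2)) (by positivity)
  refine ⟨n, c / (K₁ * K₂), by positivity, fun x v hv => ?_, fun x v hv ξ hξ => ?_⟩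
  · have h3 := h1 x v hv
    have h4 := h2 (f^[n] x) (fun i => dg E (f^[n]) x (v i)) (fun i => h.mapU n x _ (hv i))
    have h5 := hlow x v hv
    rw [div_mul_eq_mul_div, div_le_iff₀ (by positivity)]
    calc c * |w' x v| ≤ c * (K₁ * |w x v|) := mul_le_mul_of_nonneg_left h3 hc.le
      _ = K₁ * (c * |w x v|) := by ring
      _ ≤ K₁ * (K₂ * |w' (f^[n] x) (fun i => dg E (f^[n]) x (v i))|) :=
          mul_le_mul_of_nonneg_left (h5.trans h4) hK₁.le
      _ = _ := by ring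
  · have h3 := h2 x v hv
    have h4 := h1 (f^[n] x) (fun i => dg E (f^[n]) x (v i)) (fun i => h.mapU n x _ (hv i))
    have h5 := hup x v hv ξ hξ
    set X := ‖dm E e (f^[n] x) (dg E (f^[n]) x ξ)‖ with hX
    have hX0 : 0 ≤ X := norm_nonneg _
    calc |w' (f^[n] x) (fun i => dg E (f^[n]) x (v i))| * X ≤
        K₁ * |w (f^[n] x) (fun i => dg E (f^[n]) x (v i))| * X :=
          mul_le_mul_of_nonneg_right h4 hX0
      _ = K₁ * (|w (f^[n] x) (fun i => dg E (f^[n]) x (v i))| * X) := by ring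
      _ ≤ K₁ * (κ / (K₁ ^ 2 * K₂ ^ 2) * c * |w x v| * ‖dm E e x ξ‖) :=
          mul_le_mul_of_nonneg_left h5 hK₁.le
      _ = (K₁ * (κ / (K₁ ^ 2 * K₂ ^ 2)) * c * ‖dm E e x ξ‖) * |w x v| := by ring
      _ ≤ (K₁ * (κ / (K₁ ^ 2 * K₂ ^ 2)) * c * ‖dm E e x ξ‖) * (K₂ * |w' x v|) :=
          mul_le_mul_of_nonneg_left h3 (by positivity)
      _ = κ * (c / (K₁ * K₂)) * |w' x v| * ‖dm E e x ξ‖ := by
          field_simp

include D in
/-- Existence of a closed calibrating form. -/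
theorem exists_calib0 (he : ContMDiff 𝓘(ℝ, E) 𝓘(ℝ, F) 2 e)
    (hinj : ∀ x, Function.Injective (dm E e x)) (hiso : ∀ x y, dist x y = ‖e x - e y‖)
    (h : EAnosov e f Es Eu C a b Ls Lu) (hf2 : ContMDiff 𝓘(ℝ, E) 𝓘(ℝ, E) 2 f) {l : ℕ}
    (hu : ∀ x, Module.finrank ℝ (Eu x) = u) (hs : ∀ x, Module.finrank ℝ (Es x) = l)
    {w : M → E [⋀^Fin u]→L[ℝ] ℝ} (hw : C0Form w) {s : ℝ}
    (hpos : ∀ x, ∀ v : Fin u → E, (∀ j, v j ∈ Eu x) → LinearIndependent ℝ v →
      0 < s * (w x v * pb f w x v))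
    (hpin : Pinch e f Es Eu w) :
    ∃ ζ : M → E [⋀^Fin u]→L[ℝ] ℝ, Cl ζ ∧
      ∀ x, ∀ v : Fin u → E, (∀ j, v j ∈ Eu x) → LinearIndependent ℝ v →
        0 < s * (ζ x v * pb f ζ x v) := by
  have he1 : ContMDiff 𝓘(ℝ, E) 𝓘(ℝ, F) 1 e := he.of_le (by norm_num)
  have hnz := ne_of_pos_sign hpos
  obtain ⟨c₁, hc₁, hlb⟩ := form_lb_orth he1 hinj h hw hnz
  obtain ⟨θ, η, hθ, hη, hd, hd2, hθw⟩ := approx D he hw (half_pos hc₁)
  have hsame : ∀ x, ∀ v : Fin u → E, (∀ j, v j ∈ Eu x) → LinearIndependent ℝ v →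
      0 < θ x v * w x v := by
    intro x v hv hl
    obtain ⟨p, hp, hpo⟩ := exists_frame (dm E e x) (hinj x) (Eu x) (hu x)
    refine same_sign (hu x) (w x) (θ x) p hp ?_ v hv (hnz x v hv hl)
    have h1 := hθw x p
    have h2 : ∏ j, ‖dm E e x (p j)‖ = 1 := Finset.prod_eq_one fun j _ => hpo.1 j
    rw [h2, mul_one] at h1
    have h3 := hlb x p hp (fun i j hij => hpo.2 hij)
    rw [h2, mul_one] at h3
    calc |w x p - θ x p| ≤ c₁ / 2 := h1
      _ < c₁ := by linarith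
      _ ≤ |w x p| := h3
  have hposθ := sign_transfer h hpos hsame
  have hnzθ := ne_of_pos_sign hposθ
  exact exists_calib D he hinj hiso h hf2 hu hs hθ hη hd hd2 hposθ
    (hpin.congr he1 hinj h hu hw (c1_c0 hθ) hnz hnzθ)

include D in
/-- the cohomological hypothesis holds for closed forms of class `C¹` if it holds for closed smooth
forms -/
theorem coh_c1 [IsManifold 𝓘(ℝ, E) ∞ M] (he : ContMDiff 𝓘(ℝ, E) 𝓘(ℝ, F) ∞ e)
    (hf2 : ContMDiff 𝓘(ℝ, E) 𝓘(ℝ, E) 2 f) {k : ℕ} (P : ℝ[X])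
    (hcoh : ∀ ζ : M → E [⋀^Fin (k + 1)]→L[ℝ] ℝ,
      (∀ x₀ : M, ContDiffOn ℝ ∞ (pl (ic E x₀) ζ) (tg E x₀)) → IsEx 0 ζ →
      ∃ β : M → E [⋀^Fin k]→L[ℝ] ℝ, C1Form β ∧ IsEx ((aeval (T (k + 1) f) P) ζ) β)
    {ζ : M → E [⋀^Fin (k + 1)]→L[ℝ] ℝ} (hζ : Cl ζ) :
    ∃ β : M → E [⋀^Fin k]→L[ℝ] ℝ, C1Form β ∧ IsEx ((aeval (T (k + 1) f) P) ζ) β := by
  have he2 : ContMDiff 𝓘(ℝ, E) 𝓘(ℝ, F) 2 e := he.of_le (by norm_cast)
  have hcl : IsEx 0 (D.S ζ) := by
    have := D.S_ext he2 hζ.1 hζ.2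
    rwa [D.S_zero] at this
  obtain ⟨β, hβ, hex⟩ := hcoh (D.S ζ)
    (fun x₀ => pM_smooth he (cv_smooth D.mol (D.A_cont (c1_c0 hζ.1))) x₀) hcl
  have hK1 := D.K_c1 he2 hζ.1
  have h1 := (D.K_ext he2 hζ.1 hζ.2).aeval hK1 f hf2 P
  refine ⟨β - (aeval (T k f) P) (D.K ζ), c1_sub hβ (aeval_c1 f hf2 P hK1), ?_⟩
  have h2 := hex.sub h1 hβ (aeval_c1 f hf2 P hK1)
  have h3 : (aeval (T (k + 1) f) P) (D.S ζ) - (aeval (T (k + 1) f) P) (D.S ζ - ζ) =
      (aeval (T (k + 1) f) P) ζ := by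
    rw [map_sub]; abel
  rwa [h3] at h2

end Pool.Agent.H74.RS
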