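import Pool.Agent.H74.RS.Frame

set_option autoImplicit false
set_option linter.unusedSectionVars false

open scoped Manifold ContDiff Topology
open Set Filter

namespace Pool.Agent.H74.RS

open Pool.Agent.H721R2

variable {E : Type*} [NormedAddCommGroup E] [NormedSpace ℝ E] [FiniteDimensional ℝ E]
  {M : Type*} [MetricSpace M] [CompactSpace M] [ChartedSpace E M] [IsManifold 𝓘(ℝ, E) 1 M]
  {F : Type*} [NormedAddCommGroup F] [InnerProductSpace ℝ F]

/-- the chart and the inverse chart have inverse derivatives -/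
theorem dc_dm (x₀ z : M) (hz : z ∈ (extChartAt 𝓘(ℝ, E) x₀).source) (v : E) :
    dc (ic E x₀) (extChartAt 𝓘(ℝ, E) x₀ z) (dm E (extChartAt 𝓘(ℝ, E) x₀) z v) = v := by
  have hy := (extChartAt 𝓘(ℝ, E) x₀).map_source hz
  have a1 : MDifferentiableAt 𝓘(ℝ, E) 𝓘(ℝ, E) (ic E x₀) (extChartAt 𝓘(ℝ, E) x₀ z) :=
    (ic_contMDiffAt (M := M) 1 x₀ hy).mdifferentiableAt (by norm_num)
  have a2 : MDifferentiableAt 𝓘(ℝ, E) 𝓘(ℝ, E) (extChartAt 𝓘(ℝ, E) x₀) z := by
    apply mdifferentiableAt_extChartAt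
    rwa [extChartAt_source] at hz
  have h1 := mfderiv_comp z a1 a2
  have h2 : (ic E x₀ ∘ extChartAt 𝓘(ℝ, E) x₀) =ᶠ[𝓝 z] id := by
    filter_upwards [(isOpen_extChartAt_source (I := 𝓘(ℝ, E)) x₀).mem_nhds hz] with z' hz'
    exact (extChartAt 𝓘(ℝ, E) x₀).left_inv hz'
  rw [h2.mfderiv_eq, mfderiv_id] at h1
  have h3 := DFunLike.congr_fun h1 v
  exact h3.symm

theorem form_local {k : ℕ} (w : M → E [⋀^Fin k]→L[ℝ] ℝ) (x₀ z : M)
    (hz : z ∈ (extChartAt 𝓘(ℝ, E) x₀).source) (v : Fin k → E) :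
    w z v = pl (ic E x₀) w (extChartAt 𝓘(ℝ, E) x₀ z)
      (fun j => dm E (extChartAt 𝓘(ℝ, E) x₀) z (v j)) := by
  rw [pl_apply]
  have h1 : ic E x₀ (extChartAt 𝓘(ℝ, E) x₀ z) = z := (extChartAt 𝓘(ℝ, E) x₀).left_inv hz
  have h2 : (fun i => dc (ic E x₀) (extChartAt 𝓘(ℝ, E) x₀ z)
    (dm E (extChartAt 𝓘(ℝ, E) x₀) z (v i))) = v := funext fun i => dc_dm x₀ z hz (v i)
  rw [h2, h1]

theorem pl_continuousAt {k : ℕ} {w : M → E [⋀^Fin k]→L[ℝ] ℝ} (hw : C0Form w) (x₀ : M) {y : E}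
    (hy : y ∈ tg E x₀) : ContinuousAt (pl (ic E x₀) w) y :=
  (hw x₀).continuousAt ((isOpen_extChartAt_target x₀).mem_nhds hy)

theorem pl_self {k : ℕ} (w : M → E [⋀^Fin k]→L[ℝ] ℝ) (x₀ : M) (v : Fin k → E) :
    pl (ic E x₀) w (extChartAt 𝓘(ℝ, E) x₀ x₀) v = w x₀ v := by
  rw [pl_apply, dc_ic_self]
  show w ((extChartAt 𝓘(ℝ, E) x₀).symm (extChartAt 𝓘(ℝ, E) x₀ x₀)) v = _
  rw [extChartAt_to_inv]

/-- a continuous form is bounded with respect to the norm of the embedding -/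
theorem form_ub {e : M → F} (he : ContMDiff 𝓘(ℝ, E) 𝓘(ℝ, F) 1 e)
    (hinj : ∀ x, Function.Injective (dm E e x)) {k : ℕ} {w : M → E [⋀^Fin k]→L[ℝ] ℝ}
    (hw : C0Form w) : ∃ B > 0, ∀ (z : M) (v : Fin k → E), |w z v| ≤ B * ∏ j, ‖dm E e z (v j)‖ := by
  apply exists_uniform_const
  · intro C C' x hCC' h v
    exact (h v).trans (mul_le_mul_of_nonneg_right hCC' (Finset.prod_nonneg fun _ _ => norm_nonneg _))
  · intro x₀
    obtain ⟨⟨C, hC, h1⟩, -⟩ := local_all e he hinj e he x₀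
    have hc : ContinuousAt (fun z => ‖pl (ic E x₀) w (extChartAt 𝓘(ℝ, E) x₀ z)‖) x₀ :=
      ((pl_continuousAt hw x₀ (mem_extChartAt_target x₀)).comp (continuousAt_extChartAt x₀)).norm
    refine ⟨(‖pl (ic E x₀) w (extChartAt 𝓘(ℝ, E) x₀ x₀)‖ + 1) * C ^ k, ?_⟩
    filter_upwards [h1, hc.eventually_lt continuousAt_const (lt_add_one _),
      (isOpen_extChartAt_source (I := 𝓘(ℝ, E)) x₀).mem_nhds (mem_extChartAt_source x₀)]
      with z hz1 hz2 hz3 v
    rw [form_local w x₀ z hz3, ← Real.norm_eq_abs]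
    have hle := (pl (ic E x₀) w (extChartAt 𝓘(ℝ, E) x₀ z)).le_opNorm
      (fun j => dm E (extChartAt 𝓘(ℝ, E) x₀) z (v j))
    refine hle.trans ?_
    calc _ ≤ (‖pl (ic E x₀) w (extChartAt 𝓘(ℝ, E) x₀ x₀)‖ + 1) *
          ∏ j : Fin k, (C * ‖dm E e z (v j)‖) := by
          apply mul_le_mul hz2.le _ (Finset.prod_nonneg fun _ _ => norm_nonneg _) (by positivity)
          exact Finset.prod_le_prod (fun _ _ => norm_nonneg _) (fun j _ => (hz1 (v j)).1)
      _ = _ := by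
          rw [Finset.prod_mul_distrib, Finset.prod_const, Finset.card_univ, Fintype.card_fin]
          ring

/-- a continuous form which does not vanish on the unstable spaces over a closed set is bounded
below near the orthonormal frames -/
theorem form_lb {e : M → F} (he : ContMDiff 𝓘(ℝ, E) 𝓘(ℝ, F) 1 e)
    (hinj : ∀ x, Function.Injective (dm E e x))
    {f : M ≃ₜ M} {Es Eu : M → Submodule ℝ E} {C a b Ls Lu : ℝ}
    (h : EAnosov e f Es Eu C a b Ls Lu) {u : ℕ} {w : M → E [⋀^Fin u]→L[ℝ] ℝ}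
    (hw : C0Form w) {Z : Set M} (hZ : IsClosed Z)
    (hnz : ∀ z ∈ Z, ∀ v : Fin u → E, (∀ j, v j ∈ Eu z) → LinearIndependent ℝ v → w z v ≠ 0) :
    ∃ c > 0, ∃ δ > 0, ∀ z ∈ Z, ∀ v v' : Fin u → E, (∀ j, v j ∈ Eu z) →
      Orthonormal ℝ (fun j => dm E e z (v j)) → (∀ j, ‖dm E e z (v' j - v j)‖ ≤ δ) →
      c ≤ |w z v'| := by
  by_contra hcon
  push Not at hcon
  have hseq : ∀ n : ℕ, ∃ z ∈ Z, ∃ v v' : Fin u → E, (∀ j, v j ∈ Eu z) ∧
      Orthonormal ℝ (fun j => dm E e z (v j)) ∧ (∀ j, ‖dm E e z (v' j - v j)‖ ≤ 1 / ((n : ℝ) + 1)) ∧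
      |w z v'| < 1 / ((n : ℝ) + 1) := by
    intro n
    obtain ⟨z, hz, v, v', h1, h2, h3, h4⟩ := hcon (1 / ((n : ℝ) + 1)) (by positivity)
      (1 / ((n : ℝ) + 1)) (by positivity)
    exact ⟨z, hz, v, v', h1, h2, h3, h4⟩
  choose z hzZ v v' hv hvo hvv' hwv using hseq
  obtain ⟨z₀, hz₀Z, φ, hφ, hzφ⟩ := hZ.isCompact.tendsto_subseq hzZ
  set κ := extChartAt 𝓘(ℝ, E) z₀ with hκ
  obtain ⟨⟨C₀, hC₀, hloc⟩, -⟩ := local_all e he hinj e he z₀
  -- coordinates of the vectors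
  set V : ℕ → Fin u → E := fun n j => dm E κ (z (φ n)) (v (φ n) j) with hV
  set V' : ℕ → Fin u → E := fun n j => dm E κ (z (φ n)) (v' (φ n) j) with hV'
  have hloc' : ∀ᶠ n in atTop, ∀ w : E,
      ‖dm E κ (z (φ n)) w‖ ≤ C₀ * ‖dm E e (z (φ n)) w‖ := by
    filter_upwards [hzφ.eventually hloc] with n hn w using (hn w).1
  have hVb : ∀ᶠ n in atTop, V n ∈ Metric.closedBall (0 : Fin u → E) C₀ := by
    filter_upwards [hloc'] with n hn
    rw [mem_closedBall_zero_iff, pi_norm_le_iff_of_nonneg hC₀.le]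
    intro j
    have := hn (v (φ n) j)
    rwa [(hvo (φ n)).1 j, mul_one] at this
  obtain ⟨W, -, ψ, hψ, hVW⟩ := tendsto_subseq_of_frequently_bounded
    (Metric.isBounded_closedBall (x := (0 : Fin u → E)) (r := C₀)) hVb.frequently
  have hψt := hψ.tendsto_atTop
  have hzψ : Tendsto (fun n => z (φ (ψ n))) atTop (𝓝 z₀) := hzφ.comp hψt
  have hinv : Tendsto (fun n : ℕ => 1 / (((φ (ψ n) : ℕ) : ℝ) + 1)) atTop (𝓝 0) :=
    tendsto_one_div_add_atTop_nhds_zero_nat.comp (hφ.tendsto_atTop.comp hψt)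
  have hsrc : ∀ᶠ n in atTop, z (φ (ψ n)) ∈ κ.source :=
    hzψ.eventually ((isOpen_extChartAt_source (I := 𝓘(ℝ, E)) z₀).mem_nhds (mem_extChartAt_source z₀))
  have hVj : ∀ j, Tendsto (fun n => V (ψ n) j) atTop (𝓝 (W j)) := fun j =>
    (tendsto_pi_nhds.mp hVW j)
  have hV'j : ∀ j, Tendsto (fun n => V' (ψ n) j) atTop (𝓝 (W j)) := by
    intro j
    have h1 : Tendsto (fun n => V' (ψ n) j - V (ψ n) j) atTop (𝓝 0) := by
      have h2 : Tendsto (fun n : ℕ => C₀ * (1 / (((φ (ψ n) : ℕ) : ℝ) + 1))) atTop (𝓝 0) := by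
        simpa using hinv.const_mul C₀
      refine squeeze_zero_norm' ?_ h2
      filter_upwards [hψt.eventually hloc'] with n hn
      have h3 := hn (v' (φ (ψ n)) j - v (φ (ψ n)) j)
      rw [map_sub] at h3
      exact h3.trans (mul_le_mul_of_nonneg_left (hvv' _ j) hC₀.le)
    have := h1.add (hVj j)
    simpa using this
  have hκz : Tendsto (fun n => κ (z (φ (ψ n)))) atTop (𝓝 (κ z₀)) :=
    (continuousAt_extChartAt (I := 𝓘(ℝ, E)) z₀).tendsto.comp hzψ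
  -- limits of the embedded vectors
  have hder : ContinuousAt (fderiv ℝ (hatMap e z₀ : E → F)) (κ z₀) := by
    have := (hatMap_contDiffAt e he z₀ _ (mem_extChartAt_target z₀)).fderiv_right (m := 0)
      (by norm_num)
    exact this.continuousAt
  have hemb : ∀ j, Tendsto (fun n => dm E e (z (φ (ψ n))) (v (φ (ψ n)) j)) atTop
      (𝓝 (dm E e z₀ (W j))) := by
    intro j
    have h1 : Tendsto (fun n => fderiv ℝ (hatMap e z₀ : E → F) (κ (z (φ (ψ n)))) (V (ψ n) j)) atTop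
        (𝓝 (fderiv ℝ (hatMap e z₀ : E → F) (κ z₀) (W j))) :=
      (isBoundedBilinearMap_apply (𝕜 := ℝ) (E := E) (F := F)).continuous.continuousAt.tendsto.comp
        (Filter.Tendsto.prodMk_nhds (hder.tendsto.comp hκz) (hVj j))
    rw [fderiv_hatMap_self e he z₀] at h1
    refine h1.congr' ?_
    filter_upwards [hsrc] with n hn
    exact (hatMap_mfderiv e he z₀ _ hn _).symm
  have hWo : Orthonormal ℝ (fun j => dm E e z₀ (W j)) := by
    rw [orthonormal_iff_ite]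
    intro i j
    have h1 : Tendsto (fun n => inner ℝ (dm E e (z (φ (ψ n))) (v (φ (ψ n)) i))
        (dm E e (z (φ (ψ n))) (v (φ (ψ n)) j))) atTop
        (𝓝 (inner ℝ (dm E e z₀ (W i)) (dm E e z₀ (W j)))) := (hemb i).inner (hemb j)
    have h2 : ∀ n, inner ℝ (dm E e (z (φ (ψ n))) (v (φ (ψ n)) i))
        (dm E e (z (φ (ψ n))) (v (φ (ψ n)) j)) = if i = j then (1 : ℝ) else 0 := fun n =>
      (orthonormal_iff_ite.mp (hvo (φ (ψ n)))) i j
    simp_rw [h2] at h1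
    exact (tendsto_nhds_unique h1 tendsto_const_nhds)
  have hWE : ∀ j, W j ∈ Eu z₀ := by
    intro j
    have hcl : IsClosed ((Eu z₀).map (dm E e z₀).toLinearMap : Set F) :=
      Submodule.closed_of_finiteDimensional _
    have hmem : dm E e z₀ (W j) ∈ closure ((Eu z₀).map (dm E e z₀).toLinearMap : Set F) := by
      rw [Metric.mem_closure_iff]
      intro ε hε
      obtain ⟨r, hr, hcs⟩ := h.symm.contS he hinj (ε / 2) (by positivity)
      have h1 : ∀ᶠ n in atTop, dist (z (φ (ψ n))) z₀ < r :=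
        hzψ.eventually (Metric.ball_mem_nhds _ hr)
      have h2 : ∀ᶠ n in atTop, dist (dm E e (z (φ (ψ n))) (v (φ (ψ n)) j)) (dm E e z₀ (W j)) < ε / 2 :=
        (hemb j).eventually (Metric.ball_mem_nhds _ (by positivity))
      obtain ⟨n, hn1, hn2⟩ := (h1.and h2).exists
      obtain ⟨s', hs', hs1⟩ := hcs _ _ hn1 _ (hv (φ (ψ n)) j)
      rw [(hvo (φ (ψ n))).1 j, mul_one] at hs1
      refine ⟨dm E e z₀ s', ⟨s', hs', rfl⟩, ?_⟩
      rw [dist_comm] at hn2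
      have htri := dist_triangle (dm E e z₀ (W j)) (dm E e (z (φ (ψ n))) (v (φ (ψ n)) j))
        (dm E e z₀ s')
      rw [dist_eq_norm (dm E e (z (φ (ψ n))) (v (φ (ψ n)) j))] at htri
      linarith
    rw [hcl.closure_eq] at hmem
    obtain ⟨s', hs', hs1⟩ := hmem
    rwa [hinj z₀ hs1] at hs'
  have hlin : LinearIndependent ℝ W := LinearIndependent.of_comp (dm E e z₀).toLinearMap
    hWo.linearIndependent
  refine hnz z₀ hz₀Z W hWE hlin ?_
  -- the form vanishes on the limit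
  have h1 : Tendsto (fun n => pl (ic E z₀) w (κ (z (φ (ψ n)))) (V' (ψ n))) atTop
      (𝓝 (pl (ic E z₀) w (κ z₀) W)) := by
    have h2 : Tendsto (fun n => (pl (ic E z₀) w (κ (z (φ (ψ n)))), V' (ψ n))) atTop
        (𝓝 (pl (ic E z₀) w (κ z₀), W)) :=
      ((pl_continuousAt hw z₀ (mem_extChartAt_target z₀)).tendsto.comp hκz).prodMk_nhds
        (tendsto_pi_nhds.mpr hV'j)
    exact ((eval_contDiff (E := E) u 0).continuous.tendsto _).comp h2
  rw [pl_self] at h1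
  have h3 : Tendsto (fun n => pl (ic E z₀) w (κ (z (φ (ψ n)))) (V' (ψ n))) atTop (𝓝 0) := by
    refine squeeze_zero_norm' ?_ hinv
    filter_upwards [hsrc] with n hn
    have := form_local w z₀ _ hn (v' (φ (ψ n)))
    rw [Real.norm_eq_abs]
    rw [← hκ] at this
    rw [show pl (ic E z₀) w (κ (z (φ (ψ n)))) (V' (ψ n)) = w (z (φ (ψ n))) (v' (φ (ψ n))) from
      this.symm]
    exact (hwv _).le
  exact tendsto_nhds_unique h1 h3

end Pool.Agent.H74.RS
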