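import Pool.Agent.H74.RS.SmM

set_option autoImplicit false
set_option linter.unusedSectionVars false

/-!
The exterior derivative has closed range for the uniform norm.
-/

open scoped Manifold ContDiff Topology
open Set Filter MeasureTheory

namespace Pool.Agent.H74.RS

open Pool.Agent.H721R2

/-- Arzela-Ascoli for a sequence of uniformly Lipschitz maps. -/
theorem lip_subseq {X : Type*} [MetricSpace X] [CompactSpace X] {W : Type*} [NormedAddCommGroup W]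
    [NormedSpace ℝ W] [FiniteDimensional ℝ W] (f : ℕ → X → W) (R L : ℝ)
    (hR : ∀ n x, ‖f n x‖ ≤ R) (hL : ∀ n x y, ‖f n x - f n y‖ ≤ L * dist x y) :
    ∃ φ : ℕ → ℕ, StrictMono φ ∧ ∃ g : X → W, Continuous g ∧
      ∀ δ > 0, ∃ N, ∀ n ≥ N, ∀ x, ‖f (φ n) x - g x‖ ≤ δ := by
  have hcont : ∀ n, Continuous (f n) := by
    intro n
    have : LipschitzWith (Real.toNNReal L) (f n) := by
      apply LipschitzWith.of_dist_le_mul
      intro x y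
      rw [dist_eq_norm]
      refine (hL n x y).trans ?_
      exact mul_le_mul_of_nonneg_right (Real.le_coe_toNNReal L) dist_nonneg
    exact this.continuous
  let F : ℕ → BoundedContinuousFunction X W := fun n =>
    BoundedContinuousFunction.mkOfCompact ⟨f n, hcont n⟩
  have hc : IsCompact (closure (range F)) := by
    apply BoundedContinuousFunction.arzela_ascoli (Metric.closedBall (0 : W) R)
      (isCompact_closedBall _ _)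
    · rintro _ x ⟨n, rfl⟩
      rw [mem_closedBall_zero_iff]
      exact hR n x
    · apply Metric.equicontinuous_of_continuity_modulus (fun t => L * t)
      · have : Tendsto (fun t : ℝ => L * t) (𝓝 0) (𝓝 (L * 0)) :=
          (continuous_const.mul continuous_id).tendsto 0
        rwa [mul_zero] at this
      · rintro x y ⟨_, n, rfl⟩
        rw [dist_eq_norm]
        exact hL n x y
  obtain ⟨g, -, φ, hφ, hg⟩ := hc.tendsto_subseq (x := F) fun n => subset_closure (mem_range_self n)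
  refine ⟨φ, hφ, g, g.continuous, fun δ hδ => ?_⟩
  obtain ⟨N, hN⟩ := Metric.tendsto_atTop.mp hg δ hδ
  refine ⟨N, fun n hn x => ?_⟩
  have h1 := hN n hn
  have h2 := (BoundedContinuousFunction.dist_coe_le_dist (f := F (φ n)) (g := g) x).trans h1.le
  rw [dist_eq_norm] at h2
  exact h2

section ex

variable {E : Type*} [NormedAddCommGroup E] [NormedSpace ℝ E]
  {M : Type*} [TopologicalSpace M] [ChartedSpace E M]

theorem c0_sub {k : ℕ} {w w' : M → E [⋀^Fin k]→L[ℝ] ℝ} (h : C0Form w) (h' : C0Form w') :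
    C0Form (w - w') := fun x₀ => (h x₀).sub (h' x₀)

theorem c1_sub {k : ℕ} {w w' : M → E [⋀^Fin k]→L[ℝ] ℝ} (h : C1Form w) (h' : C1Form w') :
    C1Form (w - w') := fun x₀ => (h x₀).sub (h' x₀)

theorem IsEx.sub {k : ℕ} {w w' : M → E [⋀^Fin (k + 1)]→L[ℝ] ℝ} {β β' : M → E [⋀^Fin k]→L[ℝ] ℝ}
    (h : IsEx w β) (h' : IsEx w' β') (hβ : C1Form β) (hβ' : C1Form β') :
    IsEx (w - w') (β - β') := by
  have h1 := h.add (h'.smul (-1)) hβ (c1_smul (-1) hβ')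
  have e1 : w + (-1 : ℝ) • w' = w - w' := by
    funext x; ext v
    show w x v + (-1) * w' x v = w x v - w' x v
    ring
  have e2 : β + (-1 : ℝ) • β' = β - β' := by
    funext x; ext v
    show β x v + (-1) * β' x v = β x v - β' x v
    ring
  rwa [e1, e2] at h1

/-- closed forms -/
def Cl {k : ℕ} (ζ : M → E [⋀^Fin k]→L[ℝ] ℝ) : Prop :=
  C1Form ζ ∧ IsEx (0 : M → E [⋀^Fin (k + 1)]→L[ℝ] ℝ) ζ

theorem Cl.add {k : ℕ} {ζ ζ' : M → E [⋀^Fin k]→L[ℝ] ℝ} (h : Cl ζ) (h' : Cl ζ') : Cl (ζ + ζ') := by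
  refine ⟨c1_add h.1 h'.1, ?_⟩
  have := h.2.add h'.2 h.1 h'.1
  rwa [add_zero] at this

theorem Cl.sub {k : ℕ} {ζ ζ' : M → E [⋀^Fin k]→L[ℝ] ℝ} (h : Cl ζ) (h' : Cl ζ') : Cl (ζ - ζ') := by
  refine ⟨c1_sub h.1 h'.1, ?_⟩
  have := h.2.sub h'.2 h.1 h'.1
  rwa [sub_zero] at this

theorem Cl.smul {k : ℕ} (c : ℝ) {ζ : M → E [⋀^Fin k]→L[ℝ] ℝ} (h : Cl ζ) : Cl (c • ζ) := by
  refine ⟨c1_smul c h.1, ?_⟩
  have := h.2.smul c
  rwa [smul_zero] at this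

theorem Cl.zero {k : ℕ} : Cl (0 : M → E [⋀^Fin k]→L[ℝ] ℝ) := ⟨c1_zero, IsEx.zero⟩

end ex

variable {E : Type*} [NormedAddCommGroup E] [NormedSpace ℝ E] [FiniteDimensional ℝ E]
  {M : Type*} [MetricSpace M] [ChartedSpace E M]
  {F : Type*} [NormedAddCommGroup F] [InnerProductSpace ℝ F] [FiniteDimensional ℝ F]
  [MeasurableSpace F] [BorelSpace F] {μ : Measure F} [μ.IsAddHaarMeasure]
  {e : M → F} (D : SmD E μ e)

theorem Bd.sub {k : ℕ} {w w' : M → E [⋀^Fin k]→L[ℝ] ℝ} {b b' : ℝ} (h : Bd e w b)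
    (h' : Bd e w' b') : Bd e (w - w') (b + b') := by
  have h1 := h.add (h'.smul (-1))
  have e1 : w + (-1 : ℝ) • w' = w - w' := by
    funext x; ext v
    show w x v + (-1) * w' x v = w x v - w' x v
    ring
  rw [e1] at h1
  simpa using h1

theorem SmD.A_sub {k : ℕ} (w w' : M → E [⋀^Fin k]→L[ℝ] ℝ) (p : F) :
    D.A (w - w') p = D.A w p - D.A w' p := by
  ext v
  show D.χ p * (w (D.r p) (fun i => dr D.r p (v i)) - w' (D.r p) (fun i => dr D.r p (v i))) =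
    D.χ p * w (D.r p) (fun i => dr D.r p (v i)) - D.χ p * w' (D.r p) (fun i => dr D.r p (v i))
  ring

theorem SmD.S_zero {k : ℕ} : D.S (0 : M → E [⋀^Fin k]→L[ℝ] ℝ) = 0 := by
  funext x
  ext v
  show cv μ D.ρ (D.A 0) (e x) (fun i => dm E e x (v i)) = 0
  have h1 : D.A (0 : M → E [⋀^Fin k]→L[ℝ] ℝ) = fun _ => 0 := by
    funext p
    show D.χ p • pF D.r 0 p = 0
    have : pF D.r (0 : M → E [⋀^Fin k]→L[ℝ] ℝ) p = 0 := rfl
    rw [this, smul_zero]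
  rw [h1]
  have h2 : cv μ D.ρ (fun _ => (0 : F [⋀^Fin k]→L[ℝ] ℝ)) (e x) = 0 := by
    unfold cv
    simp
  rw [h2]
  rfl

section bounds

variable [IsManifold 𝓘(ℝ, E) 1 M]

theorem SmD.S_sub {k : ℕ} {w w' : M → E [⋀^Fin k]→L[ℝ] ℝ} (hw : C0Form w) (hw' : C0Form w') :
    D.S (w - w') = D.S w - D.S w' := by
  funext x
  ext v
  show cv μ D.ρ (D.A (w - w')) (e x) (fun i => dm E e x (v i)) =
    cv μ D.ρ (D.A w) (e x) (fun i => dm E e x (v i)) -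
      cv μ D.ρ (D.A w') (e x) (fun i => dm E e x (v i))
  have h1 : D.A (w - w') = fun p => D.A w p - D.A w' p := funext fun p => D.A_sub w w' p
  rw [h1, cv_sub D.mol (D.A_cont hw) (D.A_cont hw')]
  rfl

theorem SmD.S_bd (he : ContMDiff 𝓘(ℝ, E) 𝓘(ℝ, F) 1 e) (k : ℕ) :
    ∃ C > 0, ∀ {w : M → E [⋀^Fin k]→L[ℝ] ℝ} {b : ℝ}, 0 ≤ b → Bd e w b →
      (∀ p, ‖cv μ D.ρ (D.A w) p‖ ≤ C * b) ∧ Bd e (D.S w) (C * b) := by
  obtain ⟨C, hC, h⟩ := D.A_bd he k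
  refine ⟨C, hC, fun {w b} hb hw => ?_⟩
  have h1 : ∀ p, ‖cv μ D.ρ (D.A w) p‖ ≤ C * b := fun p => cv_norm_le D.mol (h hb hw) p
  exact ⟨h1, pM_bd e fun x => h1 (e x)⟩

theorem SmD.K_bd (he : ContMDiff 𝓘(ℝ, E) 𝓘(ℝ, F) 1 e) (k : ℕ) :
    ∃ C > 0, ∀ {w : M → E [⋀^Fin (k + 1)]→L[ℝ] ℝ} {b : ℝ}, 0 ≤ b → Bd e w b →
      Bd e (D.K w) (C * b) := by
  obtain ⟨C, hC, h⟩ := D.A_bd he (k + 1)
  refine ⟨D.ε * C, mul_pos D.ε_pos hC, fun {w b} hb hw => ?_⟩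
  have h1 := pM_bd (E := E) e (B := hop μ D.ρ (iotaB F k) (D.A w) ∘ e) (b := D.ε * (C * b))
    fun x => hop_norm_le D.mol D.ε_pos.le iotaB_norm (h hb hw) (e x)
  rw [← mul_assoc] at h1
  exact h1

theorem SmD.dS_bd (he : ContMDiff 𝓘(ℝ, E) 𝓘(ℝ, F) 1 e) (k : ℕ) :
    ∃ C > 0, ∀ {w : M → E [⋀^Fin k]→L[ℝ] ℝ} {b : ℝ}, C0Form w → 0 ≤ b → Bd e w b →
      (∀ p, ‖fderiv ℝ (cv μ D.ρ (D.A w)) p‖ ≤ C * b) ∧
      (∀ p, ‖extDeriv (cv μ D.ρ (D.A w)) p‖ ≤ C * b) := by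
  obtain ⟨C, hC, h⟩ := D.A_bd he k
  obtain ⟨C', hC', h'⟩ := cv_fderiv_le (W := F [⋀^Fin k]→L[ℝ] ℝ) D.mol
  refine ⟨(k + 1) * (C' * C), by positivity, fun {w b} hw hb hwb => ?_⟩
  have h1 : ∀ p, ‖fderiv ℝ (cv μ D.ρ (D.A w)) p‖ ≤ C' * (C * b) := fun p =>
    h' (D.A_cont hw) (h hb hwb) p
  refine ⟨fun p => (h1 p).trans ?_, fun p => ?_⟩
  · have h2 : 0 ≤ (k : ℝ) * (C' * (C * b)) := by positivity
    linarith
  · refine (ContinuousAlternatingMap.norm_alternatizeUncurryFin_le _).trans ?_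
    calc ((k : ℝ) + 1) * ‖fderiv ℝ (cv μ D.ρ (D.A w)) p‖ ≤ (k + 1) * (C' * (C * b)) :=
          mul_le_mul_of_nonneg_left (h1 p) (by positivity)
      _ = _ := by ring

/-- compactness of the smoothing operator -/
theorem SmD.compact [CompactSpace M] (he : ContMDiff 𝓘(ℝ, E) 𝓘(ℝ, F) 1 e)
    (hiso : ∀ x y, dist x y = ‖e x - e y‖) {k : ℕ}
    (w : ℕ → M → E [⋀^Fin k]→L[ℝ] ℝ) (hw : ∀ n, C0Form (w n)) {b : ℝ} (hb : 0 ≤ b)
    (hwb : ∀ n, Bd e (w n) b) :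
    ∃ φ : ℕ → ℕ, StrictMono φ ∧ ∃ γ : M → E [⋀^Fin k]→L[ℝ] ℝ, C0Form γ ∧
      ∀ δ > 0, ∃ N, ∀ n ≥ N, Bd e (D.S (w (φ n)) - γ) δ := by
  obtain ⟨C, hC, h1⟩ := D.S_bd he k
  obtain ⟨C', hC', h2⟩ := D.dS_bd he k
  obtain ⟨φ, hφ, g, hg, hlim⟩ := lip_subseq (fun n x => cv μ D.ρ (D.A (w n)) (e x)) (C * b)
    (C' * b) (fun n x => (h1 hb (hwb n)).1 (e x)) (fun n x y => by
      have h3 : ∀ p ∈ (univ : Set F), DifferentiableAt ℝ (cv μ D.ρ (D.A (w n))) p := fun p _ =>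
        (cv_smooth D.mol (D.A_cont (hw n))).differentiable (by simp) p
      have h4 := convex_univ.norm_image_sub_le_of_norm_fderiv_le h3
        (fun p _ => (h2 (hw n) hb (hwb n)).1 p) (mem_univ (e y)) (mem_univ (e x))
      rw [hiso]
      exact h4)
  refine ⟨φ, hφ, pM e g, pM_c0 he hg, fun δ hδ => ?_⟩
  obtain ⟨N, hN⟩ := hlim δ hδ
  refine ⟨N, fun n hn => ?_⟩
  have h5 := pM_bd (E := E) e (B := fun x => cv μ D.ρ (D.A (w (φ n))) (e x) - g x) (b := δ)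
    fun x => hN n hn x
  exact h5

end bounds

variable [CompactSpace M] [IsManifold 𝓘(ℝ, E) 1 M] [IsManifold 𝓘(ℝ, E) 2 M]

/-- normalized counterexamples to the closed range property -/
theorem normalize (he : ContMDiff 𝓘(ℝ, E) 𝓘(ℝ, F) 1 e)
    (hinj : ∀ x, Function.Injective (dm E e x)) {k : ℕ}
    {α : M → E [⋀^Fin k]→L[ℝ] ℝ} {ξ : M → E [⋀^Fin (k + 1)]→L[ℝ] ℝ} {b c : ℝ} (hb : 0 < b)
    (hc : 0 < c)
    (hα : C1Form α) (hξ : C1Form ξ) (hd : IsEx ξ α) (hd2 : IsEx 0 ξ) (hξb : Bd e ξ b)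
    (hno : ∀ ζ, Cl ζ → ¬ Bd e (α - ζ) (c * b)) :
    ∃ (α' : M → E [⋀^Fin k]→L[ℝ] ℝ) (ξ' : M → E [⋀^Fin (k + 1)]→L[ℝ] ℝ), C1Form α' ∧ C1Form ξ' ∧
      IsEx ξ' α' ∧ IsEx 0 ξ' ∧ Bd e α' 2 ∧ Bd e ξ' (1 / c) ∧
      ∀ ζ, Cl ζ → ¬ Bd e (α' - ζ) (1 / 2) := by
  set Z : Set ℝ := {B | ∃ ζ, Cl ζ ∧ Bd e (α - ζ) B} with hZ
  have hlow : ∀ B ∈ Z, c * b ≤ B := by
    rintro B ⟨ζ, hζ, hB⟩
    by_contra hcon
    push Not at hcon
    exact hno ζ hζ (hB.mono hcon.le)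
  have hne : Z.Nonempty := by
    obtain ⟨B, -, hB⟩ := form_ub he hinj (c1_c0 hα)
    refine ⟨B, 0, Cl.zero, ?_⟩
    rw [sub_zero]
    exact hB
  set m := sInf Z with hm
  have hm1 : c * b ≤ m := le_csInf hne hlow
  have hm0 : 0 < m := lt_of_lt_of_le (by positivity) hm1
  have hbdd : BddBelow Z := ⟨c * b, hlow⟩
  obtain ⟨B, ⟨ζ, hζ, hB⟩, hB2⟩ := exists_lt_of_csInf_lt hne (show sInf Z < 2 * m by
    rw [← hm]; linarith)
  refine ⟨m⁻¹ • (α - ζ), m⁻¹ • ξ, c1_smul _ (c1_sub hα hζ.1), c1_smul _ hξ, ?_, ?_, ?_, ?_, ?_⟩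
  · have h1 := (hd.sub hζ.2 hα hζ.1).smul m⁻¹
    rwa [sub_zero] at h1
  · have h1 := hd2.smul m⁻¹
    rwa [smul_zero] at h1
  · have h1 := hB.smul m⁻¹
    refine h1.mono ?_
    rw [abs_of_pos (inv_pos.mpr hm0), inv_mul_le_iff₀ hm0]
    linarith
  · have h1 := hξb.smul m⁻¹
    refine h1.mono ?_
    rw [abs_of_pos (inv_pos.mpr hm0), inv_mul_le_iff₀ hm0, mul_one_div, le_div_iff₀ hc]
    linarith
  · intro ζ' hζ' hcon
    have h1 := hcon.smul m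
    have e1 : m • (m⁻¹ • (α - ζ) - ζ') = α - (ζ + m • ζ') := by
      rw [smul_sub, smul_smul, mul_inv_cancel₀ hm0.ne', one_smul]
      abel
    rw [e1, abs_of_pos hm0] at h1
    have h2 : m ≤ m * (1 / 2) := csInf_le hbdd ⟨_, hζ.add (hζ'.smul m), h1⟩
    linarith

include D in
/-- The closed range property. -/
theorem closed_range (he : ContMDiff 𝓘(ℝ, E) 𝓘(ℝ, F) 2 e)
    (hinj : ∀ x, Function.Injective (dm E e x)) (hiso : ∀ x y, dist x y = ‖e x - e y‖) (k : ℕ) :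
    ∃ C > 0, ∀ (α : M → E [⋀^Fin k]→L[ℝ] ℝ) (ξ : M → E [⋀^Fin (k + 1)]→L[ℝ] ℝ) (b : ℝ),
      C1Form α → C1Form ξ → IsEx ξ α → IsEx 0 ξ → 0 < b → Bd e ξ b →
      ∃ ζ, Cl ζ ∧ Bd e (α - ζ) (C * b) := by
  have he1 : ContMDiff 𝓘(ℝ, E) 𝓘(ℝ, F) 1 e := he.of_le (by norm_num)
  by_contra hcon
  push Not at hcon
  have hseq : ∀ n : ℕ, ∃ (α' : M → E [⋀^Fin k]→L[ℝ] ℝ) (ξ' : M → E [⋀^Fin (k + 1)]→L[ℝ] ℝ),
      C1Form α' ∧ C1Form ξ' ∧ IsEx ξ' α' ∧ IsEx 0 ξ' ∧ Bd e α' 2 ∧ Bd e ξ' (1 / ((n : ℝ) + 1)) ∧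
      ∀ ζ, Cl ζ → ¬ Bd e (α' - ζ) (1 / 2) := by
    intro n
    obtain ⟨α, ξ, b, hα, hξ, hd, hd2, hb, hξb, hno⟩ := hcon ((n : ℝ) + 1) (by positivity)
    exact normalize he1 hinj hb (by positivity) hα hξ hd hd2 hξb hno
  choose α ξ hα hξ hd hd2 hαb hξb hno using hseq
  obtain ⟨C₁, hC₁, hS⟩ := D.S_bd he1 k
  obtain ⟨C₂, hC₂, hS'⟩ := D.S_bd he1 (k + 1)
  obtain ⟨C₃, hC₃, hK⟩ := D.K_bd he1 k
  obtain ⟨C₄, hC₄, hdS⟩ := D.dS_bd he1 k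
  obtain ⟨φ, hφ, γ, hγ, hlim⟩ := D.compact he1 hiso α (fun n => c1_c0 (hα n)) zero_le_two hαb
  -- the smoothed sequence
  have hc1 : ∀ n, C1Form (D.S (α n)) := fun n => D.S_c1 he (c1_c0 (hα n))
  have hc1' : ∀ n, C1Form (D.S (ξ n)) := fun n => D.S_c1 he (c1_c0 (hξ n))
  have hex : ∀ n, IsEx (D.S (ξ n)) (D.S (α n)) := fun n => D.S_ext he (hα n) (hd n)
  have hex2 : ∀ n, IsEx 0 (D.S (ξ n)) := fun n => by
    have := D.S_ext he (hξ n) (hd2 n)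
    rwa [D.S_zero] at this
  have hinv : ∀ n : ℕ, (0 : ℝ) ≤ 1 / ((n : ℝ) + 1) := fun n => by positivity
  have hSξ : ∀ n, Bd e (D.S (ξ n)) (C₂ * (1 / ((n : ℝ) + 1))) := fun n => (hS' (hinv n) (hξb n)).2
  -- the limit is closed
  have hSγ1 : C1Form (D.S γ) := D.S_c1 he hγ
  have hzero : ∀ x, extDeriv (cv μ D.ρ (D.A γ)) (e x) = 0 := by
    intro x
    rw [← norm_le_zero_iff]
    apply le_of_forall_pos_le_add
    intro η hη
    obtain ⟨N, hN⟩ := hlim (η / (2 * C₄)) (by positivity)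
    obtain ⟨N', hN'⟩ := exists_nat_gt (2 * C₂ * C₂ / η)
    set n := max N N' with hn
    have hφn : N' ≤ φ n := (le_max_right _ _).trans (hφ.id_le n)
    have h1 := hdS (c0_sub (c1_c0 (hc1 (φ n))) hγ) (by positivity) (hN n (le_max_left _ _))
    have h2 : D.A (D.S (α (φ n)) - γ) = fun p => D.A (D.S (α (φ n))) p - D.A γ p :=
      funext fun p => D.A_sub _ _ p
    have h3 : cv μ D.ρ (D.A (D.S (α (φ n)) - γ)) =
        cv μ D.ρ (D.A (D.S (α (φ n)))) - cv μ D.ρ (D.A γ) := by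
      funext p
      rw [h2, cv_sub D.mol (D.A_cont (c1_c0 (hc1 (φ n)))) (D.A_cont hγ)]
      rfl
    have h4 := h1.2 (e x)
    have d1 : DifferentiableAt ℝ (cv μ D.ρ (D.A (D.S (α (φ n))))) (e x) :=
      (cv_smooth D.mol (D.A_cont (c1_c0 (hc1 (φ n))))).differentiable (by simp) _
    have d2 : DifferentiableAt ℝ (cv μ D.ρ (D.A γ)) (e x) :=
      (cv_smooth D.mol (D.A_cont hγ)).differentiable (by simp) _
    have h5 : extDeriv (cv μ D.ρ (D.A (D.S (α (φ n)) - γ))) (e x) =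
        extDeriv (cv μ D.ρ (D.A (D.S (α (φ n))))) (e x) - extDeriv (cv μ D.ρ (D.A γ)) (e x) := by
      rw [h3]
      unfold extDeriv
      rw [fderiv_sub d1 d2]
      exact map_sub (ContinuousAlternatingMap.alternatizeUncurryFinCLM (n := k) ℝ F ℝ) _ _
    rw [h5, D.S_ext1 (hc1 (φ n)) (hex (φ n))] at h4
    have h6 := (hS' (by positivity) (hSξ (φ n))).1 (e x)
    have h7 : ‖extDeriv (cv μ D.ρ (D.A γ)) (e x)‖ ≤ ‖cv μ D.ρ (D.A (D.S (ξ (φ n)))) (e x)‖ +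
        ‖cv μ D.ρ (D.A (D.S (ξ (φ n)))) (e x) - extDeriv (cv μ D.ρ (D.A γ)) (e x)‖ := by
      have := norm_sub_norm_le (extDeriv (cv μ D.ρ (D.A γ)) (e x))
        (cv μ D.ρ (D.A (D.S (ξ (φ n)))) (e x))
      rw [norm_sub_rev] at this
      linarith
    have h8 : C₄ * (η / (2 * C₄)) = η / 2 := by field_simp
    have h9 : C₂ * (C₂ * (1 / ((φ n : ℝ) + 1))) ≤ η / 2 := by
      have g1 : (N' : ℝ) ≤ φ n := by exact_mod_cast hφn
      have g2 : 2 * C₂ * C₂ / η < (φ n : ℝ) + 1 := by linarith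
      rw [div_lt_iff₀ hη] at g2
      rw [← mul_assoc, mul_one_div, div_le_iff₀ (by positivity)]
      linarith
    rw [h8] at h4
    linarith
  have hSγ : Cl (D.S γ) := by
    refine ⟨hSγ1, ?_⟩
    have h1 := D.S_ext0 he hγ
    have h2 : pM (E := E) e (extDeriv (cv μ D.ρ (D.A γ)) ∘ e) = 0 := by
      funext x
      ext v
      rw [pM_apply, Function.comp_apply, hzero x]
      rfl
    rwa [h2] at h1
  -- the contradiction
  obtain ⟨N, hN⟩ := hlim (1 / (4 * C₁)) (by positivity)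
  obtain ⟨N', hN'⟩ := exists_nat_gt (4 * (C₃ * C₂ + C₃))
  set n := max N N' with hn
  set m := φ n with hm
  have hφn : N' ≤ m := (le_max_right _ _).trans (hφ.id_le n)
  have z1 : Cl (D.S (α m) - α m - D.K (ξ m)) := by
    refine ⟨c1_sub (c1_sub (hc1 m) (hα m)) (D.K_c1 he (hξ m)), ?_⟩
    have h1 := (((hex m).sub (hd m) (hc1 m) (hα m)).sub (D.K_ext he (hξ m) (hd2 m))
      (c1_sub (hc1 m) (hα m)) (D.K_c1 he (hξ m)))
    rwa [sub_self] at h1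
  have z2 : Cl (D.S (D.S (α m)) - D.S (α m) - D.K (D.S (ξ m))) := by
    have hSS : IsEx (D.S (D.S (ξ m))) (D.S (D.S (α m))) := D.S_ext he (hc1 m) (hex m)
    have hcc : C1Form (D.S (D.S (α m))) := D.S_c1 he (c1_c0 (hc1 m))
    refine ⟨c1_sub (c1_sub hcc (hc1 m)) (D.K_c1 he (hc1' m)), ?_⟩
    have h1 := ((hSS.sub (hex m) hcc (hc1 m)).sub (D.K_ext he (hc1' m) (hex2 m))
      (c1_sub hcc (hc1 m)) (D.K_c1 he (hc1' m)))
    rwa [sub_self] at h1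
  refine hno m _ ((hSγ.sub z1).sub z2) ?_
  have e1 : α m - (D.S γ - (D.S (α m) - α m - D.K (ξ m)) -
      (D.S (D.S (α m)) - D.S (α m) - D.K (D.S (ξ m)))) =
      D.S (D.S (α m) - γ) - D.K (D.S (ξ m)) - D.K (ξ m) := by
    rw [D.S_sub (c1_c0 (hc1 m)) hγ]
    abel
  rw [e1]
  have b1 : Bd e (D.S (D.S (α m) - γ)) (C₁ * (1 / (4 * C₁))) :=
    (hS (by positivity) (hN n (le_max_left _ _))).2
  have b2 : Bd e (D.K (D.S (ξ m))) (C₃ * (C₂ * (1 / ((m : ℝ) + 1)))) :=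
    hK (by positivity) (hSξ m)
  have b3 : Bd e (D.K (ξ m)) (C₃ * (1 / ((m : ℝ) + 1))) := hK (hinv m) (hξb m)
  refine ((b1.sub b2).sub b3).mono ?_
  have g1 : (N' : ℝ) ≤ m := by exact_mod_cast hφn
  have g2 : C₁ * (1 / (4 * C₁)) = 1 / 4 := by field_simp
  have g3 : C₃ * (C₂ * (1 / ((m : ℝ) + 1))) + C₃ * (1 / ((m : ℝ) + 1)) ≤ 1 / 4 := by
    have g4 : C₃ * (C₂ * (1 / ((m : ℝ) + 1))) + C₃ * (1 / ((m : ℝ) + 1)) =
        (C₃ * C₂ + C₃) / ((m : ℝ) + 1) := by field_simp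
    rw [g4, div_le_iff₀ (by positivity)]
    linarith
  linarith

end Pool.Agent.H74.RS
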