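import Pool.Agent.H74.RS.Pe

set_option autoImplicit false
set_option linter.unusedSectionVars false

open scoped Manifold ContDiff Topology
open Set Filter

namespace Pool.Agent.H74.RS

open Pool.Agent.H721R2

theorem ratio2 {E : Type*} [NormedAddCommGroup E] [NormedSpace ℝ E] {u : ℕ} (P : Submodule ℝ E)
    (B : Module.Basis (Fin u) ℝ P)
    (T₁ T₂ : E [⋀^Fin u]→L[ℝ] ℝ) (v v' : Fin u → E) (hv : ∀ j, v j ∈ P) (hv' : ∀ j, v' j ∈ P) :
    T₁ v * T₂ v' = T₁ v' * T₂ v := by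
  let a : Fin u → P := fun j => ⟨v j, hv j⟩
  let a' : Fin u → P := fun j => ⟨v' j, hv' j⟩
  have key : ∀ (T : E [⋀^Fin u]→L[ℝ] ℝ) (c : Fin u → P), T (fun j => (c j : E)) =
      T (fun j => (B j : E)) * B.det c := by
    intro T c
    have h1 := (T.toAlternatingMap.compLinearMap P.subtype).eq_smul_basis_det B
    have h2 := congrArg (fun A : P [⋀^Fin u]→ₗ[ℝ] ℝ => A c) h1
    exact h2
  have k1 := key T₁ a
  have k2 := key T₂ a'
  have k3 := key T₁ a'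
  have k4 := key T₂ a
  have e1 : T₁ v = T₁ (fun j => (B j : E)) * B.det a := k1
  have e2 : T₂ v' = T₂ (fun j => (B j : E)) * B.det a' := k2
  have e3 : T₁ v' = T₁ (fun j => (B j : E)) * B.det a' := k3
  have e4 : T₂ v = T₂ (fun j => (B j : E)) * B.det a := k4
  rw [e1, e2, e3, e4]; ring

variable {E : Type*} [NormedAddCommGroup E] [NormedSpace ℝ E] [FiniteDimensional ℝ E]
  {M : Type*} [MetricSpace M] [CompactSpace M] [ChartedSpace E M] [IsManifold 𝓘(ℝ, E) 1 M]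
  {F : Type*} [NormedAddCommGroup F] [InnerProductSpace ℝ F] [FiniteDimensional ℝ F]

theorem form_compare {e : M → F} (he : ContMDiff 𝓘(ℝ, E) 𝓘(ℝ, F) 1 e)
    (hinj : ∀ x, Function.Injective (dm E e x))
    {f : M ≃ₜ M} {Es Eu : M → Submodule ℝ E} {C a b Ls Lu : ℝ}
    (h : EAnosov e f Es Eu C a b Ls Lu) {u : ℕ} (hu : ∀ x, Module.finrank ℝ (Eu x) = u)
    {w w' : M → E [⋀^Fin u]→L[ℝ] ℝ} (hw : C0Form w) (hw' : C0Form w')
    (hnz' : ∀ z, ∀ v : Fin u → E, (∀ j, v j ∈ Eu z) → LinearIndependent ℝ v → w' z v ≠ 0) :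
    ∃ K > 0, ∀ (z : M) (v : Fin u → E), (∀ j, v j ∈ Eu z) → |w z v| ≤ K * |w' z v| := by
  obtain ⟨c, hc, δ, hδ, hlb⟩ := form_lb he hinj h hw' isClosed_univ (fun z _ => hnz' z)
  obtain ⟨B, hB, hub⟩ := form_ub he hinj hw
  refine ⟨B / c, by positivity, fun z v hv => ?_⟩
  obtain ⟨p, hp, hpo⟩ := exists_frame (dm E e z) (hinj z) (Eu z) (hu z)
  have h1 := hlb z trivial p p hp hpo (fun j => by rw [sub_self, map_zero, norm_zero]; exact hδ.le)
  have h2 := hub z p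
  have h3 : ∏ j, ‖dm E e z (p j)‖ = 1 := Finset.prod_eq_one fun j _ => hpo.1 j
  rw [h3, mul_one] at h2
  have h4 := ratio2 (Eu z) (Module.finBasisOfFinrankEq ℝ (Eu z) (hu z)) (w z) (w' z) v p hv hp
  have h5 : |w z v| * |w' z p| = |w z p| * |w' z v| := by rw [← abs_mul, ← abs_mul, h4]
  have h6 : |w z v| * c ≤ B * |w' z v| := by
    calc |w z v| * c ≤ |w z v| * |w' z p| := mul_le_mul_of_nonneg_left h1 (abs_nonneg _)
      _ = |w z p| * |w' z v| := h5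
      _ ≤ B * |w' z v| := mul_le_mul_of_nonneg_right h2 (abs_nonneg _)
  rw [div_mul_eq_mul_div, le_div_iff₀ hc]
  exact h6

theorem VolExp.congr {e : M → F} (he : ContMDiff 𝓘(ℝ, E) 𝓘(ℝ, F) 1 e)
    (hinj : ∀ x, Function.Injective (dm E e x))
    {f : M ≃ₜ M} {Es Eu : M → Submodule ℝ E} {C a b Ls Lu : ℝ}
    (h : EAnosov e f Es Eu C a b Ls Lu) {u : ℕ} (hu : ∀ x, Module.finrank ℝ (Eu x) = u)
    {w w' : M → E [⋀^Fin u]→L[ℝ] ℝ} (hw : C0Form w) (hw' : C0Form w')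
    (hnz : ∀ z, ∀ v : Fin u → E, (∀ j, v j ∈ Eu z) → LinearIndependent ℝ v → w z v ≠ 0)
    (hnz' : ∀ z, ∀ v : Fin u → E, (∀ j, v j ∈ Eu z) → LinearIndependent ℝ v → w' z v ≠ 0)
    {J : ℝ} (hJ : VolExp f Eu w J) : VolExp f Eu w' J := by
  obtain ⟨hJ0, c, hc, hexp⟩ := hJ
  obtain ⟨K₁, hK₁, h1⟩ := form_compare he hinj h hu hw' hw hnz
  obtain ⟨K₂, hK₂, h2⟩ := form_compare he hinj h hu hw hw' hnz'
  refine ⟨hJ0, c / (K₁ * K₂), by positivity, fun m x v hv => ?_⟩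
  have h3 := h1 x v hv
  have h4 := h2 (f^[m] x) (fun i => dg E (f^[m]) x (v i)) (fun i => h.mapU m x _ (hv i))
  have h5 := hexp m x v hv
  have h6 : 0 < J ^ m := by positivity
  rw [div_mul_eq_mul_div, div_le_iff₀ (by positivity)]
  calc c * |w' x v| ≤ c * (K₁ * |w x v|) := mul_le_mul_of_nonneg_left h3 hc.le
    _ = K₁ * (c * |w x v|) := by ring
    _ ≤ K₁ * (J ^ m * |w (f^[m] x) (fun i => dg E (f^[m]) x (v i))|) :=
        mul_le_mul_of_nonneg_left h5 hK₁.le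
    _ ≤ K₁ * (J ^ m * (K₂ * |w' (f^[m] x) (fun i => dg E (f^[m]) x (v i))|)) := by
        apply mul_le_mul_of_nonneg_left _ hK₁.le
        exact mul_le_mul_of_nonneg_left h4 h6.le
    _ = _ := by ring

end Pool.Agent.H74.RS
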