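import Pool.Agent.H74.RS.Glob
import Pool.Agent.H74.G.R_pool_sql_team_seeded_3997aac3.Q70.AnB

set_option autoImplicit false
set_option linter.unusedSectionVars false

open scoped Manifold ContDiff Topology
open Set Filter MeasureTheory

namespace Pool.Agent.H74.RS

open Pool.Agent.H721R2 Pool.Agent.Y331.EP Q70.AnG

variable {E : Type*} [NormedAddCommGroup E] [NormedSpace ℝ E] [FiniteDimensional ℝ E]
  {M : Type*} [MetricSpace M] [CompactSpace M] [ChartedSpace E M] [IsManifold 𝓘(ℝ, E) 1 M]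
  {F : Type*} [NormedAddCommGroup F] [InnerProductSpace ℝ F] [FiniteDimensional ℝ F]
  {e : M → F} {f : M ≃ₜ M} {Es Eu : M → Submodule ℝ E} {C a b Ls Lu : ℝ} {k N₀ : ℕ}
  {S : HypSys M F}

/-- dynamical balls in a chart are measurable -/
theorem dynball_meas [MeasurableSpace E] [BorelSpace E] (g : M ≃ₜ M) (x₀ : M) {K : Set E}
    (hK : K ⊆ tg E x₀) (hKm : MeasurableSet K) (δ : ℝ) (z : M) (m : ℕ) :
    MeasurableSet {y' ∈ K | ∀ j ≤ m, dist (g^[j] z) (g^[j] (ic E x₀ y')) ≤ δ} := by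
  have hopen : ∀ j, IsOpen (tg E x₀ ∩ (fun y' => dist (g^[j] z) (g^[j] (ic E x₀ y'))) ⁻¹' Ioi δ) := by
    intro j
    apply ContinuousOn.isOpen_inter_preimage _ (isOpen_extChartAt_target x₀) isOpen_Ioi
    intro y' hy'
    have h1 : ContinuousAt (ic E x₀) y' := (ic_contMDiffAt (M := M) 1 x₀ hy').continuousAt
    have h2 : Continuous (g^[j]) := g.continuous.iterate j
    have h3 : ContinuousAt (fun y' => g^[j] (ic E x₀ y')) y' := h2.continuousAt.comp h1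
    have h4 : ContinuousAt (fun y' => dist (g^[j] z) (g^[j] (ic E x₀ y'))) y' := by fun_prop
    exact h4.continuousWithinAt
  have : {y' ∈ K | ∀ j ≤ m, dist (g^[j] z) (g^[j] (ic E x₀ y')) ≤ δ} =
      K \ ⋃ j ∈ Finset.range (m + 1),
        (tg E x₀ ∩ (fun y' => dist (g^[j] z) (g^[j] (ic E x₀ y'))) ⁻¹' Ioi δ) := by
    ext y'
    simp only [mem_ofPred_eq, Set.mem_sdiff, mem_iUnion, mem_inter_iff, mem_preimage, mem_Ioi,
      Finset.mem_range, Nat.lt_succ_iff, not_exists, not_and, not_lt]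
    constructor
    · rintro ⟨h1, h2⟩
      exact ⟨h1, fun j hj _ => h2 j hj⟩
    · rintro ⟨h1, h2⟩
      exact ⟨h1, fun j hj => h2 j hj (hK h1)⟩
  rw [this]
  apply hKm.diff
  apply Finset.measurableSet_biUnion
  intro j _
  exact (hopen j).measurableSet

theorem lintegral_biUnion_finset_le {α ι : Type*} [MeasurableSpace α] (μ : Measure α)
    (T : Finset ι) (K : ι → Set α) (D : α → ENNReal) :
    ∫⁻ y in ⋃ s ∈ T, K s, D y ∂μ ≤ ∑ s ∈ T, ∫⁻ y in K s, D y ∂μ := by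
  classical
  induction T using Finset.induction_on with
  | empty => simp
  | insert s T hs ih =>
    rw [Finset.set_biUnion_insert, Finset.sum_insert hs]
    exact (lintegral_union_le D _ _).trans (add_le_add le_rfl ih)

/-- local upper bound of the number of separated orbits -/
theorem count_upper_loc [IsManifold 𝓘(ℝ, E) 2 M] [MeasurableSpace E] [BorelSpace E]
    (ν : Measure E) [ν.IsAddHaarMeasure]
    (hS : Sys e f Es Eu C a b Ls Lu (k + 1) N₀ S) (hf2 : ContMDiff 𝓘(ℝ, E) 𝓘(ℝ, E) 2 f)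
    {w : M → E [⋀^Fin (k + 1)]→L[ℝ] ℝ} (hw : C0Form w)
    (hnz : ∀ z, ∀ v : Fin (k + 1) → E, (∀ j, v j ∈ Eu z) → LinearIndependent ℝ v → w z v ≠ 0)
    {J : ℝ} (hJ : VolExp f Eu w J) {lam σ : ℝ} (I : Incr e f k w lam σ) (hlam : lam ≠ 0)
    (hσ : σ * J < 1)
    {ε : ℝ} (hε : 0 < ε) (x₀ : M) :
    ∃ U ∈ 𝓝 x₀, ∃ A > 0, ∃ m₀ : ℕ, ∀ m ≥ m₀, (sN S.g U ε m : ℝ) ≤ A * (|lam| ^ N₀) ^ m := by
  obtain ⟨rF, C₂, hF⟩ := exists_frameBall hS.he hS.hinj hS.h hS.hu x₀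
  have hrF := hF.1
  let B : Module.Basis (Fin (k + 1)) ℝ (Eu x₀) := Module.finBasisOfFinrankEq ℝ (Eu x₀) (hS.hu x₀)
  set y₀ := extChartAt 𝓘(ℝ, E) x₀ x₀ with hy₀
  obtain ⟨R₁, hR₁, hR₁t⟩ := Metric.isOpen_iff.mp (isOpen_extChartAt_target (I := 𝓘(ℝ, E)) x₀) y₀
    (mem_extChartAt_target x₀)
  set R₀ := min R₁ (rF / 4) with hR₀
  have hR₀0 : 0 < R₀ := lt_min hR₁ (by positivity)
  have hR₀1 : R₀ ≤ R₁ := min_le_left _ _
  have hR₀2 : R₀ ≤ rF / 4 := min_le_right _ _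
  obtain ⟨c, hc, C', hC', N, hN⟩ := growth_lint ν hS.he hS.hinj hf2 hS.h hF B hw hnz hJ I hlam hσ
    (y₀ := y₀) (ρ₁ := R₀) (ρ₂ := 2 * R₀) hR₀0 (by linarith) (by
      intro y hy
      have h1 : dist y y₀ ≤ 2 * R₀ := hy
      show dist y y₀ < rF
      linarith)
  obtain ⟨A, hA, hlow⟩ := vol_lower ν hS x₀ B hw hnz hR₀0 (half_pos hε)
  refine ⟨(extChartAt 𝓘(ℝ, E) x₀).source ∩
    (extChartAt 𝓘(ℝ, E) x₀) ⁻¹' Metric.closedBall y₀ (1 / A), ?_, A * C', by positivity,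
    ⌈max A N⌉₊, ?_⟩
  · exact inter_mem (extChartAt_source_mem_nhds x₀)
      ((continuousAt_extChartAt x₀).preimage_mem_nhds (Metric.closedBall_mem_nhds _ (by positivity)))
  intro m hm
  have hmr : max A (N : ℝ) ≤ ((N₀ * m : ℕ) : ℝ) := by
    have h1 : max A (N : ℝ) ≤ (m : ℝ) := Nat.ceil_le.mp hm
    have h2 : m ≤ N₀ * m := Nat.le_mul_of_pos_left m hS.hN₀
    exact h1.trans (by exact_mod_cast h2)
  have hmA : A ≤ ((N₀ * m : ℕ) : ℝ) := (le_max_left _ _).trans hmr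
  have hmN : N ≤ N₀ * m := by
    have : (N : ℝ) ≤ ((N₀ * m : ℕ) : ℝ) := (le_max_right _ _).trans hmr
    exact_mod_cast this
  obtain ⟨T, hTU, hTs, hTc, -⟩ := sN_ex S.g ((extChartAt 𝓘(ℝ, E) x₀).source ∩
    (extChartAt 𝓘(ℝ, E) x₀) ⁻¹' Metric.closedBall y₀ (1 / A)) hε m
  rw [← hTc, ← pow_mul]
  set D : E → ENNReal := fun y =>
    ENNReal.ofReal |pl (f^[N₀ * m] ∘ ic E x₀) w y (fun j => (B j : E))| with hD
  let Kd : M → Set E := fun s => {y' ∈ Metric.ball y₀ R₀ |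
    ∀ j ≤ m, dist (S.g^[j] s) (S.g^[j] (ic E x₀ y')) ≤ ε / 2}
  have hbt : Metric.ball y₀ R₀ ⊆ tg E x₀ := (Metric.ball_subset_ball hR₀1).trans hR₁t
  have hKm : ∀ s ∈ T, MeasurableSet (Kd s) := fun s _ =>
    dynball_meas S.g x₀ hbt measurableSet_ball (ε / 2) s m
  have hKd : (T : Set M).Pairwise (Function.onFun Disjoint Kd) := by
    intro s hs s' hs' hne
    obtain ⟨t, ht, h1⟩ := hTs s hs s' hs' hne
    refine Set.disjoint_left.mpr fun y' hy hy' => ?_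
    have h2 := hy.2 t ht
    have h3 := hy'.2 t ht
    have := dist_triangle_right (S.g^[t] s) (S.g^[t] s') (S.g^[t] (ic E x₀ y'))
    linarith
  have hKl : ∀ s ∈ T, ENNReal.ofReal (1 / A) ≤ ∫⁻ y in Kd s, D y ∂ν := by
    intro s hs
    obtain ⟨h1, h2⟩ := hTU hs
    have h3 := hlow m hmA _ h2
    have h4 : ic E x₀ (extChartAt 𝓘(ℝ, E) x₀ s) = s := (extChartAt 𝓘(ℝ, E) x₀).left_inv h1
    rw [h4] at h3
    exact h3
  have h1 : (T.card : ENNReal) * ENNReal.ofReal (1 / A) ≤ ENNReal.ofReal (C' * |lam| ^ (N₀ * m)) := by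
    calc (T.card : ENNReal) * ENNReal.ofReal (1 / A) = ∑ s ∈ T, ENNReal.ofReal (1 / A) := by
          rw [Finset.sum_const, nsmul_eq_mul]
      _ ≤ ∑ s ∈ T, ∫⁻ y in Kd s, D y ∂ν := Finset.sum_le_sum hKl
      _ = ∫⁻ y in ⋃ s ∈ T, Kd s, D y ∂ν := (lintegral_biUnion_finset hKd hKm D).symm
      _ ≤ ∫⁻ y in Metric.closedBall y₀ R₀, D y ∂ν := by
          apply lintegral_mono_set
          intro y hy
          simp only [mem_iUnion] at hy
          obtain ⟨s, _, hy⟩ := hy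
          exact Metric.ball_subset_closedBall hy.1
      _ ≤ _ := (hN (N₀ * m) hmN).2
  rw [← ENNReal.ofReal_natCast, ← ENNReal.ofReal_mul (Nat.cast_nonneg _),
    ENNReal.ofReal_le_ofReal_iff (by positivity)] at h1
  rw [mul_one_div, div_le_iff₀ hA] at h1
  linarith

/-- upper bound of the number of separated orbits -/
theorem count_upper [IsManifold 𝓘(ℝ, E) 2 M] [MeasurableSpace E] [BorelSpace E]
    (ν : Measure E) [ν.IsAddHaarMeasure]
    (hS : Sys e f Es Eu C a b Ls Lu (k + 1) N₀ S) (hf2 : ContMDiff 𝓘(ℝ, E) 𝓘(ℝ, E) 2 f)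
    {w : M → E [⋀^Fin (k + 1)]→L[ℝ] ℝ} (hw : C0Form w)
    (hnz : ∀ z, ∀ v : Fin (k + 1) → E, (∀ j, v j ∈ Eu z) → LinearIndependent ℝ v → w z v ≠ 0)
    {J : ℝ} (hJ : VolExp f Eu w J) {lam σ : ℝ} (I : Incr e f k w lam σ) (hlam : lam ≠ 0)
    (hσ : σ * J < 1)
    {ε : ℝ} (hε : 0 < ε) :
    ∃ A > 0, ∀ m : ℕ, (sN S.g univ ε m : ℝ) ≤ A * (|lam| ^ N₀) ^ m := by
  classical
  have hμ : 0 < |lam| ^ N₀ := pow_pos (abs_pos.mpr hlam) _
  choose U hU A hA m₀ hm₀ using fun x₀ => count_upper_loc ν hS hf2 hw hnz hJ I hlam hσ hε x₀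
  obtain ⟨t, ht⟩ := isCompact_univ.elim_nhds_subcover U fun x _ => hU x
  have hsum : ∀ m, sN S.g univ ε m ≤ ∑ x ∈ t, sN S.g (U x) ε m := by
    intro m
    obtain ⟨T, -, hTs, hTc, -⟩ := sN_ex S.g univ hε m
    rw [← hTc]
    have h1 : T ⊆ t.biUnion fun x => T.filter (· ∈ U x) := by
      intro y hy
      have h2 := ht.2 (mem_univ y)
      simp only [mem_iUnion] at h2
      obtain ⟨x, hx, hyx⟩ := h2
      exact Finset.mem_biUnion.mpr ⟨x, hx, Finset.mem_filter.mpr ⟨hy, hyx⟩⟩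
    refine (Finset.card_le_card h1).trans (Finset.card_biUnion_le.trans ?_)
    apply Finset.sum_le_sum
    intro x _
    refine le_sN hε (fun y hy => (Finset.mem_filter.mp hy).2) ?_
    intro z hz z' hz' hne
    exact hTs z (Finset.mem_filter.mp hz).1 z' (Finset.mem_filter.mp hz').1 hne
  set m₁ := ∑ x ∈ t, m₀ x with hm₁
  have hm₁le : ∀ x ∈ t, m₀ x ≤ m₁ := fun x hx => Finset.single_le_sum (fun _ _ => Nat.zero_le _) hx
  refine ⟨(∑ x ∈ t, A x + 1) * (|lam| ^ N₀) ^ m₁, ?_, fun m => ?_⟩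
  · have h1 : 0 ≤ ∑ x ∈ t, A x := Finset.sum_nonneg fun x _ => (hA x).le
    positivity
  calc (sN S.g univ ε m : ℝ) ≤ (sN S.g univ ε (m + m₁) : ℝ) := by
        exact_mod_cast sN_mono (g := S.g) (Subset.refl univ) hε (Nat.le_add_right m m₁) le_rfl
    _ ≤ ∑ x ∈ t, (sN S.g (U x) ε (m + m₁) : ℝ) := by exact_mod_cast hsum (m + m₁)
    _ ≤ ∑ x ∈ t, A x * (|lam| ^ N₀) ^ (m + m₁) := by
        apply Finset.sum_le_sum
        intro x hx
        exact hm₀ x (m + m₁) ((hm₁le x hx).trans (Nat.le_add_left _ _))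
    _ = (∑ x ∈ t, A x) * ((|lam| ^ N₀) ^ m₁ * (|lam| ^ N₀) ^ m) := by
        rw [← Finset.sum_mul, pow_add, mul_comm ((|lam| ^ N₀) ^ m)]
    _ ≤ (∑ x ∈ t, A x + 1) * ((|lam| ^ N₀) ^ m₁ * (|lam| ^ N₀) ^ m) := by
        apply mul_le_mul_of_nonneg_right (by linarith) (by positivity)
    _ = _ := by ring

/-- lower bound of the number of separated orbits in an open set -/
theorem count_lower [IsManifold 𝓘(ℝ, E) 2 M] [MeasurableSpace E] [BorelSpace E]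
    (ν : Measure E) [ν.IsAddHaarMeasure]
    (hS : Sys e f Es Eu C a b Ls Lu (k + 1) N₀ S) (hf2 : ContMDiff 𝓘(ℝ, E) 𝓘(ℝ, E) 2 f)
    {w : M → E [⋀^Fin (k + 1)]→L[ℝ] ℝ} (hw : C0Form w)
    (hnz : ∀ z, ∀ v : Fin (k + 1) → E, (∀ j, v j ∈ Eu z) → LinearIndependent ℝ v → w z v ≠ 0)
    {J : ℝ} (hJ : VolExp f Eu w J) {lam σ : ℝ} (I : Incr e f k w lam σ) (hlam : lam ≠ 0)
    (hσ : σ * J < 1)
    (x₀ : M) :
    ∃ ε₀ > 0, ∀ ε > 0, ε < ε₀ → ∀ U ∈ 𝓝 x₀, ∃ c > 0, ∀ m : ℕ,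
      c * (|lam| ^ N₀) ^ m ≤ (sN S.g U ε m : ℝ) := by
  have hμ : 0 < |lam| ^ N₀ := pow_pos (abs_pos.mpr hlam) _
  obtain ⟨rF, C₂, hF⟩ := exists_frameBall hS.he hS.hinj hS.h hS.hu x₀
  have hrF := hF.1
  let B : Module.Basis (Fin (k + 1)) ℝ (Eu x₀) := Module.finBasisOfFinrankEq ℝ (Eu x₀) (hS.hu x₀)
  set y₀ := extChartAt 𝓘(ℝ, E) x₀ x₀ with hy₀
  obtain ⟨A, hA, hup⟩ := vol_upper ν hS x₀ B hw
  refine ⟨1 / (2 * A), by positivity, fun ε hε hεA U hU => ?_⟩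
  have hε2 : 2 * ε < 1 / A := by
    rw [lt_div_iff₀ (by positivity)] at hεA ⊢
    linarith
  have htgt : tg E x₀ ∈ 𝓝 y₀ :=
    (isOpen_extChartAt_target (I := 𝓘(ℝ, E)) x₀).mem_nhds (mem_extChartAt_target x₀)
  have hy₀t : y₀ ∈ tg E x₀ := mem_extChartAt_target x₀
  have hcont : ContinuousAt (ic E x₀) y₀ := (ic_contMDiffAt (M := M) 1 x₀ hy₀t).continuousAt
  have hicy : ic E x₀ y₀ = x₀ := extChartAt_to_inv x₀
  have hpre : (ic E x₀) ⁻¹' U ∈ 𝓝 y₀ := hcont.preimage_mem_nhds (by rw [hicy]; exact hU)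
  obtain ⟨R₁, hR₁, hR₁t⟩ := Metric.mem_nhds_iff.mp (inter_mem htgt hpre)
  set R := min (min R₁ rF) (1 / A) with hR
  have hR0 : 0 < R := lt_min (lt_min hR₁ hrF) (by positivity)
  have hRR₁ : R ≤ R₁ := (min_le_left _ _).trans (min_le_left _ _)
  have hRrF : R ≤ rF := (min_le_left _ _).trans (min_le_right _ _)
  have hRA : R ≤ 1 / A := min_le_right _ _
  have hcb : Metric.closedBall y₀ (R / 2) ⊆ Metric.ball y₀ R :=
    Metric.closedBall_subset_ball (by linarith)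
  obtain ⟨c, hc, C', hC', N, hN⟩ := growth_lint ν hS.he hS.hinj hf2 hS.h hF B hw hnz hJ I hlam hσ
    (y₀ := y₀) (ρ₁ := R / 4) (ρ₂ := R / 2) (by positivity) (by linarith)
    (hcb.trans (Metric.ball_subset_ball hRrF))
  have hcbt : Metric.closedBall y₀ (R / 2) ⊆ tg E x₀ := fun y hy =>
    (hR₁t (Metric.ball_subset_ball hRR₁ (hcb hy))).1
  have hcbU : ∀ y ∈ Metric.closedBall y₀ (R / 2), ic E x₀ y ∈ U := fun y hy =>
    (hR₁t (Metric.ball_subset_ball hRR₁ (hcb hy))).2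
  -- large times
  have hlarge : ∀ m ≥ ⌈max A N⌉₊, c / A * (|lam| ^ N₀) ^ m ≤ (sN S.g U ε m : ℝ) := by
    intro m hm
    have hmr : max A (N : ℝ) ≤ ((N₀ * m : ℕ) : ℝ) := by
      have h1 : max A (N : ℝ) ≤ (m : ℝ) := Nat.ceil_le.mp hm
      have h2 : m ≤ N₀ * m := Nat.le_mul_of_pos_left m hS.hN₀
      exact h1.trans (by exact_mod_cast h2)
    have hmA : A ≤ ((N₀ * m : ℕ) : ℝ) := (le_max_left _ _).trans hmr
    have hmN : N ≤ N₀ * m := by
      have : (N : ℝ) ≤ ((N₀ * m : ℕ) : ℝ) := (le_max_right _ _).trans hmr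
      exact_mod_cast this
    obtain ⟨T, hTU, hTs, hTc, hTsp⟩ := sN_ex S.g U hε m
    rw [← hTc, ← pow_mul]
    set D : E → ENNReal := fun y =>
      ENNReal.ofReal |pl (f^[N₀ * m] ∘ ic E x₀) w y (fun j => (B j : E))| with hD
    let Kd : M → Set E := fun s => {y' ∈ Metric.closedBall y₀ (R / 2) |
      ∀ j ≤ m, dist (S.g^[j] s) (S.g^[j] (ic E x₀ y')) ≤ ε}
    have hKm : ∀ s, MeasurableSet (Kd s) := fun s =>
      dynball_meas S.g x₀ hcbt measurableSet_closedBall ε s m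
    have hKu : ∀ s, ∫⁻ y in Kd s, D y ∂ν ≤ ENNReal.ofReal A := by
      intro s
      apply hup m hmA (Kd s) (hKm s)
      · intro y hy
        exact Metric.ball_subset_ball hRA (hcb hy.1)
      · intro y hy y' hy' j hj
        have h1 := hy.2 j hj
        have h2 := hy'.2 j hj
        have := dist_triangle_left (S.g^[j] (ic E x₀ y)) (S.g^[j] (ic E x₀ y')) (S.g^[j] s)
        linarith
    have h1 : ENNReal.ofReal (c * |lam| ^ (N₀ * m)) ≤ (T.card : ENNReal) * ENNReal.ofReal A := by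
      calc ENNReal.ofReal (c * |lam| ^ (N₀ * m)) ≤ ∫⁻ y in Metric.closedBall y₀ (R / 2), D y ∂ν :=
            (hN (N₀ * m) hmN).1
        _ ≤ ∫⁻ y in ⋃ s ∈ T, Kd s, D y ∂ν := by
            apply lintegral_mono_set
            intro y hy
            obtain ⟨s, hs, h2⟩ := hTsp _ (hcbU y hy)
            simp only [mem_iUnion]
            exact ⟨s, hs, hy, fun j hj => by rw [dist_comm]; exact h2 j hj⟩
        _ ≤ ∑ s ∈ T, ∫⁻ y in Kd s, D y ∂ν := by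
            exact lintegral_biUnion_finset_le ν T Kd D
        _ ≤ ∑ s ∈ T, ENNReal.ofReal A := Finset.sum_le_sum fun s _ => hKu s
        _ = _ := by rw [Finset.sum_const, nsmul_eq_mul]
    rw [← ENNReal.ofReal_natCast, ← ENNReal.ofReal_mul (Nat.cast_nonneg _),
      ENNReal.ofReal_le_ofReal_iff (by positivity)] at h1
    rw [div_mul_eq_mul_div, div_le_iff₀ hA]
    exact h1
  set m₀ := ⌈max A N⌉₊ with hm₀
  set Q := ∑ j ∈ Finset.range m₀, (|lam| ^ N₀) ^ j + 1 with hQ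
  have hsum0 : 0 ≤ ∑ j ∈ Finset.range m₀, (|lam| ^ N₀) ^ j :=
    Finset.sum_nonneg fun j _ => by positivity
  have hQ0 : 0 < Q := by linarith
  refine ⟨min (c / A) (1 / Q), lt_min (by positivity) (by positivity), fun m => ?_⟩
  by_cases hm : m₀ ≤ m
  · exact (mul_le_mul_of_nonneg_right (min_le_left _ _) (by positivity)).trans (hlarge m hm)
  · have h1 : (|lam| ^ N₀) ^ m ≤ Q := by
      have h2 : (|lam| ^ N₀) ^ m ≤ ∑ j ∈ Finset.range m₀, (|lam| ^ N₀) ^ j :=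
        Finset.single_le_sum (f := fun j => (|lam| ^ N₀) ^ j) (fun j _ => by positivity)
          (Finset.mem_range.mpr (not_le.mp hm))
      linarith
    have h3 : (1 : ℝ) ≤ (sN S.g U ε m : ℝ) := by
      exact_mod_cast sN_pos S.g (U := U) ⟨x₀, mem_of_mem_nhds hU⟩ hε m
    refine le_trans ?_ h3
    calc min (c / A) (1 / Q) * (|lam| ^ N₀) ^ m ≤ 1 / Q * Q :=
          mul_le_mul (min_le_right _ _) h1 (by positivity) (by positivity)
      _ = 1 := by field_simp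

end Pool.Agent.H74.RS
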