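import Pool.Agent.H74.RS.Pull

set_option autoImplicit false
set_option linter.unusedSectionVars false

open scoped Manifold ContDiff Topology Polynomial
open Set Filter Polynomial

namespace Pool.Agent.H74.RS

open Pool.Agent.H721R2

variable {E : Type*} [NormedAddCommGroup E] [NormedSpace ℝ E] [FiniteDimensional ℝ E]
  {M : Type*} [MetricSpace M] [CompactSpace M] [ChartedSpace E M]
  [IsManifold 𝓘(ℝ, E) 1 M] [IsManifold 𝓘(ℝ, E) 2 M]
  {F : Type*} [NormedAddCommGroup F] [InnerProductSpace ℝ F] [FiniteDimensional ℝ F]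

/-- The pull-backs of `ζ` are, up to exact forms, of size `σⁿ`. -/
def Dec (e : M → F) (f : M → M) {k : ℕ} (σ : ℝ) (ζ : M → E [⋀^Fin (k + 1)]→L[ℝ] ℝ) : Prop :=
  ∃ (ε : ℕ → M → E [⋀^Fin (k + 1)]→L[ℝ] ℝ) (β : ℕ → ℕ → M → E [⋀^Fin k]→L[ℝ] ℝ) (B : ℝ),
    0 < B ∧ (∀ n, C0Form (ε n)) ∧ (∀ n j, C1Form (β n j)) ∧
    (∀ n z v, |ε n z v| ≤ B * σ ^ n * ∏ j, ‖dm E e z (v j)‖) ∧
    (∀ n, ∀ j ≤ n, ∀ z v, |β n j z v| ≤ B * σ ^ (n - j) * ∏ i, ‖dm E e z (v i)‖) ∧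
    ∀ n (x₀ : M), ∀ y ∈ tg E x₀, pl (f^[n] ∘ ic E x₀) ζ y = pl (ic E x₀) (ε n) y +
      ∑ j ∈ Finset.range (n + 1), extDeriv (pl (f^[j] ∘ ic E x₀) (β n j)) y

theorem dec_exact {e : M → F} (he : ContMDiff 𝓘(ℝ, E) 𝓘(ℝ, F) 1 e)
    (hinj : ∀ x, Function.Injective (dm E e x)) {f : M → M}
    (hf : ContMDiff 𝓘(ℝ, E) 𝓘(ℝ, E) 2 f) {k : ℕ} {σ : ℝ} (hσ : 0 < σ)
    {ζ : M → E [⋀^Fin (k + 1)]→L[ℝ] ℝ} {β : M → E [⋀^Fin k]→L[ℝ] ℝ} (hβ : C1Form β)
    (h : IsEx ζ β) : Dec e f σ ζ := by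
  obtain ⟨B, hB, hB'⟩ := form_ub he hinj (c1_c0 hβ)
  refine ⟨fun _ => 0, fun n j => if j = n then β else 0, B, hB, fun n => c0_zero, ?_, ?_, ?_, ?_⟩
  · intro n j
    by_cases hj : j = n
    · simp only [hj, if_true]; exact hβ
    · simp only [hj, if_false]; exact c1_zero
  · intro n z v
    have hP : 0 ≤ ∏ j, ‖dm E e z (v j)‖ := Finset.prod_nonneg fun _ _ => norm_nonneg _
    have : |(0 : M → E [⋀^Fin (k + 1)]→L[ℝ] ℝ) z v| = 0 := by
      show |(0 : ℝ)| = 0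
      exact abs_zero
    rw [this]
    positivity
  · intro n j hj z v
    have hP : 0 ≤ ∏ j, ‖dm E e z (v j)‖ := Finset.prod_nonneg fun _ _ => norm_nonneg _
    by_cases hjn : j = n
    · simp only [hjn, if_true, Nat.sub_self, pow_zero, mul_one]
      exact hB' z v
    · simp only [hjn, if_false]
      have : |(0 : M → E [⋀^Fin k]→L[ℝ] ℝ) z v| = 0 := by
        show |(0 : ℝ)| = 0
        exact abs_zero
      rw [this]
      positivity
  · intro n x₀ y hy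
    rw [h.pull hβ _ (iter_smooth2' f hf n) x₀ hy, Finset.sum_eq_single n]
    · simp only [if_true]
      rw [pl_zero, zero_add]
    · intro j _ hjn
      simp only [hjn, if_false]
      have h0 := extDeriv_smul (x := y) (0 : ℝ)
        (pl (f^[j] ∘ ic E x₀) (0 : M → E [⋀^Fin k]→L[ℝ] ℝ))
      have e0 : (0 : ℝ) • (pl (f^[j] ∘ ic E x₀) (0 : M → E [⋀^Fin k]→L[ℝ] ℝ)) =
          pl (f^[j] ∘ ic E x₀) (0 : M → E [⋀^Fin k]→L[ℝ] ℝ) := by
        funext y; exact zero_smul ℝ _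
      rw [e0, zero_smul] at h0
      exact h0
    · intro hn
      exact absurd (Finset.mem_range.mpr (Nat.lt_succ_self n)) hn

theorem geo_bound {a σ : ℝ} (ha : 0 ≤ a) (haσ : a < σ) (n : ℕ) :
    ∑ i ∈ Finset.range n, a ^ (n - 1 - i) * σ ^ i ≤ σ ^ n / (σ - a) := by
  rw [le_div_iff₀ (by linarith)]
  have h1 := geom_sum₂_mul σ a n
  have h2 : ∑ i ∈ Finset.range n, a ^ (n - 1 - i) * σ ^ i =
      ∑ i ∈ Finset.range n, σ ^ i * a ^ (n - 1 - i) :=
    Finset.sum_congr rfl fun i _ => mul_comm _ _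
  rw [h2, h1]
  have : 0 ≤ a ^ n := by positivity
  linarith

/-- unrolling a triangular recursion -/
theorem unroll {f : M → M} (hf : ContMDiff 𝓘(ℝ, E) 𝓘(ℝ, E) 2 f) {k : ℕ} (ρ : ℝ)
    {ζ ζ' : M → E [⋀^Fin k]→L[ℝ] ℝ} (h : pb f ζ = ρ • ζ + ζ') (n : ℕ) (x₀ : M)
    {y : E} (hy : y ∈ tg E x₀) : pl (f^[n] ∘ ic E x₀) ζ y = ρ ^ n • pl (ic E x₀) ζ y +
      ∑ i ∈ Finset.range n, ρ ^ (n - 1 - i) • pl (f^[i] ∘ ic E x₀) ζ' y := by
  have hf1 : ContMDiff 𝓘(ℝ, E) 𝓘(ℝ, E) 1 f := hf.of_le (by norm_num)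
  induction n with
  | zero => simp
  | succ n ih =>
    rw [Function.iterate_succ', pl_pb' f (f^[n]) hf1 (iter_smooth f hf1 n) ζ x₀ hy, h, pl_add,
      pl_smul, ih, Finset.sum_range_succ, smul_add, smul_smul, ← pow_succ', Finset.smul_sum]
    have e1 : n + 1 - 1 - n = 0 := by omega
    rw [e1, pow_zero, one_smul, ← add_assoc]
    congr 2
    apply Finset.sum_congr rfl
    intro i hi
    have hi' := Finset.mem_range.mp hi
    rw [smul_smul, ← pow_succ']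
    congr 2
    omega

theorem extDeriv_sum {ι : Type*} {k : ℕ} (s : Finset ι) (p : ι → ℝ)
    (g : ι → E → E [⋀^Fin k]→L[ℝ] ℝ) {y : E} (hg : ∀ i, DifferentiableAt ℝ (g i) y) :
    extDeriv (fun y => ∑ i ∈ s, p i • g i y) y = ∑ i ∈ s, p i • extDeriv (g i) y := by
  classical
  induction s using Finset.induction_on with
  | empty =>
    simp only [Finset.sum_empty]
    have h0 := extDeriv_fun_smul (x := y) (0 : ℝ) (fun _ : E => (0 : E [⋀^Fin k]→L[ℝ] ℝ))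
    have e0 : (0 : ℝ) • (fun _ : E => (0 : E [⋀^Fin k]→L[ℝ] ℝ)) = fun _ => 0 := by
      funext y; exact zero_smul ℝ _
    rw [e0, zero_smul] at h0
    exact h0
  | insert i s hi ih =>
    simp only [Finset.sum_insert hi]
    have h1 : DifferentiableAt ℝ (fun y => p i • g i y) y := (hg i).const_smul (p i)
    have h2 : DifferentiableAt ℝ (fun y => ∑ i ∈ s, p i • g i y) y :=
      DifferentiableAt.fun_sum fun i _ => (hg i).const_smul (p i)
    rw [extDeriv_fun_add h1 h2, ih]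
    congr 1
    exact extDeriv_fun_smul (p i) (g i)

theorem dec_step {e : M → F} (he : ContMDiff 𝓘(ℝ, E) 𝓘(ℝ, F) 1 e)
    (hinj : ∀ x, Function.Injective (dm E e x)) {f : M → M}
    (hf : ContMDiff 𝓘(ℝ, E) 𝓘(ℝ, E) 2 f) {k : ℕ} {ρ σ : ℝ} (hρ : |ρ| < σ)
    {ζ ζ' : M → E [⋀^Fin (k + 1)]→L[ℝ] ℝ} (hζ : C0Form ζ) (h : pb f ζ = ρ • ζ + ζ')
    (hd : Dec e f σ ζ') : Dec e f σ ζ := by
  classical
  have hσ0 : 0 < σ := (abs_nonneg ρ).trans_lt hρ
  have hσρ : 0 < σ - |ρ| := by linarith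
  obtain ⟨B₀, hB₀, hB₀'⟩ := form_ub he hinj hζ
  obtain ⟨ε, β, B, hB, hε, hβ, hεb, hβb, heq⟩ := hd
  refine ⟨fun n => ρ ^ n • ζ + ∑ i ∈ Finset.range n, ρ ^ (n - 1 - i) • ε i,
    fun n j => ∑ i ∈ Finset.range n, (if j ≤ i then ρ ^ (n - 1 - i) else 0) • β i j,
    B₀ + B / (σ - |ρ|), by positivity, ?_, ?_, ?_, ?_, ?_⟩
  · intro n
    exact c0_add (c0_smul _ hζ) (c0_sum _ fun i _ => c0_smul _ (hε i))
  · intro n j
    exact c1_sum _ fun i _ => c1_smul _ (hβ i j)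
  · intro n z v
    have hP : 0 ≤ ∏ j, ‖dm E e z (v j)‖ := Finset.prod_nonneg fun _ _ => norm_nonneg _
    set Pz := ∏ j, ‖dm E e z (v j)‖ with hPz
    have h1 : (ρ ^ n • ζ + ∑ i ∈ Finset.range n, ρ ^ (n - 1 - i) • ε i) z v =
        ρ ^ n * ζ z v + ∑ i ∈ Finset.range n, ρ ^ (n - 1 - i) * ε i z v := by
      simp only [Pi.add_apply, Pi.smul_apply, Finset.sum_apply,
        ContinuousAlternatingMap.add_apply, ContinuousAlternatingMap.smul_apply,
        ContinuousAlternatingMap.sum_apply, smul_eq_mul]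
    rw [h1]
    have h2 : |ρ ^ n * ζ z v| ≤ σ ^ n * (B₀ * Pz) := by
      rw [abs_mul, abs_pow]
      exact mul_le_mul (pow_le_pow_left₀ (abs_nonneg _) hρ.le n) (hB₀' z v) (abs_nonneg _)
        (by positivity)
    have h3 : |∑ i ∈ Finset.range n, ρ ^ (n - 1 - i) * ε i z v| ≤
        (σ ^ n / (σ - |ρ|)) * (B * Pz) := by
      calc |∑ i ∈ Finset.range n, ρ ^ (n - 1 - i) * ε i z v|
          ≤ ∑ i ∈ Finset.range n, |ρ ^ (n - 1 - i) * ε i z v| := Finset.abs_sum_le_sum_abs _ _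
        _ ≤ ∑ i ∈ Finset.range n, (|ρ| ^ (n - 1 - i) * σ ^ i) * (B * Pz) := by
            apply Finset.sum_le_sum
            intro i _
            rw [abs_mul, abs_pow]
            calc |ρ| ^ (n - 1 - i) * |ε i z v| ≤ |ρ| ^ (n - 1 - i) * (B * σ ^ i * Pz) :=
                  mul_le_mul_of_nonneg_left (hεb i z v) (by positivity)
              _ = _ := by ring
        _ = (∑ i ∈ Finset.range n, (|ρ| ^ (n - 1 - i) * σ ^ i)) * (B * Pz) := by
            rw [Finset.sum_mul]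
        _ ≤ _ := mul_le_mul_of_nonneg_right (geo_bound (abs_nonneg _) hρ n) (by positivity)
    calc |ρ ^ n * ζ z v + ∑ i ∈ Finset.range n, ρ ^ (n - 1 - i) * ε i z v|
        ≤ |ρ ^ n * ζ z v| + |∑ i ∈ Finset.range n, ρ ^ (n - 1 - i) * ε i z v| := abs_add_le _ _
      _ ≤ σ ^ n * (B₀ * Pz) + (σ ^ n / (σ - |ρ|)) * (B * Pz) := add_le_add h2 h3
      _ = (B₀ + B / (σ - |ρ|)) * σ ^ n * Pz := by ring
  · intro n j hj z v
    have hP : 0 ≤ ∏ i, ‖dm E e z (v i)‖ := Finset.prod_nonneg fun _ _ => norm_nonneg _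
    set Pz := ∏ i, ‖dm E e z (v i)‖ with hPz
    have h1 : (∑ i ∈ Finset.range n, (if j ≤ i then ρ ^ (n - 1 - i) else 0) • β i j) z v =
        ∑ i ∈ Finset.range n, (if j ≤ i then ρ ^ (n - 1 - i) else 0) * β i j z v := by
      simp only [Pi.smul_apply, Finset.sum_apply, ContinuousAlternatingMap.smul_apply,
        ContinuousAlternatingMap.sum_apply, smul_eq_mul]
    rw [h1]
    have hσj : σ ^ n = σ ^ j * σ ^ (n - j) := by rw [← pow_add]; congr 1; omega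
    have h3 : |∑ i ∈ Finset.range n, (if j ≤ i then ρ ^ (n - 1 - i) else 0) * β i j z v| ≤
        (σ ^ (n - j) / (σ - |ρ|)) * (B * Pz) := by
      calc |∑ i ∈ Finset.range n, (if j ≤ i then ρ ^ (n - 1 - i) else 0) * β i j z v|
          ≤ ∑ i ∈ Finset.range n, |(if j ≤ i then ρ ^ (n - 1 - i) else 0) * β i j z v| :=
            Finset.abs_sum_le_sum_abs _ _
        _ ≤ ∑ i ∈ Finset.range n, (|ρ| ^ (n - 1 - i) * σ ^ i) * ((σ ^ j)⁻¹ * (B * Pz)) := by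
            apply Finset.sum_le_sum
            intro i _
            by_cases hji : j ≤ i
            · rw [if_pos hji, abs_mul, abs_pow]
              have e1 : σ ^ i = σ ^ j * σ ^ (i - j) := by rw [← pow_add]; congr 1; omega
              calc |ρ| ^ (n - 1 - i) * |β i j z v| ≤ |ρ| ^ (n - 1 - i) * (B * σ ^ (i - j) * Pz) :=
                    mul_le_mul_of_nonneg_left (hβb i j hji z v) (by positivity)
                _ = _ := by rw [e1]; field_simp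
            · rw [if_neg hji, zero_mul, abs_zero]
              positivity
        _ = (∑ i ∈ Finset.range n, (|ρ| ^ (n - 1 - i) * σ ^ i)) * ((σ ^ j)⁻¹ * (B * Pz)) := by
            rw [Finset.sum_mul]
        _ ≤ (σ ^ n / (σ - |ρ|)) * ((σ ^ j)⁻¹ * (B * Pz)) :=
            mul_le_mul_of_nonneg_right (geo_bound (abs_nonneg _) hρ n) (by positivity)
        _ = _ := by rw [hσj]; field_simp
    refine h3.trans ?_
    calc (σ ^ (n - j) / (σ - |ρ|)) * (B * Pz) = (B / (σ - |ρ|)) * (σ ^ (n - j) * Pz) := by ring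
      _ ≤ (B₀ + B / (σ - |ρ|)) * (σ ^ (n - j) * Pz) := by
          apply mul_le_mul_of_nonneg_right _ (by positivity)
          linarith
      _ = _ := by ring
  · intro n x₀ y hy
    rw [unroll hf ρ h n x₀ hy, pl_add, pl_smul, pl_sum, add_assoc]
    congr 1
    have h1 : ∀ j, extDeriv (pl (f^[j] ∘ ic E x₀)
        (∑ i ∈ Finset.range n, (if j ≤ i then ρ ^ (n - 1 - i) else 0) • β i j)) y =
        ∑ i ∈ Finset.range n, (if j ≤ i then ρ ^ (n - 1 - i) else 0) •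
          extDeriv (pl (f^[j] ∘ ic E x₀) (β i j)) y := by
      intro j
      have h2 : pl (f^[j] ∘ ic E x₀)
        (∑ i ∈ Finset.range n, (if j ≤ i then ρ ^ (n - 1 - i) else 0) • β i j) =
        fun y => ∑ i ∈ Finset.range n, (if j ≤ i then ρ ^ (n - 1 - i) else 0) •
          pl (f^[j] ∘ ic E x₀) (β i j) y := by
        funext y'
        rw [pl_sum]
        rfl
      rw [h2]
      exact extDeriv_sum _ _ _ fun i => pl_differentiableAt _ (iter_smooth2' f hf j) (hβ i j) x₀ hy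
    simp only [h1]
    rw [Finset.sum_comm, ← Finset.sum_add_distrib]
    apply Finset.sum_congr rfl
    intro i hi
    have hi' := Finset.mem_range.mp hi
    rw [heq i x₀ y hy, smul_add, pl_smul, Finset.smul_sum]
    congr 1
    have h5 : Finset.range (i + 1) ⊆ Finset.range (n + 1) := by
      intro j hj
      rw [Finset.mem_range] at hj ⊢
      omega
    rw [← Finset.sum_subset h5]
    · apply Finset.sum_congr rfl
      intro j hj
      rw [if_pos (Nat.lt_succ_iff.mp (Finset.mem_range.mp hj))]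
    · intro j _ hj
      rw [Finset.mem_range, not_lt] at hj
      rw [if_neg (by omega), zero_smul]

/-- Forms annihilated by `∏ (f^* - ρ)` modulo exact forms. -/
theorem dec_list {e : M → F} (he : ContMDiff 𝓘(ℝ, E) 𝓘(ℝ, F) 1 e)
    (hinj : ∀ x, Function.Injective (dm E e x)) {f : M → M}
    (hf : ContMDiff 𝓘(ℝ, E) 𝓘(ℝ, E) 2 f) {k : ℕ} {σ : ℝ} (hσ : 0 < σ) (L : List ℝ)
    (hL : ∀ ρ ∈ L, |ρ| < σ) {β : M → E [⋀^Fin k]→L[ℝ] ℝ} (hβ : C1Form β) :
    ∀ {ζ : M → E [⋀^Fin (k + 1)]→L[ℝ] ℝ}, C0Form ζ →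
    IsEx ((aeval (T (k + 1) f) (L.map fun ρ => X - C ρ).prod) ζ) β → Dec e f σ ζ := by
  have hf1 : ContMDiff 𝓘(ℝ, E) 𝓘(ℝ, E) 1 f := hf.of_le (by norm_num)
  induction L with
  | nil =>
    intro ζ _ h
    rw [List.map_nil, List.prod_nil, map_one, Module.End.one_apply] at h
    exact dec_exact he hinj hf hσ hβ h
  | cons ρ L ih =>
    intro ζ hζ h
    have hc : C0Form ((aeval (T (k + 1) f) (X - C ρ)) ζ) := aeval_c0 f hf1 _ hζ
    have h1 : IsEx ((aeval (T (k + 1) f) (L.map fun ρ => X - C ρ).prod)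
        ((aeval (T (k + 1) f) (X - C ρ)) ζ)) β := by
      rw [List.map_cons, List.prod_cons, mul_comm, map_mul, Module.End.mul_apply] at h
      exact h
    refine dec_step he hinj hf (hL ρ List.mem_cons_self) hζ ?_
      (ih (fun ρ' hρ' => hL ρ' (List.mem_cons_of_mem _ hρ')) hc h1)
    rw [map_sub, aeval_X, aeval_C, LinearMap.sub_apply, T_apply]
    show pb f ζ = ρ • ζ + (pb f ζ - ρ • ζ)
    abel

/-- The increments. -/
theorem dec_incr {e : M → F} (_he : ContMDiff 𝓘(ℝ, E) 𝓘(ℝ, F) 1 e) {f : M ≃ₜ M}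
    (hf : ContMDiff 𝓘(ℝ, E) 𝓘(ℝ, E) 2 f) {k : ℕ} {lam σ : ℝ} (hσ : 0 < σ)
    {w ζ : M → E [⋀^Fin (k + 1)]→L[ℝ] ℝ} (h : pb f w = lam • w + ζ) (hd : Dec e f σ ζ) :
    Nonempty (Incr e f k w lam σ) := by
  have hf1 : ContMDiff 𝓘(ℝ, E) 𝓘(ℝ, E) 1 f := hf.of_le (by norm_num)
  obtain ⟨ε, β, B, hB, hε, hβ, hεb, hβb, heq⟩ := hd
  refine ⟨⟨ε, β, B, hB, hσ, hε, hβ, hεb, hβb, fun n x₀ y hy => ?_⟩⟩
  rw [Function.iterate_succ', pl_pb' f (f^[n]) hf1 (iter_smooth f hf1 n) w x₀ hy, h, pl_add,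
    pl_smul, heq n x₀ y hy, add_assoc]

end Pool.Agent.H74.RS
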