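import Pool.Agent.H74.RS.Pe

set_option autoImplicit false
set_option linter.unusedSectionVars false

open scoped Manifold ContDiff Topology
open Set Filter

namespace Pool.Agent.H74.RS

open Pool.Agent.H721R2

section ratio

variable {E : Type*} [NormedAddCommGroup E] [NormedSpace ℝ E]

theorem ratio_ne {u : ℕ} (P : Submodule ℝ E) (B : Module.Basis (Fin u) ℝ P)
    (T : E [⋀^Fin u]→L[ℝ] ℝ) (v : Fin u → E) (hv : ∀ j, v j ∈ P) (h : T v ≠ 0) :
    T (fun j => (B j : E)) ≠ 0 := by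
  let v' : Fin u → P := fun j => ⟨v j, hv j⟩
  have key : T v = T (fun j => (B j : E)) * B.det v' := by
    have h1 := (T.toAlternatingMap.compLinearMap P.subtype).eq_smul_basis_det B
    have h2 := congrArg (fun A : P [⋀^Fin u]→ₗ[ℝ] ℝ => A v') h1
    exact h2
  intro h0
  rw [h0, zero_mul] at key
  exact h key

theorem dw_abs_le {k : ℕ} (l : E →L[ℝ] ℝ) (b : E [⋀^Fin k]→L[ℝ] ℝ) (v : Fin (k + 1) → E) {R S : ℝ}
    (hR : ∀ i, ‖v i‖ ≤ R) (hS : ∀ i : Fin (k + 1), |b (i.removeNth v)| ≤ S) :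
    |dw l b v| ≤ (k + 1) * (‖l‖ * R * S) := by
  rw [dw_apply]
  refine (Finset.abs_sum_le_sum_abs _ _).trans ?_
  have : ∀ i ∈ (Finset.univ : Finset (Fin (k + 1))),
      |(-1) ^ (i : ℕ) * (l (v i) * b (i.removeNth v))| ≤ ‖l‖ * R * S := by
    intro i _
    rw [abs_mul, abs_pow, abs_neg, abs_one, one_pow, one_mul, abs_mul]
    apply mul_le_mul _ (hS i) (abs_nonneg _)
    · exact mul_nonneg (norm_nonneg _) ((norm_nonneg _).trans (hR i))
    · rw [← Real.norm_eq_abs]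
      exact (l.le_opNorm _).trans (mul_le_mul_of_nonneg_left (hR i) (norm_nonneg _))
  refine (Finset.sum_le_sum this).trans ?_
  rw [Finset.sum_const, Finset.card_univ, Fintype.card_fin, nsmul_eq_mul]
  push_cast; exact le_rfl

theorem dw_abs_le' {k : ℕ} (l : E →L[ℝ] ℝ) (b : E [⋀^Fin k]→L[ℝ] ℝ) (v : Fin (k + 1) → E) {Q : ℝ}
    (hQ : ∀ i : Fin (k + 1), ‖v i‖ * |b (i.removeNth v)| ≤ Q) :
    |dw l b v| ≤ (k + 1) * (‖l‖ * Q) := by
  rw [dw_apply]
  refine (Finset.abs_sum_le_sum_abs _ _).trans ?_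
  have : ∀ i ∈ (Finset.univ : Finset (Fin (k + 1))),
      |(-1) ^ (i : ℕ) * (l (v i) * b (i.removeNth v))| ≤ ‖l‖ * Q := by
    intro i _
    rw [abs_mul, abs_pow, abs_neg, abs_one, one_pow, one_mul, abs_mul]
    have h1 : |l (v i)| ≤ ‖l‖ * ‖v i‖ := by
      rw [← Real.norm_eq_abs]
      exact l.le_opNorm _
    calc |l (v i)| * |b (i.removeNth v)| ≤ ‖l‖ * ‖v i‖ * |b (i.removeNth v)| :=
          mul_le_mul_of_nonneg_right h1 (abs_nonneg _)
      _ = ‖l‖ * (‖v i‖ * |b (i.removeNth v)|) := by ring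
      _ ≤ _ := mul_le_mul_of_nonneg_left (hQ i) (norm_nonneg _)
  refine (Finset.sum_le_sum this).trans ?_
  rw [Finset.sum_const, Finset.card_univ, Fintype.card_fin, nsmul_eq_mul]
  push_cast; exact le_rfl

end ratio

variable {E : Type*} [NormedAddCommGroup E] [NormedSpace ℝ E] [FiniteDimensional ℝ E]
  {M : Type*} [MetricSpace M] [CompactSpace M] [ChartedSpace E M] [IsManifold 𝓘(ℝ, E) 1 M]
  {F : Type*} [NormedAddCommGroup F] [InnerProductSpace ℝ F] [FiniteDimensional ℝ F]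

theorem pl_eval_continuousAt {k : ℕ} {w : M → E [⋀^Fin k]→L[ℝ] ℝ} (hw : C0Form w) (G : M → M)
    (hG : ContMDiff 𝓘(ℝ, E) 𝓘(ℝ, E) 1 G) (x₀ : M) {y : E} (hy : y ∈ tg E x₀) (v : Fin k → E) :
    ContinuousAt (fun y' => pl (G ∘ ic E x₀) w y' v) y := by
  set x₁ := G (ic E x₀ y) with hx₁
  have h1 := tr_contDiffAt 1 G hG x₀ x₁ hy (mem_extChartAt_source _)
  have h2 : ContinuousAt (pl (ic E x₁) w) (tr G x₀ x₁ y) :=
    pl_continuousAt hw x₁ (tr_mem G x₀ _ (mem_extChartAt_source _))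
  have h3 : ContinuousAt (fun y' => (pl (ic E x₁) w (tr G x₀ x₁ y'),
      fun i => fderiv ℝ (tr G x₀ x₁ : E → E) y' (v i))) y := by
    apply ContinuousAt.prodMk
    · exact ContinuousAt.comp (f := (tr G x₀ x₁ : E → E)) h2 h1.continuousAt
    · rw [continuousAt_pi]
      intro i
      have h4 : ContinuousAt (fderiv ℝ (tr G x₀ x₁ : E → E)) y :=
        (h1.fderiv_right (m := 0) (by norm_num)).continuousAt
      exact h4.clm_apply continuousAt_const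
  have h5 : ContinuousAt (fun y' => ((pl (ic E x₁) w (tr G x₀ x₁ y')).compContinuousLinearMap
      (fderiv ℝ (tr G x₀ x₁ : E → E) y')) v) y :=
    ContinuousAt.comp (f := fun y' => (pl (ic E x₁) w (tr G x₀ x₁ y'),
      fun i => fderiv ℝ (tr G x₀ x₁ : E → E) y' (v i)))
      ((eval_contDiff (E := E) k 0).continuous.continuousAt) h3
  refine h5.congr ?_
  filter_upwards [eventually_source G hG.continuous x₀ x₁ hy (mem_extChartAt_source _)]
    with y' hy'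
  rw [pl_tr G hG x₀ x₁ w hy'.1 hy'.2]

theorem pe_ne {e : M → F} (he : ContMDiff 𝓘(ℝ, E) 𝓘(ℝ, F) 1 e)
    (hinj : ∀ x, Function.Injective (dm E e x))
    {f : M ≃ₜ M} {Es Eu : M → Submodule ℝ E} {C a b Ls Lu : ℝ}
    (h : EAnosov e f Es Eu C a b Ls Lu) {u : ℕ} {x₀ : M} {r C₂ : ℝ}
    (hF : FrameBall e f Eu b u x₀ r C₂) (B : Module.Basis (Fin u) ℝ (Eu x₀))
    {w : M → E [⋀^Fin u]→L[ℝ] ℝ} (hw : C0Form w)
    (hnz : ∀ z, ∀ v : Fin u → E, (∀ j, v j ∈ Eu z) → LinearIndependent ℝ v → w z v ≠ 0) :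
    ∃ N : ℕ, ∀ y ∈ Metric.ball (extChartAt 𝓘(ℝ, E) x₀ x₀) r, ∀ n ≥ N,
      pl (f^[n] ∘ ic E x₀) w y (fun j => (B j : E)) ≠ 0 := by
  obtain ⟨c, hc, δ, hδ, hlb⟩ := form_lb he hinj h hw isClosed_univ (fun z _ => hnz z)
  have ht : Tendsto (fun n : ℕ => C₂ * b ^ n) atTop (𝓝 0) := by
    have := (tendsto_pow_atTop_nhds_zero_of_lt_one h.b_pos.le h.b_lt).const_mul C₂
    simpa using this
  obtain ⟨N', hN'⟩ := eventually_atTop.mp ((tendsto_order.mp ht).2 δ hδ)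
  refine ⟨N', fun y hy n hn => ?_⟩
  obtain ⟨w', v, p, h1, h2, h3, h4, h5, h6, -⟩ := hF.2.2.2.2 y hy n 0 (Nat.zero_le _)
  refine ratio_ne (Eu x₀) B _ v h3 ?_
  have := hlb _ trivial w' (fun i => dc (f^[n] ∘ ic E x₀) y (v i)) h1 h2
    (fun j => (h6 j).trans (hN' n hn).le)
  rw [pl_apply]
  exact abs_pos.mp (lt_of_lt_of_le hc this)

/-- The increments of the pulled back forms. -/
structure Incr (e : M → F) (f : M ≃ₜ M) (k : ℕ) (w : M → E [⋀^Fin (k + 1)]→L[ℝ] ℝ) (lam σ : ℝ) where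
  ε : ℕ → M → E [⋀^Fin (k + 1)]→L[ℝ] ℝ
  β : ℕ → ℕ → M → E [⋀^Fin k]→L[ℝ] ℝ
  B : ℝ
  B_pos : 0 < B
  σ_pos : 0 < σ
  ε_c0 : ∀ n, C0Form (ε n)
  β_c1 : ∀ n j, C1Form (β n j)
  ε_le : ∀ n z v, |ε n z v| ≤ B * σ ^ n * ∏ j, ‖dm E e z (v j)‖
  β_le : ∀ n, ∀ j ≤ n, ∀ z v, |β n j z v| ≤ B * σ ^ (n - j) * ∏ i, ‖dm E e z (v i)‖
  step : ∀ n (x₀ : M), ∀ y ∈ tg E x₀, pl (f^[n + 1] ∘ ic E x₀) w y =
    lam • pl (f^[n] ∘ ic E x₀) w y + pl (ic E x₀) (ε n) y +
      ∑ j ∈ Finset.range (n + 1), extDeriv (pl (f^[j] ∘ ic E x₀) (β n j)) y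

/-- Pointwise bound of the increments. -/
theorem err {e : M → F} (he : ContMDiff 𝓘(ℝ, E) 𝓘(ℝ, F) 1 e)
    (hinj : ∀ x, Function.Injective (dm E e x))
    {f : M ≃ₜ M} {Es Eu : M → Submodule ℝ E} {C a b Ls Lu : ℝ}
    (h : EAnosov e f Es Eu C a b Ls Lu) {k : ℕ} {x₀ : M} {r C₂ : ℝ}
    (hF : FrameBall e f Eu b (k + 1) x₀ r C₂) (B : Module.Basis (Fin (k + 1)) ℝ (Eu x₀))
    {w : M → E [⋀^Fin (k + 1)]→L[ℝ] ℝ} (hw : C0Form w)
    (hnz : ∀ z, ∀ v : Fin (k + 1) → E, (∀ j, v j ∈ Eu z) → LinearIndependent ℝ v → w z v ≠ 0)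
    {J : ℝ} (hJ : VolExp f Eu w J) {lam σ : ℝ} (I : Incr e f k w lam σ) :
    ∃ C₄ > 0, ∃ N : ℕ, ∀ y ∈ Metric.ball (extChartAt 𝓘(ℝ, E) x₀ x₀) r, ∀ n ≥ N,
      pl (f^[n] ∘ ic E x₀) w y (fun j => (B j : E)) ≠ 0 ∧
      ∀ (t : ℝ) (l : E →L[ℝ] ℝ),
      |t * pl (ic E x₀) (I.ε n) y (fun j => (B j : E)) -
        ∑ j ∈ Finset.range (n + 1), dw l (pl (f^[j] ∘ ic E x₀) (I.β n j) y) (fun j => (B j : E))| ≤
      C₄ * ((n + 1) * (max b (σ * J)) ^ n) * (|t| + ‖l‖) *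
        |pl (f^[n] ∘ ic E x₀) w y (fun j => (B j : E))| := by
  obtain ⟨C₃, hC₃, N, hN⟩ := pe' he hinj h hF B hw isClosed_univ (fun z _ => hnz z)
  obtain ⟨C₅, hC₅, hprod⟩ := prod_le_of_volExp he hinj h hw hnz hJ
  have hC₂ := hF.2.1
  have hb0 := h.b_pos
  have hb1 := h.b_lt
  have hB0 := I.B_pos
  have hσ0 := I.σ_pos
  have hJ0 := hJ.1
  obtain ⟨c, hc, δ, hδ, hlb⟩ := form_lb he hinj h hw isClosed_univ (fun z _ => hnz z)
  have ht : Tendsto (fun n : ℕ => C₂ * b ^ n) atTop (𝓝 0) := by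
    have := (tendsto_pow_atTop_nhds_zero_of_lt_one h.b_pos.le h.b_lt).const_mul C₂
    simpa using this
  obtain ⟨N', hN'⟩ := eventually_atTop.mp ((tendsto_order.mp ht).2 δ hδ)
  set q := max b (σ * J) with hq
  have hq0 : 0 < q := lt_max_of_lt_left hb0
  set A := I.B * C₂ ^ (k + 1) * C₅ with hA
  have hA0 : 0 < A := by positivity
  refine ⟨C₃ * A + C₃ * ((k + 1) * A), by positivity,
    max N N', fun y hy n hn => ⟨?_, fun t l => ?_⟩⟩
  · obtain ⟨w', v, p, h1, h2, h3, h4, h5, h6, -⟩ := hF.2.2.2.2 y hy n 0 (Nat.zero_le _)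
    refine ratio_ne (Eu x₀) B _ v h3 ?_
    have := hlb _ trivial w' (fun i => dc (f^[n] ∘ ic E x₀) y (v i)) h1 h2
      (fun j => (h6 j).trans (hN' n ((le_max_right _ _).trans hn)).le)
    rw [pl_apply]
    exact abs_pos.mp (lt_of_lt_of_le hc this)
  have hfr := hN y hy n ((le_max_left _ _).trans hn) trivial
  set D := |pl (f^[n] ∘ ic E x₀) w y (fun j => (B j : E))| with hD
  have hD0 : 0 ≤ D := abs_nonneg _
  -- the first term
  have a1 : |pl (ic E x₀) (I.ε n) y (fun j => (B j : E))| ≤ C₃ * A * q ^ n * D := by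
    obtain ⟨v, p, h1, h2, h3, h4, h5, h6, h7, h8⟩ := hfr 0 (Nat.zero_le _)
    refine (h3 _).trans ?_
    apply mul_le_mul_of_nonneg_right _ hD0
    rw [mul_assoc C₃]
    apply mul_le_mul_of_nonneg_left _ hC₃.le
    rw [pl_apply]
    refine (I.ε_le n _ _).trans ?_
    have e0 := hprod (n - 0) _ p h4 h5 h6
    rw [Nat.sub_zero] at e0
    have e1 : ∏ j : Fin (k + 1), ‖dm E e (ic E x₀ y) (dc (ic E x₀) y (v j))‖ ≤
        ∏ j : Fin (k + 1), (C₂ * ‖dm E e (f^[0] (ic E x₀ y)) (p j)‖) := by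
      apply Finset.prod_le_prod (fun _ _ => norm_nonneg _)
      intro j _
      exact h8 j
    rw [Finset.prod_mul_distrib, Finset.prod_const, Finset.card_univ, Fintype.card_fin] at e1
    calc _ ≤ I.B * σ ^ n * (C₂ ^ (k + 1) * ∏ j, ‖dm E e (f^[0] (ic E x₀ y)) (p j)‖) :=
          mul_le_mul_of_nonneg_left e1 (by positivity)
      _ ≤ I.B * σ ^ n * (C₂ ^ (k + 1) * (C₅ * J ^ n)) := by
          apply mul_le_mul_of_nonneg_left _ (by positivity)
          exact mul_le_mul_of_nonneg_left e0 (by positivity)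
      _ = A * (σ * J) ^ n := by rw [mul_pow]; ring
      _ ≤ A * q ^ n := by
          apply mul_le_mul_of_nonneg_left _ (by positivity)
          exact pow_le_pow_left₀ (by positivity) (le_max_right _ _) _
  -- the other terms
  have a2 : ∀ j ∈ Finset.range (n + 1),
      |dw l (pl (f^[j] ∘ ic E x₀) (I.β n j) y) (fun j => (B j : E))| ≤
      C₃ * ((k + 1) * A) * q ^ n * ‖l‖ * D := by
    intro j hj
    have hjn : j ≤ n := Nat.lt_succ_iff.mp (Finset.mem_range.mp hj)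
    obtain ⟨v, p, h1, h2, h3, h4, h5, h6, h7, h8⟩ := hfr j hjn
    refine (h3 _).trans ?_
    apply mul_le_mul_of_nonneg_right _ hD0
    have e0 := hprod (n - j) _ p h4 h5 h6
    have e1 := dw_abs_le' l (pl (f^[j] ∘ ic E x₀) (I.β n j) y) v
      (Q := A * (b ^ j * (σ * J) ^ (n - j))) (by
        intro i
        have g1 : |pl (f^[j] ∘ ic E x₀) (I.β n j) y (i.removeNth v)| ≤
            I.B * σ ^ (n - j) * ∏ l : Fin k, (C₂ * ‖dm E e (f^[j] (ic E x₀ y)) (p (i.succAbove l))‖) := by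
          rw [pl_apply]
          refine (I.β_le n j hjn _ _).trans ?_
          apply mul_le_mul_of_nonneg_left _ (by positivity)
          apply Finset.prod_le_prod (fun _ _ => norm_nonneg _)
          intro l _
          exact h8 _
        rw [Finset.prod_mul_distrib, Finset.prod_const, Finset.card_univ, Fintype.card_fin] at g1
        have g2 := Fin.prod_univ_succAbove (fun l => ‖dm E e (f^[j] (ic E x₀ y)) (p l)‖) i
        rw [g2] at e0
        set P := ∏ l : Fin k, ‖dm E e (f^[j] (ic E x₀ y)) (p (i.succAbove l))‖ with hP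
        have hP0 : 0 ≤ P := Finset.prod_nonneg fun _ _ => norm_nonneg _
        calc ‖v i‖ * |pl (f^[j] ∘ ic E x₀) (I.β n j) y (i.removeNth v)| ≤
            (C₂ * b ^ j * ‖dm E e (f^[j] (ic E x₀ y)) (p i)‖) *
              (I.B * σ ^ (n - j) * (C₂ ^ k * P)) :=
              mul_le_mul (h7 i) g1 (abs_nonneg _) (by positivity)
          _ = I.B * C₂ ^ (k + 1) * b ^ j * σ ^ (n - j) *
              (‖dm E e (f^[j] (ic E x₀ y)) (p i)‖ * P) := by rw [pow_succ]; ring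
          _ ≤ I.B * C₂ ^ (k + 1) * b ^ j * σ ^ (n - j) * (C₅ * J ^ (n - j)) :=
              mul_le_mul_of_nonneg_left e0 (by positivity)
          _ = _ := by rw [mul_pow]; ring)
    have e2 : b ^ j * (σ * J) ^ (n - j) ≤ q ^ n := by
      calc _ ≤ q ^ j * q ^ (n - j) := by
            apply mul_le_mul (pow_le_pow_left₀ hb0.le (le_max_left _ _) _)
              (pow_le_pow_left₀ (by positivity) (le_max_right _ _) _) (by positivity) (by positivity)
        _ = q ^ n := by rw [← pow_add]; congr 1; omega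
    calc C₃ * |dw l (pl (f^[j] ∘ ic E x₀) (I.β n j) y) v| ≤
        C₃ * ((k + 1) * (‖l‖ * (A * (b ^ j * (σ * J) ^ (n - j))))) :=
          mul_le_mul_of_nonneg_left e1 hC₃.le
      _ = C₃ * ((k + 1) * A) * ‖l‖ * (b ^ j * (σ * J) ^ (n - j)) := by ring
      _ ≤ C₃ * ((k + 1) * A) * ‖l‖ * q ^ n :=
          mul_le_mul_of_nonneg_left e2 (by positivity)
      _ = _ := by ring
  have a3 := Finset.sum_le_sum a2
  rw [Finset.sum_const, Finset.card_range, nsmul_eq_mul] at a3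
  have a4 := (Finset.abs_sum_le_sum_abs (fun j => dw l (pl (f^[j] ∘ ic E x₀) (I.β n j) y)
    (fun j => (B j : E))) (Finset.range (n + 1))).trans a3
  have a5 := abs_sub (t * pl (ic E x₀) (I.ε n) y (fun j => (B j : E)))
    (∑ j ∈ Finset.range (n + 1), dw l (pl (f^[j] ∘ ic E x₀) (I.β n j) y) (fun j => (B j : E)))
  refine a5.trans ?_
  rw [abs_mul]
  have a6 : |t| * |pl (ic E x₀) (I.ε n) y (fun j => (B j : E))| ≤
      |t| * (C₃ * A * q ^ n * D) := mul_le_mul_of_nonneg_left a1 (abs_nonneg _)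
  have a7 : |t| * (C₃ * A * q ^ n * D) ≤
      C₃ * A * ((n + 1) * q ^ n) * (|t| + ‖l‖) * D := by
    have g1 : |t| ≤ |t| + ‖l‖ := le_add_of_nonneg_right (norm_nonneg _)
    have g2 : (1 : ℝ) ≤ n + 1 := by
      have : (0 : ℝ) ≤ n := Nat.cast_nonneg _
      linarith
    have g3 : 0 ≤ C₃ * A * q ^ n * D := by positivity
    calc _ ≤ (|t| + ‖l‖) * (C₃ * A * q ^ n * D) :=
          mul_le_mul_of_nonneg_right g1 g3
      _ = 1 * ((|t| + ‖l‖) * (C₃ * A * q ^ n * D)) := by ring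
      _ ≤ (n + 1) * ((|t| + ‖l‖) * (C₃ * A * q ^ n * D)) :=
          mul_le_mul_of_nonneg_right g2 (by positivity)
      _ = _ := by ring
  have a8 : ((n + 1 : ℕ) : ℝ) * (C₃ * ((k + 1) * A) * q ^ n * ‖l‖ * D) ≤
      C₃ * ((k + 1) * A) * ((n + 1) * q ^ n) * (|t| + ‖l‖) * D := by
    have g1 : ‖l‖ ≤ |t| + ‖l‖ := le_add_of_nonneg_left (abs_nonneg _)
    have g3 : 0 ≤ C₃ * ((k + 1) * A) * ((n + 1) * q ^ n) * D := by positivity
    push_cast
    calc _ = ‖l‖ * (C₃ * ((k + 1) * A) * ((n + 1) * q ^ n) * D) := by ring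
      _ ≤ (|t| + ‖l‖) * (C₃ * ((k + 1) * A) * ((n + 1) * q ^ n) * D) :=
          mul_le_mul_of_nonneg_right g1 g3
      _ = _ := by ring
  calc _ ≤ C₃ * A * ((n + 1) * q ^ n) * (|t| + ‖l‖) * D +
        C₃ * ((k + 1) * A) * ((n + 1) * q ^ n) * (|t| + ‖l‖) * D :=
        add_le_add (a6.trans a7) (a4.trans a8)
    _ = _ := by ring

end Pool.Agent.H74.RS
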