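import Pool.Agent.H74.RS.Pe

set_option autoImplicit false
set_option linter.unusedSectionVars false

open scoped Manifold ContDiff Topology
open Set Filter

namespace Pool.Agent.H74.RS

open Pool.Agent.H721R2

section det

variable {E : Type*} [AddCommGroup E] [Module ℝ E] [FiniteDimensional ℝ E]

theorem block_det {u : ℕ} (P : Submodule ℝ E) (B : Module.Basis (Fin u) ℝ P) (L : E →ₗ[ℝ] E)
    (hL : ∀ v, L v - v ∈ P) (ξ : Fin u → Fin u → ℝ)
    (hξ : ∀ j, L (B j) = (B.equivFun.symm (ξ j) : P)) :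
    LinearMap.det L = (Pi.basisFun ℝ (Fin u)).det ξ := by
  have he : P ≤ P.comap L := by
    intro v hv
    have := P.add_mem (hL v) hv
    rwa [sub_add_cancel] at this
  have h1 := LinearMap.det_eq_det_mul_det P L he
  have h2 : P.mapQ P L he = LinearMap.id := by
    apply Submodule.linearMap_qext
    ext v
    simp only [LinearMap.comp_apply, Submodule.mkQ_apply, Submodule.mapQ_apply, LinearMap.id_apply]
    rw [Submodule.Quotient.eq]
    exact hL v
  rw [h2, LinearMap.det_id, mul_one] at h1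
  rw [h1]
  have h3 := B.det_comp (L.restrict he) B
  rw [Module.Basis.det_self, mul_one] at h3
  rw [← h3]
  have h4 : (L.restrict he) ∘ B = fun j => B.equivFun.symm (ξ j) := by
    funext j
    apply Subtype.ext
    show L (B j) = _
    rw [hξ]
  rw [h4, Module.Basis.det_apply, Module.Basis.det_apply]
  congr 1
  ext i j
  rw [Module.Basis.toMatrix_apply, Module.Basis.toMatrix_apply, ← Module.Basis.equivFun_apply,
    LinearEquiv.apply_symm_apply, Pi.basisFun_repr]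

/-- the determinant as a continuous alternating map -/
noncomputable def detA (u : ℕ) : (Fin u → ℝ) [⋀^Fin u]→L[ℝ] ℝ where
  toContinuousMultilinearMap :=
    { toMultilinearMap := (Pi.basisFun ℝ (Fin u)).det.toMultilinearMap
      cont := by
        show Continuous fun v : Fin u → Fin u → ℝ => (Pi.basisFun ℝ (Fin u)).det v
        simp only [Module.Basis.det_apply]
        apply Continuous.matrix_det
        apply continuous_matrix
        intro i j
        simp only [Module.Basis.toMatrix_apply, Pi.basisFun_repr]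
        fun_prop }
  map_eq_zero_of_eq' := (Pi.basisFun ℝ (Fin u)).det.map_eq_zero_of_eq'

theorem detA_apply (u : ℕ) (v : Fin u → Fin u → ℝ) :
    detA u v = (Pi.basisFun ℝ (Fin u)).det v := rfl

theorem detA_ne_zero (u : ℕ) (v : Fin u → Fin u → ℝ) (hv : LinearIndependent ℝ v) :
    detA u v ≠ 0 := by
  rw [detA_apply]
  have h1 : Submodule.span ℝ (range v) = ⊤ :=
    hv.span_eq_top_of_card_eq_finrank' (by simp)
  exact ((Module.Basis.is_basis_iff_det (Pi.basisFun ℝ (Fin u))).mp ⟨hv, h1⟩).ne_zero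

end det

variable {E : Type*} [NormedAddCommGroup E] [NormedSpace ℝ E] [FiniteDimensional ℝ E]
  {M : Type*} [MetricSpace M] [CompactSpace M] [ChartedSpace E M] [IsManifold 𝓘(ℝ, E) 1 M]
  {F : Type*} [NormedAddCommGroup F] [InnerProductSpace ℝ F] [FiniteDimensional ℝ F]

/-- Linear projections of the ambient space onto the unstable spaces near a point. -/
theorem exists_final {e : M → F} (he : ContMDiff 𝓘(ℝ, E) 𝓘(ℝ, F) 1 e)
    (hinj : ∀ x, Function.Injective (dm E e x))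
    {f : M ≃ₜ M} {Es Eu : M → Submodule ℝ E} {C a b Ls Lu : ℝ}
    (h : EAnosov e f Es Eu C a b Ls Lu) {u : ℕ} (hu : ∀ x, Module.finrank ℝ (Eu x) = u) (z₀ : M) :
    ∃ (Pr : F →L[ℝ] (Fin u → ℝ)), ∃ C > 0, ∀ η > 0, ∃ r > 0, ∀ z, dist z z₀ < r →
      (∀ w ∈ Eu z, ‖dm E e z w‖ ≤ C * ‖Pr (dm E e z w)‖) ∧
      (∀ s ∈ Es z, ‖Pr (dm E e z s)‖ ≤ η * ‖dm E e z s‖) := by
  obtain ⟨L, hL⟩ := LinearMap.exists_leftInverse_of_injective (dm E e z₀).toLinearMap
    (LinearMap.ker_eq_bot.mpr (hinj z₀))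
  have hL' : ∀ v, L (dm E e z₀ v) = v := fun v => LinearMap.congr_fun hL v
  let B : Module.Basis (Fin u) ℝ (Eu z₀) := Module.finBasisOfFinrankEq ℝ (Eu z₀) (hu z₀)
  let pu : E →ₗ[ℝ] Eu z₀ := Submodule.projectionOnto (Eu z₀) (Es z₀) (h.compl z₀).symm
  let Pr₀ : F →ₗ[ℝ] (Fin u → ℝ) := B.equivFun.toLinearMap ∘ₗ pu ∘ₗ L
  let Pr : F →L[ℝ] (Fin u → ℝ) := LinearMap.toContinuousLinearMap Pr₀
  have hPr : ∀ v, Pr v = Pr₀ v := fun v => rfl
  have hPru : ∀ w : Eu z₀, Pr (dm E e z₀ w) = B.equivFun w := by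
    intro w
    rw [hPr]
    show B.equivFun (pu (L (dm E e z₀ w))) = _
    rw [hL']
    congr 1
    exact Submodule.projectionOnto_apply_left (h.compl z₀).symm w
  have hPrs : ∀ s ∈ Es z₀, Pr (dm E e z₀ s) = 0 := by
    intro s hs
    rw [hPr]
    show B.equivFun (pu (L (dm E e z₀ s))) = _
    rw [hL']
    have : pu s = 0 := (Submodule.projectionOnto_apply_eq_zero_iff (h.compl z₀).symm).mpr hs
    rw [this, map_zero]
  -- lower bound on the unstable space of `z₀`
  let T : Eu z₀ →ₗ[ℝ] F := (dm E e z₀).toLinearMap ∘ₗ (Eu z₀).subtype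
  let T' : Eu z₀ →L[ℝ] F := LinearMap.toContinuousLinearMap T
  let Q : (Fin u → ℝ) →L[ℝ] Eu z₀ := LinearMap.toContinuousLinearMap B.equivFun.symm.toLinearMap
  set C₁ := ‖T'.comp Q‖ + 1 with hC₁
  have hC₁0 : 0 < C₁ := by positivity
  have hlow : ∀ w ∈ Eu z₀, ‖dm E e z₀ w‖ ≤ C₁ * ‖Pr (dm E e z₀ w)‖ := by
    intro w hw
    have h1 : dm E e z₀ w = (T'.comp Q) (Pr (dm E e z₀ w)) := by
      rw [hPru ⟨w, hw⟩]
      show _ = dm E e z₀ (B.equivFun.symm (B.equivFun ⟨w, hw⟩) : Eu z₀)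
      rw [LinearEquiv.symm_apply_apply]
    calc ‖dm E e z₀ w‖ = ‖(T'.comp Q) (Pr (dm E e z₀ w))‖ := by rw [← h1]
      _ ≤ ‖T'.comp Q‖ * ‖Pr (dm E e z₀ w)‖ := ContinuousLinearMap.le_opNorm _ _
      _ ≤ C₁ * ‖Pr (dm E e z₀ w)‖ := by
          apply mul_le_mul_of_nonneg_right _ (norm_nonneg _)
          rw [hC₁]; linarith
  refine ⟨Pr, 2 * C₁, by positivity, fun η hη => ?_⟩
  set N := ‖Pr‖ + 1 with hN
  have hN0 : 0 < N := by positivity
  have hPrN : ∀ v, ‖Pr v‖ ≤ N * ‖v‖ := fun v => (Pr.le_opNorm v).trans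
    (mul_le_mul_of_nonneg_right (by rw [hN]; linarith) (norm_nonneg _))
  set η' := min (η / N) (1 / (2 * (1 + C₁ * N))) with hη'
  have hη'0 : 0 < η' := lt_min (by positivity) (by positivity)
  have hη'1 : η' * N ≤ η := by
    have : η' ≤ η / N := min_le_left _ _
    rwa [le_div_iff₀ hN0] at this
  have hη'2 : η' * (2 * (1 + C₁ * N)) ≤ 1 := by
    have : η' ≤ 1 / (2 * (1 + C₁ * N)) := min_le_right _ _
    rwa [le_div_iff₀ (by positivity)] at this
  obtain ⟨r1, hr1, c1⟩ := h.contS he hinj η' hη'0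
  obtain ⟨r2, hr2, c2⟩ := h.symm.contS he hinj η' hη'0
  refine ⟨min r1 r2, lt_min hr1 hr2, fun z hz => ⟨fun w hw => ?_, fun s hs => ?_⟩⟩
  · obtain ⟨w', hw', h1⟩ := c2 z z₀ (hz.trans_le (min_le_right _ _)) w hw
    have h2 := hlow w' hw'
    have h3 := norm_le_norm_add_norm_sub' (dm E e z w) (dm E e z₀ w')
    have h4 : ‖Pr (dm E e z₀ w')‖ ≤ ‖Pr (dm E e z w)‖ + N * (η' * ‖dm E e z w‖) := by
      have h5 := hPrN (dm E e z w - dm E e z₀ w')
      have h6 : N * ‖dm E e z w - dm E e z₀ w'‖ ≤ N * (η' * ‖dm E e z w‖) :=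
        mul_le_mul_of_nonneg_left h1 hN0.le
      have h7 := norm_le_norm_add_norm_sub (Pr (dm E e z w)) (Pr (dm E e z₀ w'))
      rw [map_sub] at h5
      linarith
    have h8 : C₁ * ‖Pr (dm E e z₀ w')‖ ≤ C₁ * (‖Pr (dm E e z w)‖ + N * (η' * ‖dm E e z w‖)) :=
      mul_le_mul_of_nonneg_left h4 hC₁0.le
    have h9 : η' * (2 * (1 + C₁ * N)) * ‖dm E e z w‖ ≤ 1 * ‖dm E e z w‖ :=
      mul_le_mul_of_nonneg_right hη'2 (norm_nonneg _)
    linarith
  · obtain ⟨s', hs', h1⟩ := c1 z z₀ (hz.trans_le (min_le_left _ _)) s hs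
    have h2 : Pr (dm E e z s) = Pr (dm E e z s - dm E e z₀ s') := by
      rw [map_sub, hPrs s' hs', sub_zero]
    rw [h2]
    calc _ ≤ N * ‖dm E e z s - dm E e z₀ s'‖ := hPrN _
      _ ≤ N * (η' * ‖dm E e z s‖) := mul_le_mul_of_nonneg_left h1 hN0.le
      _ = η' * N * ‖dm E e z s‖ := by ring
      _ ≤ η * ‖dm E e z s‖ := mul_le_mul_of_nonneg_right hη'1 (norm_nonneg _)

/-- the form defined by a projection -/
noncomputable def pform {u : ℕ} (e : M → F) (Pr : F →L[ℝ] (Fin u → ℝ)) (z : M) :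
    E [⋀^Fin u]→L[ℝ] ℝ :=
  (detA u).compContinuousLinearMap (Pr.comp (dm E e z))

theorem pform_apply {u : ℕ} (e : M → F) (Pr : F →L[ℝ] (Fin u → ℝ)) (z : M) (v : Fin u → E) :
    pform e Pr z v = detA u (fun j => Pr (dm E e z (v j))) := rfl

theorem pform_c0 {u : ℕ} (e : M → F) (he : ContMDiff 𝓘(ℝ, E) 𝓘(ℝ, F) 1 e)
    (Pr : F →L[ℝ] (Fin u → ℝ)) : C0Form (pform (E := E) e Pr) := by
  intro x₁ y hy
  apply ContinuousAt.continuousWithinAt
  have h1 : pl (ic E x₁) (pform (E := E) e Pr) =ᶠ[𝓝 y] fun y =>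
      (detA u).compContinuousLinearMap (Pr.comp (fderiv ℝ (hatMap e x₁ : E → F) y)) := by
    filter_upwards [(isOpen_extChartAt_target x₁).mem_nhds hy] with y' hy'
    ext v
    rw [pl_apply, pform_apply, ContinuousAlternatingMap.compContinuousLinearMap_apply]
    congr 1
    funext j
    show Pr (dm E e (ic E x₁ y') (dc (ic E x₁) y' (v j))) = Pr (fderiv ℝ (hatMap e x₁ : E → F) y' (v j))
    rw [fderiv_hatMap e he x₁ hy']
  refine ContinuousAt.congr ?_ h1.symm
  have h2 : ContinuousAt (fderiv ℝ (hatMap e x₁ : E → F)) y := by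
    have := (hatMap_contDiffAt e he x₁ y hy).fderiv_right (m := 0) (by norm_num)
    exact this.continuousAt
  have h3 : ContinuousAt (fun L : E →L[ℝ] F =>
      (detA u).compContinuousLinearMap (Pr.comp L)) (fderiv ℝ (hatMap e x₁ : E → F) y) := by
    apply DifferentiableAt.continuousAt (𝕜 := ℝ)
    apply DifferentiableAt.continuousAlternatingMapCompContinuousLinearMap
    · exact differentiableAt_const _
    · exact (ContinuousLinearMap.compL ℝ E F (Fin u → ℝ) Pr).differentiableAt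
  exact ContinuousAt.comp (f := fderiv ℝ (hatMap e x₁ : E → F)) h3 h2

theorem pform_ne {u : ℕ} (e : M → F) (Pr : F →L[ℝ] (Fin u → ℝ)) (z : M) (V : Submodule ℝ E)
    (hinj : Function.Injective (dm E e z)) {C : ℝ}
    (hV : ∀ w ∈ V, ‖dm E e z w‖ ≤ C * ‖Pr (dm E e z w)‖)
    (v : Fin u → E) (hv : ∀ j, v j ∈ V) (hlin : LinearIndependent ℝ v) :
    pform e Pr z v ≠ 0 := by
  rw [pform_apply]
  apply detA_ne_zero
  let T : V →ₗ[ℝ] (Fin u → ℝ) := Pr.toLinearMap ∘ₗ (dm E e z).toLinearMap ∘ₗ V.subtype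
  have hT : Function.Injective T := by
    rw [injective_iff_map_eq_zero]
    intro w hw
    have h1 := hV w w.2
    have h2 : Pr (dm E e z w) = 0 := hw
    rw [h2, norm_zero, mul_zero] at h1
    have h3 : dm E e z (w : E) = dm E e z 0 := by
      rw [map_zero]; exact norm_le_zero_iff.mp h1
    exact Subtype.ext (hinj h3)
  have h1 : LinearIndependent ℝ (fun j => (⟨v j, hv j⟩ : V)) := by
    apply LinearIndependent.of_comp V.subtype
    exact hlin
  have h2 := h1.map' T (LinearMap.ker_eq_bot.mpr hT)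
  exact h2

end Pool.Agent.H74.RS
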