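import Pool.Agent.H74.G.R_seed8.H789R2.AN.Man

set_option autoImplicit false
set_option linter.unusedSectionVars false

open scoped Manifold ContDiff Topology
open Set Filter

namespace Pool.Agent.H74.RS

open Pool.Agent.H721R2

variable {E : Type*} [NormedAddCommGroup E] [NormedSpace ℝ E]
  {M : Type*} [TopologicalSpace M] [ChartedSpace E M]

/-- inverse chart -/
noncomputable abbrev ic (E : Type*) [NormedAddCommGroup E] [NormedSpace ℝ E]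
    {M : Type*} [TopologicalSpace M] [ChartedSpace E M] (x₀ : M) : E → M :=
  (extChartAt 𝓘(ℝ, E) x₀).symm

/-- domain of the inverse chart -/
abbrev tg (E : Type*) [NormedAddCommGroup E] [NormedSpace ℝ E]
    {M : Type*} [TopologicalSpace M] [ChartedSpace E M] (x₀ : M) : Set E :=
  (extChartAt 𝓘(ℝ, E) x₀).target

/-- derivative of a map from the model space to the manifold -/
noncomputable def dc (g : E → M) (y : E) : E →L[ℝ] E :=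
  mfderiv 𝓘(ℝ, E) 𝓘(ℝ, E) g y

/-- pull-back of a form on `M` under a map `E → M` -/
noncomputable def pl {k : ℕ} (g : E → M) (w : M → E [⋀^Fin k]→L[ℝ] ℝ) (y : E) :
    E [⋀^Fin k]→L[ℝ] ℝ :=
  (w (g y)).compContinuousLinearMap (dc g y)

theorem pl_apply {k : ℕ} (g : E → M) (w : M → E [⋀^Fin k]→L[ℝ] ℝ) (y : E) (v : Fin k → E) :
    pl g w y v = w (g y) (fun i => dc g y (v i)) := rfl

theorem ic_contMDiffAt (n : WithTop ℕ∞) [IsManifold 𝓘(ℝ, E) n M] (x₀ : M) {y : E}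
    (hy : y ∈ tg E x₀) :
    ContMDiffAt 𝓘(ℝ, E) 𝓘(ℝ, E) n (ic E x₀) y :=
  (contMDiffOn_extChartAt_symm x₀).contMDiffAt
    ((isOpen_extChartAt_target x₀).mem_nhds hy)

/-- chain rule for a self-map composed with the inverse chart -/
theorem dc_comp [IsManifold 𝓘(ℝ, E) 1 M] (G : M → M) (hG : ContMDiff 𝓘(ℝ, E) 𝓘(ℝ, E) 1 G) (x₀ : M)
    {y : E} (hy : y ∈ tg E x₀) (v : E) :
    dc (G ∘ ic E x₀) y v = dg E G (ic E x₀ y) (dc (ic E x₀) y v) := by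
  have h1 : MDifferentiableAt 𝓘(ℝ, E) 𝓘(ℝ, E) (ic E x₀) y :=
    (ic_contMDiffAt 1 x₀ hy).mdifferentiableAt (by norm_num)
  have h2 : MDifferentiableAt 𝓘(ℝ, E) 𝓘(ℝ, E) G (ic E x₀ y) :=
    hG.mdifferentiableAt (by norm_num)
  have := mfderiv_comp y h2 h1
  show mfderiv 𝓘(ℝ, E) 𝓘(ℝ, E) (G ∘ ic E x₀) y v = _
  rw [this]; rfl

/-- transition representation of a map near a point -/
noncomputable def tr (G : M → M) (x₀ x₁ : M) : E → E :=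
  extChartAt 𝓘(ℝ, E) x₁ ∘ G ∘ ic E x₀

theorem tr_contDiffAt (n : WithTop ℕ∞) [IsManifold 𝓘(ℝ, E) n M] (G : M → M)
    (hG : ContMDiff 𝓘(ℝ, E) 𝓘(ℝ, E) n G) (x₀ x₁ : M)
    {y : E} (hy : y ∈ tg E x₀) (h1 : G (ic E x₀ y) ∈ (extChartAt 𝓘(ℝ, E) x₁).source) :
    ContDiffAt ℝ n (tr G x₀ x₁ : E → E) y := by
  rw [← contMDiffAt_iff_contDiffAt]
  have a1 := ic_contMDiffAt (M := M) n x₀ hy
  have a2 : ContMDiffAt 𝓘(ℝ, E) 𝓘(ℝ, E) n G (ic E x₀ y) := hG.contMDiffAt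
  have a3 : ContMDiffAt 𝓘(ℝ, E) 𝓘(ℝ, E) n (extChartAt 𝓘(ℝ, E) x₁) (G (ic E x₀ y)) := by
    apply contMDiffAt_extChartAt'
    rwa [extChartAt_source] at h1
  exact a3.comp y (a2.comp y a1)

theorem ic_tr (G : M → M) (x₀ x₁ : M) {y : E}
    (h1 : G (ic E x₀ y) ∈ (extChartAt 𝓘(ℝ, E) x₁).source) :
    ic E x₁ (tr G x₀ x₁ y : E) = G (ic E x₀ y) :=
  (extChartAt 𝓘(ℝ, E) x₁).left_inv h1

theorem tr_mem (G : M → M) (x₀ x₁ : M) {y : E}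
    (h1 : G (ic E x₀ y) ∈ (extChartAt 𝓘(ℝ, E) x₁).source) :
    (tr G x₀ x₁ y : E) ∈ tg E x₁ :=
  (extChartAt 𝓘(ℝ, E) x₁).map_source h1

theorem eventually_source [IsManifold 𝓘(ℝ, E) 1 M] (G : M → M) (hG : Continuous G)
    (x₀ x₁ : M) {y : E} (hy : y ∈ tg E x₀)
    (h1 : G (ic E x₀ y) ∈ (extChartAt 𝓘(ℝ, E) x₁).source) :
    ∀ᶠ y' in 𝓝 y, y' ∈ tg E x₀ ∧ G (ic E x₀ y') ∈ (extChartAt 𝓘(ℝ, E) x₁).source := by
  have a1 : ContinuousAt (ic E x₀) y := (ic_contMDiffAt (M := M) 1 x₀ hy).continuousAt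
  have a2 : ContinuousAt (fun y' => G (ic E x₀ y')) y := hG.continuousAt.comp a1
  have a0 : ∀ᶠ y' in 𝓝 y, y' ∈ tg E x₀ := (isOpen_extChartAt_target x₀).mem_nhds hy
  exact a0.and
    (a2.preimage_mem_nhds ((isOpen_extChartAt_source x₁).mem_nhds h1))

theorem dc_tr [IsManifold 𝓘(ℝ, E) 1 M] (G : M → M) (hG : ContMDiff 𝓘(ℝ, E) 𝓘(ℝ, E) 1 G) (x₀ x₁ : M)
    {y : E} (hy : y ∈ tg E x₀) (h1 : G (ic E x₀ y) ∈ (extChartAt 𝓘(ℝ, E) x₁).source) (v : E) :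
    dc (G ∘ ic E x₀) y v = dc (ic E x₁) (tr G x₀ x₁ y) (fderiv ℝ (tr G x₀ x₁ : E → E) y v) := by
  have e1 : (G ∘ ic E x₀) =ᶠ[𝓝 y] (ic E x₁ ∘ tr G x₀ x₁) := by
    filter_upwards [eventually_source G hG.continuous x₀ x₁ hy h1] with y' hy'
    exact (ic_tr G x₀ x₁ hy'.2).symm
  have a1 : MDifferentiableAt 𝓘(ℝ, E) 𝓘(ℝ, E) (tr G x₀ x₁ : E → E) y :=
    ((contMDiffAt_iff_contDiffAt.mpr (tr_contDiffAt 1 G hG x₀ x₁ hy h1))).mdifferentiableAt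
      (by norm_num)
  have a2 : MDifferentiableAt 𝓘(ℝ, E) 𝓘(ℝ, E) (ic E x₁) (tr G x₀ x₁ y : E) :=
    (ic_contMDiffAt 1 x₁ (tr_mem G x₀ x₁ h1)).mdifferentiableAt (by norm_num)
  have := mfderiv_comp y a2 a1
  show mfderiv 𝓘(ℝ, E) 𝓘(ℝ, E) (G ∘ ic E x₀) y v = _
  rw [e1.mfderiv_eq, this, mfderiv_eq_fderiv]; rfl

/-- local representation of the pulled back form through another chart -/
theorem pl_tr [IsManifold 𝓘(ℝ, E) 1 M] {k : ℕ} (G : M → M) (hG : ContMDiff 𝓘(ℝ, E) 𝓘(ℝ, E) 1 G)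
    (x₀ x₁ : M) (w : M → E [⋀^Fin k]→L[ℝ] ℝ)
    {y : E} (hy : y ∈ tg E x₀) (h1 : G (ic E x₀ y) ∈ (extChartAt 𝓘(ℝ, E) x₁).source) :
    pl (G ∘ ic E x₀) w y = (pl (ic E x₁) w (tr G x₀ x₁ y)).compContinuousLinearMap
      (fderiv ℝ (tr G x₀ x₁ : E → E) y) := by
  ext v
  rw [pl_apply, ContinuousAlternatingMap.compContinuousLinearMap_apply, pl_apply]
  have e1 : (G ∘ ic E x₀) y = ic E x₁ (tr G x₀ x₁ y) := (ic_tr G x₀ x₁ h1).symm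
  have e2 : (fun i => dc (G ∘ ic E x₀) y (v i)) = fun i => dc (ic E x₁) (tr G x₀ x₁ y)
      ((fderiv ℝ (tr G x₀ x₁ : E → E) y ∘ v) i) := by
    funext i
    exact dc_tr G hG x₀ x₁ hy h1 (v i)
  rw [e2, e1]

/-- local representation of a further pull-back through another chart -/
theorem pl_tr' [IsManifold 𝓘(ℝ, E) 1 M] {k : ℕ} (G H : M → M)
    (hG : ContMDiff 𝓘(ℝ, E) 𝓘(ℝ, E) 1 G) (hH : ContMDiff 𝓘(ℝ, E) 𝓘(ℝ, E) 1 H)
    (x₀ x₁ : M) (w : M → E [⋀^Fin k]→L[ℝ] ℝ)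
    {y : E} (hy : y ∈ tg E x₀) (h1 : G (ic E x₀ y) ∈ (extChartAt 𝓘(ℝ, E) x₁).source) :
    pl ((H ∘ G) ∘ ic E x₀) w y = (pl (H ∘ ic E x₁) w (tr G x₀ x₁ y)).compContinuousLinearMap
      (fderiv ℝ (tr G x₀ x₁ : E → E) y) := by
  have e1 := ic_tr G x₀ x₁ h1
  have ey := tr_mem G x₀ x₁ h1
  ext v
  rw [pl_apply, ContinuousAlternatingMap.compContinuousLinearMap_apply, pl_apply]
  have e2 : (fun i => dc ((H ∘ G) ∘ ic E x₀) y (v i)) = fun i => dc (H ∘ ic E x₁) (tr G x₀ x₁ y)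
      ((fderiv ℝ (tr G x₀ x₁ : E → E) y ∘ v) i) := by
    funext i
    have a1 := dc_comp (H ∘ G) (hH.comp hG) x₀ hy (v i)
    have a2 := dg_comp G H hG hH (ic E x₀ y) (dc (ic E x₀) y (v i))
    have a3 := dc_comp H hH x₁ ey (fderiv ℝ (tr G x₀ x₁ : E → E) y (v i))
    have a4 := dc_comp G hG x₀ hy (v i)
    have a5 := dc_tr G hG x₀ x₁ hy h1 (v i)
    rw [a1, a2, ← a4, a5, ← e1]
    exact a3.symm
  rw [e2]
  have e3 : ((H ∘ G) ∘ ic E x₀) y = (H ∘ ic E x₁) (tr G x₀ x₁ y) := by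
    show H (G (ic E x₀ y)) = H (ic E x₁ (tr G x₀ x₁ y))
    rw [e1]
  rw [e3]

theorem eval_contDiff (k : ℕ) (n : WithTop ℕ∞) :
    ContDiff ℝ n (fun p : (E [⋀^Fin k]→L[ℝ] ℝ) × (Fin k → E) => p.1 p.2) :=
  (ContinuousLinearMap.analyticOnNhd_uncurry_of_multilinear
    (ContinuousAlternatingMap.toContinuousMultilinearMapCLM ℝ :
      (E [⋀^Fin k]→L[ℝ] ℝ) →L[ℝ] _)).contDiff

/-- a form with `C¹` coefficients -/
def C1Form {k : ℕ} (b : M → E [⋀^Fin k]→L[ℝ] ℝ) : Prop :=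
  ∀ x₀ : M, ContDiffOn ℝ 1 (pl (ic E x₀) b) (tg E x₀)

/-- a form with continuous coefficients -/
def C0Form {k : ℕ} (b : M → E [⋀^Fin k]→L[ℝ] ℝ) : Prop :=
  ∀ x₀ : M, ContinuousOn (pl (ic E x₀) b) (tg E x₀)

/-- `f` expands the volume form `w` of the field `V` at the rate `1 / J`. -/
def VolExp {u : ℕ} (f : M → M) (V : M → Submodule ℝ E) (w : M → E [⋀^Fin u]→L[ℝ] ℝ) (J : ℝ) :
    Prop :=
  0 < J ∧ ∃ c > 0, ∀ (m : ℕ) (x : M) (v : Fin u → E), (∀ j, v j ∈ V x) →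
    c * |w x v| ≤ J ^ m * |w (f^[m] x) (fun i => dg E (f^[m]) x (v i))|

section c2

variable [IsManifold 𝓘(ℝ, E) 2 M] {k : ℕ} (G : M → M) (hG : ContMDiff 𝓘(ℝ, E) 𝓘(ℝ, E) 2 G)
  {b : M → E [⋀^Fin k]→L[ℝ] ℝ} (hb : C1Form b) (x₀ : M) {y : E} (hy : y ∈ tg E x₀)
include hG hb hy

theorem pl_eventually :
    pl (G ∘ ic E x₀) b =ᶠ[𝓝 y] fun y' =>
      (pl (ic E (G (ic E x₀ y))) b (tr G x₀ (G (ic E x₀ y)) y')).compContinuousLinearMap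
      (fderiv ℝ (tr G x₀ (G (ic E x₀ y)) : E → E) y') := by
  have : IsManifold 𝓘(ℝ, E) 1 M := .of_le (n := 2) (by norm_num)
  have hG1 : ContMDiff 𝓘(ℝ, E) 𝓘(ℝ, E) 1 G := hG.of_le (by norm_num)
  filter_upwards [eventually_source G hG1.continuous x₀ (G (ic E x₀ y)) hy
    (mem_extChartAt_source _)] with y' hy'
  exact pl_tr G hG1 x₀ _ b hy'.1 hy'.2

theorem aux_contDiffAt :
    ContDiffAt ℝ 1 (pl (ic E (G (ic E x₀ y))) b) (tr G x₀ (G (ic E x₀ y)) y) :=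
  (hb _).contDiffAt ((isOpen_extChartAt_target _).mem_nhds (tr_mem G x₀ _ (mem_extChartAt_source _)))

theorem pl_differentiableAt : DifferentiableAt ℝ (pl (G ∘ ic E x₀) b) y := by
  rw [(pl_eventually G hG hb x₀ hy).differentiableAt_iff]
  have h1 := tr_contDiffAt 2 G hG x₀ (G (ic E x₀ y)) hy (mem_extChartAt_source _)
  have h2 := aux_contDiffAt G hG hb x₀ hy
  apply DifferentiableAt.continuousAlternatingMapCompContinuousLinearMap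
  · exact (h2.differentiableAt (by norm_num)).comp y (h1.differentiableAt (by norm_num))
  · exact (h1.fderiv_right (m := 1) (by norm_num)).differentiableAt (by norm_num)

theorem pl_extDeriv : extDeriv (pl (G ∘ ic E x₀) b) y =
    (extDeriv (pl (ic E (G (ic E x₀ y))) b) (tr G x₀ (G (ic E x₀ y)) y)).compContinuousLinearMap
      (fderiv ℝ (tr G x₀ (G (ic E x₀ y)) : E → E) y) := by
  rw [(pl_eventually G hG hb x₀ hy).extDeriv_eq]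
  have h1 := tr_contDiffAt 2 G hG x₀ (G (ic E x₀ y)) hy (mem_extChartAt_source _)
  have h2 := aux_contDiffAt G hG hb x₀ hy
  exact extDeriv_pullback (h2.differentiableAt (by norm_num)) h1 (by simp)

theorem pl_eval_contDiffAt (v : Fin k → E) :
    ContDiffAt ℝ 1 (fun y' => pl (G ∘ ic E x₀) b y' v) y := by
  have h1 := tr_contDiffAt 2 G hG x₀ (G (ic E x₀ y)) hy (mem_extChartAt_source _)
  have h2 := aux_contDiffAt G hG hb x₀ hy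
  have h3 : ContDiffAt ℝ 1 (fun y' =>
    ((pl (ic E (G (ic E x₀ y))) b (tr G x₀ (G (ic E x₀ y)) y')).compContinuousLinearMap
      (fderiv ℝ (tr G x₀ (G (ic E x₀ y)) : E → E) y')) v) y := by
    have h4 : ContDiffAt ℝ 1 (fun y' => (pl (ic E (G (ic E x₀ y))) b
        (tr G x₀ (G (ic E x₀ y)) y'), fun i => fderiv ℝ (tr G x₀ (G (ic E x₀ y)) : E → E) y' (v i))) y := by
      apply ContDiffAt.prodMk
      · exact h2.comp y (h1.of_le (by norm_num))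
      · rw [contDiffAt_pi]
        intro i
        exact (h1.fderiv_right (m := 1) (by norm_num)).clm_apply contDiffAt_const
    exact (eval_contDiff k 1).contDiffAt.comp y h4
  refine h3.congr_of_eventuallyEq ?_
  filter_upwards [pl_eventually G hG hb x₀ hy] with y' hy'
  rw [hy']

end c2

/-- If `f^* w = w' + db` then `(fⁿ⁺¹)^* w = (fⁿ)^* w' + d (fⁿ)^* b`, in charts. -/
theorem pl_step [IsManifold 𝓘(ℝ, E) 2 M] {k : ℕ} (f G : M → M)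
    (hf : ContMDiff 𝓘(ℝ, E) 𝓘(ℝ, E) 2 f) (hG : ContMDiff 𝓘(ℝ, E) 𝓘(ℝ, E) 2 G)
    {b : M → E [⋀^Fin k]→L[ℝ] ℝ} (hb : C1Form b) (w w' : M → E [⋀^Fin (k + 1)]→L[ℝ] ℝ)
    (h : ∀ x₀ : M, ∀ y ∈ tg E x₀, pl (f ∘ ic E x₀) w y =
      pl (ic E x₀) w' y + extDeriv (pl (ic E x₀) b) y) (x₀ : M) {y : E} (hy : y ∈ tg E x₀) :
    pl ((f ∘ G) ∘ ic E x₀) w y = pl (G ∘ ic E x₀) w' y + extDeriv (pl (G ∘ ic E x₀) b) y := by
  have : IsManifold 𝓘(ℝ, E) 1 M := .of_le (n := 2) (by norm_num)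
  have hG1 : ContMDiff 𝓘(ℝ, E) 𝓘(ℝ, E) 1 G := hG.of_le (by norm_num)
  have hf1 : ContMDiff 𝓘(ℝ, E) 𝓘(ℝ, E) 1 f := hf.of_le (by norm_num)
  have hs := mem_extChartAt_source (I := 𝓘(ℝ, E)) (G (ic E x₀ y))
  rw [pl_extDeriv G hG hb x₀ hy, pl_tr' G f hG1 hf1 x₀ _ w hy hs, pl_tr G hG1 x₀ _ w' hy hs,
    h _ _ (tr_mem G x₀ _ hs)]
  ext v
  simp [ContinuousAlternatingMap.compContinuousLinearMap_apply]

end Pool.Agent.H74.RS
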