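import Mathlib

set_option autoImplicit false
set_option linter.unusedSectionVars false

namespace Pool.Agent.H74.RS

variable {E : Type*} [NormedAddCommGroup E] [NormedSpace ℝ E] [FiniteDimensional ℝ E]
  {F F' : Type*} [NormedAddCommGroup F] [InnerProductSpace ℝ F]
  [NormedAddCommGroup F'] [InnerProductSpace ℝ F'] [FiniteDimensional ℝ F']

/-- Singular value decomposition: a frame which is orthonormal for one embedding and orthogonal for
another map. -/
theorem svd_frame (T : E →L[ℝ] F) (hT : Function.Injective T) (S : E →L[ℝ] F')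
    (P : Submodule ℝ E) {u : ℕ} (hP : Module.finrank ℝ P = u) :
    ∃ v : Fin u → E, (∀ j, v j ∈ P) ∧ Orthonormal ℝ (fun j => T (v j)) ∧
      ∀ i j, i ≠ j → inner ℝ (S (v i)) (S (v j)) = 0 := by
  let V := P.map T.toLinearMap
  let ε : P ≃ₗ[ℝ] V := Submodule.equivMapOfInjective T.toLinearMap hT P
  have hVd : Module.finrank ℝ V = u := by rw [← hP]; exact ε.symm.finrank_eq
  let A : V →ₗ[ℝ] F' := S.toLinearMap ∘ₗ P.subtype ∘ₗ ε.symm.toLinearMap
  let G : V →ₗ[ℝ] V := LinearMap.adjoint A ∘ₗ A
  have hG : G.IsSymmetric := by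
    intro v w
    show inner ℝ (LinearMap.adjoint A (A v)) w = inner ℝ v (LinearMap.adjoint A (A w))
    rw [LinearMap.adjoint_inner_left, LinearMap.adjoint_inner_right]
  let b := hG.eigenvectorBasis hVd
  refine ⟨fun j => (ε.symm (b j) : P), fun j => (ε.symm (b j)).2, ?_, fun i j hij => ?_⟩
  · have h1 : (fun j => T ((ε.symm (b j) : P) : E)) = fun j => V.subtypeₗᵢ (b j) := by
      funext j
      have h2 : ε (ε.symm (b j)) = b j := ε.apply_symm_apply _
      have h3 := congrArg (fun x : V => (x : F)) h2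
      exact h3
    rw [h1]
    exact b.orthonormal.comp_linearIsometry _
  · show inner ℝ (A (b i)) (A (b j)) = 0
    rw [← LinearMap.adjoint_inner_left]
    have h1 : LinearMap.adjoint A (A (b i)) = G (b i) := rfl
    rw [h1]
    have h2 := hG.apply_eigenvectorBasis hVd i
    have h3 : G (b i) = (hG.eigenvalues hVd i : ℝ) • b i := h2
    rw [h3, inner_smul_left, b.orthonormal.2 hij, mul_zero]

end Pool.Agent.H74.RS
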