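import Pool.Agent.H74.RS.Geo
import Pool.Agent.H74.RS.Svd

set_option autoImplicit false
set_option linter.unusedSectionVars false

open scoped Manifold ContDiff Topology
open Set Filter

namespace Pool.Agent.H74.RS

open Pool.Agent.H721R2

variable {E : Type*} [NormedAddCommGroup E] [NormedSpace ℝ E] [FiniteDimensional ℝ E]
  {M : Type*} [MetricSpace M] [CompactSpace M] [ChartedSpace E M] [IsManifold 𝓘(ℝ, E) 1 M]
  {F : Type*} [NormedAddCommGroup F] [InnerProductSpace ℝ F] [FiniteDimensional ℝ F]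

theorem exists_frame (T : E →L[ℝ] F) (hT : Function.Injective T) (V : Submodule ℝ E) {u : ℕ}
    (hu : Module.finrank ℝ V = u) :
    ∃ w : Fin u → E, (∀ j, w j ∈ V) ∧ Orthonormal ℝ (fun j => T (w j)) := by
  have h1 : Module.finrank ℝ (V.map T.toLinearMap) = u := by
    rw [← hu]
    exact (Submodule.equivMapOfInjective T.toLinearMap hT V).symm.finrank_eq
  let b := (stdOrthonormalBasis ℝ (V.map T.toLinearMap)).reindex (finCongr h1)
  have h2 : ∀ j, ∃ w ∈ V, T w = (b j : F) := fun j => (b j).2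
  choose w hw hw' using h2
  refine ⟨w, hw, ?_⟩
  have : (fun j => T (w j)) = fun j => ((V.map T.toLinearMap).subtypeₗᵢ (b j)) := by
    funext j; rw [hw']; rfl
  rw [this]
  exact b.orthonormal.comp_linearIsometry _

theorem iter_sub (f : M ≃ₜ M) {k n : ℕ} (hk : k ≤ n) : f^[k] ∘ f.symm^[n] = f.symm^[n - k] := by
  funext z
  obtain ⟨m, rfl⟩ := Nat.exists_eq_add_of_le hk
  rw [Nat.add_sub_cancel_left]
  show f^[k] (f.symm^[k + m] z) = _
  rw [Function.iterate_add_apply, iter_right]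

theorem frames {e : M → F} (he : ContMDiff 𝓘(ℝ, E) 𝓘(ℝ, F) 1 e)
    (hinj : ∀ x, Function.Injective (dm E e x))
    {f : M ≃ₜ M} {Es Eu : M → Submodule ℝ E} {C a b Ls Lu : ℝ}
    (h : EAnosov e f Es Eu C a b Ls Lu) {u : ℕ} (hu : ∀ x, Module.finrank ℝ (Eu x) = u) (x₀ : M) :
    ∃ r > 0, ∃ C₂ > 0, Metric.ball (extChartAt 𝓘(ℝ, E) x₀ x₀) r ⊆ tg E x₀ ∧
      ∀ y ∈ Metric.ball (extChartAt 𝓘(ℝ, E) x₀ x₀) r, ∀ n : ℕ, ∀ k₀ ≤ n, ∃ w v p : Fin u → E,
        (∀ j, w j ∈ Eu (f^[n] (ic E x₀ y))) ∧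
        Orthonormal ℝ (fun j => dm E e (f^[n] (ic E x₀ y)) (w j)) ∧
        (∀ j, v j ∈ Eu x₀) ∧ (∀ j, ‖v j‖ ≤ C₂ * b ^ n) ∧
        (∀ k ≤ n, ∀ j, ‖dm E e (f^[k] (ic E x₀ y)) (dc (f^[k] ∘ ic E x₀) y (v j))‖ ≤
          C₂ * b ^ (n - k)) ∧
        (∀ j, ‖dm E e (f^[n] (ic E x₀ y)) (dc (f^[n] ∘ ic E x₀) y (v j) - w j)‖ ≤ C₂ * b ^ n) ∧
        (∀ j, p j ∈ Eu (f^[k₀] (ic E x₀ y))) ∧
        (∀ i j, i ≠ j → inner ℝ (dm E e (f^[k₀] (ic E x₀ y)) (p i))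
          (dm E e (f^[k₀] (ic E x₀ y)) (p j)) = 0) ∧
        (∀ j, dg E (f^[n - k₀]) (f^[k₀] (ic E x₀ y)) (p j) = w j) ∧
        (∀ j, ‖v j‖ ≤ C₂ * b ^ k₀ * ‖dm E e (f^[k₀] (ic E x₀ y)) (p j)‖) ∧
        (∀ j, ‖dm E e (f^[k₀] (ic E x₀ y)) (dc (f^[k₀] ∘ ic E x₀) y (v j))‖ ≤
          C₂ * ‖dm E e (f^[k₀] (ic E x₀ y)) (p j)‖) := by
  obtain ⟨r, hr, C₁, hC₁, hball, hl⟩ := lift he hinj h hu x₀
  have hC := h.C_pos
  have hC0 : 0 < C := by linarith
  have ha0 := h.a_pos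
  have ha1 := h.a_lt
  have hb0 := h.b_pos
  have hb1 := h.b_lt
  refine ⟨r, hr, C₁ * C + C * (C₁ * C) + C, by positivity, hball, fun y hy n k₀ hk₀ => ?_⟩
  set x := ic E x₀ y with hx
  set C₂ := C₁ * C + C * (C₁ * C) + C with hC₂
  obtain ⟨w, hw, hwo, hwp⟩ := svd_frame (dm E e (f^[n] x)) (hinj _)
    ((dm E e (f^[k₀] x)).comp (dg E (f.symm^[n - k₀]) (f^[n] x))) (Eu (f^[n] x)) (hu _)
  have hfx : f.symm^[n] (f^[n] x) = x := iter_left f n x
  have hsm := fun k => iter_smooth f h.smooth k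
  have hsm' := fun k => iter_smooth f.symm h.smooth' k
  set w' : Fin u → E := fun j => dg E (f.symm^[n]) (f^[n] x) (w j) with hw'
  have hw1 : ∀ j, w' j ∈ Eu x := by
    intro j
    have := h.mapU' n (f^[n] x) (w j) (hw j)
    rwa [hfx] at this
  have hw2 : ∀ j, ‖dm E e x (w' j)‖ ≤ C * b ^ n := by
    intro j
    have := h.hU' n (f^[n] x) (w j) (hw j)
    rw [hfx, hwo.1 j, mul_one] at this
    exact this
  have hlj : ∀ j, ∃ v ∈ Eu x₀, ∃ s ∈ Es x, s + w' j = dc (ic E x₀) y v ∧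
        ‖v‖ ≤ C₁ * ‖dm E e x (w' j)‖ ∧ ‖dm E e x s‖ ≤ C₁ * ‖dm E e x (w' j)‖ :=
    fun j => hl y hy (w' j) (hw1 j)
  choose v hv s hs hsv hv1 hs1 using hlj
  have hbn : ∀ n : ℕ, 0 < b ^ n := fun n => by positivity
  have hv2 : ∀ j, ‖v j‖ ≤ C₁ * C * b ^ n := fun j => (hv1 j).trans (by
    have := mul_le_mul_of_nonneg_left (hw2 j) hC₁.le
    linarith)
  have hs2 : ∀ j, ‖dm E e x (s j)‖ ≤ C₁ * C * b ^ n := fun j => (hs1 j).trans (by
    have := mul_le_mul_of_nonneg_left (hw2 j) hC₁.le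
    linarith)
  have hs3 : ∀ k j, ‖dm E e (f^[k] x) (dg E (f^[k]) x (s j))‖ ≤ C * (C₁ * C) * b ^ n := by
    intro k j
    have h1 := h.hS k x (s j) (hs j)
    have h2 : a ^ k ≤ 1 := pow_le_one₀ ha0.le ha1.le
    have h3 : C * a ^ k ≤ C := by
      have := mul_le_mul_of_nonneg_left h2 hC0.le
      linarith
    calc _ ≤ C * a ^ k * ‖dm E e x (s j)‖ := h1
      _ ≤ C * ‖dm E e x (s j)‖ := mul_le_mul_of_nonneg_right h3 (norm_nonneg _)
      _ ≤ C * (C₁ * C * b ^ n) := mul_le_mul_of_nonneg_left (hs2 j) hC0.le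
      _ = _ := by ring
  have hyt := hball hy
  have hdc : ∀ k j, dc (f^[k] ∘ ic E x₀) y (v j) =
      dg E (f^[k]) x (s j) + dg E (f^[k]) x (w' j) := by
    intro k j
    rw [dc_comp (f^[k]) (hsm k) x₀ hyt, ← hsv j, map_add]
  have hfk : f.symm^[n - k₀] (f^[n] x) = f^[k₀] x := by
    rw [← iter_sub f hk₀]
    show f^[k₀] (f.symm^[n] (f^[n] x)) = _
    rw [hfx]
  have hdp : ∀ j, dg E (f^[k₀]) x (w' j) = dg E (f.symm^[n - k₀]) (f^[n] x) (w j) := fun j => by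
    rw [← iter_sub f hk₀, dg_comp _ _ (hsm' n) (hsm k₀), hfx]
  have hpU : ∀ j, dg E (f.symm^[n - k₀]) (f^[n] x) (w j) ∈ Eu (f^[k₀] x) := by
    intro j
    have := h.mapU' (n - k₀) (f^[n] x) (w j) (hw j)
    rwa [hfk] at this
  have hwp' : ∀ j, ‖dm E e x (w' j)‖ ≤
      C * b ^ k₀ * ‖dm E e (f^[k₀] x) (dg E (f.symm^[n - k₀]) (f^[n] x) (w j))‖ := by
    intro j
    have h1 := h.hU' k₀ (f^[k₀] x) _ (hpU j)
    have h2 : f.symm^[k₀] (f^[k₀] x) = x := iter_left f k₀ x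
    have h3 : dg E (f.symm^[k₀]) (f^[k₀] x) (dg E (f.symm^[n - k₀]) (f^[n] x) (w j)) = w' j := by
      rw [← hdp j]
      have h4 := dg_inv (f^[k₀]) (f.symm^[k₀]) (hsm k₀) (hsm' k₀) (iter_left f k₀) x (w' j)
      exact h4
    rw [h2, h3] at h1
    exact h1
  refine ⟨w, v, fun j => dg E (f.symm^[n - k₀]) (f^[n] x) (w j), hw, hwo, hv,
    fun j => (hv2 j).trans ?_, fun k hk j => ?_, fun j => ?_, hpU, hwp, fun j => ?_, fun j => ?_,
    fun j => ?_⟩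
  · apply mul_le_mul_of_nonneg_right _ (hbn n).le
    have : 0 ≤ C * (C₁ * C) := by positivity
    linarith
  · rw [hdc, map_add]
    refine (norm_add_le _ _).trans ?_
    have h1 := hs3 k j
    have h2 : dg E (f^[k]) x (w' j) = dg E (f.symm^[n - k]) (f^[n] x) (w j) := by
      rw [← iter_sub f hk, dg_comp _ _ (hsm' n) (hsm k), hfx]
    have h3 : ‖dm E e (f^[k] x) (dg E (f^[k]) x (w' j))‖ ≤ C * b ^ (n - k) := by
      have h4 := h.hU' (n - k) (f^[n] x) (w j) (hw j)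
      rw [hwo.1 j, mul_one] at h4
      have h5 : f.symm^[n - k] (f^[n] x) = f^[k] x := by
        rw [← iter_sub f hk]
        show f^[k] (f.symm^[n] (f^[n] x)) = _
        rw [hfx]
      rw [h5] at h4
      rw [h2]; exact h4
    have h6 : b ^ n ≤ b ^ (n - k) := pow_le_pow_of_le_one hb0.le hb1.le (Nat.sub_le _ _)
    have h7 : C * (C₁ * C) * b ^ n ≤ C * (C₁ * C) * b ^ (n - k) :=
      mul_le_mul_of_nonneg_left h6 (by positivity)
    have h8 : 0 ≤ C₁ * C * b ^ (n - k) := by positivity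
    rw [hC₂]
    linarith
  · have h1 : dc (f^[n] ∘ ic E x₀) y (v j) - w j = dg E (f^[n]) x (s j) := by
      rw [hdc]
      have h2 : dg E (f^[n]) x (w' j) = w j := by
        have h3 := dg_inv (f.symm^[n]) (f^[n]) (hsm' n) (hsm n) (iter_right f n) (f^[n] x) (w j)
        rwa [hfx] at h3
      rw [h2]; exact add_sub_cancel_right _ _
    rw [h1]
    refine (hs3 n j).trans ?_
    apply mul_le_mul_of_nonneg_right _ (hbn n).le
    have : 0 ≤ C₁ * C := by positivity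
    linarith
  · have h3 := dg_inv (f.symm^[n - k₀]) (f^[n - k₀]) (hsm' _) (hsm _) (iter_right f (n - k₀))
      (f^[n] x) (w j)
    rwa [hfk] at h3
  · calc ‖v j‖ ≤ C₁ * ‖dm E e x (w' j)‖ := hv1 j
      _ ≤ C₁ * (C * b ^ k₀ * ‖dm E e (f^[k₀] x) (dg E (f.symm^[n - k₀]) (f^[n] x) (w j))‖) :=
          mul_le_mul_of_nonneg_left (hwp' j) hC₁.le
      _ = C₁ * C * b ^ k₀ * ‖dm E e (f^[k₀] x) (dg E (f.symm^[n - k₀]) (f^[n] x) (w j))‖ := by ring
      _ ≤ _ := by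
          apply mul_le_mul_of_nonneg_right _ (norm_nonneg _)
          apply mul_le_mul_of_nonneg_right _ (hbn k₀).le
          have : 0 ≤ C * (C₁ * C) := by positivity
          rw [hC₂]
          linarith
  · rw [hdc, map_add, hdp j]
    refine (norm_add_le _ _).trans ?_
    set P := ‖dm E e (f^[k₀] x) (dg E (f.symm^[n - k₀]) (f^[n] x) (w j))‖ with hP
    have hP0 : 0 ≤ P := norm_nonneg _
    have h1 : ‖dm E e (f^[k₀] x) (dg E (f^[k₀]) x (s j))‖ ≤ C * (C₁ * C) * P := by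
      have g1 := h.hS k₀ x (s j) (hs j)
      have g2 : a ^ k₀ ≤ 1 := pow_le_one₀ ha0.le ha1.le
      have g3 : C * a ^ k₀ ≤ C := by
        have := mul_le_mul_of_nonneg_left g2 hC0.le
        linarith
      have g4 : b ^ k₀ ≤ 1 := pow_le_one₀ hb0.le hb1.le
      calc _ ≤ C * a ^ k₀ * ‖dm E e x (s j)‖ := g1
        _ ≤ C * ‖dm E e x (s j)‖ := mul_le_mul_of_nonneg_right g3 (norm_nonneg _)
        _ ≤ C * (C₁ * ‖dm E e x (w' j)‖) := mul_le_mul_of_nonneg_left (hs1 j) hC0.le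
        _ ≤ C * (C₁ * (C * b ^ k₀ * P)) := by
            apply mul_le_mul_of_nonneg_left _ hC0.le
            exact mul_le_mul_of_nonneg_left (hwp' j) hC₁.le
        _ = C * (C₁ * C) * P * b ^ k₀ := by ring
        _ ≤ C * (C₁ * C) * P * 1 := mul_le_mul_of_nonneg_left g4 (by positivity)
        _ = _ := by ring
    have h2 : P ≤ C * P := by
      have := mul_le_mul_of_nonneg_right h.C_pos hP0
      linarith
    have h3 : 0 ≤ C₁ * C * P := by positivity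
    rw [hC₂]
    linarith

end Pool.Agent.H74.RS
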