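import Pool.Agent.H74.RS.Stokes

set_option autoImplicit false
set_option linter.unusedSectionVars false

open scoped Manifold ContDiff Topology
open Set Filter

namespace Pool.Agent.H74.RS

open Pool.Agent.H721R2

variable {E : Type*} [NormedAddCommGroup E] [NormedSpace ℝ E]
  {M : Type*} [MetricSpace M] [ChartedSpace E M] [IsManifold 𝓘(ℝ, E) 1 M]
  {F : Type*} [NormedAddCommGroup F] [NormedSpace ℝ F]

theorem dc_ic_self (x₀ : M) : dc (ic E x₀) (extChartAt 𝓘(ℝ, E) x₀ x₀) = ContinuousLinearMap.id ℝ E := by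
  have h := mfderivWithin_range_extChartAt_symm (I := 𝓘(ℝ, E)) (x := x₀)
  rw [show range (𝓘(ℝ, E) : E → E) = univ from by simp, mfderivWithin_univ] at h
  exact h

/-- derivative of a map read in a chart -/
theorem fderiv_hatMap (h : M → F) (hh : ContMDiff 𝓘(ℝ, E) 𝓘(ℝ, F) 1 h) (x₀ : M) {y : E}
    (hy : y ∈ tg E x₀) (v : E) :
    fderiv ℝ (hatMap h x₀ : E → F) y v = dm E h (ic E x₀ y) (dc (ic E x₀) y v) := by
  have a1 : MDifferentiableAt 𝓘(ℝ, E) 𝓘(ℝ, E) (ic E x₀) y :=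
    (ic_contMDiffAt 1 x₀ hy).mdifferentiableAt (by norm_num)
  have a2 : MDifferentiableAt 𝓘(ℝ, E) 𝓘(ℝ, F) h (ic E x₀ y) :=
    hh.mdifferentiableAt (by norm_num)
  have := mfderiv_comp y a2 a1
  rw [← mfderiv_eq_fderiv]
  show mfderiv 𝓘(ℝ, E) 𝓘(ℝ, F) (h ∘ ic E x₀) y v = _
  rw [this]; rfl

theorem fderiv_hatMap_self (h : M → F) (hh : ContMDiff 𝓘(ℝ, E) 𝓘(ℝ, F) 1 h) (x₀ : M) (v : E) :
    fderiv ℝ (hatMap h x₀ : E → F) (extChartAt 𝓘(ℝ, E) x₀ x₀) v = dm E h x₀ v := by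
  rw [fderiv_hatMap h hh x₀ (mem_extChartAt_target x₀), dc_ic_self]
  show dm E h ((extChartAt 𝓘(ℝ, E) x₀).symm (extChartAt 𝓘(ℝ, E) x₀ x₀)) v = _
  rw [extChartAt_to_inv]

variable [FiniteDimensional ℝ E]

/-- Comparison of the chart at `x₀` with the embedding near `x₀`. -/
theorem chart_loc (e : M → F) (he : ContMDiff 𝓘(ℝ, E) 𝓘(ℝ, F) 1 e)
    (hinj : ∀ x, Function.Injective (dm E e x)) (x₀ : M) :
    ∃ κ > 0, (∀ v : E, ‖dm E e x₀ v‖ ≤ κ * ‖v‖) ∧ ∀ η > 0, ∃ r > 0,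
      Metric.ball (extChartAt 𝓘(ℝ, E) x₀ x₀) r ⊆ tg E x₀ ∧
      (∀ y ∈ Metric.ball (extChartAt 𝓘(ℝ, E) x₀ x₀) r, ∀ v : E,
        ‖dm E e (ic E x₀ y) (dc (ic E x₀) y v) - dm E e x₀ v‖ ≤ η * ‖v‖) ∧
      (∀ y ∈ Metric.ball (extChartAt 𝓘(ℝ, E) x₀ x₀) r, ∀ v : E,
        ‖v‖ ≤ κ * ‖dm E e (ic E x₀ y) (dc (ic E x₀) y v)‖) ∧
      (∀ y ∈ Metric.ball (extChartAt 𝓘(ℝ, E) x₀ x₀) r, ∀ y' ∈ Metric.ball (extChartAt 𝓘(ℝ, E) x₀ x₀) r,
        ‖e (ic E x₀ y') - e (ic E x₀ y) - dm E e x₀ (y' - y)‖ ≤ η * ‖y' - y‖ ∧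
        ‖y' - y‖ ≤ κ * ‖e (ic E x₀ y') - e (ic E x₀ y)‖) := by
  obtain ⟨K, hK0, hK⟩ := (LinearMap.injective_iff_antilipschitz (dm E e x₀ : E →ₗ[ℝ] F)).mp (hinj x₀)
  have hK0' : (0 : ℝ) < K := hK0
  have hlow : ∀ w : E, ‖w‖ ≤ K * ‖dm E e x₀ w‖ := fun w =>
    ZeroHomClass.bound_of_antilipschitz (dm E e x₀ : E →ₗ[ℝ] F) hK w
  set κ : ℝ := max (‖dm E e x₀‖) (2 * K) with hκ
  have hκ0 : 0 < κ := lt_max_of_lt_right (by positivity)
  have hκ2 : 2 * K ≤ κ := le_max_right _ _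
  refine ⟨κ, hκ0, fun v => (ContinuousLinearMap.le_opNorm _ _).trans
    (mul_le_mul_of_nonneg_right (le_max_left _ _) (norm_nonneg _)), fun η hη => ?_⟩
  set η' := min (η / 2) (1 / (4 * K)) with hη'
  have hη'0 : 0 < η' := lt_min (by positivity) (by positivity)
  have hη'1 : η' ≤ η / 2 := min_le_left _ _
  have hη'2 : η' * (4 * K) ≤ 1 := by
    have : η' ≤ 1 / (4 * K) := min_le_right _ _
    rwa [le_div_iff₀ (by positivity)] at this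
  obtain ⟨r, hr, h1, h2, h3⟩ := hatMap_local e he x₀ η' hη'0
  have hd : ∀ y ∈ Metric.ball (extChartAt 𝓘(ℝ, E) x₀ x₀) r, ∀ v : E,
        ‖dm E e (ic E x₀ y) (dc (ic E x₀) y v) - dm E e x₀ v‖ ≤ η' * ‖v‖ := by
    intro y hy v
    rw [← fderiv_hatMap e he x₀ (h1 hy), ← fderiv_hatMap_self e he x₀]
    have := (ContinuousLinearMap.le_opNorm _ v).trans
      (mul_le_mul_of_nonneg_right (h2 y hy) (norm_nonneg v))
    simpa using this
  have hd2 : ∀ y ∈ Metric.ball (extChartAt 𝓘(ℝ, E) x₀ x₀) r,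
      ∀ y' ∈ Metric.ball (extChartAt 𝓘(ℝ, E) x₀ x₀) r,
        ‖e (ic E x₀ y') - e (ic E x₀ y) - dm E e x₀ (y' - y)‖ ≤ 2 * η' * ‖y' - y‖ := by
    intro y hy y' hy'
    have a1 := h3 y hy y' hy'
    have a2 := hd y hy (y' - y)
    rw [← fderiv_hatMap e he x₀ (h1 hy)] at a2
    have e1 : e (ic E x₀ y') - e (ic E x₀ y) - dm E e x₀ (y' - y) =
      (hatMap e x₀ y' - hatMap e x₀ y - fderiv ℝ (hatMap e x₀) y (y' - y)) +
      (fderiv ℝ (hatMap e x₀) y (y' - y) - dm E e x₀ (y' - y)) := by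
      show hatMap e x₀ y' - hatMap e x₀ y - dm E e x₀ (y' - y) = _
      abel
    rw [e1]
    refine (norm_add_le _ _).trans ?_
    linarith
  refine ⟨r, hr, h1, fun y hy v => (hd y hy v).trans (mul_le_mul_of_nonneg_right (by linarith)
    (norm_nonneg _)), fun y hy v => ?_, fun y hy y' hy' => ⟨(hd2 y hy y' hy').trans
    (mul_le_mul_of_nonneg_right (by linarith) (norm_nonneg _)), ?_⟩⟩
  · have a1 := hd y hy v
    have a2 := hlow v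
    have a3 := norm_sub_le (dm E e (ic E x₀ y) (dc (ic E x₀) y v))
      (dm E e (ic E x₀ y) (dc (ic E x₀) y v) - dm E e x₀ v)
    rw [sub_sub_cancel] at a3
    have a4 : (K : ℝ) * ‖dm E e x₀ v‖ ≤ K * (‖dm E e (ic E x₀ y) (dc (ic E x₀) y v)‖ + η' * ‖v‖) :=
      mul_le_mul_of_nonneg_left (by linarith) hK0'.le
    have a5 : η' * (4 * K) * ‖v‖ ≤ 1 * ‖v‖ := mul_le_mul_of_nonneg_right hη'2 (norm_nonneg v)
    have a6 : 2 * K * ‖dm E e (ic E x₀ y) (dc (ic E x₀) y v)‖ ≤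
      κ * ‖dm E e (ic E x₀ y) (dc (ic E x₀) y v)‖ := mul_le_mul_of_nonneg_right hκ2 (norm_nonneg _)
    have := norm_nonneg v
    linarith
  · have a1 := hd2 y hy y' hy'
    have a2 := hlow (y' - y)
    have a3 := norm_sub_le (e (ic E x₀ y') - e (ic E x₀ y))
      (e (ic E x₀ y') - e (ic E x₀ y) - dm E e x₀ (y' - y))
    rw [sub_sub_cancel] at a3
    have a4 : (K : ℝ) * ‖dm E e x₀ (y' - y)‖ ≤
      K * (‖e (ic E x₀ y') - e (ic E x₀ y)‖ + 2 * η' * ‖y' - y‖) :=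
      mul_le_mul_of_nonneg_left (by linarith) hK0'.le
    have a5 : η' * (4 * K) * ‖y' - y‖ ≤ 1 * ‖y' - y‖ :=
      mul_le_mul_of_nonneg_right hη'2 (norm_nonneg _)
    have a6 : 2 * K * ‖e (ic E x₀ y') - e (ic E x₀ y)‖ ≤
      κ * ‖e (ic E x₀ y') - e (ic E x₀ y)‖ := mul_le_mul_of_nonneg_right hκ2 (norm_nonneg _)
    have := norm_nonneg (y' - y)
    linarith

variable [CompactSpace M]

/-- The chart plane of the unstable space of `x₀` is transverse to the stable spaces nearby. -/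
theorem transv {e : M → F} (he : ContMDiff 𝓘(ℝ, E) 𝓘(ℝ, F) 1 e)
    (hinj : ∀ x, Function.Injective (dm E e x))
    {f : M ≃ₜ M} {Es Eu : M → Submodule ℝ E} {C a b Ls Lu : ℝ}
    (h : EAnosov e f Es Eu C a b Ls Lu) (x₀ : M) :
    ∃ r > 0, ∃ C₁ > 0, Metric.ball (extChartAt 𝓘(ℝ, E) x₀ x₀) r ⊆ tg E x₀ ∧
      ∀ y ∈ Metric.ball (extChartAt 𝓘(ℝ, E) x₀ x₀) r, ∀ v ∈ Eu x₀, ∀ s ∈ Es (ic E x₀ y),
        ∀ w ∈ Eu (ic E x₀ y), s + w = dc (ic E x₀) y v →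
        ‖v‖ ≤ C₁ * ‖dm E e (ic E x₀ y) w‖ ∧
        ‖dm E e (ic E x₀ y) s‖ ≤ C₁ * ‖dm E e (ic E x₀ y) w‖ := by
  obtain ⟨K, hK, hang⟩ := h.angle he hinj
  obtain ⟨κ, hκ0, hκ1, hκ2⟩ := chart_loc e he hinj x₀
  have hK0 : 0 < K := by linarith
  set η := 1 / (2 * κ * (K + 1) * (1 + κ)) with hη
  have hη0 : 0 < η := by positivity
  have hη1 : η * (2 * κ * (K + 1) * (1 + κ)) = 1 := by rw [hη]; field_simp
  obtain ⟨r1, hr1, b1, b2, b3, b4⟩ := hκ2 η hη0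
  obtain ⟨r2, hr2, c1⟩ := h.symm.contS he hinj η hη0
  -- continuity of the inverse chart at the centre
  have hcont : ContinuousAt (ic E x₀) (extChartAt 𝓘(ℝ, E) x₀ x₀) :=
    (ic_contMDiffAt (M := M) 1 x₀ (mem_extChartAt_target x₀)).continuousAt
  have hx₀ : ic E x₀ (extChartAt 𝓘(ℝ, E) x₀ x₀) = x₀ := extChartAt_to_inv x₀
  obtain ⟨r3, hr3, d1⟩ := Metric.continuousAt_iff.mp hcont r2 hr2
  rw [hx₀] at d1
  refine ⟨min r1 r3, lt_min hr1 hr3, 2 * κ + 1, by positivity,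
    (Metric.ball_subset_ball (min_le_left _ _)).trans b1, ?_⟩
  intro y hy v hv s hs w hw hsw
  have hy1 : y ∈ Metric.ball (extChartAt 𝓘(ℝ, E) x₀ x₀) r1 :=
    Metric.ball_subset_ball (min_le_left _ _) hy
  have hy3 : dist y (extChartAt 𝓘(ℝ, E) x₀ x₀) < r3 :=
    Metric.ball_subset_ball (min_le_right _ _) hy
  have hd := d1 hy3
  set x := ic E x₀ y with hx
  obtain ⟨u', hu', hu1⟩ := c1 x₀ x (by rwa [dist_comm]) v hv
  have e1 : dm E e x (s + w) = dm E e x (dc (ic E x₀) y v) := by rw [hsw]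
  have e2 := b2 y hy1 v
  rw [← hx, ← e1] at e2
  have hv0 := norm_nonneg v
  have e3 : ‖dm E e x (s + (w - u'))‖ ≤ η * (1 + κ) * ‖v‖ := by
    have : dm E e x (s + (w - u')) = (dm E e x (s + w) - dm E e x₀ v) +
      (dm E e x₀ v - dm E e x u') := by
      rw [← add_sub_assoc, map_sub]; abel
    rw [this]
    refine (norm_add_le _ _).trans ?_
    have h3 : η * ‖dm E e x₀ v‖ ≤ η * (κ * ‖v‖) := mul_le_mul_of_nonneg_left (hκ1 v) hη0.le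
    linarith
  obtain ⟨g1, g2⟩ := hang x s hs (w - u') ((Eu x).sub_mem hw hu')
  have e4 : K * ‖dm E e x (s + (w - u'))‖ ≤ K * (η * (1 + κ) * ‖v‖) :=
    mul_le_mul_of_nonneg_left e3 hK0.le
  -- lower bound of the norm of w
  have e5 : ‖v‖ ≤ κ * ‖dm E e x (s + w)‖ := by
    have := b3 y hy1 v
    rwa [← hx, ← e1] at this
  have e6 : ‖dm E e x (s + w)‖ ≤ ‖dm E e x s‖ + ‖dm E e x w‖ := by
    rw [map_add]; exact norm_add_le _ _
  have e7 : κ * (K * (η * (1 + κ) * ‖v‖)) ≤ 1 / 2 * ‖v‖ := by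
    have : κ * (K * (η * (1 + κ) * ‖v‖)) =
      1 / 2 * (η * (2 * κ * (K + 1) * (1 + κ))) * ‖v‖ - κ * η * (1 + κ) * ‖v‖ := by ring
    rw [this, hη1]
    have : 0 ≤ κ * η * (1 + κ) * ‖v‖ := by positivity
    linarith
  have e8 : κ * ‖dm E e x s‖ ≤ κ * (K * (η * (1 + κ) * ‖v‖)) :=
    mul_le_mul_of_nonneg_left (g1.trans e4) hκ0.le
  have e9 : κ * ‖dm E e x (s + w)‖ ≤ κ * (‖dm E e x s‖ + ‖dm E e x w‖) :=
    mul_le_mul_of_nonneg_left e6 hκ0.le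
  have e10 : ‖v‖ ≤ 2 * κ * ‖dm E e x w‖ := by linarith
  have e12 : 0 ≤ ‖dm E e x w‖ := norm_nonneg _
  have e13 : 0 ≤ κ * ‖dm E e x w‖ := by positivity
  have e11 : κ * ‖dm E e x s‖ ≤ κ * ‖dm E e x w‖ := by linarith
  have e14 := le_of_mul_le_mul_left e11 hκ0
  constructor <;> linarith

/-- Lifting unstable vectors to the chart plane. -/
theorem lift {e : M → F} (he : ContMDiff 𝓘(ℝ, E) 𝓘(ℝ, F) 1 e)
    (hinj : ∀ x, Function.Injective (dm E e x))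
    {f : M ≃ₜ M} {Es Eu : M → Submodule ℝ E} {C a b Ls Lu : ℝ}
    (h : EAnosov e f Es Eu C a b Ls Lu) {u : ℕ} (hu : ∀ x, Module.finrank ℝ (Eu x) = u) (x₀ : M) :
    ∃ r > 0, ∃ C₁ > 0, Metric.ball (extChartAt 𝓘(ℝ, E) x₀ x₀) r ⊆ tg E x₀ ∧
      ∀ y ∈ Metric.ball (extChartAt 𝓘(ℝ, E) x₀ x₀) r, ∀ w ∈ Eu (ic E x₀ y),
        ∃ v ∈ Eu x₀, ∃ s ∈ Es (ic E x₀ y), s + w = dc (ic E x₀) y v ∧
        ‖v‖ ≤ C₁ * ‖dm E e (ic E x₀ y) w‖ ∧
        ‖dm E e (ic E x₀ y) s‖ ≤ C₁ * ‖dm E e (ic E x₀ y) w‖ := by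
  obtain ⟨r, hr, C₁, hC₁, hball, htr⟩ := transv he hinj h x₀
  refine ⟨r, hr, C₁, hC₁, hball, fun y hy w hw => ?_⟩
  set x := ic E x₀ y with hx
  let pu : E →ₗ[ℝ] Eu x := Submodule.projectionOnto (Eu x) (Es x) (h.compl x).symm
  let T : Eu x₀ →ₗ[ℝ] Eu x := pu ∘ₗ (dc (ic E x₀) y).toLinearMap ∘ₗ (Eu x₀).subtype
  have hdec : ∀ z : E, z - pu z ∈ Es x := by
    intro z
    have := Submodule.ker_projectionOnto (h.compl x).symm
    rw [← this, LinearMap.mem_ker, map_sub]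
    have h2 := Submodule.projectionOnto_apply_left (h.compl x).symm (pu z)
    rw [h2]; exact sub_self _
  have hT : ∀ v : Eu x₀, ‖(v : E)‖ ≤ C₁ * ‖dm E e x (T v : E)‖ ∧
      ‖dm E e x (dc (ic E x₀) y v - (T v : E))‖ ≤ C₁ * ‖dm E e x (T v : E)‖ := by
    intro v
    exact htr y hy v v.2 (dc (ic E x₀) y v - (T v : E)) (hdec _) (T v) (T v).2 (sub_add_cancel _ _)
  have hinjT : Function.Injective T := by
    rw [injective_iff_map_eq_zero]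
    intro v hv
    have := (hT v).1
    rw [hv] at this
    simpa using this
  have hsurj : Function.Surjective T := by
    rwa [← LinearMap.injective_iff_surjective_of_finrank_eq_finrank]
    rw [hu, hu]
  obtain ⟨v, hv⟩ := hsurj ⟨w, hw⟩
  have hv' : (T v : E) = w := by rw [hv]
  have := hT v
  rw [hv'] at this
  have h3 := hdec (dc (ic E x₀) y v)
  refine ⟨v, v.2, dc (ic E x₀) y v - w, ?_, sub_add_cancel _ _, this.1, this.2⟩
  rw [← hv']; exact h3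

end Pool.Agent.H74.RS
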