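import Pool.Agent.H74.RS.Intg

set_option autoImplicit false
set_option linter.unusedSectionVars false

open scoped Manifold ContDiff Topology
open Set Filter MeasureTheory

namespace Pool.Agent.H74.RS

open Pool.Agent.H721R2

theorem succ_mul_pow_le {q q₁ : ℝ} (hq : 0 < q) (hqq : q < q₁) :
    ∃ C₅ > 0, ∀ n : ℕ, ((n : ℝ) + 1) * q ^ n ≤ C₅ * q₁ ^ n := by
  have hq₁ : 0 < q₁ := hq.trans hqq
  have hr0 : 0 ≤ q / q₁ := by positivity
  have hr1 : q / q₁ < 1 := (div_lt_one hq₁).mpr hqq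
  have t1 : Tendsto (fun n : ℕ => (n : ℝ) * (q / q₁) ^ n + (q / q₁) ^ n) atTop (𝓝 0) := by
    have := (tendsto_self_mul_const_pow_of_lt_one hr0 hr1).add
      (tendsto_pow_atTop_nhds_zero_of_lt_one hr0 hr1)
    simpa using this
  obtain ⟨B, hB⟩ := t1.bddAbove_range
  refine ⟨max B 1, lt_max_of_lt_right one_pos, fun n => ?_⟩
  have h1 : (n : ℝ) * (q / q₁) ^ n + (q / q₁) ^ n ≤ max B 1 :=
    (hB ⟨n, rfl⟩).trans (le_max_left _ _)
  have h2 : ((n : ℝ) + 1) * q ^ n = ((n : ℝ) * (q / q₁) ^ n + (q / q₁) ^ n) * q₁ ^ n := by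
    rw [div_pow]; field_simp
  rw [h2]
  exact mul_le_mul_of_nonneg_right h1 (by positivity)

variable {E : Type*} [NormedAddCommGroup E] [NormedSpace ℝ E] [FiniteDimensional ℝ E]
  {M : Type*} [MetricSpace M] [CompactSpace M] [ChartedSpace E M] [IsManifold 𝓘(ℝ, E) 1 M]
  {F : Type*} [NormedAddCommGroup F] [InnerProductSpace ℝ F] [FiniteDimensional ℝ F]

/-- The test functions. -/
theorem bump_wt (y₀ : E) (ψ : ContDiffBump y₀) (p : ℕ) :
    ∃ K > 0, ContDiff ℝ 1 (fun y => ψ y ^ (p + 2)) ∧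
      ∀ y, wt (fun y => ψ y ^ (p + 2)) y ≤ K * ψ y ^ (p + 1) := by
  have hψ : ContDiff ℝ 1 ψ := ψ.contDiff
  have hK : ∃ K₁, ∀ y, ‖fderiv ℝ ψ y‖ ≤ K₁ := by
    have h1 : Continuous (fderiv ℝ ψ) := hψ.continuous_fderiv (by norm_num)
    have h2 : HasCompactSupport (fderiv ℝ ψ) := ψ.hasCompactSupport.fderiv ℝ
    exact h1.bounded_above_of_compact_support h2
  obtain ⟨K₁, hK₁⟩ := hK
  have hK₁0 : 0 ≤ K₁ := (norm_nonneg _).trans (hK₁ y₀)
  refine ⟨1 + (p + 2) * K₁, by positivity, hψ.pow _, fun y => ?_⟩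
  have h0 : 0 ≤ ψ y := ψ.nonneg
  have h1 : ψ y ≤ 1 := ψ.le_one
  have hd : HasFDerivAt (fun y => ψ y ^ (p + 2)) (((p + 2 : ℕ) * ψ y ^ (p + 1)) • fderiv ℝ ψ y) y := by
    have := (hψ.differentiable (by norm_num) y).hasFDerivAt.pow (p + 2)
    simpa using this
  rw [wt, hd.fderiv, norm_smul, abs_of_nonneg (by positivity), Real.norm_eq_abs,
    abs_of_nonneg (by positivity)]
  have h2 : ψ y ^ (p + 2) ≤ ψ y ^ (p + 1) := pow_le_pow_of_le_one h0 h1 (by omega)
  have h3 : ((p + 2 : ℕ) : ℝ) * ψ y ^ (p + 1) * ‖fderiv ℝ ψ y‖ ≤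
      ((p + 2 : ℕ) : ℝ) * ψ y ^ (p + 1) * K₁ :=
    mul_le_mul_of_nonneg_left (hK₁ y) (by positivity)
  push_cast at h3 ⊢
  nlinarith

/-- Growth of the integrals. -/
theorem growth_real [IsManifold 𝓘(ℝ, E) 2 M] [MeasurableSpace E] [BorelSpace E] (ν : Measure E)
    [ν.IsAddHaarMeasure] {e : M → F} (he : ContMDiff 𝓘(ℝ, E) 𝓘(ℝ, F) 1 e)
    (hinj : ∀ x, Function.Injective (dm E e x))
    {f : M ≃ₜ M} (hf2 : ContMDiff 𝓘(ℝ, E) 𝓘(ℝ, E) 2 f)
    {Es Eu : M → Submodule ℝ E} {C a b Ls Lu : ℝ}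
    (h : EAnosov e f Es Eu C a b Ls Lu) {k : ℕ} {x₀ : M} {r C₂ : ℝ}
    (hF : FrameBall e f Eu b (k + 1) x₀ r C₂) (B : Module.Basis (Fin (k + 1)) ℝ (Eu x₀))
    {w : M → E [⋀^Fin (k + 1)]→L[ℝ] ℝ} (hw : C0Form w)
    (hnz : ∀ z, ∀ v : Fin (k + 1) → E, (∀ j, v j ∈ Eu z) → LinearIndependent ℝ v → w z v ≠ 0)
    {J : ℝ} (hJ : VolExp f Eu w J) {lam σ : ℝ} (I : Incr e f k w lam σ) (hlam : lam ≠ 0)
    (hσ : σ * J < 1)
    {y₀ : E} (ψ : ContDiffBump y₀)
    (hψ : Metric.closedBall y₀ ψ.rOut ⊆ Metric.ball (extChartAt 𝓘(ℝ, E) x₀ x₀) r) :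
    ∃ p : ℕ, ∃ c > 0, ∃ C' > 0, ∃ N : ℕ, ∀ n ≥ N,
      Integrable (fun y => ψ y ^ (p + 2) *
        |pl (f^[n] ∘ ic E x₀) w y (fun j => (B j : E))|) ν ∧
      c * |lam| ^ n ≤ ∫ y, ψ y ^ (p + 2) *
        |pl (f^[n] ∘ ic E x₀) w y (fun j => (B j : E))| ∂ν ∧
      ∫ y, ψ y ^ (p + 2) * |pl (f^[n] ∘ ic E x₀) w y (fun j => (B j : E))| ∂ν ≤ C' * |lam| ^ n := by
  set O := Metric.ball (extChartAt 𝓘(ℝ, E) x₀ x₀) r with hO
  set D : ℕ → E → ℝ := fun n y => pl (f^[n] ∘ ic E x₀) w y (fun j => (B j : E)) with hD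
  have hOt : O ⊆ tg E x₀ := hF.2.2.1
  have hDc : ∀ n, ∀ y ∈ O, ContinuousAt (D n) y := fun n y hy =>
    pl_eval_continuousAt hw (f^[n]) (iter_smooth f h.smooth n) x₀ (hOt hy) _
  have hb0 := h.b_pos
  have hb1 := h.b_lt
  have hσ0 := I.σ_pos
  have hsub : Metric.closedBall y₀ ψ.rOut ⊆ O := hψ
  -- constants
  obtain ⟨C₄, hC₄, N₁, hN₁⟩ := int_step ν he hinj hf2 h hF B hw hnz hJ I
  obtain ⟨c₀, hc₀, N₂, hN₂⟩ := pe_lower he hinj h hF B hw hnz (isCompact_closedBall y₀ ψ.rIn)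
    ((Metric.closedBall_subset_closedBall ψ.rIn_lt_rOut.le).trans hψ)
  obtain ⟨C₆, hC₆, L, hL, hup⟩ := pe_upper he hinj h hF (fun j => (B j : E)) hw
  set q := max b (σ * J) with hq
  have hq0 : 0 < q := lt_max_of_lt_left hb0
  have hq1 : q < 1 := max_lt hb1 hσ
  set q₁ := (1 + q) / 2 with hq₁
  have hqq : q < q₁ := by rw [hq₁]; linarith
  have hq₁1 : q₁ < 1 := by rw [hq₁]; linarith
  have hq₁0 : 0 < q₁ := hq0.trans hqq
  obtain ⟨C₅, hC₅, hC₅n⟩ := succ_mul_pow_le hq0 hqq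
  set θ := Real.sqrt q₁ with hθ
  have hθ0 : 0 < θ := Real.sqrt_pos.mpr hq₁0
  have hθ2 : θ * θ = q₁ := Real.mul_self_sqrt hq₁0.le
  have hθ1 : θ < 1 := by
    rw [hθ, Real.sqrt_lt' one_pos]; linarith
  have hlam0 : 0 < |lam| := abs_pos.mpr hlam
  have hL0 : 0 < L := by linarith
  obtain ⟨p, hp⟩ : ∃ p : ℕ, θ ^ (p + 3) * L < min 1 |lam| := by
    have t1 : Tendsto (fun p : ℕ => θ ^ p * (θ ^ 3 * L)) atTop (𝓝 0) := by
      have := (tendsto_pow_atTop_nhds_zero_of_lt_one hθ0.le hθ1).mul_const (θ ^ 3 * L)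
      simpa using this
    obtain ⟨p, hp⟩ := ((tendsto_order.mp t1).2 (min 1 |lam|) (lt_min one_pos hlam0)).exists
    refine ⟨p, ?_⟩
    rw [pow_add, mul_assoc]; exact hp
  set s := θ ^ (p + 3) * L with hs
  obtain ⟨K, hK, hφc, hwt⟩ := bump_wt y₀ ψ p
  set φ : E → ℝ := fun y => ψ y ^ (p + 2) with hφ
  have hφsupp : tsupport φ ⊆ Metric.closedBall y₀ ψ.rOut := by
    rw [← ψ.tsupport_eq]
    apply closure_mono
    intro y hy hy0
    apply hy
    show ψ y ^ (p + 2) = 0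
    rw [hy0]; simp
  have hφcs : HasCompactSupport φ :=
    (isCompact_closedBall y₀ ψ.rOut).of_isClosed_subset (isClosed_tsupport _) hφsupp
  have hφO : tsupport φ ⊆ O := hφsupp.trans hsub
  have hφ0 : ∀ y, 0 ≤ φ y := fun y => pow_nonneg ψ.nonneg _
  have i1 : ∀ n, Integrable (fun y => φ y * |D n y|) ν := fun n =>
    integrable_mul_of_tsupport ν hφc.continuous hφcs hφO (fun y hy => (hDc n y hy).abs)
  set T : ℕ → ℝ := fun n => ∫ y, φ y * |D n y| ∂ν with hT
  have hT0 : ∀ n, 0 ≤ T n := fun n => integral_nonneg fun y => mul_nonneg (hφ0 y) (abs_nonneg _)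
  -- `T` is the absolute value of the signed integral
  have hTS : ∀ n ≥ N₁, T n = |∫ y, φ y * D n y ∂ν| := by
    intro n hn
    have hcs := const_sign (s := O) (Metric.isPreconnected_ball) (g := D n)
      (fun y hy => (hDc n y hy).continuousWithinAt) (hN₁ n hn).1
    rcases hcs with hs | hs
    · have e1 : (fun y => φ y * |D n y|) = fun y => φ y * D n y := by
        funext y
        by_cases hy : y ∈ tsupport φ
        · rw [abs_of_pos (hs y (hφO hy))]
        · simp [image_eq_zero_of_notMem_tsupport hy]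
      have e2 : T n = ∫ y, φ y * D n y ∂ν := by simp only [hT]; rw [e1]
      rw [← e2, abs_of_nonneg (hT0 n)]
    · have e1 : (fun y => φ y * |D n y|) = fun y => -(φ y * D n y) := by
        funext y
        by_cases hy : y ∈ tsupport φ
        · rw [abs_of_neg (hs y (hφO hy))]; ring
        · simp [image_eq_zero_of_notMem_tsupport hy]
      have e2 : T n = - ∫ y, φ y * D n y ∂ν := by simp only [hT]; rw [e1, integral_neg]
      rw [← abs_neg, ← e2, abs_of_nonneg (hT0 n)]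
  -- bound of the weight integral
  set V := (ν (Metric.closedBall y₀ ψ.rOut)).toReal with hV
  have hVf : ν (Metric.closedBall y₀ ψ.rOut) ≠ ⊤ := (isCompact_closedBall _ _).measure_lt_top.ne
  have hwtc : HasCompactSupport (wt φ) := hφcs.of_isClosed_subset (isClosed_tsupport _) (wt_support φ)
  have i3 : ∀ n, Integrable (fun y => wt φ y * |D n y|) ν := fun n =>
    integrable_mul_of_tsupport ν (wt_continuous hφc) hwtc ((wt_support φ).trans hφO)
      (fun y hy => (hDc n y hy).abs)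
  have hwI : ∀ n, ∫ y, wt φ y * |D n y| ∂ν ≤
      K * ((θ ^ n)⁻¹ * T n + (θ ^ n) ^ (p + 1) * (C₆ * L ^ n) * V) := by
    intro n
    set τ := θ ^ n with hτ
    have hτ0 : 0 < τ := pow_pos hθ0 n
    have i4 : Integrable ((Metric.closedBall y₀ ψ.rOut).indicator
        (fun _ : E => τ ^ (p + 1) * (C₆ * L ^ n))) ν :=
      (integrable_indicator_iff measurableSet_closedBall).mpr (integrableOn_const hVf)
    have h1 : ∀ y, wt φ y * |D n y| ≤ K * (τ⁻¹ * (φ y * |D n y|) +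
        (Metric.closedBall y₀ ψ.rOut).indicator (fun _ : E => τ ^ (p + 1) * (C₆ * L ^ n)) y) := by
      intro y
      have hψ0 : 0 ≤ ψ y := ψ.nonneg
      by_cases hy : y ∈ Metric.closedBall y₀ ψ.rOut
      · rw [indicator_of_mem hy]
        have h2 : ψ y ^ (p + 1) ≤ τ⁻¹ * φ y + τ ^ (p + 1) := by
          rcases le_total τ (ψ y) with hle | hle
          · have h3 : ψ y ^ (p + 1) ≤ τ⁻¹ * φ y := by
              rw [inv_mul_eq_div, le_div_iff₀ hτ0]
              show _ ≤ ψ y ^ (p + 2)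
              rw [pow_succ (ψ y) (p + 1)]
              exact mul_le_mul_of_nonneg_left hle (by positivity)
            have : 0 ≤ τ ^ (p + 1) := by positivity
            linarith
          · have h3 : ψ y ^ (p + 1) ≤ τ ^ (p + 1) := pow_le_pow_left₀ hψ0 hle _
            have : 0 ≤ τ⁻¹ * φ y := mul_nonneg (by positivity) (hφ0 y)
            linarith
        have h4 : |D n y| ≤ C₆ * L ^ n := hup y (hsub hy) n
        calc wt φ y * |D n y| ≤ K * ψ y ^ (p + 1) * |D n y| :=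
              mul_le_mul_of_nonneg_right (hwt y) (abs_nonneg _)
          _ ≤ K * (τ⁻¹ * φ y + τ ^ (p + 1)) * |D n y| :=
              mul_le_mul_of_nonneg_right (mul_le_mul_of_nonneg_left h2 hK.le) (abs_nonneg _)
          _ = K * (τ⁻¹ * (φ y * |D n y|) + τ ^ (p + 1) * |D n y|) := by ring
          _ ≤ K * (τ⁻¹ * (φ y * |D n y|) + τ ^ (p + 1) * (C₆ * L ^ n)) := by
              apply mul_le_mul_of_nonneg_left _ hK.le
              apply add_le_add_right
              exact mul_le_mul_of_nonneg_left h4 (by positivity)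
      · rw [indicator_of_notMem hy]
        have h2 : ψ y = 0 := ψ.zero_of_le_dist (by
          rw [Metric.mem_closedBall, not_le] at hy; exact hy.le)
        have h3 : wt φ y ≤ 0 := by
          refine (hwt y).trans ?_
          rw [h2]; simp
        have h4 : φ y = 0 := by show ψ y ^ (p + 2) = 0; rw [h2]; simp
        rw [h4]
        have : wt φ y * |D n y| ≤ 0 := mul_nonpos_of_nonpos_of_nonneg h3 (abs_nonneg _)
        simpa using this
    calc ∫ y, wt φ y * |D n y| ∂ν ≤ ∫ y, K * (τ⁻¹ * (φ y * |D n y|) +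
        (Metric.closedBall y₀ ψ.rOut).indicator (fun _ : E => τ ^ (p + 1) * (C₆ * L ^ n)) y) ∂ν :=
          integral_mono (i3 n) ((((i1 n).const_mul _).add i4).const_mul K) h1
      _ = K * (τ⁻¹ * T n + τ ^ (p + 1) * (C₆ * L ^ n) * V) := by
          rw [integral_const_mul, integral_add ((i1 n).const_mul _) i4, integral_const_mul,
            integral_indicator_const _ measurableSet_closedBall]
          rw [smul_eq_mul, mul_comm (ν.real _)]
          rfl
  -- the recursion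
  set A := max (C₄ * C₅ * K) (C₄ * C₅ * K * (C₆ * V)) with hA
  have hA0 : 0 ≤ A := le_max_of_le_left (by positivity)
  have hstep : ∀ n ≥ N₁, |T (n + 1) - |lam| * T n| ≤ A * θ ^ n * T n + A * s ^ n := by
    intro n hn
    have h1 := (hN₁ n hn).2 φ hφc hφcs hφO
    have h2 : |T (n + 1) - |lam| * T n| ≤
        |∫ y, φ y * D (n + 1) y ∂ν - lam * ∫ y, φ y * D n y ∂ν| := by
      rw [hTS n hn, hTS (n + 1) (by omega), ← abs_mul]
      exact abs_abs_sub_abs_le _ _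
    refine h2.trans (h1.trans ?_)
    have hτ0 : 0 < θ ^ n := pow_pos hθ0 n
    have h3 : C₄ * ((n + 1) * q ^ n) ≤ C₄ * C₅ * (θ ^ n * θ ^ n) := by
      have h4 : θ ^ n * θ ^ n = q₁ ^ n := by rw [← mul_pow, hθ2]
      rw [h4, mul_assoc]
      exact mul_le_mul_of_nonneg_left (hC₅n n) hC₄.le
    have h5 : 0 ≤ ∫ y, wt φ y * |D n y| ∂ν := integral_nonneg fun y =>
      mul_nonneg (add_nonneg (abs_nonneg _) (norm_nonneg _)) (abs_nonneg _)
    calc C₄ * ((n + 1) * q ^ n) * ∫ y, wt φ y * |D n y| ∂ν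
        ≤ C₄ * C₅ * (θ ^ n * θ ^ n) * (K * ((θ ^ n)⁻¹ * T n + (θ ^ n) ^ (p + 1) * (C₆ * L ^ n) * V)) :=
          mul_le_mul h3 (hwI n) h5 (by positivity)
      _ = C₄ * C₅ * K * θ ^ n * T n + C₄ * C₅ * K * (C₆ * V) * s ^ n := by
          rw [hs, mul_pow, ← pow_mul θ (p + 3) n]
          have e1 : θ ^ n * θ ^ n * ((θ ^ n)⁻¹ * T n) = θ ^ n * T n := by
            field_simp
          have e2 : θ ^ n * θ ^ n * (θ ^ n) ^ (p + 1) = θ ^ ((p + 3) * n) := by
            rw [← pow_mul, ← pow_add, ← pow_add]; congr 1; ring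
          calc _ = C₄ * C₅ * K * (θ ^ n * θ ^ n * ((θ ^ n)⁻¹ * T n)) +
                C₄ * C₅ * K * (C₆ * V) * ((θ ^ n * θ ^ n * (θ ^ n) ^ (p + 1)) * L ^ n) := by ring
            _ = _ := by rw [e1, e2]; ring
      _ ≤ A * θ ^ n * T n + A * s ^ n := by
          apply add_le_add
          · apply mul_le_mul_of_nonneg_right _ (hT0 n)
            exact mul_le_mul_of_nonneg_right (le_max_left _ _) hτ0.le
          · exact mul_le_mul_of_nonneg_right (le_max_right _ _) (by positivity)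
  -- positivity
  have hpos : ∃ c > 0, ∀ n ≥ max N₁ N₂, c ≤ T n := by
    have hBm : 0 < (ν (Metric.closedBall y₀ ψ.rIn)).toReal :=
      ENNReal.toReal_pos (Metric.measure_closedBall_pos ν y₀ ψ.rIn_pos).ne'
        (isCompact_closedBall _ _).measure_lt_top.ne
    refine ⟨c₀ * (ν (Metric.closedBall y₀ ψ.rIn)).toReal, by positivity, fun n hn => ?_⟩
    have hfin : ν (Metric.closedBall y₀ ψ.rIn) ≠ ⊤ := (isCompact_closedBall _ _).measure_lt_top.ne
    have i4 : Integrable ((Metric.closedBall y₀ ψ.rIn).indicator (fun _ : E => c₀)) ν :=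
      (integrable_indicator_iff measurableSet_closedBall).mpr (integrableOn_const hfin)
    have h1 : ∫ y, (Metric.closedBall y₀ ψ.rIn).indicator (fun _ : E => c₀) y ∂ν ≤ T n := by
      apply integral_mono i4 (i1 n)
      intro y
      by_cases hy : y ∈ Metric.closedBall y₀ ψ.rIn
      · rw [indicator_of_mem hy]
        have h2 : φ y = 1 := by
          show ψ y ^ (p + 2) = 1
          rw [ψ.one_of_mem_closedBall hy, one_pow]
        show c₀ ≤ φ y * |D n y|
        rw [h2, one_mul]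
        exact hN₂ y hy n ((le_max_right _ _).trans hn)
      · rw [indicator_of_notMem hy]
        exact mul_nonneg (hφ0 y) (abs_nonneg _)
    rw [integral_indicator_const _ measurableSet_closedBall, smul_eq_mul, mul_comm] at h1
    exact h1
  obtain ⟨c₁, hc₁, hc₁n⟩ := hpos
  obtain ⟨c', hc', C', hC', hfin⟩ := rec_bounds T |lam| A θ s c₁ (max N₁ N₂) hlam0 hA0 hθ0.le hθ1
    (by positivity) (hp.trans_le (min_le_left _ _)) (hp.trans_le (min_le_right _ _)) hc₁ hc₁n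
    (fun n hn => hstep n ((le_max_left _ _).trans hn))
  exact ⟨p, c', hc', C', hC', max N₁ N₂, fun n hn => ⟨i1 n, (hfin n hn).1, (hfin n hn).2⟩⟩

/-- Growth of the integrals over balls. -/
theorem growth_lint [IsManifold 𝓘(ℝ, E) 2 M] [MeasurableSpace E] [BorelSpace E] (ν : Measure E)
    [ν.IsAddHaarMeasure] {e : M → F} (he : ContMDiff 𝓘(ℝ, E) 𝓘(ℝ, F) 1 e)
    (hinj : ∀ x, Function.Injective (dm E e x))
    {f : M ≃ₜ M} (hf2 : ContMDiff 𝓘(ℝ, E) 𝓘(ℝ, E) 2 f)
    {Es Eu : M → Submodule ℝ E} {C a b Ls Lu : ℝ}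
    (h : EAnosov e f Es Eu C a b Ls Lu) {k : ℕ} {x₀ : M} {r C₂ : ℝ}
    (hF : FrameBall e f Eu b (k + 1) x₀ r C₂) (B : Module.Basis (Fin (k + 1)) ℝ (Eu x₀))
    {w : M → E [⋀^Fin (k + 1)]→L[ℝ] ℝ} (hw : C0Form w)
    (hnz : ∀ z, ∀ v : Fin (k + 1) → E, (∀ j, v j ∈ Eu z) → LinearIndependent ℝ v → w z v ≠ 0)
    {J : ℝ} (hJ : VolExp f Eu w J) {lam σ : ℝ} (I : Incr e f k w lam σ) (hlam : lam ≠ 0)
    (hσ : σ * J < 1)
    {y₀ : E} {ρ₁ ρ₂ : ℝ} (hρ₁ : 0 < ρ₁) (hρ : ρ₁ < ρ₂)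
    (hρ₂ : Metric.closedBall y₀ ρ₂ ⊆ Metric.ball (extChartAt 𝓘(ℝ, E) x₀ x₀) r) :
    ∃ c > 0, ∃ C' > 0, ∃ N : ℕ, ∀ n ≥ N,
      ENNReal.ofReal (c * |lam| ^ n) ≤ ∫⁻ y in Metric.closedBall y₀ ρ₂,
        ENNReal.ofReal |pl (f^[n] ∘ ic E x₀) w y (fun j => (B j : E))| ∂ν ∧
      ∫⁻ y in Metric.closedBall y₀ ρ₁,
        ENNReal.ofReal |pl (f^[n] ∘ ic E x₀) w y (fun j => (B j : E))| ∂ν ≤
        ENNReal.ofReal (C' * |lam| ^ n) := by
  let ψ : ContDiffBump y₀ := ⟨ρ₁, ρ₂, hρ₁, hρ⟩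
  obtain ⟨p, c, hc, C', hC', N, hN⟩ := growth_real ν he hinj hf2 h hF B hw hnz hJ I hlam hσ ψ hρ₂
  refine ⟨c, hc, C', hC', N, fun n hn => ?_⟩
  obtain ⟨i1, h1, h2⟩ := hN n hn
  have h0 : ∀ y, 0 ≤ ψ y ^ (p + 2) * |pl (f^[n] ∘ ic E x₀) w y (fun j => (B j : E))| := fun y =>
    mul_nonneg (pow_nonneg ψ.nonneg _) (abs_nonneg _)
  have h3 := ofReal_integral_eq_lintegral_ofReal i1 (Eventually.of_forall h0)
  constructor
  · calc ENNReal.ofReal (c * |lam| ^ n) ≤ ENNReal.ofReal (∫ y, ψ y ^ (p + 2) *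
          |pl (f^[n] ∘ ic E x₀) w y (fun j => (B j : E))| ∂ν) := ENNReal.ofReal_le_ofReal h1
      _ = _ := h3
      _ ≤ ∫⁻ y, (Metric.closedBall y₀ ρ₂).indicator (fun y =>
          ENNReal.ofReal |pl (f^[n] ∘ ic E x₀) w y (fun j => (B j : E))|) y ∂ν := by
          apply lintegral_mono
          intro y
          by_cases hy : y ∈ Metric.closedBall y₀ ρ₂
          · rw [indicator_of_mem hy]
            apply ENNReal.ofReal_le_ofReal
            have : ψ y ^ (p + 2) ≤ 1 := pow_le_one₀ ψ.nonneg ψ.le_one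
            calc _ ≤ 1 * |pl (f^[n] ∘ ic E x₀) w y (fun j => (B j : E))| :=
                  mul_le_mul_of_nonneg_right this (abs_nonneg _)
              _ = _ := one_mul _
          · rw [indicator_of_notMem hy]
            have h2 : ψ y = 0 := ψ.zero_of_le_dist (by
              rw [Metric.mem_closedBall, not_le] at hy; exact hy.le)
            simp only [h2]
            simp
      _ = _ := lintegral_indicator measurableSet_closedBall _
  · calc _ = ∫⁻ y, (Metric.closedBall y₀ ρ₁).indicator (fun y =>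
          ENNReal.ofReal |pl (f^[n] ∘ ic E x₀) w y (fun j => (B j : E))|) y ∂ν :=
          (lintegral_indicator measurableSet_closedBall _).symm
      _ ≤ ∫⁻ y, ENNReal.ofReal (ψ y ^ (p + 2) *
          |pl (f^[n] ∘ ic E x₀) w y (fun j => (B j : E))|) ∂ν := by
          apply lintegral_mono
          intro y
          by_cases hy : y ∈ Metric.closedBall y₀ ρ₁
          · rw [indicator_of_mem hy]
            have : ψ y = 1 := ψ.one_of_mem_closedBall hy
            simp only [this]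
            simp
          · rw [indicator_of_notMem hy]; exact zero_le
      _ = ENNReal.ofReal (∫ y, ψ y ^ (p + 2) *
          |pl (f^[n] ∘ ic E x₀) w y (fun j => (B j : E))| ∂ν) := h3.symm
      _ ≤ _ := ENNReal.ofReal_le_ofReal h2

end Pool.Agent.H74.RS
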