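import Pool.Agent.H74.RS.Vol
import Pool.Agent.H74.RS.Grow

set_option autoImplicit false
set_option linter.unusedSectionVars false

open scoped Manifold ContDiff Topology
open Set Filter MeasureTheory

namespace Pool.Agent.H74.RS

open Pool.Agent.H721R2

variable {E : Type*} [NormedAddCommGroup E] [NormedSpace ℝ E] [FiniteDimensional ℝ E]
  {M : Type*} [MetricSpace M] [CompactSpace M] [ChartedSpace E M] [IsManifold 𝓘(ℝ, E) 1 M]
  {F : Type*} [NormedAddCommGroup F] [InnerProductSpace ℝ F] [FiniteDimensional ℝ F]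
  {e : M → F} {f : M ≃ₜ M} {Es Eu : M → Submodule ℝ E} {C a b Ls Lu : ℝ} {u N₀ : ℕ}
  {S : HypSys M F}

/-- Upper bound for the integral over small dynamical balls. -/
theorem vol_upper [MeasurableSpace E] [BorelSpace E] (ν : Measure E) [ν.IsAddHaarMeasure]
    (hS : Sys e f Es Eu C a b Ls Lu u N₀ S) (x₀ : M)
    (B : Module.Basis (Fin u) ℝ (Eu x₀)) {w : M → E [⋀^Fin u]→L[ℝ] ℝ} (hw : C0Form w) :
    ∃ A > 0, ∀ m : ℕ, A ≤ ((N₀ * m : ℕ) : ℝ) → ∀ K : Set E, MeasurableSet K →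
      K ⊆ Metric.ball (extChartAt 𝓘(ℝ, E) x₀ x₀) (1 / A) →
      (∀ y ∈ K, ∀ y' ∈ K, ∀ k ≤ m, dist (S.g^[k] (ic E x₀ y)) (S.g^[k] (ic E x₀ y')) < 1 / A) →
      ∫⁻ y in K, ENNReal.ofReal |pl (f^[N₀ * m] ∘ ic E x₀) w y (fun j => (B j : E))| ∂ν ≤
        ENNReal.ofReal A := by
  obtain ⟨A, hA, hP⟩ := exists_uniform_const (M := M) (fun A z => 0 < A ∧ ∀ m : ℕ,
      A ≤ ((N₀ * m : ℕ) : ℝ) → ∀ K : Set E, MeasurableSet K →
      K ⊆ Metric.ball (extChartAt 𝓘(ℝ, E) x₀ x₀) (1 / A) →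
      (∀ y ∈ K, dist (S.g^[m] (ic E x₀ y)) z < 1 / A) →
      (∀ y ∈ K, ∀ y' ∈ K, ∀ k ≤ m, dist (S.g^[k] (ic E x₀ y)) (S.g^[k] (ic E x₀ y')) < 1 / A) →
      ∫⁻ y in K, ENNReal.ofReal |pl (f^[N₀ * m] ∘ ic E x₀) w y (fun j => (B j : E))| ∂ν ≤
        ENNReal.ofReal A) (by
    rintro A A' z hAA' ⟨h0, h1⟩
    have h2 : 1 / A' ≤ 1 / A := one_div_le_one_div_of_le h0 hAA'
    refine ⟨h0.trans_le hAA', fun m hm K hK hKb hKz hKd => ?_⟩
    refine (h1 m (hAA'.trans hm) K hK (hKb.trans (Metric.ball_subset_ball h2))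
      (fun y hy => (hKz y hy).trans_le h2)
      (fun y hy y' hy' k hk => (hKd y hy y' hy' k hk).trans_le h2)).trans ?_
    exact ENNReal.ofReal_le_ofReal hAA') (by
    intro z₀
    obtain ⟨r, hr, C', hC', N, hN⟩ := vol_upper_loc ν hS x₀ B hw z₀
    refine ⟨max (2 / r) (max C' N), ?_⟩
    filter_upwards [Metric.ball_mem_nhds z₀ (half_pos hr)] with z hz
    have hA0 : 0 < max (2 / r) (max C' N) := lt_max_of_lt_left (by positivity)
    have h2 : 1 / max (2 / r) (max C' (N : ℝ)) ≤ r / 2 := by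
      have h3 : (2 / r) ≤ max (2 / r) (max C' (N : ℝ)) := le_max_left _ _
      have h4 := one_div_le_one_div_of_le (by positivity : 0 < 2 / r) h3
      rwa [one_div_div] at h4
    refine ⟨hA0, fun m hm K hK hKb hKz hKd => ?_⟩
    refine (hN m ?_ K hK (hKb.trans (Metric.ball_subset_ball (by linarith)))
      (fun y hy => ?_)
      (fun y hy y' hy' k hk => (hKd y hy y' hy' k hk).trans_le (by linarith))).trans ?_
    · have h3 : (N : ℝ) ≤ ((N₀ * m : ℕ) : ℝ) :=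
        ((le_max_right _ _).trans (le_max_right _ _)).trans hm
      exact_mod_cast h3
    · have h3 := hKz y hy
      have h4 : dist z z₀ < r / 2 := hz
      have := dist_triangle (S.g^[m] (ic E x₀ y)) z z₀
      linarith
    · exact ENNReal.ofReal_le_ofReal ((le_max_left _ _).trans (le_max_right _ _)))
  refine ⟨A, hA, fun m hm K hK hKb hKd => ?_⟩
  rcases K.eq_empty_or_nonempty with rfl | ⟨y, hy⟩
  · simp
  · exact (hP (S.g^[m] (ic E x₀ y))).2 m hm K hK hKb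
      (fun y' hy' => hKd y' hy' y hy m le_rfl) hKd

/-- Lower bound for the integral over small dynamical balls. -/
theorem vol_lower [MeasurableSpace E] [BorelSpace E] (ν : Measure E) [ν.IsAddHaarMeasure]
    (hS : Sys e f Es Eu C a b Ls Lu u N₀ S) (x₀ : M)
    (B : Module.Basis (Fin u) ℝ (Eu x₀)) {w : M → E [⋀^Fin u]→L[ℝ] ℝ} (hw : C0Form w)
    (hnz : ∀ z, ∀ v : Fin u → E, (∀ j, v j ∈ Eu z) → LinearIndependent ℝ v → w z v ≠ 0)
    {R₀ : ℝ} (hR₀ : 0 < R₀) {δ : ℝ} (hδ : 0 < δ) :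
    ∃ A > 0, ∀ m : ℕ, A ≤ ((N₀ * m : ℕ) : ℝ) →
      ∀ y ∈ Metric.closedBall (extChartAt 𝓘(ℝ, E) x₀ x₀) (1 / A),
      ENNReal.ofReal (1 / A) ≤
        ∫⁻ y' in {y' ∈ Metric.ball (extChartAt 𝓘(ℝ, E) x₀ x₀) R₀ |
          ∀ k ≤ m, dist (S.g^[k] (ic E x₀ y)) (S.g^[k] (ic E x₀ y')) ≤ δ},
        ENNReal.ofReal |pl (f^[N₀ * m] ∘ ic E x₀) w y' (fun j => (B j : E))| ∂ν := by
  obtain ⟨A, hA, hP⟩ := exists_uniform_const (M := M) (fun A z => 0 < A ∧ ∀ m : ℕ,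
      A ≤ ((N₀ * m : ℕ) : ℝ) →
      ∀ y ∈ Metric.closedBall (extChartAt 𝓘(ℝ, E) x₀ x₀) (1 / A),
      dist (S.g^[m] (ic E x₀ y)) z < 1 / A →
      ENNReal.ofReal (1 / A) ≤
        ∫⁻ y' in {y' ∈ Metric.ball (extChartAt 𝓘(ℝ, E) x₀ x₀) R₀ |
          ∀ k ≤ m, dist (S.g^[k] (ic E x₀ y)) (S.g^[k] (ic E x₀ y')) ≤ δ},
        ENNReal.ofReal |pl (f^[N₀ * m] ∘ ic E x₀) w y' (fun j => (B j : E))| ∂ν) (by
    rintro A A' z hAA' ⟨h0, h1⟩
    have h2 : 1 / A' ≤ 1 / A := one_div_le_one_div_of_le h0 hAA'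
    refine ⟨h0.trans_le hAA', fun m hm y hy hyz => ?_⟩
    exact (ENNReal.ofReal_le_ofReal h2).trans (h1 m (hAA'.trans hm) y
      (Metric.closedBall_subset_closedBall h2 hy) (hyz.trans_le h2))) (by
    intro z₀
    obtain ⟨r, hr, hrR, hrt, hloc⟩ := vol_lower_loc ν hS x₀ B hw hnz z₀ hR₀
    obtain ⟨c, hc, N, hN⟩ := hloc (r / 2) (by linarith) δ hδ
    refine ⟨max (2 / r) (max (1 / c) N), ?_⟩
    filter_upwards [Metric.ball_mem_nhds z₀ (half_pos hr)] with z hz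
    have hA0 : 0 < max (2 / r) (max (1 / c) N) := lt_max_of_lt_left (by positivity)
    have h2 : 1 / max (2 / r) (max (1 / c) (N : ℝ)) ≤ r / 2 := by
      have h3 : (2 / r) ≤ max (2 / r) (max (1 / c) (N : ℝ)) := le_max_left _ _
      have h4 := one_div_le_one_div_of_le (by positivity : 0 < 2 / r) h3
      rwa [one_div_div] at h4
    have h2' : 1 / max (2 / r) (max (1 / c) (N : ℝ)) ≤ c := by
      have h3 : (1 / c) ≤ max (2 / r) (max (1 / c) (N : ℝ)) :=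
        (le_max_left _ _).trans (le_max_right _ _)
      have h4 := one_div_le_one_div_of_le (by positivity : 0 < 1 / c) h3
      rwa [one_div_one_div] at h4
    refine ⟨hA0, fun m hm y hy hyz => ?_⟩
    refine (ENNReal.ofReal_le_ofReal h2').trans ((hN m ?_ y
      (Metric.closedBall_subset_closedBall h2 hy) ?_).trans ?_)
    · have h3 : (N : ℝ) ≤ ((N₀ * m : ℕ) : ℝ) :=
        ((le_max_right _ _).trans (le_max_right _ _)).trans hm
      exact_mod_cast h3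
    · have h4 : dist z z₀ < r / 2 := hz
      have := dist_triangle (S.g^[m] (ic E x₀ y)) z z₀
      linarith
    · exact lintegral_mono_set fun y' hy' => ⟨Metric.ball_subset_ball hrR hy'.1, hy'.2⟩)
  exact ⟨A, hA, fun m hm y hy => (hP (S.g^[m] (ic E x₀ y))).2 m hm y hy
    (by rw [dist_self]; positivity)⟩

end Pool.Agent.H74.RS
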