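import Mathlib

set_option autoImplicit false

open Filter Topology

namespace Pool.Agent.H74.RS

theorem geo_le {q : ℝ} (hq0 : 0 ≤ q) (hq1 : q < 1) (m : ℕ) :
    ∑ k ∈ Finset.range m, q ^ k ≤ 1 / (1 - q) := by
  have h1 : (∑ k ∈ Finset.range m, q ^ k) * (1 - q) = 1 - q ^ m := by
    have := geom_sum_mul q m
    linarith
  have h2 : 0 < 1 - q := by linarith
  rw [le_div_iff₀ h2, h1]
  have := pow_nonneg hq0 m
  linarith

/-- A sequence that almost satisfies `a (n+1) = μ a n` is comparable with `μ^n`. -/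
theorem rec_bounds (a : ℕ → ℝ) (μ A q s c : ℝ) (N : ℕ) (hμ : 0 < μ) (hA : 0 ≤ A) (hq0 : 0 ≤ q)
    (hq1 : q < 1) (hs0 : 0 ≤ s) (hs1 : s < 1) (hsμ : s < μ) (hc : 0 < c)
    (hpos : ∀ n ≥ N, c ≤ a n)
    (hstep : ∀ n ≥ N, |a (n + 1) - μ * a n| ≤ A * q ^ n * a n + A * s ^ n) :
    ∃ c' > 0, ∃ C' > 0, ∀ n ≥ N, c' * μ ^ n ≤ a n ∧ a n ≤ C' * μ ^ n := by
  set r : ℕ → ℝ := fun n => a n / μ ^ n with hr
  set s' := s / μ with hs'
  set A' := A / μ with hA'
  have hμn : ∀ n : ℕ, 0 < μ ^ n := fun n => pow_pos hμ n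
  have hs'0 : 0 ≤ s' := div_nonneg hs0 hμ.le
  have hs'1 : s' < 1 := (div_lt_one hμ).mpr hsμ
  have hA'0 : 0 ≤ A' := div_nonneg hA hμ.le
  have h1s : 0 < 1 - s' := by linarith
  have h1q : 0 < 1 - q := by linarith
  have hr0 : ∀ n ≥ N, 0 < r n := fun n hn => div_pos (lt_of_lt_of_le hc (hpos n hn)) (hμn n)
  have hrs : ∀ n ≥ N, |r (n + 1) - r n| ≤ A' * q ^ n * r n + A' * s' ^ n := by
    intro n hn
    have h1 := hstep n hn
    have e1 : r (n + 1) - r n = (a (n + 1) - μ * a n) / μ ^ (n + 1) := by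
      simp only [hr]
      have := hμn n
      field_simp
      ring
    rw [e1, abs_div, abs_of_pos (hμn (n + 1)), div_le_iff₀ (hμn (n + 1))]
    refine h1.trans (le_of_eq ?_)
    simp only [hr, hA', hs']
    have := hμn n
    rw [div_pow]
    field_simp
    ring
  -- upper bound
  set B := A' / (1 - s') with hB
  have hB0 : 0 ≤ B := div_nonneg hA'0 h1s.le
  have hBs : A' + B * s' = B := by rw [hB]; field_simp; ring
  have hup : ∀ m : ℕ, r (N + m) + B * s' ^ (N + m) ≤
      (r N + B * s' ^ N) * Real.exp (A' * ∑ k ∈ Finset.range m, q ^ k) := by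
    intro m
    induction m with
    | zero => simp
    | succ m ih =>
      have h1 := (abs_le.mp (hrs (N + m) (Nat.le_add_right _ _))).2
      have h2 : A' * q ^ (N + m) ≤ A' * q ^ m := by
        apply mul_le_mul_of_nonneg_left _ hA'0
        exact pow_le_pow_of_le_one hq0 hq1.le (Nat.le_add_left _ _)
      have hrp := (hr0 (N + m) (Nat.le_add_right _ _)).le
      have hsn : 0 ≤ s' ^ (N + m) := pow_nonneg hs'0 _
      have h3 : r (N + m + 1) + B * s' ^ (N + m + 1) ≤
          (1 + A' * q ^ (N + m)) * (r (N + m) + B * s' ^ (N + m)) := by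
        have e1 : B * s' ^ (N + m + 1) = (B - A') * s' ^ (N + m) := by
          rw [pow_succ]
          have : B - A' = B * s' := by linarith
          rw [this]; ring
        rw [e1]
        have : 0 ≤ A' * q ^ (N + m) * (B * s' ^ (N + m)) := by positivity
        linarith
      have h4 : 1 + A' * q ^ (N + m) ≤ Real.exp (A' * q ^ m) := by
        have := Real.add_one_le_exp (A' * q ^ m)
        linarith
      have h5 : 0 ≤ r (N + m) + B * s' ^ (N + m) := by positivity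
      rw [Finset.sum_range_succ, mul_add, Real.exp_add]
      show r (N + m + 1) + B * s' ^ (N + m + 1) ≤ _
      calc _ ≤ (1 + A' * q ^ (N + m)) * (r (N + m) + B * s' ^ (N + m)) := h3
        _ ≤ Real.exp (A' * q ^ m) * ((r N + B * s' ^ N) *
            Real.exp (A' * ∑ k ∈ Finset.range m, q ^ k)) :=
            mul_le_mul h4 ih h5 (Real.exp_pos _).le
        _ = _ := by ring
  -- lower bound
  set B₂ := 2 * A' / (1 - s') with hB₂
  have hB₂0 : 0 ≤ B₂ := by positivity
  have t1 : Tendsto (fun n : ℕ => A' * q ^ n) atTop (𝓝 0) := by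
    have := (tendsto_pow_atTop_nhds_zero_of_lt_one hq0 hq1).const_mul A'
    simpa using this
  have t2 : Tendsto (fun n : ℕ => A' / (1 - q) * q ^ n) atTop (𝓝 0) := by
    have := (tendsto_pow_atTop_nhds_zero_of_lt_one hq0 hq1).const_mul (A' / (1 - q))
    simpa using this
  have t3 : Tendsto (fun n : ℕ => B₂ * s ^ n) atTop (𝓝 0) := by
    have := (tendsto_pow_atTop_nhds_zero_of_lt_one hs0 hs1).const_mul B₂
    simpa using this
  obtain ⟨n₀, ⟨⟨⟨hn1, hn2⟩, hn3⟩, hn4⟩⟩ := ((((tendsto_order.mp t1).2 (min ((1 - s') / 2) 1)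
    (lt_min (by linarith) one_pos)).and ((tendsto_order.mp t2).2 (1 / 2) (by norm_num))).and
    ((tendsto_order.mp t3).2 (c / 2) (by positivity))).and (eventually_ge_atTop N) |>.exists
  set l : ℕ → ℝ := fun n => r n - B₂ * s' ^ n with hl
  have hl0 : 0 < l n₀ := by
    have e1 : l n₀ = (a n₀ - B₂ * s ^ n₀) / μ ^ n₀ := by
      simp only [hl, hr, hs', div_pow]
      field_simp
    rw [e1]
    apply div_pos _ (hμn _)
    have := hpos n₀ hn4
    linarith
  have hx : ∀ n ≥ n₀, A' * q ^ n ≤ A' * q ^ n₀ := fun n hn =>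
    mul_le_mul_of_nonneg_left (pow_le_pow_of_le_one hq0 hq1.le hn) hA'0
  have hlstep : ∀ n ≥ n₀, (1 - A' * q ^ n) * l n ≤ l (n + 1) := by
    intro n hn
    have h1 := (abs_le.mp (hrs n (hn4.trans hn))).1
    have h2 : A' * q ^ n ≤ (1 - s') / 2 := (hx n hn).trans (hn1.le.trans (min_le_left _ _))
    have hsn : 0 ≤ s' ^ n := pow_nonneg hs'0 _
    have e1 : B₂ * (1 - s') = 2 * A' := by rw [hB₂]; field_simp
    simp only [hl]
    have h3 : A' * q ^ n * (B₂ * s' ^ n) ≤ (1 - s') / 2 * (B₂ * s' ^ n) :=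
      mul_le_mul_of_nonneg_right h2 (by positivity)
    have e2 : (1 - s') / 2 * (B₂ * s' ^ n) = A' * s' ^ n := by
      have : (1 - s') / 2 * (B₂ * s' ^ n) = (B₂ * (1 - s')) / 2 * s' ^ n := by ring
      rw [this, e1]; ring
    have e3 : B₂ * s' ^ (n + 1) = B₂ * s' ^ n - 2 * A' * s' ^ n := by
      rw [← e1, pow_succ]; ring
    rw [e3]
    linarith
  have hlow : ∀ m : ℕ, (1 - A' * q ^ n₀ * ∑ k ∈ Finset.range m, q ^ k) * l n₀ ≤ l (n₀ + m) := by
    intro m
    induction m with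
    | zero => simp
    | succ m ih =>
      have h1 := hlstep (n₀ + m) (Nat.le_add_right _ _)
      set S := A' * q ^ n₀ * ∑ k ∈ Finset.range m, q ^ k with hS
      have hS0 : 0 ≤ S := by
        have : 0 ≤ ∑ k ∈ Finset.range m, q ^ k := Finset.sum_nonneg fun _ _ => pow_nonneg hq0 _
        positivity
      have hx1 : A' * q ^ (n₀ + m) ≤ 1 := (hx _ (Nat.le_add_right _ _)).trans
        (hn1.le.trans (min_le_right _ _))
      have hx0 : 0 ≤ A' * q ^ (n₀ + m) := by positivity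
      have h2 : (1 - A' * q ^ (n₀ + m)) * ((1 - S) * l n₀) ≤ (1 - A' * q ^ (n₀ + m)) * l (n₀ + m) :=
        mul_le_mul_of_nonneg_left ih (by linarith)
      rw [Finset.sum_range_succ, mul_add, ← hS]
      have e1 : A' * q ^ n₀ * q ^ m = A' * q ^ (n₀ + m) := by rw [pow_add]; ring
      rw [e1]
      have h3 : 0 ≤ A' * q ^ (n₀ + m) * S * l n₀ := by positivity
      show (1 - (S + A' * q ^ (n₀ + m))) * l n₀ ≤ l (n₀ + m + 1)
      nlinarith
  have hlow2 : ∀ n ≥ n₀, l n₀ / 2 ≤ r n := by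
    intro n hn
    obtain ⟨m, rfl⟩ := Nat.exists_eq_add_of_le hn
    have h1 := hlow m
    have h2 := geo_le hq0 hq1 m
    have h3 : A' * q ^ n₀ * ∑ k ∈ Finset.range m, q ^ k ≤ A' * q ^ n₀ * (1 / (1 - q)) :=
      mul_le_mul_of_nonneg_left h2 (by positivity)
    have e1 : A' * q ^ n₀ * (1 / (1 - q)) = A' / (1 - q) * q ^ n₀ := by ring
    have h4 : A' * q ^ n₀ * ∑ k ∈ Finset.range m, q ^ k ≤ 1 / 2 := by linarith
    have h5 : 1 / 2 * l n₀ ≤ (1 - A' * q ^ n₀ * ∑ k ∈ Finset.range m, q ^ k) * l n₀ :=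
      mul_le_mul_of_nonneg_right (by linarith) hl0.le
    have h6 : 0 ≤ B₂ * s' ^ (n₀ + m) := by positivity
    have h7 : l (n₀ + m) = r (n₀ + m) - B₂ * s' ^ (n₀ + m) := rfl
    linarith
  -- assemble
  set P := ∑ i ∈ Finset.range (n₀ + 1), μ ^ i with hP
  have hP0 : 0 < P := Finset.sum_pos (fun i _ => hμn i) ⟨0, by simp⟩
  have hPn : ∀ n ≤ n₀, μ ^ n ≤ P := fun n hn =>
    Finset.single_le_sum (f := fun i => μ ^ i) (fun i _ => (hμn i).le)
      (Finset.mem_range.mpr (Nat.lt_succ_iff.mpr hn))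
  refine ⟨min (l n₀ / 2) (c / P), lt_min (by positivity) (by positivity),
    (r N + B * s' ^ N) * Real.exp (A' * (1 / (1 - q))),
    mul_pos (add_pos_of_pos_of_nonneg (hr0 N le_rfl) (by positivity)) (Real.exp_pos _),
    fun n hn => ⟨?_, ?_⟩⟩
  · rcases le_total n₀ n with h | h
    · have h1 := hlow2 n h
      have h2 : min (l n₀ / 2) (c / P) * μ ^ n ≤ r n * μ ^ n :=
        mul_le_mul_of_nonneg_right ((min_le_left _ _).trans h1) (hμn n).le
      have h3 : r n * μ ^ n = a n := div_mul_cancel₀ _ (hμn n).ne'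
      linarith
    · have h1 : min (l n₀ / 2) (c / P) * μ ^ n ≤ c / P * P :=
        mul_le_mul (min_le_right _ _) (hPn n h) (hμn n).le (by positivity)
      rw [div_mul_cancel₀ _ hP0.ne'] at h1
      exact h1.trans (hpos n hn)
  · obtain ⟨m, rfl⟩ := Nat.exists_eq_add_of_le hn
    have h1 := hup m
    have h2 : A' * ∑ k ∈ Finset.range m, q ^ k ≤ A' * (1 / (1 - q)) :=
      mul_le_mul_of_nonneg_left (geo_le hq0 hq1 m) hA'0
    have h3 : (r N + B * s' ^ N) * Real.exp (A' * ∑ k ∈ Finset.range m, q ^ k) ≤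
        (r N + B * s' ^ N) * Real.exp (A' * (1 / (1 - q))) := by
      apply mul_le_mul_of_nonneg_left (Real.exp_le_exp.mpr h2)
      have := (hr0 N le_rfl).le
      positivity
    have h4 : 0 ≤ B * s' ^ (N + m) := by positivity
    have h5 : r (N + m) ≤ (r N + B * s' ^ N) * Real.exp (A' * (1 / (1 - q))) := by linarith
    have h6 : r (N + m) * μ ^ (N + m) = a (N + m) := div_mul_cancel₀ _ (hμn _).ne'
    rw [← h6]
    exact mul_le_mul_of_nonneg_right h5 (hμn _).le

end Pool.Agent.H74.RS
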