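import Pool.Agent.H74.RS.Err
import Pool.Agent.H74.RS.Rec

set_option autoImplicit false
set_option linter.unusedSectionVars false

open scoped Manifold ContDiff Topology
open Set Filter MeasureTheory

namespace Pool.Agent.H74.RS

open Pool.Agent.H721R2

variable {E : Type*} [NormedAddCommGroup E] [NormedSpace ℝ E] [FiniteDimensional ℝ E]
  {M : Type*} [MetricSpace M] [CompactSpace M] [ChartedSpace E M] [IsManifold 𝓘(ℝ, E) 1 M]
  {F : Type*} [NormedAddCommGroup F] [InnerProductSpace ℝ F] [FiniteDimensional ℝ F]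

/-- uniform lower bound of the coefficient -/
theorem pe_lower {e : M → F} (he : ContMDiff 𝓘(ℝ, E) 𝓘(ℝ, F) 1 e)
    (hinj : ∀ x, Function.Injective (dm E e x))
    {f : M ≃ₜ M} {Es Eu : M → Submodule ℝ E} {C a b Ls Lu : ℝ}
    (h : EAnosov e f Es Eu C a b Ls Lu) {u : ℕ} {x₀ : M} {r C₂ : ℝ}
    (hF : FrameBall e f Eu b u x₀ r C₂) (B : Module.Basis (Fin u) ℝ (Eu x₀))
    {w : M → E [⋀^Fin u]→L[ℝ] ℝ} (hw : C0Form w)
    (hnz : ∀ z, ∀ v : Fin u → E, (∀ j, v j ∈ Eu z) → LinearIndependent ℝ v → w z v ≠ 0)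
    {Kc : Set E} (hKc : IsCompact Kc) (hsub : Kc ⊆ Metric.ball (extChartAt 𝓘(ℝ, E) x₀ x₀) r) :
    ∃ c > 0, ∃ N : ℕ, ∀ y ∈ Kc, ∀ n ≥ N,
      c ≤ |pl (f^[n] ∘ ic E x₀) w y (fun j => (B j : E))| := by
  obtain ⟨C₃, hC₃, N, hN⟩ := pe he hinj h hF B hw isClosed_univ (fun z _ => hnz z)
  obtain ⟨c, hc, δ, hδ, hlb⟩ := form_lb he hinj h hw isClosed_univ (fun z _ => hnz z)
  obtain ⟨B', hB', hub⟩ := form_ub he hinj hw
  have hC₂ := hF.2.1
  have hb0 := h.b_pos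
  have ht : Tendsto (fun n : ℕ => C₂ * b ^ n) atTop (𝓝 0) := by
    have := (tendsto_pow_atTop_nhds_zero_of_lt_one h.b_pos.le h.b_lt).const_mul C₂
    simpa using this
  obtain ⟨N', hN'⟩ := eventually_atTop.mp ((tendsto_order.mp ht).2 δ hδ)
  set N₀ := max N N' with hN₀
  -- the coefficient at time `N₀`
  have hne : ∀ y ∈ Kc,
      pl (f^[N₀] ∘ ic E x₀) w y (fun j => (B j : E)) ≠ 0 := by
    intro y hy
    obtain ⟨w', v, p, h1, h2, h3, h4, h5, h6, -⟩ := hF.2.2.2.2 y (hsub hy) N₀ 0 (Nat.zero_le _)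
    refine ratio_ne (Eu x₀) B _ v h3 ?_
    have := hlb _ trivial w' (fun i => dc (f^[N₀] ∘ ic E x₀) y (v i)) h1 h2
      (fun j => (h6 j).trans (hN' N₀ (le_max_right _ _)).le)
    rw [pl_apply]
    exact abs_pos.mp (lt_of_lt_of_le hc this)
  have hcont : ContinuousOn (fun y => |pl (f^[N₀] ∘ ic E x₀) w y (fun j => (B j : E))|)
      Kc := fun y hy =>
    (pl_eval_continuousAt hw (f^[N₀]) (iter_smooth f h.smooth N₀) x₀ (hF.2.2.1 (hsub hy))
      _).abs.continuousWithinAt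
  rcases Kc.eq_empty_or_nonempty with hemp | hnem
  · refine ⟨1, one_pos, 0, fun y hy => ?_⟩
    rw [hemp] at hy
    exact absurd hy (notMem_empty _)
  obtain ⟨y₁, hy₁, hmin⟩ := hKc.exists_isMinOn hnem hcont
  have hc₀ : 0 < |pl (f^[N₀] ∘ ic E x₀) w y₁ (fun j => (B j : E))| := abs_pos.mpr (hne y₁ hy₁)
  set c₀ := |pl (f^[N₀] ∘ ic E x₀) w y₁ (fun j => (B j : E))| with hc₀d
  refine ⟨c₀ / (C₃ * (B' * C₂ ^ u)), by positivity, N₀, fun y hy n hn => ?_⟩
  obtain ⟨v, h1, h2, h3⟩ := hN y (hsub hy) n ((le_max_left _ _).trans hn) trivial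
  have h4 := h3 (pl (f^[N₀] ∘ ic E x₀) w y)
  have h5 : c₀ ≤ |pl (f^[N₀] ∘ ic E x₀) w y (fun j => (B j : E))| := hmin hy
  have h6 : |pl (f^[N₀] ∘ ic E x₀) w y v| ≤ B' * C₂ ^ u := by
    rw [pl_apply]
    refine (hub _ _).trans ?_
    apply mul_le_mul_of_nonneg_left _ hB'.le
    calc _ ≤ ∏ _j : Fin u, C₂ := by
          apply Finset.prod_le_prod (fun _ _ => norm_nonneg _)
          intro j _
          refine (h2 N₀ hn j).trans ?_
          have : b ^ (n - N₀) ≤ 1 := pow_le_one₀ hb0.le h.b_lt.le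
          calc C₂ * b ^ (n - N₀) ≤ C₂ * 1 := mul_le_mul_of_nonneg_left this hC₂.le
            _ = C₂ := mul_one _
      _ = C₂ ^ u := by rw [Finset.prod_const, Finset.card_univ, Fintype.card_fin]
  rw [div_le_iff₀ (by positivity)]
  calc c₀ ≤ |pl (f^[N₀] ∘ ic E x₀) w y (fun j => (B j : E))| := h5
    _ ≤ C₃ * |pl (f^[N₀] ∘ ic E x₀) w y v| * |pl (f^[n] ∘ ic E x₀) w y (fun j => (B j : E))| := h4
    _ ≤ C₃ * (B' * C₂ ^ u) * |pl (f^[n] ∘ ic E x₀) w y (fun j => (B j : E))| :=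
        mul_le_mul_of_nonneg_right (mul_le_mul_of_nonneg_left h6 hC₃.le) (abs_nonneg _)
    _ = _ := by ring

/-- a continuous nonvanishing function on a preconnected set has a constant sign -/
theorem const_sign {X : Type*} [TopologicalSpace X] {s : Set X} (hs : IsPreconnected s) {g : X → ℝ}
    (hg : ContinuousOn g s) (h0 : ∀ x ∈ s, g x ≠ 0) :
    (∀ x ∈ s, 0 < g x) ∨ (∀ x ∈ s, g x < 0) := by
  by_contra hcon
  push Not at hcon
  obtain ⟨⟨x, hx, hx0⟩, ⟨y, hy, hy0⟩⟩ := hcon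
  have h1 := hs.intermediate_value hx hy hg
  obtain ⟨z, hz, hz0⟩ := h1 ⟨hx0, hy0⟩
  exact h0 z hz hz0

theorem iter_smooth2 (f : M → M) (hf : ContMDiff 𝓘(ℝ, E) 𝓘(ℝ, E) 2 f) (n : ℕ) :
    ContMDiff 𝓘(ℝ, E) 𝓘(ℝ, E) 2 (f^[n]) := by
  induction n with
  | zero => exact contMDiff_id
  | succ n ih => exact ih.comp hf

/-- weight controlling a test function and its derivative -/
noncomputable def wt (φ : E → ℝ) (y : E) : ℝ := |φ y| + ‖fderiv ℝ φ y‖

theorem wt_support (φ : E → ℝ) : tsupport (wt φ) ⊆ tsupport φ := by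
  apply closure_minimal _ (isClosed_tsupport φ)
  intro y hy
  by_contra hcon
  apply hy
  have h1 : y ∉ tsupport (fderiv ℝ φ) := fun h => hcon (tsupport_fderiv_subset ℝ h)
  simp [wt, image_eq_zero_of_notMem_tsupport hcon, image_eq_zero_of_notMem_tsupport h1]

theorem wt_continuous {φ : E → ℝ} (hφ : ContDiff ℝ 1 φ) : Continuous (wt φ) :=
  hφ.continuous.abs.add (hφ.continuous_fderiv (by norm_num)).norm

theorem dw_zero {k : ℕ} (b : E [⋀^Fin k]→L[ℝ] ℝ) (v : Fin (k + 1) → E) :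
    dw (0 : E →L[ℝ] ℝ) b v = 0 := by
  rw [dw_apply]; simp

/-- one step of the recursion -/
theorem int_step [IsManifold 𝓘(ℝ, E) 2 M] [MeasurableSpace E] [BorelSpace E] (ν : Measure E)
    [ν.IsAddHaarMeasure] {e : M → F} (he : ContMDiff 𝓘(ℝ, E) 𝓘(ℝ, F) 1 e)
    (hinj : ∀ x, Function.Injective (dm E e x))
    {f : M ≃ₜ M} (hf2 : ContMDiff 𝓘(ℝ, E) 𝓘(ℝ, E) 2 f)
    {Es Eu : M → Submodule ℝ E} {C a b Ls Lu : ℝ}
    (h : EAnosov e f Es Eu C a b Ls Lu) {k : ℕ} {x₀ : M} {r C₂ : ℝ}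
    (hF : FrameBall e f Eu b (k + 1) x₀ r C₂) (B : Module.Basis (Fin (k + 1)) ℝ (Eu x₀))
    {w : M → E [⋀^Fin (k + 1)]→L[ℝ] ℝ} (hw : C0Form w)
    (hnz : ∀ z, ∀ v : Fin (k + 1) → E, (∀ j, v j ∈ Eu z) → LinearIndependent ℝ v → w z v ≠ 0)
    {J : ℝ} (hJ : VolExp f Eu w J) {lam σ : ℝ} (I : Incr e f k w lam σ) :
    ∃ C₄ > 0, ∃ N : ℕ, ∀ n ≥ N,
      (∀ y ∈ Metric.ball (extChartAt 𝓘(ℝ, E) x₀ x₀) r,
        pl (f^[n] ∘ ic E x₀) w y (fun j => (B j : E)) ≠ 0) ∧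
      ∀ φ : E → ℝ, ContDiff ℝ 1 φ → HasCompactSupport φ →
      tsupport φ ⊆ Metric.ball (extChartAt 𝓘(ℝ, E) x₀ x₀) r →
      |∫ y, φ y * pl (f^[n + 1] ∘ ic E x₀) w y (fun j => (B j : E)) ∂ν -
        lam * ∫ y, φ y * pl (f^[n] ∘ ic E x₀) w y (fun j => (B j : E)) ∂ν| ≤
      C₄ * ((n + 1) * (max b (σ * J)) ^ n) *
        ∫ y, wt φ y * |pl (f^[n] ∘ ic E x₀) w y (fun j => (B j : E))| ∂ν := by
  obtain ⟨C₄, hC₄, N, hN⟩ := err he hinj h hF B hw hnz hJ I
  refine ⟨C₄, hC₄, N, fun n hn => ⟨fun y hy => (hN y hy n hn).1, fun φ hφ hφc hφs => ?_⟩⟩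
  set O := Metric.ball (extChartAt 𝓘(ℝ, E) x₀ x₀) r with hO
  set D : ℕ → E → ℝ := fun n y => pl (f^[n] ∘ ic E x₀) w y (fun j => (B j : E)) with hD
  have hOt : O ⊆ tg E x₀ := hF.2.2.1
  have hDc : ∀ n, ∀ y ∈ O, ContinuousAt (D n) y := fun n y hy =>
    pl_eval_continuousAt hw (f^[n]) (iter_smooth f h.smooth n) x₀ (hOt hy) _
  set g : ℕ → E → E [⋀^Fin k]→L[ℝ] ℝ := fun j => pl (f^[j] ∘ ic E x₀) (I.β n j) with hg
  have hst : ∀ j, Integrable (fun y => φ y * extDeriv (g j) y (fun j => (B j : E))) ν ∧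
      Integrable (fun y => dw (fderiv ℝ φ y) (g j y) (fun j => (B j : E))) ν ∧
      ∫ y, φ y * extDeriv (g j) y (fun j => (B j : E)) ∂ν =
        - ∫ y, dw (fderiv ℝ φ y) (g j y) (fun j => (B j : E)) ∂ν := fun j =>
    stokes ν (O := O) (fun y hy => pl_differentiableAt (f^[j]) (iter_smooth2 f hf2 j)
      (I.β_c1 n j) x₀ (hOt hy))
      (fun v y hy => pl_eval_contDiffAt (f^[j]) (iter_smooth2 f hf2 j) (I.β_c1 n j) x₀ (hOt hy) v)
      hφ hφc hφs _
  have hεc : ∀ y ∈ O, ContinuousAt (fun y => pl (ic E x₀) (I.ε n) y (fun j => (B j : E))) y := by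
    intro y hy
    have := pl_eval_continuousAt (I.ε_c0 n) (id : M → M) contMDiff_id x₀ (hOt hy)
      (fun j => (B j : E))
    exact this
  have i1 : Integrable (fun y => φ y * pl (ic E x₀) (I.ε n) y (fun j => (B j : E))) ν :=
    integrable_mul_of_tsupport ν hφ.continuous hφc hφs hεc
  have i2 : ∀ n, Integrable (fun y => φ y * D n y) ν := fun n =>
    integrable_mul_of_tsupport ν hφ.continuous hφc hφs (hDc n)
  have hwtc : HasCompactSupport (wt φ) := hφc.of_isClosed_subset (isClosed_tsupport _) (wt_support φ)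
  have i3 : Integrable (fun y => wt φ y * |D n y|) ν :=
    integrable_mul_of_tsupport ν (wt_continuous hφ) hwtc ((wt_support φ).trans hφs)
      (fun y hy => (hDc n y hy).abs)
  -- pointwise identity
  have hpt : ∀ y, φ y * D (n + 1) y - lam * (φ y * D n y) =
      φ y * pl (ic E x₀) (I.ε n) y (fun j => (B j : E)) +
      ∑ j ∈ Finset.range (n + 1), φ y * extDeriv (g j) y (fun j => (B j : E)) := by
    intro y
    by_cases hy : y ∈ tsupport φ
    · have h1 := I.step n x₀ y (hOt (hφs hy))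
      have h2 : D (n + 1) y = lam * D n y + pl (ic E x₀) (I.ε n) y (fun j => (B j : E)) +
          ∑ j ∈ Finset.range (n + 1), extDeriv (g j) y (fun j => (B j : E)) := by
        simp only [hD]
        rw [h1]
        simp [ContinuousAlternatingMap.sum_apply, hg]
      rw [h2, ← Finset.mul_sum]; ring
    · simp [image_eq_zero_of_notMem_tsupport hy]
  have hint : ∫ y, φ y * D (n + 1) y ∂ν - lam * ∫ y, φ y * D n y ∂ν =
      ∫ y, (φ y * pl (ic E x₀) (I.ε n) y (fun j => (B j : E)) -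
        ∑ j ∈ Finset.range (n + 1), dw (fderiv ℝ φ y) (g j y) (fun j => (B j : E))) ∂ν := by
    rw [← integral_const_mul, ← integral_sub (i2 (n + 1)) ((i2 n).const_mul lam)]
    rw [integral_congr_ae (Eventually.of_forall hpt)]
    rw [integral_add i1 (integrable_finsetSum _ fun j _ => (hst j).1),
      integral_finsetSum _ fun j _ => (hst j).1,
      integral_sub i1 (integrable_finsetSum _ fun j _ => (hst j).2.1),
      integral_finsetSum _ fun j _ => (hst j).2.1, sub_eq_add_neg, ← Finset.sum_neg_distrib]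
    congr 1
    exact Finset.sum_congr rfl fun j _ => (hst j).2.2
  show |∫ y, φ y * D (n + 1) y ∂ν - lam * ∫ y, φ y * D n y ∂ν| ≤ _
  rw [hint, ← integral_const_mul, ← Real.norm_eq_abs]
  apply norm_integral_le_of_norm_le (i3.const_mul _)
  refine Eventually.of_forall fun y => ?_
  rw [Real.norm_eq_abs]
  by_cases hy : y ∈ tsupport φ
  · have := (hN y (hφs hy) n hn).2 (φ y) (fderiv ℝ φ y)
    refine this.trans (le_of_eq ?_)
    simp only [wt, hD]; ring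
  · have h1 : y ∉ tsupport (fderiv ℝ φ) := fun h => hy (tsupport_fderiv_subset ℝ h)
    have h2 : fderiv ℝ φ y = 0 := image_eq_zero_of_notMem_tsupport h1
    have h3 : φ y = 0 := image_eq_zero_of_notMem_tsupport hy
    simp only [h2, h3, dw_zero, wt]
    simp

end Pool.Agent.H74.RS
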