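import Mathlib

set_option autoImplicit false

open Polynomial

namespace Pool.Agent.H74.RS

/-- nonnegative coefficients -/
def NN (p : ℝ[X]) : Prop := ∀ j, 0 ≤ p.coeff j

theorem NN.mul {p q : ℝ[X]} (hp : NN p) (hq : NN q) : NN (p * q) := by
  intro j
  rw [coeff_mul]
  exact Finset.sum_nonneg fun i _ => mul_nonneg (hp _) (hq _)

theorem NN.add {p q : ℝ[X]} (hp : NN p) (hq : NN q) : NN (p + q) := by
  intro j
  rw [coeff_add]
  exact add_nonneg (hp _) (hq _)

theorem NN.C {c : ℝ} (hc : 0 ≤ c) : NN (C c) := by
  intro j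
  rw [coeff_C]
  split_ifs
  · exact hc
  · exact le_rfl

theorem NN.X : NN (X : ℝ[X]) := by
  intro j
  rw [coeff_X]
  split_ifs
  · exact zero_le_one
  · exact le_rfl

theorem NN.expand {p : ℝ[X]} (hp : NN p) : NN (expand ℝ 2 p) := by
  intro j
  rw [coeff_expand two_pos]
  split_ifs
  · exact hp _
  · exact le_rfl

theorem quad_ne (b c : ℝ) : (X ^ 2 + C b * X + C c : ℝ[X]) ≠ 0 := by
  intro h
  have h1 : (X ^ 2 + C b * X + C c : ℝ[X]).coeff 2 = 1 := by
    simp [coeff_X, coeff_C]
  rw [h] at h1
  simp at h1

theorem quad_nn {b c : ℝ} (hb : 0 ≤ b) (hc : 0 ≤ c) : NN (X ^ 2 + C b * X + C c : ℝ[X]) := by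
  refine ((?_ : NN (X ^ 2 : ℝ[X])).add ((NN.C hb).mul NN.X)).add (NN.C hc)
  rw [pow_two]
  exact NN.X.mul NN.X

/-- a quadratic polynomial without nonnegative root divides a polynomial with nonnegative
coefficients -/
theorem quad_mult (n : ℕ) : ∀ (r t : ℝ), 0 < r → t < 1 → 1 ≤ 2 ^ n * (1 - t) →
    ∃ m : ℝ[X], m ≠ 0 ∧ NN ((X ^ 2 + C (-(2 * r * t)) * X + C (r ^ 2)) * m) := by
  induction n with
  | zero =>
    intro r t hr ht h
    have ht0 : t ≤ 0 := by rw [pow_zero, one_mul] at h; linarith
    refine ⟨1, one_ne_zero, ?_⟩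
    rw [mul_one]
    exact quad_nn (by nlinarith) (by positivity)
  | succ n ih =>
    intro r t hr ht h
    by_cases ht0 : t ≤ 0
    · refine ⟨1, one_ne_zero, ?_⟩
      rw [mul_one]
      exact quad_nn (by nlinarith) (by positivity)
    · rw [not_le] at ht0
      obtain ⟨m, hm, hnn⟩ := ih (r ^ 2) (2 * t ^ 2 - 1) (by positivity) (by nlinarith) (by
        have h1 : 1 - (2 * t ^ 2 - 1) = 2 * (1 - t) * (1 + t) := by ring
        rw [h1]
        have h2 : (0 : ℝ) < 2 ^ n := by positivity
        have h3 : 2 * (1 - t) ≤ 2 * (1 - t) * (1 + t) := by nlinarith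
        calc (1 : ℝ) ≤ 2 ^ (n + 1) * (1 - t) := h
          _ = 2 ^ n * (2 * (1 - t)) := by rw [pow_succ]; ring
          _ ≤ 2 ^ n * (2 * (1 - t) * (1 + t)) := mul_le_mul_of_nonneg_left h3 h2.le)
      refine ⟨(X ^ 2 + C (2 * r * t) * X + C (r ^ 2)) * Polynomial.expand ℝ 2 m,
        mul_ne_zero (quad_ne _ _) ((expand_ne_zero two_pos).mpr hm), ?_⟩
      have h4 : (X ^ 2 + C (-(2 * r * t)) * X + C (r ^ 2) : ℝ[X]) *
          ((X ^ 2 + C (2 * r * t) * X + C (r ^ 2)) * Polynomial.expand ℝ 2 m) =
          Polynomial.expand ℝ 2 ((X ^ 2 + C (-(2 * r ^ 2 * (2 * t ^ 2 - 1))) * X + C ((r ^ 2) ^ 2)) * m) := by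
        rw [map_mul, ← mul_assoc]
        congr 1
        simp only [map_add, map_mul, map_pow, expand_X, expand_C]
        have hC2 : (C (2 : ℝ) : ℝ[X]) = 2 := map_ofNat C 2
        simp only [C_neg, C_mul, C_pow, C_sub, C_1, hC2]
        ring
      rw [h4]
      exact hnn.expand

/-- Polynomials without roots in `[κ, ∞)`. -/
theorem polya_pos {κ : ℝ} (q : ℝ[X]) : q ≠ 0 → (∀ x, κ ≤ x → q.eval x ≠ 0) →
    ∃ (m P : ℝ[X]) (L : List ℝ), P ≠ 0 ∧ NN P ∧ (∀ ρ ∈ L, 0 < ρ ∧ ρ < κ) ∧
      q * m = P * (L.map fun ρ => X - C ρ).prod := by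
  induction q using WfDvdMonoid.induction_on_irreducible with
  | zero => intro h; exact absurd rfl h
  | unit u hu =>
    intro _ _
    obtain ⟨v, rfl⟩ := hu
    refine ⟨(v⁻¹ : ℝ[X]ˣ), 1, [], one_ne_zero, ?_, by simp, by simp⟩
    have : (1 : ℝ[X]) = C 1 := by simp
    rw [this]
    exact NN.C zero_le_one
  | mul a i ha hi ih =>
    intro hia hroot
    obtain ⟨m, P, L, hP, hPn, hL, hmP⟩ := ih ha fun x hx h0 => hroot x hx (by
      rw [eval_mul, h0, mul_zero])
    have hri : ∀ x, κ ≤ x → i.eval x ≠ 0 := fun x hx h0 => hroot x hx (by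
      rw [eval_mul, h0, zero_mul])
    -- the irreducible factor
    have key : ∃ (m' P' : ℝ[X]) (L' : List ℝ), P' ≠ 0 ∧ NN P' ∧ (∀ ρ ∈ L', 0 < ρ ∧ ρ < κ) ∧
        i * m' = P' * (L'.map fun ρ => X - C ρ).prod := by
      have hdeg : i.natDegree ≤ 2 := by
        have := hi.degree_le_two
        exact natDegree_le_of_degree_le this
      by_cases h2 : i.natDegree = 2
      · -- quadratic
        have hrt : ∀ x, i.eval x ≠ 0 := by
          intro x hx
          have h3 := dvd_iff_isRoot.mpr (show i.IsRoot x from hx)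
          have h4 := (irreducible_X_sub_C x).associated_of_dvd hi h3
          have h5 := Polynomial.degree_eq_degree_of_associated h4
          have h6 : i.degree = 2 := by
            rw [degree_eq_natDegree hi.ne_zero, h2]; rfl
          rw [degree_X_sub_C, h6] at h5
          exact absurd h5 (by decide)
        set A := i.coeff 2 with hA
        set B := i.coeff 1 with hB
        set D := i.coeff 0 with hD
        have hform : i = C A * X ^ 2 + C B * X + C D := by
          have := i.as_sum_range_C_mul_X_pow
          rw [h2] at this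
          rw [this]
          simp only [Finset.sum_range_succ, Finset.sum_range_zero]
          simp
          ring
        have hA0 : A ≠ 0 := by
          have := leadingCoeff_ne_zero.mpr hi.ne_zero
          rwa [leadingCoeff, h2] at this
        have hdisc : discrim A B D < 0 := by
          by_contra hcon
          rw [not_lt] at hcon
          obtain ⟨x, hx⟩ := exists_quadratic_eq_zero hA0 ⟨Real.sqrt (discrim A B D),
            (Real.mul_self_sqrt hcon).symm⟩
          apply hrt x
          rw [hform]
          simp only [eval_add, eval_mul, eval_C, eval_pow, eval_X]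
          linarith [hx, pow_two x]
        rw [discrim] at hdisc
        set c := D / A with hc
        set b := B / A with hb
        have hbc : b ^ 2 < 4 * c := by
          have hA2 : 0 < A ^ 2 := by positivity
          have e1 : b ^ 2 * A ^ 2 = B ^ 2 := by rw [hb]; field_simp
          have e2 : 4 * c * A ^ 2 = 4 * A * D := by rw [hc]; field_simp
          have : b ^ 2 * A ^ 2 < 4 * c * A ^ 2 := by rw [e1, e2]; linarith
          exact lt_of_mul_lt_mul_right this hA2.le
        have hc0 : 0 < c := by nlinarith [sq_nonneg b]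
        set r := Real.sqrt c with hr
        have hr0 : 0 < r := Real.sqrt_pos.mpr hc0
        have hr2 : r ^ 2 = c := Real.sq_sqrt hc0.le
        set t := -b / (2 * r) with ht
        have hrt' : 2 * r * t = -b := by rw [ht]; field_simp
        have ht1 : t < 1 := by
          rw [ht, div_lt_one (by positivity)]
          have : b ^ 2 < (2 * r) ^ 2 := by rw [mul_pow, hr2]; linarith
          have h7 := abs_lt_of_sq_lt_sq this (by positivity)
          rw [abs_lt] at h7
          linarith [h7.1]
        obtain ⟨n, hn⟩ := pow_unbounded_of_one_lt (1 / (1 - t)) (one_lt_two : (1 : ℝ) < 2)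
        obtain ⟨m', hm', hnn⟩ := quad_mult n r t hr0 ht1 (by
          rw [div_lt_iff₀ (by linarith)] at hn
          exact hn.le)
        rw [hrt', neg_neg, hr2] at hnn
        refine ⟨C A⁻¹ * m', (X ^ 2 + C b * X + C c) * m', [], mul_ne_zero (quad_ne _ _) hm', hnn,
          by simp, ?_⟩
        rw [List.map_nil, List.prod_nil, mul_one, ← mul_assoc]
        congr 1
        rw [hform, hb, hc]
        have hCA : C A * C A⁻¹ = (1 : ℝ[X]) := by rw [← C_mul, mul_inv_cancel₀ hA0, C_1]
        rw [div_eq_mul_inv, div_eq_mul_inv, C_mul, C_mul]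
        linear_combination (X ^ 2) * hCA
      · -- linear
        have h1 : i.natDegree = 1 := by
          have h0 : i.natDegree ≠ 0 := by
            intro h0
            apply hi.not_isUnit
            rw [eq_C_of_natDegree_eq_zero h0] at hi ⊢
            exact isUnit_C.mpr (isUnit_iff_ne_zero.mpr fun h => hi.ne_zero (by rw [h, C_0]))
          omega
        set A := i.coeff 1 with hA
        set D := i.coeff 0 with hD
        have hform : i = C A * X + C D := by
          have := i.as_sum_range_C_mul_X_pow
          rw [h1] at this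
          rw [this]
          simp only [Finset.sum_range_succ, Finset.sum_range_zero]
          simp
          ring
        have hA0 : A ≠ 0 := by
          have := leadingCoeff_ne_zero.mpr hi.ne_zero
          rwa [leadingCoeff, h1] at this
        set x := -D / A with hx
        have hform' : i = C A * (X - C x) := by
          rw [hform, hx]
          have hCA : C A * C A⁻¹ = (1 : ℝ[X]) := by rw [← C_mul, mul_inv_cancel₀ hA0, C_1]
          rw [div_eq_mul_inv, C_mul, C_neg]
          linear_combination (-C D) * hCA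
        have hxκ : x < κ := by
          by_contra hcon
          rw [not_lt] at hcon
          apply hri x hcon
          rw [hform']
          simp
        have hCA : C A * C A⁻¹ = (1 : ℝ[X]) := by rw [← C_mul, mul_inv_cancel₀ hA0, C_1]
        by_cases hx0 : x ≤ 0
        · refine ⟨C A⁻¹, X - C x, [], X_sub_C_ne_zero x, ?_, by simp, ?_⟩
          · rw [sub_eq_add_neg, ← C_neg]
            exact NN.X.add (NN.C (by linarith))
          · rw [List.map_nil, List.prod_nil, mul_one, hform']
            linear_combination (X - C x) * hCA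
        · rw [not_le] at hx0
          refine ⟨C A⁻¹, 1, [x], one_ne_zero, ?_, ?_, ?_⟩
          · have : (1 : ℝ[X]) = C 1 := by simp
            rw [this]
            exact NN.C zero_le_one
          · intro ρ hρ
            rw [List.mem_singleton] at hρ
            rw [hρ]
            exact ⟨hx0, hxκ⟩
          · rw [List.map_singleton, List.prod_singleton, one_mul, hform']
            linear_combination (X - C x) * hCA
    obtain ⟨m', P', L', hP', hPn', hL', hmP'⟩ := key
    refine ⟨m' * m, P' * P, L' ++ L, mul_ne_zero hP' hP, hPn'.mul hPn, ?_, ?_⟩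
    · intro ρ hρ
      rcases List.mem_append.mp hρ with h | h
      · exact hL' ρ h
      · exact hL ρ h
    · rw [List.map_append, List.prod_append]
      calc i * a * (m' * m) = (i * m') * (a * m) := by ring
        _ = _ := by rw [hmP', hmP]; ring

/-- Polynomials without roots in a half-line. -/
theorem polya {s κ : ℝ} (hs : s * s = 1) (hκ : 0 < κ) (q : ℝ[X])
    (hq : ∀ x, κ ≤ s * x → q.eval x ≠ 0) :
    ∃ (m P : ℝ[X]) (L : List ℝ), P ≠ 0 ∧ (∀ j, 0 ≤ s ^ j * P.coeff j) ∧ (∀ ρ ∈ L, |ρ| < κ) ∧
      q * m = P * (L.map fun ρ => X - C ρ).prod := by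
  have hCs : (C s * C s : ℝ[X]) = 1 := by rw [← C_mul, hs, C_1]
  have hinv : ∀ p : ℝ[X], (p.comp (C s * X)).comp (C s * X) = p := by
    intro p
    rw [comp_assoc]
    have : (C s * X : ℝ[X]).comp (C s * X) = X := by
      rw [mul_comp, C_comp, X_comp, ← mul_assoc, hCs, one_mul]
    rw [this, comp_X]
  have hq0 : q ≠ 0 := by
    intro h0
    apply hq (s * κ)
    · rw [← mul_assoc, hs, one_mul]
    · rw [h0, eval_zero]
  obtain ⟨m, P, L, hP, hPn, hL, hmP⟩ := polya_pos (κ := κ) (q.comp (C s * X)) (by
    intro h0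
    apply hq0
    have := hinv q
    rw [h0, zero_comp] at this
    exact this.symm) (by
    intro x hx h0
    rw [eval_comp, eval_mul, eval_C, eval_X] at h0
    refine hq (s * x) ?_ h0
    rwa [← mul_assoc, hs, one_mul])
  have hprod : ∀ L : List ℝ, ((L.map fun ρ => X - C ρ).prod : ℝ[X]).comp (C s * X) =
      C s ^ L.length * ((L.map fun ρ => s * ρ).map fun ρ => X - C ρ).prod := by
    intro L
    induction L with
    | nil => simp
    | cons a L ih =>
      simp only [List.map_cons, List.prod_cons, mul_comp, List.length_cons]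
      rw [ih]
      have : (X - C a : ℝ[X]).comp (C s * X) = C s * (X - C (s * a)) := by
        rw [sub_comp, X_comp, C_comp, C_mul]
        linear_combination (C a) * hCs
      rw [this, pow_succ]
      ring
  refine ⟨m.comp (C s * X) * C s ^ L.length, P.comp (C s * X), L.map fun ρ => s * ρ, ?_, ?_, ?_, ?_⟩
  · intro h0
    apply hP
    have := hinv P
    rw [h0, zero_comp] at this
    exact this.symm
  · intro j
    rw [comp_C_mul_X_coeff]
    have : s ^ j * (P.coeff j * s ^ j) = P.coeff j := by
      calc s ^ j * (P.coeff j * s ^ j) = P.coeff j * (s * s) ^ j := by rw [mul_pow]; ring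
        _ = _ := by rw [hs, one_pow, mul_one]
    rw [this]
    exact hPn j
  · intro ρ hρ
    obtain ⟨x, hx, rfl⟩ := List.mem_map.mp hρ
    have habs : |s| = 1 := by
      have h1 : |s| * |s| = 1 := by rw [← abs_mul, hs, abs_one]
      nlinarith [abs_nonneg s]
    rw [abs_mul, habs, one_mul, abs_of_pos (hL x hx).1]
    exact (hL x hx).2
  · have h1 := congrArg (fun p : ℝ[X] => p.comp (C s * X)) hmP
    simp only [mul_comp] at h1
    rw [hinv, hprod] at h1
    rw [← mul_assoc, h1]
    have h2 : (C s ^ L.length * C s ^ L.length : ℝ[X]) = 1 := by rw [← mul_pow, hCs, one_pow]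
    linear_combination (P.comp (C s * X) *
      ((L.map fun ρ => s * ρ).map fun ρ => X - C ρ).prod) * h2

end Pool.Agent.H74.RS
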