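import Pool.Agent.H74.RS.Trans
import Pool.Agent.H74.RS.Cmp
import Pool.Agent.H74.RS.Dec
import Pool.Agent.H74.RS.Polya

set_option autoImplicit false
set_option linter.unusedSectionVars false

open scoped Manifold ContDiff Topology Polynomial
open Set Filter MeasureTheory Polynomial

namespace Pool.Agent.H74.RS

open Pool.Agent.H721R2 Pool.Agent.Y331.EP Q70.AnG

theorem exists_between_list (κ : ℝ) (hκ : 0 < κ) (L : List ℝ) (hL : ∀ ρ ∈ L, |ρ| < κ) :
    ∃ σ, 0 < σ ∧ σ < κ ∧ ∀ ρ ∈ L, |ρ| < σ := by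
  induction L with
  | nil => exact ⟨κ / 2, by positivity, by linarith, by simp⟩
  | cons ρ L ih =>
    obtain ⟨σ, h1, h2, h3⟩ := ih fun ρ' hρ' => hL ρ' (List.mem_cons_of_mem _ hρ')
    have h4 := hL ρ List.mem_cons_self
    refine ⟨max σ ((|ρ| + κ) / 2), lt_max_of_lt_left h1, max_lt h2 (by linarith), ?_⟩
    intro ρ' hρ'
    rcases List.mem_cons.mp hρ' with rfl | h
    · exact lt_max_of_lt_right (by linarith)
    · exact lt_max_of_lt_left (h3 ρ' h)

variable {E : Type*} [NormedAddCommGroup E] [NormedSpace ℝ E] [FiniteDimensional ℝ E]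
  {M : Type*} [MetricSpace M] [CompactSpace M] [ChartedSpace E M]
  [IsManifold 𝓘(ℝ, E) 1 M] [IsManifold 𝓘(ℝ, E) 2 M]
  {F : Type*} [NormedAddCommGroup F] [InnerProductSpace ℝ F] [FiniteDimensional ℝ F]
  {e : M → F} {f : M ≃ₜ M} {Es Eu : M → Submodule ℝ E} {C a b Ls Lu : ℝ} {k N₀ : ℕ}
  {S : HypSys M F}

theorem dg_iter_inj (h : EAnosov e f Es Eu C a b Ls Lu) (n : ℕ) (x : M) :
    Function.Injective (dg E (f^[n]) x) := by
  intro v v' hvv
  have h1 := fun v => dg_inv (f^[n]) (f.symm^[n]) (iter_smooth f h.smooth n)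
    (iter_smooth f.symm h.smooth' n) (fun x => iter_left f n x) x v
  rw [← h1 v, ← h1 v', hvv]

theorem sign_iter (h : EAnosov e f Es Eu C a b Ls Lu) {s : ℝ} (hs : s * s = 1)
    {w : M → E [⋀^Fin (k + 1)]→L[ℝ] ℝ}
    (hpos : ∀ x, ∀ v : Fin (k + 1) → E, (∀ j, v j ∈ Eu x) → LinearIndependent ℝ v →
      0 < s * (w x v * pb f w x v)) (j : ℕ) (x : M) (v : Fin (k + 1) → E)
    (hv : ∀ j, v j ∈ Eu x) (hl : LinearIndependent ℝ v) :
    0 < s ^ j * (w x v * pb (f^[j]) w x v) := by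
  have hs0 : s ≠ 0 := by rintro rfl; simp at hs
  have hne : ∀ x, ∀ v : Fin (k + 1) → E, (∀ j, v j ∈ Eu x) → LinearIndependent ℝ v →
      w x v ≠ 0 := by
    intro x v hv hl h0
    have := hpos x v hv hl
    rw [h0, zero_mul, mul_zero] at this
    exact lt_irrefl _ this
  induction j with
  | zero =>
    have h1 : pb (f^[0]) w x v = w x v := by
      have := congrFun (T_pow (k := k + 1) f h.smooth 0 w) x
      rw [pow_zero] at this
      rw [← this]
      rfl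
    rw [h1, pow_zero, one_mul]
    exact mul_self_pos.mpr (hne x v hv hl)
  | succ j ih =>
    set v' : Fin (k + 1) → E := fun i => dg E (f^[j]) x (v i) with hv'
    have hv'm : ∀ i, v' i ∈ Eu (f^[j] x) := fun i => h.mapU j x _ (hv i)
    have hv'l : LinearIndependent ℝ v' := by
      have := hl.map' (dg E (f^[j]) x).toLinearMap
        (LinearMap.ker_eq_bot.mpr (dg_iter_inj h j x))
      exact this
    have h1 := hpos (f^[j] x) v' hv'm hv'l
    have h2 : w (f^[j] x) v' = pb (f^[j]) w x v := rfl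
    have h3 : pb f w (f^[j] x) v' = pb (f^[j + 1]) w x v := by
      have e1 : pb (f^[j + 1]) w = pb (f^[j]) (pb f w) := by
        have a1 := T_pow (k := k + 1) f h.smooth (j + 1) w
        rw [pow_succ, Module.End.mul_apply, T_pow f h.smooth j, T_apply] at a1
        exact a1.symm
      rw [e1]
      rfl
    rw [h2, h3] at h1
    have h4 : 0 < (s ^ j * (w x v * pb (f^[j]) w x v)) *
        (s * (pb (f^[j]) w x v * pb (f^[j + 1]) w x v)) := mul_pos ih h1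
    have h5 : (s ^ j * (w x v * pb (f^[j]) w x v)) *
        (s * (pb (f^[j]) w x v * pb (f^[j + 1]) w x v)) =
        (s ^ (j + 1) * (w x v * pb (f^[j + 1]) w x v)) * (pb (f^[j]) w x v) ^ 2 := by
      rw [pow_succ]; ring
    rw [h5] at h4
    exact pos_of_mul_pos_left h4 (sq_nonneg _)

/-- Pure exponential growth of separated orbits, from one calibrating form. -/
theorem cal_growth [MeasurableSpace E] [BorelSpace E] (ν : Measure E) [ν.IsAddHaarMeasure]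
    (hS : Sys e f Es Eu C a b Ls Lu (k + 1) N₀ S) (hf2 : ContMDiff 𝓘(ℝ, E) 𝓘(ℝ, E) 2 f)
    {w : M → E [⋀^Fin (k + 1)]→L[ℝ] ℝ} {β : M → E [⋀^Fin k]→L[ℝ] ℝ} {s lam : ℝ} {q : ℝ[X]}
    (hw : C0Form w) (hβ : C1Form β) (hs : s * s = 1)
    (hpos : ∀ x, ∀ v : Fin (k + 1) → E, (∀ j, v j ∈ Eu x) → LinearIndependent ℝ v →
      0 < s * (w x v * pb f w x v))
    {J : ℝ} (hJ : VolExp f Eu w J)
    (hlam : lam ≠ 0) (hq : ∀ x : ℝ, 1 ≤ s * x * J → q.eval x ≠ 0)
    (hex : IsEx ((aeval (T (k + 1) f) ((X - Polynomial.C lam) * q)) w) β) :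
    ∃ μ > 0, (∀ ε > 0, ∃ A > 0, ∀ m : ℕ, (sN S.g univ ε m : ℝ) ≤ A * μ ^ m) ∧
      ∀ z, ∃ ε₀ > 0, ∀ ε > 0, ε < ε₀ → ∀ U ∈ 𝓝 z, ∃ c > 0, ∀ m : ℕ,
        c * μ ^ m ≤ (sN S.g U ε m : ℝ) := by
  have hf1 : ContMDiff 𝓘(ℝ, E) 𝓘(ℝ, E) 1 f := hf2.of_le (by norm_num)
  have hbk : 0 < J := hJ.1
  set κ := J⁻¹ with hκ
  have hκ0 : 0 < κ := by positivity
  obtain ⟨m, P, L, hP, hPn, hL, hmP⟩ := polya hs hκ0 q (by
    intro x hx
    apply hq
    have h1 := mul_le_mul_of_nonneg_right hx hbk.le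
    rwa [hκ, inv_mul_cancel₀ hbk.ne'] at h1)
  obtain ⟨σ, hσ0, hσκ, hσL⟩ := exists_between_list κ hκ0 L hL
  have hσ : σ * J < 1 := by
    have h1 := mul_lt_mul_of_pos_right hσκ hbk
    rwa [hκ, inv_mul_cancel₀ hbk.ne'] at h1
  set w' := (aeval (T (k + 1) f) P) w with hw'
  set ζ := (aeval (T (k + 1) f) ((X - Polynomial.C lam) * P)) w with hζ
  have hw'0 : C0Form w' := aeval_c0 f hf1 P hw
  have hζ0 : C0Form ζ := aeval_c0 f hf1 _ hw
  have hrel : pb f w' = lam • w' + ζ := by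
    have h1 : ζ = pb f w' - lam • w' := by
      rw [hζ, map_mul, Module.End.mul_apply, map_sub, aeval_X, aeval_C, LinearMap.sub_apply,
        T_apply]
      rfl
    rw [h1]
    abel
  have hexL : IsEx ((aeval (T (k + 1) f) (L.map fun ρ => X - Polynomial.C ρ).prod) ζ)
      ((aeval (T k f) m) β) := by
    have h1 := hex.aeval hβ f hf2 m
    have h2 : (aeval (T (k + 1) f) (L.map fun ρ => X - Polynomial.C ρ).prod) ζ =
        (aeval (T (k + 1) f) m) ((aeval (T (k + 1) f) ((X - Polynomial.C lam) * q)) w) := by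
      rw [hζ, ← Module.End.mul_apply, ← Module.End.mul_apply, ← map_mul, ← map_mul]
      congr 2
      linear_combination (X - Polynomial.C lam) * (-hmP)
    rw [h2]
    exact h1
  have hmβ : C1Form ((aeval (T k f) m) β) := aeval_c1 f hf2 m hβ
  have hdec : Dec e f σ ζ := dec_list hS.he hS.hinj hf2 hσ0 L hσL hmβ hζ0 hexL
  obtain ⟨I⟩ := dec_incr hS.he hf2 hσ0 hrel hdec
  have hnz : ∀ z, ∀ v : Fin (k + 1) → E, (∀ j, v j ∈ Eu z) → LinearIndependent ℝ v →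
      w' z v ≠ 0 := by
    intro x v hv hl h0
    have h1 : w x v * w' x v = ∑ j ∈ Finset.range (P.natDegree + 1),
        (s ^ j * P.coeff j) * (s ^ j * (w x v * pb (f^[j]) w x v)) := by
      rw [hw', aeval_T f hf1]
      simp only [Finset.sum_apply, Pi.smul_apply, ContinuousAlternatingMap.sum_apply,
        ContinuousAlternatingMap.smul_apply, smul_eq_mul]
      rw [Finset.mul_sum]
      apply Finset.sum_congr rfl
      intro j _
      have h2 : s ^ j * s ^ j = 1 := by rw [← mul_pow, hs, one_pow]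
      linear_combination (-(P.coeff j * (w x v * pb (f^[j]) w x v))) * h2
    rw [h0, mul_zero] at h1
    have h2 : 0 < ∑ j ∈ Finset.range (P.natDegree + 1),
        (s ^ j * P.coeff j) * (s ^ j * (w x v * pb (f^[j]) w x v)) := by
      apply Finset.sum_pos'
      · intro j _
        exact mul_nonneg (hPn j) (sign_iter hS.h hs hpos j x v hv hl).le
      · refine ⟨P.natDegree, Finset.mem_range.mpr (Nat.lt_succ_self _), ?_⟩
        apply mul_pos _ (sign_iter hS.h hs hpos _ x v hv hl)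
        refine lt_of_le_of_ne (hPn _) (Ne.symm (mul_ne_zero (pow_ne_zero _ ?_) ?_))
        · rintro rfl; simp at hs
        · exact leadingCoeff_ne_zero.mpr hP
    linarith
  have hnz₀ : ∀ z, ∀ v : Fin (k + 1) → E, (∀ j, v j ∈ Eu z) → LinearIndependent ℝ v →
      w z v ≠ 0 := by
    intro x v hv hl h0
    have := hpos x v hv hl
    rw [h0, zero_mul, mul_zero] at this
    exact lt_irrefl _ this
  have hJ' : VolExp f Eu w' J := hJ.congr hS.he hS.hinj hS.h hS.hu hw hw'0 hnz₀ hnz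
  exact ⟨|lam| ^ N₀, pow_pos (abs_pos.mpr hlam) _,
    fun ε hε => count_upper ν hS hf2 hw'0 hnz hJ' I hlam hσ hε,
    fun z => count_lower ν hS hf2 hw'0 hnz hJ' I hlam hσ z⟩

/-- the inverse of a system -/
theorem Sys.symm {l : ℕ} (hS : Sys e f Es Eu C a b Ls Lu (k + 1) N₀ S)
    (hs : ∀ x, Module.finrank ℝ (Es x) = l + 1) :
    Sys e f.symm Eu Es C b a Lu Ls (l + 1) N₀ S.symm where
  he := hS.he
  hiso := hS.hiso
  hinj := hS.hinj
  h := hS.h.symm
  hu := hs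
  hSe := hS.hSe
  hSg := by
    have h1 : S.symm.g = S.g.symm := rfl
    rw [h1, hS.hSg]
    ext x
    rfl
  hVs := hS.hVu
  hVu := hS.hVs
  hN₀ := hS.hN₀

/-- existence of systems -/
theorem exists_Sys (hiso : ∀ x y, dist x y = ‖e x - e y‖)
    (he : ContMDiff 𝓘(ℝ, E) 𝓘(ℝ, F) 1 e) (hinj : ∀ x, Function.Injective (dm E e x))
    (h : EAnosov e f Es Eu C a b Ls Lu) (hu : ∀ x, Module.finrank ℝ (Eu x) = k + 1) :
    ∃ (N₀ : ℕ) (S : HypSys M F), Sys e f Es Eu C a b Ls Lu (k + 1) N₀ S := by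
  obtain ⟨K, hK, hang⟩ := h.angle he hinj
  have t1 : Tendsto (fun n : ℕ => K * (C * a ^ n)) atTop (𝓝 0) := by
    have := ((tendsto_pow_atTop_nhds_zero_of_lt_one h.a_pos.le h.a_lt).const_mul C).const_mul K
    simpa using this
  have t2 : Tendsto (fun n : ℕ => K * (C * b ^ n)) atTop (𝓝 0) := by
    have := ((tendsto_pow_atTop_nhds_zero_of_lt_one h.b_pos.le h.b_lt).const_mul C).const_mul K
    simpa using this
  obtain ⟨n, ⟨h1, h2⟩, hn⟩ := ((((tendsto_order.mp t1).2 (1 / 16) (by norm_num)).and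
    ((tendsto_order.mp t2).2 (1 / 16) (by norm_num))).and (eventually_ge_atTop 1)).exists
  obtain ⟨S, hg, hSe, hVs, hVu⟩ :=
    Pool.Agent.H789R2.AN.exists_hypSys' hiso he hinj h K hK hang n h1.le h2.le
  exact ⟨n, S, he, hiso, hinj, h, hu, hSe, hg, hVs, hVu, hn⟩

/-- change of the rates -/
theorem EAnosov_rates {a₀ b₀ C₀ C₁ : ℝ} (h : EAnosov e f Es Eu C₀ a₀ b₀ Ls Lu) (ha0 : 0 < a)
    (ha1 : a < 1) (hb0 : 0 < b) (hb1 : b < 1)
    (hS : ∀ (n : ℕ) (x : M), ∀ v ∈ Es x,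
      ‖dm E e (f^[n] x) (dg E (f^[n]) x v)‖ ≤ C₁ * a ^ n * ‖dm E e x v‖)
    (hU : ∀ (n : ℕ) (x : M), ∀ v ∈ Eu x,
      ‖dm E e (f.symm^[n] x) (dg E (f.symm^[n]) x v)‖ ≤ C₁ * b ^ n * ‖dm E e x v‖) :
    EAnosov e f Es Eu (max C₀ C₁) a b Ls Lu where
  smooth := h.smooth
  smooth' := h.smooth'
  compl := h.compl
  C_pos := h.C_pos.trans (le_max_left _ _)
  a_pos := ha0
  b_pos := hb0
  a_lt := ha1
  b_lt := hb1
  Ls_le := h.Ls_le
  Lu_le := h.Lu_le
  mapS := h.mapS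
  mapU := h.mapU
  mapS' := h.mapS'
  mapU' := h.mapU'
  hS := fun n x v hv => (hS n x v hv).trans (mul_le_mul_of_nonneg_right
    (mul_le_mul_of_nonneg_right (le_max_right _ _) (by positivity)) (norm_nonneg _))
  hU' := fun n x v hv => (hU n x v hv).trans (mul_le_mul_of_nonneg_right
    (mul_le_mul_of_nonneg_right (le_max_right _ _) (by positivity)) (norm_nonneg _))
  hS' := fun n x v hv => (h.hS' n x v hv).trans (mul_le_mul_of_nonneg_right
    (mul_le_mul_of_nonneg_right (le_max_left _ _)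
      (pow_nonneg (zero_le_one.trans h.Ls_le) _)) (norm_nonneg _))
  hU := fun n x v hv => (h.hU n x v hv).trans (mul_le_mul_of_nonneg_right
    (mul_le_mul_of_nonneg_right (le_max_left _ _)
      (pow_nonneg (zero_le_one.trans h.Lu_le) _)) (norm_nonneg _))

/-- transfer of a contraction estimate to the norm of the ambient space -/
theorem rate_transfer {N : TangentBundle 𝓘(ℝ, E) M → ℝ} (hN : IsTangentNorm N)
    (he : ContMDiff 𝓘(ℝ, E) 𝓘(ℝ, F) 1 e) (hinj : ∀ x, Function.Injective (dm E e x))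
    (g : M → M) {V : M → Submodule ℝ E} {D c : ℝ} (hD : 0 < D) (hc : 0 < c)
    (h : ∀ (n : ℕ) (x : M), ∀ v ∈ V x,
      tnm N (g^[n] x) (dg E (g^[n]) x v) ≤ D * c ^ n * tnm N x v) :
    ∃ D' > 0, ∀ (n : ℕ) (x : M), ∀ v ∈ V x,
      ‖dm E e (g^[n] x) (dg E (g^[n]) x v)‖ ≤ D' * c ^ n * ‖dm E e x v‖ := by
  obtain ⟨R, hR, hcmp⟩ := tnm_compare hN e he hinj
  refine ⟨R * D * R, by positivity, fun n x v hv => ?_⟩
  calc ‖dm E e (g^[n] x) (dg E (g^[n]) x v)‖ ≤ R * tnm N (g^[n] x) (dg E (g^[n]) x v) :=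
        (hcmp _ _).1
    _ ≤ R * (D * c ^ n * tnm N x v) := mul_le_mul_of_nonneg_left (h n x v hv) hR.le
    _ ≤ R * (D * c ^ n * (R * ‖dm E e x v‖)) := by
        apply mul_le_mul_of_nonneg_left _ hR.le
        exact mul_le_mul_of_nonneg_left (hcmp x v).2 (by positivity)
    _ = _ := by ring

/-- The main theorem in an ambient space. -/
theorem main_metric [PreconnectedSpace M] [MeasurableSpace E] [BorelSpace E] (ν : Measure E)
    [ν.IsAddHaarMeasure] {l : ℕ} {bs : ℝ}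
    (hS : Sys e f Es Eu C bs b Ls Lu (k + 1) N₀ S)
    (hf2 : ContMDiff 𝓘(ℝ, E) 𝓘(ℝ, E) 2 f) (hf2' : ContMDiff 𝓘(ℝ, E) 𝓘(ℝ, E) 2 f.symm)
    (hrs : ∀ x, Module.finrank ℝ (Es x) = l + 1)
    {w : M → E [⋀^Fin (k + 1)]→L[ℝ] ℝ} {β : M → E [⋀^Fin k]→L[ℝ] ℝ} {s lam : ℝ} {q : ℝ[X]}
    (hw : C0Form w) (hβ : C1Form β) (hs : s * s = 1)
    (hpos : ∀ x, ∀ v : Fin (k + 1) → E, (∀ j, v j ∈ Eu x) → LinearIndependent ℝ v →
      0 < s * (w x v * pb f w x v))
    {J : ℝ} (hJ : VolExp f Eu w J)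
    (hlam : lam ≠ 0) (hq : ∀ x : ℝ, 1 ≤ s * x * J → q.eval x ≠ 0)
    (hex : IsEx ((aeval (T (k + 1) f) ((X - Polynomial.C lam) * q)) w) β)
    {w' : M → E [⋀^Fin (l + 1)]→L[ℝ] ℝ} {β' : M → E [⋀^Fin l]→L[ℝ] ℝ} {s' lam' : ℝ} {q' : ℝ[X]}
    (hw' : C0Form w') (hβ' : C1Form β') (hs' : s' * s' = 1)
    (hpos' : ∀ x, ∀ v : Fin (l + 1) → E, (∀ j, v j ∈ Es x) → LinearIndependent ℝ v →
      0 < s' * (w' x v * pb f.symm w' x v))
    {J' : ℝ} (hJ' : VolExp f.symm Es w' J')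
    (hlam' : lam' ≠ 0) (hq' : ∀ x : ℝ, 1 ≤ s' * x * J' → q'.eval x ≠ 0)
    (hex' : IsEx ((aeval (T (l + 1) f.symm) ((X - Polynomial.C lam') * q')) w') β')
    (U V : Set M) (hU : IsOpen U) (hUn : U.Nonempty) (hV : IsOpen V) (hVn : V.Nonempty) :
    ∃ n : ℕ, (f^[n] '' U ∩ V).Nonempty := by
  obtain ⟨μu, hμu, h1, h2⟩ := cal_growth ν hS hf2 hw hβ hs hpos hJ hlam hq hex
  obtain ⟨μs, hμs, h3, h4⟩ := cal_growth ν (hS.symm hrs) hf2' hw' hβ' hs' hpos' hJ' hlam' hq' hex'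
  obtain ⟨n, hn⟩ := trans_of_growth S hμu hμs h1 h3 h2 h4 U V hU hUn hV hVn
  rw [hS.iter n] at hn
  exact ⟨_, hn⟩

end Pool.Agent.H74.RS
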