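import Pool.Agent.H74.G.R_seed8.H721R2.HypSys

set_option autoImplicit false

namespace Pool.Agent.H74.RS

open Pool.Agent.H721R2

variable {X F : Type*} [MetricSpace X] [NormedAddCommGroup F] [NormedSpace ℝ F]

/-- Two orbit segments which stay close to each other are controlled by the stable part of the
difference at the beginning and the unstable part at the end. -/
theorem two_point (S : HypSys X F) : ∃ η > 0, ∃ r > 0, ∀ (n : ℕ) (x y : X),
    (∀ k ≤ n, dist (S.g^[k] x) (S.g^[k] y) < r) →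
    ∀ s ∈ S.Vs x, ∀ u ∈ S.Vu x, ‖S.e y - S.e x - (s + u)‖ ≤ η * dist x y →
    ∀ s' ∈ S.Vs (S.g^[n] x), ∀ u' ∈ S.Vu (S.g^[n] x),
      ‖S.e (S.g^[n] y) - S.e (S.g^[n] x) - (s' + u')‖ ≤ η * dist (S.g^[n] x) (S.g^[n] y) →
    ∀ k ≤ n, dist (S.g^[k] x) (S.g^[k] y) ≤ 2 * (‖s‖ + ‖u'‖) := by
  have hK := S.one_le_K
  set K := S.K with hKd
  have hK0 : 0 < K := by linarith
  set η := 1 / (2 * (12 * K + 1)) with hη
  have hη0 : 0 < η := by positivity
  have hη1 : (12 * K + 1) * η = 1 / 2 := by rw [hη]; field_simp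
  obtain ⟨r, hr, hA⟩ := S.A1 η hη0
  refine ⟨η, hη0, r, hr, ?_⟩
  intro n x y hd s hs u hu hsu s' hs' u' hu' hsu'
  set d : ℕ → ℝ := fun k => dist (S.g^[k] x) (S.g^[k] y) with hdd
  obtain ⟨k₀, hk₀, hmax⟩ := Finset.exists_max_image (Finset.range (n + 1)) d ⟨0, by simp⟩
  set m := d k₀ with hm
  have hm0 : 0 ≤ m := dist_nonneg
  have hdm : ∀ k ≤ n, d k ≤ m := fun k hk => hmax k (Finset.mem_range.mpr (Nat.lt_succ_iff.mpr hk))
  have hex : ∀ k, k ≤ n → ∃ p : F × F, p.1 ∈ S.Vs (S.g^[k] x) ∧ p.2 ∈ S.Vu (S.g^[k] x) ∧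
      ‖S.e (S.g^[k] y) - S.e (S.g^[k] x) - (p.1 + p.2)‖ ≤ η * d k ∧
      ‖S.e (S.g (S.g^[k] y)) - S.e (S.g (S.g^[k] x)) - S.D (S.g^[k] x) (p.1 + p.2)‖ ≤ η * d k := by
    intro k hk
    obtain ⟨s, hs, u, hu, h1, h2⟩ := hA _ _ (hd k hk)
    exact ⟨(s, u), hs, hu, h1, h2⟩
  choose! p hp1 hp2 hp3 hp4 using hex
  have hηm : ∀ k ≤ n, η * d k ≤ η * m := fun k hk => mul_le_mul_of_nonneg_left (hdm k hk) hη0.le
  -- one step
  have hstep : ∀ k, k + 1 ≤ n → ‖(p (k + 1)).1 - S.D (S.g^[k] x) (p k).1‖ ≤ 2 * K * η * m ∧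
      ‖(p (k + 1)).2 - S.D (S.g^[k] x) (p k).2‖ ≤ 2 * K * η * m := by
    intro k hk
    have hk' : k ≤ n := by omega
    have h1 := hp3 (k + 1) hk
    have h2 := hp4 k hk'
    rw [Function.iterate_succ_apply', Function.iterate_succ_apply'] at h1
    have e1 : ((p (k + 1)).1 - S.D (S.g^[k] x) (p k).1) + ((p (k + 1)).2 - S.D (S.g^[k] x) (p k).2) =
        (S.e (S.g (S.g^[k] y)) - S.e (S.g (S.g^[k] x)) - S.D (S.g^[k] x) ((p k).1 + (p k).2)) -
        (S.e (S.g (S.g^[k] y)) - S.e (S.g (S.g^[k] x)) - ((p (k + 1)).1 + (p (k + 1)).2)) := by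
      rw [map_add]; abel
    have h3 : ‖((p (k + 1)).1 - S.D (S.g^[k] x) (p k).1) +
        ((p (k + 1)).2 - S.D (S.g^[k] x) (p k).2)‖ ≤ 2 * η * m := by
      rw [e1]
      refine (norm_sub_le _ _).trans ?_
      have := hηm k hk'
      have := hηm (k + 1) hk
      linarith
    have hm1 : (p (k + 1)).1 - S.D (S.g^[k] x) (p k).1 ∈ S.Vs (S.g^[k + 1] x) := by
      apply Submodule.sub_mem _ (hp1 _ hk)
      rw [Function.iterate_succ_apply']
      exact S.mapS _ _ (hp1 k hk')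
    have hm2 : (p (k + 1)).2 - S.D (S.g^[k] x) (p k).2 ∈ S.Vu (S.g^[k + 1] x) := by
      apply Submodule.sub_mem _ (hp2 _ hk)
      rw [Function.iterate_succ_apply']
      exact S.mapU _ _ (hp2 k hk')
    obtain ⟨a1, a2⟩ := S.angle _ _ hm1 _ hm2
    have h4 : K * ‖((p (k + 1)).1 - S.D (S.g^[k] x) (p k).1) +
        ((p (k + 1)).2 - S.D (S.g^[k] x) (p k).2)‖ ≤ K * (2 * η * m) :=
      mul_le_mul_of_nonneg_left h3 hK0.le
    constructor
    · exact a1.trans (h4.trans (le_of_eq (by ring)))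
    · exact a2.trans (h4.trans (le_of_eq (by ring)))
  have ha : S.a ≤ 1 / 16 := by
    have := S.Ka
    have h0 := S.a_nonneg
    nlinarith
  have hb : S.b ≤ 1 / 16 := by
    have := S.Kb
    have h0 := S.b_nonneg
    nlinarith
  have hKm : 0 ≤ K * η * m := by positivity
  -- stable parts
  have hS : ∀ k, k ≤ n → ‖(p k).1‖ ≤ ‖(p 0).1‖ + 4 * K * η * m := by
    intro k
    induction k with
    | zero => intro _; linarith
    | succ k ih =>
      intro hk
      have h1 := ih (by omega)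
      have h2 := (hstep k hk).1
      have h3 := S.contrS _ _ (hp1 k (by omega))
      have h4 : S.a * ‖(p k).1‖ ≤ 1 / 16 * ‖(p k).1‖ := mul_le_mul_of_nonneg_right ha (norm_nonneg _)
      have h5 := norm_le_norm_add_norm_sub' (p (k + 1)).1 (S.D (S.g^[k] x) (p k).1)
      have h6 := norm_nonneg (p 0).1
      linarith
  -- unstable parts
  have hU : ∀ j, j ≤ n → ‖(p (n - j)).2‖ ≤ ‖(p n).2‖ + 4 * K * η * m := by
    intro j
    induction j with
    | zero => intro _; simp only [Nat.sub_zero]; linarith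
    | succ j ih =>
      intro hj
      have h1 := ih (by omega)
      set k := n - (j + 1) with hk
      have hk1 : n - j = k + 1 := by omega
      rw [hk1] at h1
      have h2 := (hstep k (by omega)).2
      have hmem := hp2 k (by omega)
      have h3 := S.contrU _ _ (S.mapU _ _ hmem)
      rw [S.invU _ _ hmem] at h3
      have h4 : S.b * ‖S.D (S.g^[k] x) (p k).2‖ ≤ 1 / 16 * ‖S.D (S.g^[k] x) (p k).2‖ :=
        mul_le_mul_of_nonneg_right hb (norm_nonneg _)
      have h5 := norm_le_norm_add_norm_sub (p (k + 1)).2 (S.D (S.g^[k] x) (p k).2)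
      have h6 := norm_nonneg (p n).2
      linarith
  have hU' : ∀ k, k ≤ n → ‖(p k).2‖ ≤ ‖(p n).2‖ + 4 * K * η * m := by
    intro k hk
    have := hU (n - k) (Nat.sub_le _ _)
    rwa [Nat.sub_sub_self hk] at this
  -- comparison at the ends
  have hcmp : ∀ k, k ≤ n → ∀ s ∈ S.Vs (S.g^[k] x), ∀ u ∈ S.Vu (S.g^[k] x),
      ‖S.e (S.g^[k] y) - S.e (S.g^[k] x) - (s + u)‖ ≤ η * dist (S.g^[k] x) (S.g^[k] y) →
      ‖(p k).1 - s‖ ≤ 2 * K * η * m ∧ ‖(p k).2 - u‖ ≤ 2 * K * η * m := by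
    intro k hk s hs u hu h
    have e1 : ((p k).1 - s) + ((p k).2 - u) =
        (S.e (S.g^[k] y) - S.e (S.g^[k] x) - (s + u)) -
        (S.e (S.g^[k] y) - S.e (S.g^[k] x) - ((p k).1 + (p k).2)) := by abel
    have h3 : ‖((p k).1 - s) + ((p k).2 - u)‖ ≤ 2 * η * m := by
      rw [e1]
      refine (norm_sub_le _ _).trans ?_
      have h4 := hp3 k hk
      have h5 := hηm k hk
      have h6 : η * dist (S.g^[k] x) (S.g^[k] y) = η * d k := rfl
      linarith
    obtain ⟨a1, a2⟩ := S.angle _ _ (Submodule.sub_mem _ (hp1 k hk) hs) _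
      (Submodule.sub_mem _ (hp2 k hk) hu)
    have h4 : K * ‖((p k).1 - s) + ((p k).2 - u)‖ ≤ K * (2 * η * m) :=
      mul_le_mul_of_nonneg_left h3 hK0.le
    constructor
    · exact a1.trans (h4.trans (le_of_eq (by ring)))
    · exact a2.trans (h4.trans (le_of_eq (by ring)))
  have h0 := (hcmp 0 (Nat.zero_le _) s hs u hu hsu).1
  have hn := (hcmp n le_rfl s' hs' u' hu' hsu').2
  have g1 := norm_le_norm_add_norm_sub' (p 0).1 s
  have g2 := norm_le_norm_add_norm_sub' (p n).2 u'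
  -- conclusion
  have hall : ∀ k, k ≤ n → d k ≤ ‖s‖ + ‖u'‖ + 1 / 2 * m := by
    intro k hk
    have h1 := hS k hk
    have h2 := hU' k hk
    have h3 := hp3 k hk
    have h4 : d k = ‖S.e (S.g^[k] y) - S.e (S.g^[k] x)‖ := by
      show dist (S.g^[k] x) (S.g^[k] y) = _
      rw [dist_comm, S.isom]
    have h5 := norm_le_norm_add_norm_sub' (S.e (S.g^[k] y) - S.e (S.g^[k] x)) ((p k).1 + (p k).2)
    have h6 := norm_add_le (p k).1 (p k).2
    have h7 := hηm k hk
    have h8 : 1 / 2 * m = 12 * K * η * m + η * m := by rw [← hη1]; ring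
    rw [h8]
    linarith
  have hmm : m ≤ 2 * (‖s‖ + ‖u'‖) := by
    have := hall k₀ (Nat.lt_succ_iff.mp (Finset.mem_range.mp hk₀))
    linarith
  intro k hk
  exact (hdm k hk).trans hmm

end Pool.Agent.H74.RS
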