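import Pool.Agent.H74.RS.Final
import Pool.Agent.H74.RS.TwoPt

set_option autoImplicit false
set_option linter.unusedSectionVars false

open scoped Manifold ContDiff Topology
open Set Filter

namespace Pool.Agent.H74.RS

open Pool.Agent.H721R2

variable {E : Type*} [NormedAddCommGroup E] [NormedSpace ℝ E] [FiniteDimensional ℝ E]
  {M : Type*} [MetricSpace M] [CompactSpace M] [ChartedSpace E M] [IsManifold 𝓘(ℝ, E) 1 M]
  {F : Type*} [NormedAddCommGroup F] [InnerProductSpace ℝ F] [FiniteDimensional ℝ F]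

theorem main_est {e : M → F} (he : ContMDiff 𝓘(ℝ, E) 𝓘(ℝ, F) 1 e)
    (hiso : ∀ x y, dist x y = ‖e x - e y‖)
    (hinj : ∀ x, Function.Injective (dm E e x))
    {f : M ≃ₜ M} {Es Eu : M → Submodule ℝ E} {C a b Ls Lu : ℝ}
    (h : EAnosov e f Es Eu C a b Ls Lu) {u : ℕ}
    (S : HypSys M F) (hSe : S.e = e)
    (hVs : ∀ x, S.Vs x = Submodule.map (dm E e x).toLinearMap (Es x))
    (hVu : ∀ x, S.Vu x = Submodule.map (dm E e x).toLinearMap (Eu x))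
    (x₀ z₀ : M) (Q : E →L[ℝ] E) (hQ1 : ∀ v, Q v ∈ Es x₀) (hQ2 : ∀ v, v - Q v ∈ Eu x₀)
    (Pr : F →L[ℝ] (Fin u → ℝ)) {C₁ : ℝ} (hC₁ : 0 < C₁)
    (hPr : ∀ η > 0, ∃ r > 0, ∀ z, dist z z₀ < r →
      (∀ w ∈ Eu z, ‖dm E e z w‖ ≤ C₁ * ‖Pr (dm E e z w)‖) ∧
      (∀ s ∈ Es z, ‖Pr (dm E e z s)‖ ≤ η * ‖dm E e z s‖)) :
    ∃ r > 0, ∃ C₃ > 0, Metric.ball (extChartAt 𝓘(ℝ, E) x₀ x₀) r ⊆ tg E x₀ ∧
      ∀ y ∈ Metric.ball (extChartAt 𝓘(ℝ, E) x₀ x₀) r,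
      ∀ y' ∈ Metric.ball (extChartAt 𝓘(ℝ, E) x₀ x₀) r, 
      ‖y' - y‖ ≤ C₃ * dist (ic E x₀ y) (ic E x₀ y') ∧
      ∀ m : ℕ,
      dist (S.g^[m] (ic E x₀ y)) z₀ < r →
      (∀ k ≤ m, dist (S.g^[k] (ic E x₀ y)) (S.g^[k] (ic E x₀ y')) < r) →
      ∀ k ≤ m, dist (S.g^[k] (ic E x₀ y)) (S.g^[k] (ic E x₀ y')) ≤
        C₃ * (‖Q (y' - y)‖ + ‖Pr (e (S.g^[m] (ic E x₀ y')) - e (S.g^[m] (ic E x₀ y)))‖) := by
  obtain ⟨η, hη, r₀, hr₀, htp⟩ := two_point S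
  obtain ⟨κ, hκ0, hκ1, hκ2⟩ := chart_loc e he hinj x₀
  set K := S.K with hK
  have hK1 : 1 ≤ K := S.one_le_K
  have hK0 : 0 < K := by linarith
  set NQ := ‖Q‖ + 1 with hNQ
  have hNQ0 : 0 < NQ := by positivity
  have hQn : ∀ v, ‖Q v‖ ≤ NQ * ‖v‖ := fun v => (Q.le_opNorm v).trans
    (mul_le_mul_of_nonneg_right (by rw [hNQ]; linarith) (norm_nonneg _))
  set NP := ‖Pr‖ + 1 with hNP
  have hNP0 : 0 < NP := by positivity
  have hPn : ∀ v, ‖Pr v‖ ≤ NP * ‖v‖ := fun v => (Pr.le_opNorm v).trans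
    (mul_le_mul_of_nonneg_right (by rw [hNP]; linarith) (norm_nonneg _))
  -- small constants
  set η₁ := min 1 (η / (2 * κ * κ * (2 * NQ + 1))) with hη₁
  have hη₁0 : 0 < η₁ := lt_min one_pos (by positivity)
  have hη₁1 : η₁ ≤ 1 := min_le_left _ _
  have hη₁2 : η₁ * (κ * (2 * NQ + 1)) * κ ≤ η / 2 := by
    have h1 : η₁ ≤ η / (2 * κ * κ * (2 * NQ + 1)) := min_le_right _ _
    rw [le_div_iff₀ (by positivity)] at h1
    linarith
  set η₂ := η / (2 * κ) with hη₂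
  have hη₂0 : 0 < η₂ := by positivity
  have hη₂1 : η₂ * κ = η / 2 := by rw [hη₂]; field_simp
  set η₃ := min (min η 1) (1 / (8 * C₁ * NP)) with hη₃
  have hη₃0 : 0 < η₃ := lt_min (lt_min hη one_pos) (by positivity)
  have hη₃1 : η₃ ≤ η := (min_le_left _ _).trans (min_le_left _ _)
  have hη₃2 : η₃ ≤ 1 := (min_le_left _ _).trans (min_le_right _ _)
  have hη₃3 : 8 * C₁ * NP * η₃ ≤ 1 := by
    have h1 : η₃ ≤ 1 / (8 * C₁ * NP) := min_le_right _ _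
    rw [le_div_iff₀ (by positivity)] at h1
    linarith
  set η₄ := 1 / (16 * C₁ * K) with hη₄
  have hη₄0 : 0 < η₄ := by positivity
  have hη₄1 : 16 * C₁ * K * η₄ = 1 := by rw [hη₄]; field_simp
  obtain ⟨r1, hr1, b1, b2, b3, b4⟩ := hκ2 η₂ hη₂0
  obtain ⟨r2, hr2, c2⟩ := h.contS he hinj η₁ hη₁0
  obtain ⟨r3, hr3, c3⟩ := h.symm.contS he hinj η₁ hη₁0
  obtain ⟨r4, hr4, hA1⟩ := S.A1 η₃ hη₃0
  obtain ⟨r5, hr5, hP5⟩ := hPr η₄ hη₄0
  have hcont : ContinuousAt (ic E x₀) (extChartAt 𝓘(ℝ, E) x₀ x₀) :=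
    (ic_contMDiffAt (M := M) 1 x₀ (mem_extChartAt_target x₀)).continuousAt
  have hx₀ : ic E x₀ (extChartAt 𝓘(ℝ, E) x₀ x₀) = x₀ := extChartAt_to_inv x₀
  obtain ⟨r6, hr6, d6⟩ := Metric.continuousAt_iff.mp hcont (min r2 r3) (lt_min hr2 hr3)
  rw [hx₀] at d6
  set r := min (min r1 r6) (min (min r₀ r4) r5) with hr
  have hr0 : 0 < r := lt_min (lt_min hr1 hr6) (lt_min (lt_min hr₀ hr4) hr5)
  have hrr1 : r ≤ r1 := (min_le_left _ _).trans (min_le_left _ _)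
  have hrr6 : r ≤ r6 := (min_le_left _ _).trans (min_le_right _ _)
  have hrr0 : r ≤ r₀ := (min_le_right _ _).trans ((min_le_left _ _).trans (min_le_left _ _))
  have hrr4 : r ≤ r4 := (min_le_right _ _).trans ((min_le_left _ _).trans (min_le_right _ _))
  have hrr5 : r ≤ r5 := (min_le_right _ _).trans (min_le_right _ _)
  refine ⟨r, hr0, 8 * κ + 4 * C₁ + κ, by positivity, (Metric.ball_subset_ball hrr1).trans b1, ?_⟩
  intro y hy y' hy'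
  have hy1 := Metric.ball_subset_ball hrr1 hy
  have hy1' := Metric.ball_subset_ball hrr1 hy'
  obtain ⟨g1, g2⟩ := b4 y hy1 y' hy1'
  set x := ic E x₀ y with hx
  set x' := ic E x₀ y' with hx'
  have hdxx : ‖e x' - e x‖ = dist x x' := by rw [dist_comm, hiso]
  rw [hdxx] at g2
  have hdxx0 : 0 ≤ dist x x' := dist_nonneg
  constructor
  · refine g2.trans ?_
    have : 0 ≤ (8 * κ + 4 * C₁) * dist x x' := by positivity
    linarith
  intro m hz hd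
  have hxd : dist x₀ x < min r2 r3 := by
    rw [dist_comm]
    exact d6 (Metric.ball_subset_ball hrr6 hy)
  set p := y' - y with hp
  obtain ⟨s, hs, s1⟩ := c2 x₀ x (hxd.trans_le (min_le_left _ _)) (Q p) (hQ1 p)
  obtain ⟨v, hv, v1⟩ := c3 x₀ x (hxd.trans_le (min_le_right _ _)) (p - Q p) (hQ2 p)
  -- the decomposition at time zero
  have hp0 := norm_nonneg p
  have hQp := hQn p
  have hPp : ‖p - Q p‖ ≤ (NQ + 1) * ‖p‖ := by
    have := norm_sub_le p (Q p)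
    linarith
  have hdec : ‖e x' - e x - (dm E e x s + dm E e x v)‖ ≤ η * dist x x' := by
    have e1 : e x' - e x - (dm E e x s + dm E e x v) = (e x' - e x - dm E e x₀ p) +
        ((dm E e x₀ (Q p) - dm E e x s) + (dm E e x₀ (p - Q p) - dm E e x v)) := by
      have : dm E e x₀ p = dm E e x₀ (Q p) + dm E e x₀ (p - Q p) := by
        rw [← map_add]; congr 1; abel
      rw [this]; abel
    have k1 := hκ1 (Q p)
    have k2 := hκ1 (p - Q p)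
    have k3 : ‖dm E e x₀ (Q p)‖ + ‖dm E e x₀ (p - Q p)‖ ≤ κ * (2 * NQ + 1) * ‖p‖ := by
      have k4 : κ * ‖Q p‖ ≤ κ * (NQ * ‖p‖) := mul_le_mul_of_nonneg_left hQp hκ0.le
      have k5 : κ * ‖p - Q p‖ ≤ κ * ((NQ + 1) * ‖p‖) := mul_le_mul_of_nonneg_left hPp hκ0.le
      linarith
    have k6 : η₁ * (‖dm E e x₀ (Q p)‖ + ‖dm E e x₀ (p - Q p)‖) ≤ η₁ * (κ * (2 * NQ + 1) * ‖p‖) :=
      mul_le_mul_of_nonneg_left k3 hη₁0.le
    have k7 : η₁ * (κ * (2 * NQ + 1) * ‖p‖) ≤ η₁ * (κ * (2 * NQ + 1) * (κ * dist x x')) := by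
      apply mul_le_mul_of_nonneg_left _ hη₁0.le
      exact mul_le_mul_of_nonneg_left g2 (by positivity)
    have k8 : η₁ * (κ * (2 * NQ + 1) * (κ * dist x x')) ≤ η / 2 * dist x x' := by
      have := mul_le_mul_of_nonneg_right hη₁2 hdxx0
      linarith
    have k9 : η₂ * ‖p‖ ≤ η / 2 * dist x x' := by
      rw [← hη₂1, mul_assoc]
      exact mul_le_mul_of_nonneg_left g2 hη₂0.le
    rw [e1]
    refine (norm_add_le _ _).trans ?_
    have k10 := norm_add_le (dm E e x₀ (Q p) - dm E e x s) (dm E e x₀ (p - Q p) - dm E e x v)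
    linarith
  have hsn : ‖dm E e x s‖ ≤ 2 * κ * ‖Q p‖ := by
    have k1 := norm_le_norm_add_norm_sub (dm E e x₀ (Q p)) (dm E e x s)
    have k2 : η₁ * ‖dm E e x₀ (Q p)‖ ≤ 1 * ‖dm E e x₀ (Q p)‖ :=
      mul_le_mul_of_nonneg_right hη₁1 (norm_nonneg _)
    have k3 := hκ1 (Q p)
    linarith
  -- the decomposition at the end
  set z := S.g^[m] x with hzd
  set z' := S.g^[m] x' with hzd'
  have hzz := hd m le_rfl
  obtain ⟨s', hs', u', hu', j1, -⟩ := hA1 z z' (hzz.trans_le hrr4)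
  rw [hSe] at j1
  have hdz0 : 0 ≤ dist z z' := dist_nonneg
  have hs'1 := hs'
  have hu'1 := hu'
  rw [hVs] at hs'1
  rw [hVu] at hu'1
  obtain ⟨s₁, hs₁, hs₁'⟩ := hs'1
  obtain ⟨u₁, hu₁, hu₁'⟩ := hu'1
  have hs₁'' : dm E e z s₁ = s' := hs₁'
  have hu₁'' : dm E e z u₁ = u' := hu₁'
  obtain ⟨p1, p2⟩ := hP5 z (hz.trans_le hrr5)
  have p3 := p1 u₁ hu₁
  have p4 := p2 s₁ hs₁
  rw [hu₁''] at p3
  rw [hs₁''] at p4
  have hdz : ‖e z' - e z‖ = dist z z' := by rw [dist_comm, hiso]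
  have hsum : ‖s' + u'‖ ≤ 2 * dist z z' := by
    have k1 := norm_le_norm_add_norm_sub (e z' - e z) (s' + u')
    have k2 : η₃ * dist z z' ≤ 1 * dist z z' := mul_le_mul_of_nonneg_right hη₃2 hdz0
    rw [hdz] at k1
    linarith
  have hs'n : ‖s'‖ ≤ 2 * K * dist z z' := by
    have k1 := (S.angle z s' hs' u' hu').1
    have k2 : K * ‖s' + u'‖ ≤ K * (2 * dist z z') := mul_le_mul_of_nonneg_left hsum hK0.le
    linarith
  set W := ‖Pr (e z' - e z)‖ with hW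
  have hPu : ‖Pr u'‖ ≤ W + η₄ * (2 * K * dist z z') + NP * (η₃ * dist z z') := by
    have e1 : Pr u' = Pr (e z' - e z) - Pr s' - Pr (e z' - e z - (s' + u')) := by
      rw [← map_sub, ← map_sub]; congr 1; abel
    have k1 := norm_sub_le (Pr (e z' - e z) - Pr s') (Pr (e z' - e z - (s' + u')))
    have k2 := norm_sub_le (Pr (e z' - e z)) (Pr s')
    have k3 := hPn (e z' - e z - (s' + u'))
    have k4 : NP * ‖e z' - e z - (s' + u')‖ ≤ NP * (η₃ * dist z z') :=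
      mul_le_mul_of_nonneg_left j1 hNP0.le
    have k5 : η₄ * ‖s'‖ ≤ η₄ * (2 * K * dist z z') := mul_le_mul_of_nonneg_left hs'n hη₄0.le
    rw [e1]
    linarith
  have hu'n : ‖u'‖ ≤ C₁ * W + 1 / 4 * dist z z' := by
    have k1 : C₁ * ‖Pr u'‖ ≤ C₁ * (W + η₄ * (2 * K * dist z z') + NP * (η₃ * dist z z')) :=
      mul_le_mul_of_nonneg_left hPu hC₁.le
    have k2 : C₁ * (η₄ * (2 * K * dist z z')) = 1 / 8 * (16 * C₁ * K * η₄) * dist z z' := by ring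
    rw [hη₄1] at k2
    have k3 : 8 * C₁ * NP * η₃ * dist z z' ≤ 1 * dist z z' := mul_le_mul_of_nonneg_right hη₃3 hdz0
    linarith
  have htwo := htp m x x' (fun k hk => (hd k hk).trans_le hrr0) (dm E e x s)
    (by rw [hVs]; exact ⟨s, hs, rfl⟩) (dm E e x v) (by rw [hVu]; exact ⟨v, hv, rfl⟩)
    (by rw [hSe]; exact hdec) s' hs' u' hu'
    (by rw [hSe]; exact j1.trans (mul_le_mul_of_nonneg_right hη₃1 hdz0))
  have hW0 : 0 ≤ W := norm_nonneg _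
  have hq0 : 0 ≤ ‖Q p‖ := norm_nonneg _
  have hfin : dist z z' ≤ 8 * κ * ‖Q p‖ + 4 * C₁ * W := by
    have k1 := htwo m le_rfl
    have k2 : dist z z' ≤ 2 * (‖dm E e x s‖ + ‖u'‖) := k1
    linarith
  intro k hk
  have k1 := htwo k hk
  have k2 : 0 ≤ κ * ‖Q p‖ := by positivity
  have k3 : 0 ≤ C₁ * W := by positivity
  have k4 : 0 ≤ κ * W := by positivity
  have k5 : 0 ≤ C₁ * ‖Q p‖ := by positivity
  show _ ≤ (8 * κ + 4 * C₁ + κ) * (‖Q p‖ + W)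
  linarith

end Pool.Agent.H74.RS
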