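import Pool.Agent.H74.RS.Pull
import Pool.Agent.H74.RS.Final

set_option autoImplicit false
set_option linter.unusedSectionVars false

open scoped Manifold ContDiff Topology
open Set Filter

namespace Pool.Agent.H74.RS

open Pool.Agent.H721R2

section eval

variable {G : Type*} [NormedAddCommGroup G] [NormedSpace ℝ G]
  {F : Type*} [NormedAddCommGroup F] [NormedSpace ℝ F] [FiniteDimensional ℝ F]
  {E : Type*} [NormedAddCommGroup E] [NormedSpace ℝ E]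

theorem contDiffAt_of_eval {k : ℕ} {n : WithTop ℕ∞} {p : G} {h : G → F [⋀^Fin k]→L[ℝ] ℝ}
    (hh : ∀ v, ContDiffAt ℝ n (fun y => h y v) p) : ContDiffAt ℝ n h p := by
  obtain ⟨R, hR⟩ := exists_recover F k
  have h1 : h = fun y => R (fun I => h y fun i => Module.finBasis ℝ F (I i)) := by
    funext y; exact (hR (h y)).symm
  rw [h1]
  apply R.contDiff.contDiffAt.comp
  rw [contDiffAt_pi]
  intro I
  exact hh _

theorem continuousAt_of_eval {X : Type*} [TopologicalSpace X] {k : ℕ} {p : X}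
    {h : X → F [⋀^Fin k]→L[ℝ] ℝ}
    (hh : ∀ v, ContinuousAt (fun y => h y v) p) : ContinuousAt h p := by
  obtain ⟨R, hR⟩ := exists_recover F k
  have h1 : h = fun y => R (fun I => h y fun i => Module.finBasis ℝ F (I i)) := by
    funext y; exact (hR (h y)).symm
  rw [h1]
  apply R.continuous.continuousAt.comp
  rw [continuousAt_pi]
  intro I
  exact hh _

instance finDim_forms (k : ℕ) : FiniteDimensional ℝ (F [⋀^Fin k]→L[ℝ] ℝ) := by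
  obtain ⟨R, hR⟩ := exists_recover F k
  let ev : (F [⋀^Fin k]→L[ℝ] ℝ) →ₗ[ℝ] ((Fin k → Fin (Module.finrank ℝ F)) → ℝ) :=
    { toFun := fun w I => w fun i => Module.finBasis ℝ F (I i)
      map_add' := fun _ _ => rfl
      map_smul' := fun _ _ => rfl }
  apply FiniteDimensional.of_injective ev
  intro w w' h
  rw [← hR w, ← hR w']
  exact congrArg R h

/-- composition of a variable form with a variable linear map -/
theorem contDiffAt_compL {k : ℕ} {n : WithTop ℕ∞} {p : G} {A : G → E [⋀^Fin k]→L[ℝ] ℝ}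
    {L : G → F →L[ℝ] E} (hA : ContDiffAt ℝ n A p) (hL : ContDiffAt ℝ n L p) :
    ContDiffAt ℝ n (fun y => (A y).compContinuousLinearMap (L y)) p := by
  apply contDiffAt_of_eval
  intro v
  have h1 : ContDiffAt ℝ n (fun y => (A y, fun i => L y (v i))) p := by
    apply ContDiffAt.prodMk hA
    rw [contDiffAt_pi]
    intro i
    exact hL.clm_apply contDiffAt_const
  exact (eval_contDiff k n).contDiffAt.comp p h1

theorem continuousAt_compL {X : Type*} [TopologicalSpace X] {k : ℕ} {p : X}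
    {A : X → E [⋀^Fin k]→L[ℝ] ℝ}
    {L : X → F →L[ℝ] E} (hA : ContinuousAt A p) (hL : ContinuousAt L p) :
    ContinuousAt (fun y => (A y).compContinuousLinearMap (L y)) p := by
  apply continuousAt_of_eval
  intro v
  have h1 : ContinuousAt (fun y => (A y, fun i => L y (v i))) p := by
    apply ContinuousAt.prodMk hA
    rw [continuousAt_pi]
    intro i
    exact hL.clm_apply continuousAt_const
  exact ContinuousAt.comp (f := fun y => (A y, fun i => L y (v i)))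
    (eval_contDiff (E := E) k 0).continuous.continuousAt h1

end eval

variable {E : Type*} [NormedAddCommGroup E] [NormedSpace ℝ E] [FiniteDimensional ℝ E]
  {M : Type*} [MetricSpace M] [ChartedSpace E M]
  {F : Type*} [NormedAddCommGroup F] [InnerProductSpace ℝ F] [FiniteDimensional ℝ F]

/-- derivative of a map to the manifold -/
noncomputable def dr (r : F → M) (p : F) : F →L[ℝ] E := mfderiv 𝓘(ℝ, F) 𝓘(ℝ, E) r p

/-- pull-back of a form on `M` to `F` -/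
noncomputable def pF {k : ℕ} (r : F → M) (w : M → E [⋀^Fin k]→L[ℝ] ℝ) (p : F) :
    F [⋀^Fin k]→L[ℝ] ℝ :=
  (w (r p)).compContinuousLinearMap (dr r p)

theorem pF_apply {k : ℕ} (r : F → M) (w : M → E [⋀^Fin k]→L[ℝ] ℝ) (p : F) (v : Fin k → F) :
    pF r w p v = w (r p) (fun i => dr r p (v i)) := rfl

/-- coordinate expression of a map to the manifold -/
noncomputable def rc (r : F → M) (x₁ : M) : F → E := extChartAt 𝓘(ℝ, E) x₁ ∘ r

theorem rc_contDiffAt (n : WithTop ℕ∞) [IsManifold 𝓘(ℝ, E) n M] (r : F → M) (x₁ : M) {p : F}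
    (hr : ContMDiffAt 𝓘(ℝ, F) 𝓘(ℝ, E) n r p) (h1 : r p ∈ (extChartAt 𝓘(ℝ, E) x₁).source) :
    ContDiffAt ℝ n (rc r x₁ : F → E) p := by
  rw [← contMDiffAt_iff_contDiffAt]
  have a3 : ContMDiffAt 𝓘(ℝ, E) 𝓘(ℝ, E) n (extChartAt 𝓘(ℝ, E) x₁) (r p) := by
    apply contMDiffAt_extChartAt'
    rwa [extChartAt_source] at h1
  exact a3.comp p hr

theorem rc_eventually (r : F → M) (x₁ : M) {p : F} (hr : ContinuousAt r p)
    (h1 : r p ∈ (extChartAt 𝓘(ℝ, E) x₁).source) :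
    ∀ᶠ p' in 𝓝 p, r p' ∈ (extChartAt 𝓘(ℝ, E) x₁).source :=
  hr.preimage_mem_nhds ((isOpen_extChartAt_source x₁).mem_nhds h1)

theorem dr_rc [IsManifold 𝓘(ℝ, E) 1 M] (r : F → M) (x₁ : M) {p : F}
    (hr : ContMDiffAt 𝓘(ℝ, F) 𝓘(ℝ, E) 1 r p) (h1 : r p ∈ (extChartAt 𝓘(ℝ, E) x₁).source) (v : F) :
    dr (E := E) r p v = dc (ic E x₁) (rc r x₁ p) (fderiv ℝ (rc r x₁ : F → E) p v) := by
  have e1 : r =ᶠ[𝓝 p] (ic E x₁ ∘ rc r x₁) := by
    filter_upwards [rc_eventually r x₁ hr.continuousAt h1] with p' hp'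
    exact ((extChartAt 𝓘(ℝ, E) x₁).left_inv hp').symm
  have a1 : MDifferentiableAt 𝓘(ℝ, F) 𝓘(ℝ, E) (rc r x₁ : F → E) p :=
    (contMDiffAt_iff_contDiffAt.mpr (rc_contDiffAt 1 r x₁ hr h1)).mdifferentiableAt (by norm_num)
  have a2 : MDifferentiableAt 𝓘(ℝ, E) 𝓘(ℝ, E) (ic E x₁) (rc r x₁ p : E) :=
    (ic_contMDiffAt 1 x₁ ((extChartAt 𝓘(ℝ, E) x₁).map_source h1)).mdifferentiableAt (by norm_num)
  have := mfderiv_comp p a2 a1
  show mfderiv 𝓘(ℝ, F) 𝓘(ℝ, E) r p v = _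
  rw [e1.mfderiv_eq, this, mfderiv_eq_fderiv]; rfl

theorem pF_rc [IsManifold 𝓘(ℝ, E) 1 M] {k : ℕ} (r : F → M) (x₁ : M)
    (w : M → E [⋀^Fin k]→L[ℝ] ℝ) {p : F}
    (hr : ContMDiffAt 𝓘(ℝ, F) 𝓘(ℝ, E) 1 r p) (h1 : r p ∈ (extChartAt 𝓘(ℝ, E) x₁).source) :
    pF r w p = (pl (ic E x₁) w (rc r x₁ p)).compContinuousLinearMap
      (fderiv ℝ (rc r x₁ : F → E) p) := by
  ext v
  rw [pF_apply, ContinuousAlternatingMap.compContinuousLinearMap_apply, pl_apply]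
  have e1 : r p = ic E x₁ (rc r x₁ p) := ((extChartAt 𝓘(ℝ, E) x₁).left_inv h1).symm
  have e2 : (fun i => dr (E := E) r p (v i)) = fun i => dc (ic E x₁) (rc r x₁ p)
      ((fderiv ℝ (rc r x₁ : F → E) p ∘ v) i) := by
    funext i
    exact dr_rc r x₁ hr h1 (v i)
  rw [e2, ← e1]

theorem pF_eventually [IsManifold 𝓘(ℝ, E) 1 M] {k : ℕ} (r : F → M)
    (w : M → E [⋀^Fin k]→L[ℝ] ℝ) {p : F}
    (hr : ∀ᶠ p' in 𝓝 p, ContMDiffAt 𝓘(ℝ, F) 𝓘(ℝ, E) 1 r p') :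
    pF r w =ᶠ[𝓝 p] fun p' => (pl (ic E (r p)) w (rc r (r p) p')).compContinuousLinearMap
      (fderiv ℝ (rc r (r p) : F → E) p') := by
  filter_upwards [hr, rc_eventually r (r p) hr.self_of_nhds.continuousAt
    (mem_extChartAt_source (I := 𝓘(ℝ, E)) _)] with p' h1 h2
  exact pF_rc r (r p) w h1 h2

theorem pF_continuousAt [IsManifold 𝓘(ℝ, E) 1 M] {k : ℕ} (r : F → M)
    {w : M → E [⋀^Fin k]→L[ℝ] ℝ} (hw : C0Form w) {p : F}
    (hr : ∀ᶠ p' in 𝓝 p, ContMDiffAt 𝓘(ℝ, F) 𝓘(ℝ, E) 1 r p') :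
    ContinuousAt (pF r w) p := by
  refine ContinuousAt.congr ?_ (pF_eventually r w hr).symm
  have h1 := rc_contDiffAt 1 r (r p) hr.self_of_nhds (mem_extChartAt_source _)
  have h2 : ContinuousAt (pl (ic E (r p)) w) (rc r (r p) p) :=
    (hw (r p)).continuousAt ((isOpen_extChartAt_target (r p)).mem_nhds
      ((extChartAt 𝓘(ℝ, E) (r p)).map_source (mem_extChartAt_source _)))
  apply continuousAt_compL
  · exact ContinuousAt.comp (f := (rc r (r p) : F → E)) h2 h1.continuousAt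
  · exact (h1.fderiv_right (m := 0) (by norm_num)).continuousAt

section c2

variable [IsManifold 𝓘(ℝ, E) 1 M] [IsManifold 𝓘(ℝ, E) 2 M]

theorem aux_pF {k : ℕ} (r : F → M) {w : M → E [⋀^Fin k]→L[ℝ] ℝ} (hw : C1Form w) (p : F) :
    ContDiffAt ℝ 1 (pl (ic E (r p)) w) (rc r (r p) p) :=
  (hw (r p)).contDiffAt ((isOpen_extChartAt_target (r p)).mem_nhds
    ((extChartAt 𝓘(ℝ, E) (r p)).map_source (mem_extChartAt_source _)))

theorem pF_contDiffAt {k : ℕ} (r : F → M)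
    {w : M → E [⋀^Fin k]→L[ℝ] ℝ} (hw : C1Form w) {p : F}
    (hr : ∀ᶠ p' in 𝓝 p, ContMDiffAt 𝓘(ℝ, F) 𝓘(ℝ, E) 2 r p') :
    ContDiffAt ℝ 1 (pF r w) p := by
  have hr1 : ∀ᶠ p' in 𝓝 p, ContMDiffAt 𝓘(ℝ, F) 𝓘(ℝ, E) 1 r p' :=
    hr.mono fun p' h => h.of_le (by norm_num)
  refine ContDiffAt.congr_of_eventuallyEq ?_ (pF_eventually r w hr1)
  have h1 := rc_contDiffAt 2 r (r p) hr.self_of_nhds (mem_extChartAt_source _)
  apply contDiffAt_compL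
  · exact (aux_pF r hw p).comp p (h1.of_le (by norm_num))
  · exact h1.fderiv_right (m := 1) (by norm_num)

theorem pF_extDeriv {k : ℕ} (r : F → M) {w : M → E [⋀^Fin k]→L[ℝ] ℝ}
    {ξ : M → E [⋀^Fin (k + 1)]→L[ℝ] ℝ} (hw : C1Form w) (hξ : IsEx ξ w) {p : F}
    (hr : ∀ᶠ p' in 𝓝 p, ContMDiffAt 𝓘(ℝ, F) 𝓘(ℝ, E) 2 r p') :
    extDeriv (pF r w) p = pF r ξ p := by
  have hr1 : ∀ᶠ p' in 𝓝 p, ContMDiffAt 𝓘(ℝ, F) 𝓘(ℝ, E) 1 r p' :=
    hr.mono fun p' h => h.of_le (by norm_num)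
  have hs := mem_extChartAt_source (I := 𝓘(ℝ, E)) (r p)
  rw [(pF_eventually r w hr1).extDeriv_eq]
  have h1 := rc_contDiffAt 2 r (r p) hr.self_of_nhds (mem_extChartAt_source _)
  rw [extDeriv_pullback ((aux_pF r hw p).differentiableAt (by norm_num)) h1 (by simp),
    pF_rc r (r p) ξ hr1.self_of_nhds hs]
  have h2 := hξ _ _ ((extChartAt 𝓘(ℝ, E) (r p)).map_source hs)
  exact congrArg (fun A : E [⋀^Fin (k + 1)]→L[ℝ] ℝ =>
    A.compContinuousLinearMap (fderiv ℝ (rc r (r p) : F → E) p)) h2.symm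

end c2

/-- form on `M` induced from a field of forms on `F` along `e` -/
noncomputable def pM {k : ℕ} (e : M → F) (B : M → F [⋀^Fin k]→L[ℝ] ℝ) (x : M) :
    E [⋀^Fin k]→L[ℝ] ℝ :=
  (B x).compContinuousLinearMap (dm E e x)

theorem pM_apply {k : ℕ} (e : M → F) (B : M → F [⋀^Fin k]→L[ℝ] ℝ) (x : M) (v : Fin k → E) :
    pM e B x v = B x (fun i => dm E e x (v i)) := rfl

theorem hatMap_contDiffAt_n (n : WithTop ℕ∞) [IsManifold 𝓘(ℝ, E) n M] {e : M → F}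
    (he : ContMDiff 𝓘(ℝ, E) 𝓘(ℝ, F) n e) (x₀ : M) {y : E} (hy : y ∈ tg E x₀) :
    ContDiffAt ℝ n (hatMap e x₀ : E → F) y := by
  rw [← contMDiffAt_iff_contDiffAt]
  exact he.contMDiffAt.comp y (ic_contMDiffAt n x₀ hy)

theorem pM_pl [IsManifold 𝓘(ℝ, E) 1 M] {k : ℕ} {e : M → F} (he : ContMDiff 𝓘(ℝ, E) 𝓘(ℝ, F) 1 e)
    (B : M → F [⋀^Fin k]→L[ℝ] ℝ) (x₀ : M) {y : E} (hy : y ∈ tg E x₀) :
    pl (ic E x₀) (pM e B) y = (B (ic E x₀ y)).compContinuousLinearMap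
      (fderiv ℝ (hatMap e x₀ : E → F) y) := by
  ext v
  rw [pl_apply, pM_apply, ContinuousAlternatingMap.compContinuousLinearMap_apply]
  congr 1
  funext i
  exact (fderiv_hatMap e he x₀ hy (v i)).symm

theorem pM_c0 [IsManifold 𝓘(ℝ, E) 1 M] {k : ℕ} {e : M → F} (he : ContMDiff 𝓘(ℝ, E) 𝓘(ℝ, F) 1 e)
    {B : M → F [⋀^Fin k]→L[ℝ] ℝ} (hB : Continuous B) : C0Form (pM (E := E) e B) := by
  intro x₀ y hy
  apply ContinuousAt.continuousWithinAt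
  have h1 : pl (ic E x₀) (pM (E := E) e B) =ᶠ[𝓝 y] fun y' =>
      (B (ic E x₀ y')).compContinuousLinearMap (fderiv ℝ (hatMap e x₀ : E → F) y') := by
    filter_upwards [(isOpen_extChartAt_target x₀).mem_nhds hy] with y' hy'
    exact pM_pl he B x₀ hy'
  refine ContinuousAt.congr ?_ h1.symm
  apply continuousAt_compL
  · exact hB.continuousAt.comp (ic_contMDiffAt (M := M) 1 x₀ hy).continuousAt
  · exact ((hatMap_contDiffAt_n 1 he x₀ hy).fderiv_right (m := 0) (by norm_num)).continuousAt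

section c2'

variable [IsManifold 𝓘(ℝ, E) 1 M] [IsManifold 𝓘(ℝ, E) 2 M]

theorem pM_eventually {k : ℕ} {e : M → F} (he : ContMDiff 𝓘(ℝ, E) 𝓘(ℝ, F) 1 e)
    (B : F → F [⋀^Fin k]→L[ℝ] ℝ) (x₀ : M) {y : E} (hy : y ∈ tg E x₀) :
    pl (ic E x₀) (pM (E := E) e (B ∘ e)) =ᶠ[𝓝 y] fun y' =>
      (B (hatMap e x₀ y')).compContinuousLinearMap (fderiv ℝ (hatMap e x₀ : E → F) y') := by
  filter_upwards [(isOpen_extChartAt_target x₀).mem_nhds hy] with y' hy'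
  exact pM_pl he _ x₀ hy'

theorem pM_contDiffAt {k : ℕ} {e : M → F} (he : ContMDiff 𝓘(ℝ, E) 𝓘(ℝ, F) 2 e)
    {B : F → F [⋀^Fin k]→L[ℝ] ℝ} (hB : ∀ x, ContDiffAt ℝ 1 B (e x)) (x₀ : M) {y : E}
    (hy : y ∈ tg E x₀) : ContDiffAt ℝ 1 (pl (ic E x₀) (pM (E := E) e (B ∘ e))) y := by
  have he1 : ContMDiff 𝓘(ℝ, E) 𝓘(ℝ, F) 1 e := he.of_le (by norm_num)
  refine ContDiffAt.congr_of_eventuallyEq ?_ (pM_eventually he1 B x₀ hy)
  have h1 := hatMap_contDiffAt_n 2 he x₀ hy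
  apply contDiffAt_compL
  · exact (hB (ic E x₀ y)).comp y (h1.of_le (by norm_num))
  · exact h1.fderiv_right (m := 1) (by norm_num)

theorem pM_c1 {k : ℕ} {e : M → F} (he : ContMDiff 𝓘(ℝ, E) 𝓘(ℝ, F) 2 e)
    {B : F → F [⋀^Fin k]→L[ℝ] ℝ} (hB : ∀ x, ContDiffAt ℝ 1 B (e x)) :
    C1Form (pM (E := E) e (B ∘ e)) := fun x₀ _ hy =>
  (pM_contDiffAt he hB x₀ hy).contDiffWithinAt

theorem pM_isEx {k : ℕ} {e : M → F} (he : ContMDiff 𝓘(ℝ, E) 𝓘(ℝ, F) 2 e)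
    {B : F → F [⋀^Fin k]→L[ℝ] ℝ} (hB : ∀ x, ContDiffAt ℝ 1 B (e x)) :
    IsEx (pM (E := E) e (extDeriv B ∘ e)) (pM (E := E) e (B ∘ e)) := by
  have he1 : ContMDiff 𝓘(ℝ, E) 𝓘(ℝ, F) 1 e := he.of_le (by norm_num)
  intro x₀ y hy
  have h1 := hatMap_contDiffAt_n 2 he x₀ hy
  rw [(pM_eventually he1 B x₀ hy).extDeriv_eq, pM_pl he1 _ x₀ hy]
  have h2 : ContDiffAt ℝ 1 B (hatMap e x₀ y) := hB (ic E x₀ y)
  rw [extDeriv_pullback (h2.differentiableAt (by norm_num)) h1 (by simp)]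
  rfl

end c2'

/-- smooth version -/
theorem pM_smooth [IsManifold 𝓘(ℝ, E) ∞ M] [IsManifold 𝓘(ℝ, E) 1 M] {k : ℕ} {e : M → F}
    (he : ContMDiff 𝓘(ℝ, E) 𝓘(ℝ, F) ∞ e)
    {B : F → F [⋀^Fin k]→L[ℝ] ℝ} (hB : ContDiff ℝ ∞ B) (x₀ : M) :
    ContDiffOn ℝ ∞ (pl (ic E x₀) (pM (E := E) e (B ∘ e))) (tg E x₀) := by
  have he1 : ContMDiff 𝓘(ℝ, E) 𝓘(ℝ, F) 1 e := he.of_le (by simp)
  intro y hy
  apply ContDiffAt.contDiffWithinAt
  have h0 : pl (ic E x₀) (pM (E := E) e (B ∘ e)) =ᶠ[𝓝 y] fun y' =>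
      (B (hatMap e x₀ y')).compContinuousLinearMap (fderiv ℝ (hatMap e x₀ : E → F) y') := by
    filter_upwards [(isOpen_extChartAt_target x₀).mem_nhds hy] with y' hy'
    exact pM_pl he1 _ x₀ hy'
  refine ContDiffAt.congr_of_eventuallyEq ?_ h0
  have h1 := hatMap_contDiffAt_n ∞ he x₀ hy
  apply contDiffAt_compL
  · exact hB.contDiffAt.comp y h1
  · exact h1.fderiv_right (m := ∞) (by simp)

theorem dr_dm [IsManifold 𝓘(ℝ, E) 1 M] {e : M → F} (he : ContMDiff 𝓘(ℝ, E) 𝓘(ℝ, F) 1 e)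
    {r : F → M} (hre : ∀ x, r (e x) = x) (x : M) (hr : ContMDiffAt 𝓘(ℝ, F) 𝓘(ℝ, E) 1 r (e x))
    (v : E) : dr (E := E) r (e x) (dm E e x v) = v := by
  have a1 : MDifferentiableAt 𝓘(ℝ, E) 𝓘(ℝ, F) e x := he.mdifferentiableAt (by norm_num)
  have a2 : MDifferentiableAt 𝓘(ℝ, F) 𝓘(ℝ, E) r (e x) := hr.mdifferentiableAt (by norm_num)
  have h1 := mfderiv_comp x a2 a1
  have h2 : r ∘ e = id := funext hre
  rw [h2, mfderiv_id] at h1
  have h3 := DFunLike.congr_fun h1 v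
  exact h3.symm

theorem pM_pF [IsManifold 𝓘(ℝ, E) 1 M] {e : M → F} (he : ContMDiff 𝓘(ℝ, E) 𝓘(ℝ, F) 1 e)
    {r : F → M} (hre : ∀ x, r (e x) = x) (hr : ∀ x, ContMDiffAt 𝓘(ℝ, F) 𝓘(ℝ, E) 1 r (e x))
    {k : ℕ} (w : M → E [⋀^Fin k]→L[ℝ] ℝ) : pM e (pF r w ∘ e) = w := by
  funext x
  ext v
  rw [pM_apply, Function.comp_apply, pF_apply]
  have h1 : (fun i => dr (E := E) r (e x) (dm E e x (v i))) = v :=
    funext fun i => dr_dm he hre x (hr x) (v i)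
  rw [h1, hre]

end Pool.Agent.H74.RS
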