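import Pool.Agent.H74.RS.Bound

set_option autoImplicit false
set_option linter.unusedSectionVars false

open scoped Manifold ContDiff Topology
open Set Filter

namespace Pool.Agent.H74.RS

open Pool.Agent.H721R2

section ratio

variable {E : Type*} [NormedAddCommGroup E] [NormedSpace ℝ E]

/-- Two alternating forms of top degree on a plane are proportional. -/
theorem ratio {u : ℕ} (P : Submodule ℝ E) (B : Module.Basis (Fin u) ℝ P)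
    (T₁ T₂ : E [⋀^Fin u]→L[ℝ] ℝ) (v : Fin u → E) (hv : ∀ j, v j ∈ P) :
    T₁ v * T₂ (fun j => (B j : E)) = T₁ (fun j => (B j : E)) * T₂ v := by
  let v' : Fin u → P := fun j => ⟨v j, hv j⟩
  have key : ∀ T : E [⋀^Fin u]→L[ℝ] ℝ, T v = T (fun j => (B j : E)) * B.det v' := by
    intro T
    have h1 := (T.toAlternatingMap.compLinearMap P.subtype).eq_smul_basis_det B
    have h2 := congrArg (fun A : P [⋀^Fin u]→ₗ[ℝ] ℝ => A v') h1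
    exact h2
  rw [key T₁, key T₂]; ring

theorem ratio_bound {u : ℕ} (P : Submodule ℝ E) (B : Module.Basis (Fin u) ℝ P)
    (T D : E [⋀^Fin u]→L[ℝ] ℝ) (v : Fin u → E) (hv : ∀ j, v j ∈ P) {c : ℝ} (hc : 0 < c)
    (hD : c ≤ |D v|) :
    |T (fun j => (B j : E))| ≤ c⁻¹ * |T v| * |D (fun j => (B j : E))| := by
  have h1 := ratio P B T D v hv
  have h2 : |T (fun j => (B j : E))| * |D v| = |T v| * |D (fun j => (B j : E))| := by
    rw [← abs_mul, ← abs_mul, h1]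
  have h3 : |T (fun j => (B j : E))| * c ≤ |T v| * |D (fun j => (B j : E))| := by
    rw [← h2]; exact mul_le_mul_of_nonneg_left hD (abs_nonneg _)
  calc |T (fun j => (B j : E))| = c⁻¹ * (|T (fun j => (B j : E))| * c) := by field_simp
    _ ≤ c⁻¹ * (|T v| * |D (fun j => (B j : E))|) := mul_le_mul_of_nonneg_left h3 (by positivity)
    _ = _ := by ring

end ratio

variable {E : Type*} [NormedAddCommGroup E] [NormedSpace ℝ E] [FiniteDimensional ℝ E]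
  {M : Type*} [MetricSpace M] [CompactSpace M] [ChartedSpace E M] [IsManifold 𝓘(ℝ, E) 1 M]
  {F : Type*} [NormedAddCommGroup F] [InnerProductSpace ℝ F] [FiniteDimensional ℝ F]

/-- good coordinate balls -/
def FrameBall (e : M → F) (f : M ≃ₜ M) (Eu : M → Submodule ℝ E) (b : ℝ) (u : ℕ) (x₀ : M)
    (r C₂ : ℝ) : Prop :=
  0 < r ∧ 0 < C₂ ∧ Metric.ball (extChartAt 𝓘(ℝ, E) x₀ x₀) r ⊆ tg E x₀ ∧
    (∀ y ∈ Metric.ball (extChartAt 𝓘(ℝ, E) x₀ x₀) r, ∀ v : E,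
      ‖dm E e (ic E x₀ y) (dc (ic E x₀) y v)‖ ≤ C₂ * ‖v‖) ∧
    ∀ y ∈ Metric.ball (extChartAt 𝓘(ℝ, E) x₀ x₀) r, ∀ n : ℕ, ∀ k₀ ≤ n, ∃ w v p : Fin u → E,
        (∀ j, w j ∈ Eu (f^[n] (ic E x₀ y))) ∧
        Orthonormal ℝ (fun j => dm E e (f^[n] (ic E x₀ y)) (w j)) ∧
        (∀ j, v j ∈ Eu x₀) ∧ (∀ j, ‖v j‖ ≤ C₂ * b ^ n) ∧
        (∀ k ≤ n, ∀ j, ‖dm E e (f^[k] (ic E x₀ y)) (dc (f^[k] ∘ ic E x₀) y (v j))‖ ≤
          C₂ * b ^ (n - k)) ∧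
        (∀ j, ‖dm E e (f^[n] (ic E x₀ y)) (dc (f^[n] ∘ ic E x₀) y (v j) - w j)‖ ≤ C₂ * b ^ n) ∧
        (∀ j, p j ∈ Eu (f^[k₀] (ic E x₀ y))) ∧
        (∀ i j, i ≠ j → inner ℝ (dm E e (f^[k₀] (ic E x₀ y)) (p i))
          (dm E e (f^[k₀] (ic E x₀ y)) (p j)) = 0) ∧
        (∀ j, dg E (f^[n - k₀]) (f^[k₀] (ic E x₀ y)) (p j) = w j) ∧
        (∀ j, ‖v j‖ ≤ C₂ * b ^ k₀ * ‖dm E e (f^[k₀] (ic E x₀ y)) (p j)‖) ∧
        (∀ j, ‖dm E e (f^[k₀] (ic E x₀ y)) (dc (f^[k₀] ∘ ic E x₀) y (v j))‖ ≤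
          C₂ * ‖dm E e (f^[k₀] (ic E x₀ y)) (p j)‖)

theorem FrameBall.mono {e : M → F} {f : M ≃ₜ M} {Eu : M → Submodule ℝ E} {b : ℝ} {u : ℕ} {x₀ : M}
    {r C₂ : ℝ} (h : FrameBall e f Eu b u x₀ r C₂) {r' : ℝ} (hr' : 0 < r') (hrr : r' ≤ r) :
    FrameBall e f Eu b u x₀ r' C₂ :=
  ⟨hr', h.2.1, (Metric.ball_subset_ball hrr).trans h.2.2.1,
    fun y hy => h.2.2.2.1 y (Metric.ball_subset_ball hrr hy),
    fun y hy => h.2.2.2.2 y (Metric.ball_subset_ball hrr hy)⟩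

theorem exists_frameBall {e : M → F} (he : ContMDiff 𝓘(ℝ, E) 𝓘(ℝ, F) 1 e)
    (hinj : ∀ x, Function.Injective (dm E e x))
    {f : M ≃ₜ M} {Es Eu : M → Submodule ℝ E} {C a b Ls Lu : ℝ}
    (h : EAnosov e f Es Eu C a b Ls Lu) {u : ℕ} (hu : ∀ x, Module.finrank ℝ (Eu x) = u) (x₀ : M) :
    ∃ r C₂ : ℝ, FrameBall e f Eu b u x₀ r C₂ := by
  obtain ⟨r, hr, C₂, hC₂, hb, hF⟩ := frames he hinj h hu x₀
  obtain ⟨κ, hκ0, hκ1, hκ2⟩ := chart_loc e he hinj x₀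
  obtain ⟨r1, hr1, b1, b2, -, -⟩ := hκ2 1 one_pos
  have hb0 := h.b_pos
  refine ⟨min r r1, C₂ + κ + 1, lt_min hr hr1, by positivity,
    (Metric.ball_subset_ball (min_le_left _ _)).trans hb, fun y hy v => ?_, fun y hy n k₀ hk₀ => ?_⟩
  · have h1 := b2 y (Metric.ball_subset_ball (min_le_right _ _) hy) v
    have h2 := norm_le_norm_add_norm_sub' (dm E e (ic E x₀ y) (dc (ic E x₀) y v)) (dm E e x₀ v)
    have h3 := hκ1 v
    have h4 := norm_nonneg v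
    nlinarith
  · obtain ⟨w, v, p, h1, h2, h3, h4, h5, h6, h7, h8, h9, h10, h11⟩ :=
      hF y (Metric.ball_subset_ball (min_le_left _ _) hy) n k₀ hk₀
    have hm : ∀ m : ℕ, C₂ * b ^ m ≤ (C₂ + κ + 1) * b ^ m := fun m => by
      have : 0 ≤ (κ + 1) * b ^ m := by positivity
      linarith
    refine ⟨w, v, p, h1, h2, h3, fun j => (h4 j).trans (hm _), fun k hk j => (h5 k hk j).trans (hm _),
      fun j => (h6 j).trans (hm _), h7, h8, h9, fun j => (h10 j).trans ?_,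
      fun j => (h11 j).trans ?_⟩
    · exact mul_le_mul_of_nonneg_right (hm _) (norm_nonneg _)
    · apply mul_le_mul_of_nonneg_right _ (norm_nonneg _)
      linarith

/-- The pointwise estimate, with a frame which is orthogonal at the time `k₀`. -/
theorem pe' {e : M → F} (he : ContMDiff 𝓘(ℝ, E) 𝓘(ℝ, F) 1 e)
    (hinj : ∀ x, Function.Injective (dm E e x))
    {f : M ≃ₜ M} {Es Eu : M → Submodule ℝ E} {C a b Ls Lu : ℝ}
    (h : EAnosov e f Es Eu C a b Ls Lu) {u : ℕ} {x₀ : M} {r C₂ : ℝ}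
    (hF : FrameBall e f Eu b u x₀ r C₂) (B : Module.Basis (Fin u) ℝ (Eu x₀))
    {w : M → E [⋀^Fin u]→L[ℝ] ℝ} (hw : C0Form w) {Z : Set M} (hZ : IsClosed Z)
    (hnz : ∀ z ∈ Z, ∀ v : Fin u → E, (∀ j, v j ∈ Eu z) → LinearIndependent ℝ v → w z v ≠ 0) :
    ∃ C₃ > 0, ∃ N : ℕ, ∀ y ∈ Metric.ball (extChartAt 𝓘(ℝ, E) x₀ x₀) r, ∀ n ≥ N,
      f^[n] (ic E x₀ y) ∈ Z → ∀ k₀ ≤ n, ∃ v p : Fin u → E, (∀ j, ‖v j‖ ≤ C₂ * b ^ n) ∧
        (∀ k ≤ n, ∀ j, ‖dm E e (f^[k] (ic E x₀ y)) (dc (f^[k] ∘ ic E x₀) y (v j))‖ ≤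
          C₂ * b ^ (n - k)) ∧
        (∀ T : E [⋀^Fin u]→L[ℝ] ℝ, |T (fun j => (B j : E))| ≤
          C₃ * |T v| * |pl (f^[n] ∘ ic E x₀) w y (fun j => (B j : E))|) ∧
        (∀ j, p j ∈ Eu (f^[k₀] (ic E x₀ y))) ∧
        (∀ i j, i ≠ j → inner ℝ (dm E e (f^[k₀] (ic E x₀ y)) (p i))
          (dm E e (f^[k₀] (ic E x₀ y)) (p j)) = 0) ∧
        Orthonormal ℝ (fun j => dm E e (f^[n - k₀] (f^[k₀] (ic E x₀ y)))
          (dg E (f^[n - k₀]) (f^[k₀] (ic E x₀ y)) (p j))) ∧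
        (∀ j, ‖v j‖ ≤ C₂ * b ^ k₀ * ‖dm E e (f^[k₀] (ic E x₀ y)) (p j)‖) ∧
        (∀ j, ‖dm E e (f^[k₀] (ic E x₀ y)) (dc (f^[k₀] ∘ ic E x₀) y (v j))‖ ≤
          C₂ * ‖dm E e (f^[k₀] (ic E x₀ y)) (p j)‖) := by
  obtain ⟨hr, hC₂, hball, hup, hfr⟩ := hF
  obtain ⟨c, hc, δ, hδ, hlb⟩ := form_lb he hinj h hw hZ hnz
  have hb0 := h.b_pos
  have ht : Tendsto (fun n : ℕ => C₂ * b ^ n) atTop (𝓝 0) := by
    have := (tendsto_pow_atTop_nhds_zero_of_lt_one h.b_pos.le h.b_lt).const_mul C₂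
    simpa using this
  obtain ⟨N, hN⟩ := eventually_atTop.mp ((tendsto_order.mp ht).2 δ hδ)
  refine ⟨c⁻¹, by positivity, N, fun y hy n hn hz k₀ hk₀ => ?_⟩
  obtain ⟨w', v, p, h1, h2, h3, h4, h5, h6, h7, h8, h9, h10, h11⟩ := hfr y hy n k₀ hk₀
  refine ⟨v, p, h4, h5, fun T => ?_, h7, h8, ?_, h10, h11⟩
  · refine ratio_bound (Eu x₀) B T _ v h3 hc ?_
    rw [pl_apply]
    exact hlb _ hz w' (fun i => dc (f^[n] ∘ ic E x₀) y (v i)) h1 h2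
      (fun j => (h6 j).trans (hN n hn).le)
  · have e1 : f^[n - k₀] (f^[k₀] (ic E x₀ y)) = f^[n] (ic E x₀ y) := by
      rw [← Function.iterate_add_apply, Nat.sub_add_cancel hk₀]
    simp only [h9]
    rw [e1]
    exact h2

/-- The pointwise estimate. -/
theorem pe {e : M → F} (he : ContMDiff 𝓘(ℝ, E) 𝓘(ℝ, F) 1 e)
    (hinj : ∀ x, Function.Injective (dm E e x))
    {f : M ≃ₜ M} {Es Eu : M → Submodule ℝ E} {C a b Ls Lu : ℝ}
    (h : EAnosov e f Es Eu C a b Ls Lu) {u : ℕ} {x₀ : M} {r C₂ : ℝ}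
    (hF : FrameBall e f Eu b u x₀ r C₂) (B : Module.Basis (Fin u) ℝ (Eu x₀))
    {w : M → E [⋀^Fin u]→L[ℝ] ℝ} (hw : C0Form w) {Z : Set M} (hZ : IsClosed Z)
    (hnz : ∀ z ∈ Z, ∀ v : Fin u → E, (∀ j, v j ∈ Eu z) → LinearIndependent ℝ v → w z v ≠ 0) :
    ∃ C₃ > 0, ∃ N : ℕ, ∀ y ∈ Metric.ball (extChartAt 𝓘(ℝ, E) x₀ x₀) r, ∀ n ≥ N,
      f^[n] (ic E x₀ y) ∈ Z → ∃ v : Fin u → E, (∀ j, ‖v j‖ ≤ C₂ * b ^ n) ∧
        (∀ k ≤ n, ∀ j, ‖dm E e (f^[k] (ic E x₀ y)) (dc (f^[k] ∘ ic E x₀) y (v j))‖ ≤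
          C₂ * b ^ (n - k)) ∧
        ∀ T : E [⋀^Fin u]→L[ℝ] ℝ, |T (fun j => (B j : E))| ≤
          C₃ * |T v| * |pl (f^[n] ∘ ic E x₀) w y (fun j => (B j : E))| := by
  obtain ⟨C₃, hC₃, N, hN⟩ := pe' he hinj h hF B hw hZ hnz
  refine ⟨C₃, hC₃, N, fun y hy n hn hz => ?_⟩
  obtain ⟨v, p, h1, h2, h3, -⟩ := hN y hy n hn hz 0 (Nat.zero_le _)
  exact ⟨v, h1, h2, h3⟩

/-- comparison of two forms -/
theorem pe_compare {e : M → F} (he : ContMDiff 𝓘(ℝ, E) 𝓘(ℝ, F) 1 e)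
    (hinj : ∀ x, Function.Injective (dm E e x))
    {f : M ≃ₜ M} {Es Eu : M → Submodule ℝ E} {C a b Ls Lu : ℝ}
    (h : EAnosov e f Es Eu C a b Ls Lu) {u : ℕ} {x₀ : M} {r C₂ : ℝ}
    (hF : FrameBall e f Eu b u x₀ r C₂) (B : Module.Basis (Fin u) ℝ (Eu x₀))
    {w : M → E [⋀^Fin u]→L[ℝ] ℝ} (hw : C0Form w) {Z : Set M} (hZ : IsClosed Z)
    (hnz : ∀ z ∈ Z, ∀ v : Fin u → E, (∀ j, v j ∈ Eu z) → LinearIndependent ℝ v → w z v ≠ 0)
    {w' : M → E [⋀^Fin u]→L[ℝ] ℝ} (hw' : C0Form w') :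
    ∃ C₄ > 0, ∃ N : ℕ, ∀ y ∈ Metric.ball (extChartAt 𝓘(ℝ, E) x₀ x₀) r, ∀ n ≥ N,
      f^[n] (ic E x₀ y) ∈ Z → |pl (f^[n] ∘ ic E x₀) w' y (fun j => (B j : E))| ≤
          C₄ * |pl (f^[n] ∘ ic E x₀) w y (fun j => (B j : E))| := by
  obtain ⟨C₃, hC₃, N, hN⟩ := pe he hinj h hF B hw hZ hnz
  obtain ⟨B', hB', hub⟩ := form_ub he hinj hw'
  have hC₂ := hF.2.1
  refine ⟨C₃ * (B' * C₂ ^ u), by positivity, N, fun y hy n hn hz => ?_⟩
  obtain ⟨v, h1, h2, h3⟩ := hN y hy n hn hz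
  refine (h3 (pl (f^[n] ∘ ic E x₀) w' y)).trans ?_
  apply mul_le_mul_of_nonneg_right _ (abs_nonneg _)
  apply mul_le_mul_of_nonneg_left _ hC₃.le
  rw [pl_apply]
  refine (hub _ _).trans ?_
  apply mul_le_mul_of_nonneg_left _ hB'.le
  calc _ ≤ ∏ _j : Fin u, C₂ := by
        apply Finset.prod_le_prod (fun _ _ => norm_nonneg _)
        intro j _
        have := h2 n le_rfl j
        rw [Nat.sub_self, pow_zero, mul_one] at this
        exact this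
    _ = C₂ ^ u := by rw [Finset.prod_const, Finset.card_univ, Fintype.card_fin]

/-- crude upper bound -/
theorem pe_upper {e : M → F} (he : ContMDiff 𝓘(ℝ, E) 𝓘(ℝ, F) 1 e)
    (hinj : ∀ x, Function.Injective (dm E e x))
    {f : M ≃ₜ M} {Es Eu : M → Submodule ℝ E} {C a b Ls Lu : ℝ}
    (h : EAnosov e f Es Eu C a b Ls Lu) {u : ℕ} {x₀ : M} {r C₂ : ℝ}
    (hF : FrameBall e f Eu b u x₀ r C₂) (v : Fin u → E)
    {w : M → E [⋀^Fin u]→L[ℝ] ℝ} (hw : C0Form w) :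
    ∃ C₄ > 0, ∃ L ≥ 1, ∀ y ∈ Metric.ball (extChartAt 𝓘(ℝ, E) x₀ x₀) r, ∀ n : ℕ,
      |pl (f^[n] ∘ ic E x₀) w y v| ≤ C₄ * L ^ n := by
  obtain ⟨B', hB', hub⟩ := form_ub he hinj hw
  obtain ⟨L, hL, hLb⟩ := Pool.Agent.H789R2.AN.iter_bound e he hinj f h.smooth
  have hC₂ := hF.2.1
  refine ⟨B' * ∏ j, (C₂ * (‖v j‖ + 1)), by positivity, L ^ u, one_le_pow₀ hL, fun y hy n => ?_⟩
  rw [pl_apply]
  refine (hub _ _).trans ?_
  rw [mul_assoc]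
  apply mul_le_mul_of_nonneg_left _ hB'.le
  have e1 : (L ^ u) ^ n = ∏ _j : Fin u, L ^ n := by
    rw [Finset.prod_const, Finset.card_univ, Fintype.card_fin, ← pow_mul, ← pow_mul, mul_comm]
  rw [e1, ← Finset.prod_mul_distrib]
  apply Finset.prod_le_prod (fun _ _ => norm_nonneg _)
  intro j _
  show ‖dm E e (f^[n] (ic E x₀ y)) _‖ ≤ _
  rw [dc_comp (f^[n]) (iter_smooth f h.smooth n) x₀ (hF.2.2.1 hy)]
  refine (hLb n _ _).trans ?_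
  rw [mul_comm]
  apply mul_le_mul_of_nonneg_right _ (by positivity)
  refine (hF.2.2.2.1 y hy (v j)).trans ?_
  apply mul_le_mul_of_nonneg_left _ hC₂.le
  linarith

/-- the form on orthogonal frames -/
theorem form_lb_orth {e : M → F} (he : ContMDiff 𝓘(ℝ, E) 𝓘(ℝ, F) 1 e)
    (hinj : ∀ x, Function.Injective (dm E e x))
    {f : M ≃ₜ M} {Es Eu : M → Submodule ℝ E} {C a b Ls Lu : ℝ}
    (h : EAnosov e f Es Eu C a b Ls Lu) {u : ℕ}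
    {w : M → E [⋀^Fin u]→L[ℝ] ℝ} (hw : C0Form w)
    (hnz : ∀ z, ∀ v : Fin u → E, (∀ j, v j ∈ Eu z) → LinearIndependent ℝ v → w z v ≠ 0) :
    ∃ c > 0, ∀ (x : M) (p : Fin u → E), (∀ j, p j ∈ Eu x) →
      (∀ i j, i ≠ j → inner ℝ (dm E e x (p i)) (dm E e x (p j)) = 0) →
      c * ∏ j, ‖dm E e x (p j)‖ ≤ |w x p| := by
  obtain ⟨c, hc, δ, hδ, hlb⟩ := form_lb he hinj h hw isClosed_univ (fun z _ => hnz z)
  refine ⟨c, hc, fun x p hp ho => ?_⟩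
  by_cases h0 : ∃ j, p j = 0
  · obtain ⟨j, hj⟩ := h0
    have : ∏ j, ‖dm E e x (p j)‖ = 0 := Finset.prod_eq_zero (Finset.mem_univ j) (by
      rw [hj, map_zero, norm_zero])
    rw [this, mul_zero]
    exact abs_nonneg _
  · push Not at h0
    have hn : ∀ j, 0 < ‖dm E e x (p j)‖ := by
      intro j
      rw [norm_pos_iff]
      intro h1
      apply h0 j
      apply hinj x
      rw [h1, map_zero]
    set q : Fin u → E := fun j => ‖dm E e x (p j)‖⁻¹ • p j with hq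
    have hqo : Orthonormal ℝ (fun j => dm E e x (q j)) := by
      constructor
      · intro j
        simp only [hq]
        rw [map_smul, norm_smul, norm_inv, norm_norm]
        exact inv_mul_cancel₀ (hn j).ne'
      · intro i j hij
        simp only [hq]
        rw [map_smul, map_smul, inner_smul_left, inner_smul_right, ho i j hij]
        simp
    have h1 := hlb x trivial q q (fun j => (Eu x).smul_mem _ (hp j)) hqo (fun j => by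
      rw [sub_self, map_zero, norm_zero]; exact hδ.le)
    have h2 : w x q = (∏ j, ‖dm E e x (p j)‖⁻¹) * w x p := by
      have := (w x).toContinuousMultilinearMap.map_smul_univ (fun j => ‖dm E e x (p j)‖⁻¹) p
      exact this
    rw [h2, Finset.prod_inv_distrib, abs_mul, abs_inv, abs_of_pos (Finset.prod_pos fun j _ => hn j)]
      at h1
    have h3 : 0 < ∏ j, ‖dm E e x (p j)‖ := Finset.prod_pos fun j _ => hn j
    calc c * ∏ j, ‖dm E e x (p j)‖ ≤ ((∏ j, ‖dm E e x (p j)‖)⁻¹ * |w x p|) *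
          ∏ j, ‖dm E e x (p j)‖ := mul_le_mul_of_nonneg_right h1 h3.le
      _ = |w x p| := by field_simp

/-- Volume growth bounds the product of the lengths of an orthogonal frame. -/
theorem prod_le_of_volExp {e : M → F} (he : ContMDiff 𝓘(ℝ, E) 𝓘(ℝ, F) 1 e)
    (hinj : ∀ x, Function.Injective (dm E e x))
    {f : M ≃ₜ M} {Es Eu : M → Submodule ℝ E} {C a b Ls Lu : ℝ}
    (h : EAnosov e f Es Eu C a b Ls Lu) {u : ℕ}
    {w : M → E [⋀^Fin u]→L[ℝ] ℝ} (hw : C0Form w)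
    (hnz : ∀ z, ∀ v : Fin u → E, (∀ j, v j ∈ Eu z) → LinearIndependent ℝ v → w z v ≠ 0)
    {J : ℝ} (hJ : VolExp f Eu w J) :
    ∃ C₅ > 0, ∀ (m : ℕ) (x : M) (p : Fin u → E), (∀ j, p j ∈ Eu x) →
      (∀ i j, i ≠ j → inner ℝ (dm E e x (p i)) (dm E e x (p j)) = 0) →
      Orthonormal ℝ (fun j => dm E e (f^[m] x) (dg E (f^[m]) x (p j))) →
      ∏ j, ‖dm E e x (p j)‖ ≤ C₅ * J ^ m := by
  obtain ⟨c, hc, hlb⟩ := form_lb_orth he hinj h hw hnz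
  obtain ⟨B, hB, hub⟩ := form_ub he hinj hw
  obtain ⟨hJ0, c₁, hc₁, hexp⟩ := hJ
  refine ⟨B / (c * c₁), by positivity, fun m x p hp ho hon => ?_⟩
  have h1 := hlb x p hp ho
  have h2 := hexp m x p hp
  have h3 := hub (f^[m] x) (fun i => dg E (f^[m]) x (p i))
  have h4 : ∏ j, ‖dm E e (f^[m] x) (dg E (f^[m]) x (p j))‖ = 1 :=
    Finset.prod_eq_one fun j _ => hon.1 j
  rw [h4, mul_one] at h3
  have h5 : c * c₁ * ∏ j, ‖dm E e x (p j)‖ ≤ B * J ^ m := by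
    calc c * c₁ * ∏ j, ‖dm E e x (p j)‖ = c₁ * (c * ∏ j, ‖dm E e x (p j)‖) := by ring
      _ ≤ c₁ * |w x p| := mul_le_mul_of_nonneg_left h1 hc₁.le
      _ ≤ J ^ m * |w (f^[m] x) (fun i => dg E (f^[m]) x (p i))| := h2
      _ ≤ J ^ m * B := mul_le_mul_of_nonneg_left h3 (by positivity)
      _ = _ := by ring
  rw [div_mul_eq_mul_div, le_div_iff₀ (by positivity)]
  linarith

end Pool.Agent.H74.RS
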