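import Pool.Agent.H74.RS.Cmp

set_option autoImplicit false
set_option linter.unusedSectionVars false

/-!
Growth of the pull-backs of forms of degree `dim Eu + 1`.
-/

open scoped Manifold ContDiff Topology
open Set Filter

namespace Pool.Agent.H74.RS

open Pool.Agent.H721R2

section lin

variable {E : Type*} [NormedAddCommGroup E] [NormedSpace ℝ E] [FiniteDimensional ℝ E]
  {F : Type*} [NormedAddCommGroup F] [InnerProductSpace ℝ F]

/-- expansion in an orthonormal frame -/
theorem frame_expand (T : E →L[ℝ] F) (P : Submodule ℝ E) {u : ℕ}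
    (hP : Module.finrank ℝ P = u) (c : Fin u → E) (hc : ∀ j, c j ∈ P)
    (ho : Orthonormal ℝ (fun j => T (c j))) (p : E) (hp : p ∈ P) :
    p = ∑ j, inner ℝ (T (c j)) (T p) • c j := by
  have hlin : LinearIndependent ℝ c := LinearIndependent.of_comp T.toLinearMap ho.linearIndependent
  have hlin' : LinearIndependent ℝ (fun j => (⟨c j, hc j⟩ : P)) := by
    apply LinearIndependent.of_comp P.subtype
    exact hlin
  let b := Module.Basis.mk hlin'
    (le_of_eq (hlin'.span_eq_top_of_card_eq_finrank' (by rw [Fintype.card_fin, hP])).symm)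
  have hb : ∀ j, (b j : E) = c j := fun j => by
    show ((Module.Basis.mk hlin' _) j : E) = c j
    rw [Module.Basis.mk_apply]
  have h1 : p = ∑ j, b.repr ⟨p, hp⟩ j • c j := by
    have h2 := congrArg (fun z : P => (z : E)) (b.sum_repr ⟨p, hp⟩)
    simp only [Submodule.coe_sum, Submodule.coe_smul, hb] at h2
    exact h2.symm
  have h3 : ∀ i, inner ℝ (T (c i)) (T p) = b.repr ⟨p, hp⟩ i := by
    intro i
    conv_lhs => rw [h1]
    rw [map_sum, inner_sum]
    have : ∀ j, inner ℝ (T (c i)) (T (b.repr ⟨p, hp⟩ j • c j)) =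
        b.repr ⟨p, hp⟩ j * (if i = j then 1 else 0) := by
      intro j
      rw [map_smul, inner_smul_right, (orthonormal_iff_ite.mp ho) i j]
    rw [Finset.sum_congr rfl fun j _ => this j]
    simp
  conv_lhs => rw [h1]
  exact Finset.sum_congr rfl fun j _ => by rw [h3]

/-- bound of an alternating form from its values on a frame -/
theorem alt_bound {ι : Type*} [Fintype ι] {m : ℕ} (ζ : E [⋀^Fin m]→L[ℝ] ℝ) (b : ι → E)
    {β κ : ℝ} (hβ : ∀ r : Fin m → ι, Function.Injective r → |ζ (fun j => b (r j))| ≤ β)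
    (hβ0 : 0 ≤ β)
    (v : Fin m → E) (N : Fin m → ℝ) (hN : ∀ j, 0 ≤ N j) (hκ : 0 ≤ κ)
    (hv : ∀ j, ∃ a : ι → ℝ, (∀ i, |a i| ≤ κ * N j) ∧ v j = ∑ i, a i • b i) :
    |ζ v| ≤ (Fintype.card ι : ℝ) ^ m * κ ^ m * β * ∏ j, N j := by
  classical
  choose a ha hva using hv
  have h1 : ζ v = ∑ r : Fin m → ι, ζ (fun j => a j (r j) • b (r j)) := by
    have h2 : v = fun j => ∑ i, a j i • b i := funext hva
    conv_lhs => rw [h2]
    exact ζ.toContinuousMultilinearMap.toMultilinearMap.map_sum (fun j i => a j i • b i)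
  rw [h1]
  refine (Finset.abs_sum_le_sum_abs _ _).trans ?_
  have h3 : ∀ r ∈ (Finset.univ : Finset (Fin m → ι)),
      |ζ (fun j => a j (r j) • b (r j))| ≤ κ ^ m * β * ∏ j, N j := by
    intro r _
    have h4 : ζ (fun j => a j (r j) • b (r j)) = (∏ j, a j (r j)) * ζ (fun j => b (r j)) :=
      ζ.toContinuousMultilinearMap.toMultilinearMap.map_smul_univ (fun j => a j (r j))
        (fun j => b (r j))
    have hP : 0 ≤ ∏ j, N j := Finset.prod_nonneg fun j _ => hN j
    rw [h4, abs_mul, Finset.abs_prod]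
    have h5 : ∏ j, |a j (r j)| ≤ κ ^ m * ∏ j, N j := by
      calc ∏ j, |a j (r j)| ≤ ∏ j, (κ * N j) :=
            Finset.prod_le_prod (fun _ _ => abs_nonneg _) fun j _ => ha j (r j)
        _ = κ ^ m * ∏ j, N j := by
            rw [Finset.prod_mul_distrib, Finset.prod_const, Finset.card_univ, Fintype.card_fin]
    have h6 : |ζ (fun j => b (r j))| ≤ β := by
      by_cases hr : Function.Injective r
      · exact hβ r hr
      · rw [Function.Injective] at hr
        push Not at hr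
        obtain ⟨i, j, hij, hne⟩ := hr
        have : ζ (fun j => b (r j)) = 0 :=
          ζ.toAlternatingMap.map_eq_zero_of_eq _ (by rw [hij]) hne
        rw [this, abs_zero]
        exact hβ0
    calc (∏ j, |a j (r j)|) * |ζ (fun j => b (r j))| ≤ (κ ^ m * ∏ j, N j) * β :=
          mul_le_mul h5 h6 (abs_nonneg _) (by positivity)
      _ = _ := by ring
  refine (Finset.sum_le_sum h3).trans ?_
  rw [Finset.sum_const, Finset.card_univ, nsmul_eq_mul, Fintype.card_fun, Fintype.card_fin]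
  push_cast
  apply le_of_eq
  ring

end lin

variable {E : Type*} [NormedAddCommGroup E] [NormedSpace ℝ E] [FiniteDimensional ℝ E]
  {M : Type*} [MetricSpace M] [CompactSpace M] [ChartedSpace E M] [IsManifold 𝓘(ℝ, E) 1 M]
  {F : Type*} [NormedAddCommGroup F] [InnerProductSpace ℝ F] [FiniteDimensional ℝ F]

/-- The pull-back of a form of degree `u + 1`. -/
theorem vlemma {e : M → F} (he : ContMDiff 𝓘(ℝ, E) 𝓘(ℝ, F) 1 e)
    (hinj : ∀ x, Function.Injective (dm E e x))
    {f : M ≃ₜ M} {Es Eu : M → Submodule ℝ E} {C a b Ls Lu : ℝ}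
    (h : EAnosov e f Es Eu C a b Ls Lu) {u s : ℕ} (hu : ∀ x, Module.finrank ℝ (Eu x) = u)
    (hs : ∀ x, Module.finrank ℝ (Es x) = s)
    {w : M → E [⋀^Fin u]→L[ℝ] ℝ} (hw : C0Form w)
    (hnz : ∀ z, ∀ v : Fin u → E, (∀ j, v j ∈ Eu z) → LinearIndependent ℝ v → w z v ≠ 0)
    {η : M → E [⋀^Fin (u + 1)]→L[ℝ] ℝ} (hη : C0Form η) :
    ∃ K > 0, ∀ (n : ℕ) (x : M) (T : ℝ), 0 ≤ T →
      (∀ v : Fin u → E, (∀ j, v j ∈ Eu x) → ∀ ξ ∈ Es x,
        |w (f^[n] x) (fun i => dg E (f^[n]) x (v i))| *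
          ‖dm E e (f^[n] x) (dg E (f^[n]) x ξ)‖ ≤ T * |w x v| * ‖dm E e x ξ‖) →
      ∀ v : Fin (u + 1) → E, |η (f^[n] x) (fun i => dg E (f^[n]) x (v i))| ≤
        K * T * ∏ j, ‖dm E e x (v j)‖ := by
  obtain ⟨c₀, hc₀, hlb⟩ := form_lb_orth he hinj h hw hnz
  obtain ⟨B, hB, hub⟩ := form_ub he hinj hw
  obtain ⟨B', hB', hub'⟩ := form_ub he hinj hη
  obtain ⟨K₀, hK₀, hang⟩ := h.angle he hinj
  have hC := h.C_pos
  have hC0 : 0 < C := by linarith
  have ha0 := h.a_pos
  have ha1 := h.a_lt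
  have hb0 := h.b_pos
  have hb1 := h.b_lt
  set κ₁ := B' * (C ^ s * C ^ u) * (B / c₀) with hκ₁
  refine ⟨((s + u : ℕ) : ℝ) ^ (u + 1) * K₀ ^ (u + 1) * κ₁ + 1, by positivity,
    fun n x T hT hTx v => ?_⟩
  set L : E →L[ℝ] E := dg E (f^[n]) x with hL
  set y := f^[n] x with hy
  obtain ⟨c, hc, hco, hcp⟩ := svd_frame (dm E e x) (hinj x) ((dm E e y).comp L) (Eu x) (hu x)
  obtain ⟨d, hd, hdo⟩ := exists_frame (dm E e x) (hinj x) (Es x) (hs x)
  set g : Fin s ⊕ Fin u → ℝ := Sum.elim (fun _ => C) (fun l => C * ‖dm E e y (L (c l))‖) with hg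
  set bb : Fin s ⊕ Fin u → E := Sum.elim d c with hbb
  -- the unstable vectors are expanded
  have hexp : ∀ l, 1 ≤ C * ‖dm E e y (L (c l))‖ := by
    intro l
    have h1 := h.hU' n y (L (c l)) (h.mapU n x (c l) (hc l))
    have h2 : f.symm^[n] y = x := iter_left f n x
    have h3 : dg E (f.symm^[n]) y (L (c l)) = c l :=
      dg_inv (f^[n]) (f.symm^[n]) (iter_smooth f h.smooth n) (iter_smooth f.symm h.smooth' n)
        (iter_left f n) x (c l)
    rw [h2, h3, hco.1 l] at h1
    have h4 : b ^ n ≤ 1 := pow_le_one₀ hb0.le hb1.le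
    calc (1 : ℝ) ≤ C * b ^ n * ‖dm E e y (L (c l))‖ := h1
      _ ≤ C * 1 * ‖dm E e y (L (c l))‖ := by
          apply mul_le_mul_of_nonneg_right _ (norm_nonneg _)
          exact mul_le_mul_of_nonneg_left h4 hC0.le
      _ = _ := by ring
  have hst : ∀ k, ‖dm E e y (L (d k))‖ ≤ C := by
    intro k
    have h1 := h.hS n x (d k) (hd k)
    rw [hdo.1 k, mul_one] at h1
    have h4 : a ^ n ≤ 1 := pow_le_one₀ ha0.le ha1.le
    refine h1.trans ?_
    have := mul_le_mul_of_nonneg_left h4 hC0.le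
    linarith
  have hg1 : ∀ i, 1 ≤ g i := by
    rintro (k | l)
    · exact hC
    · exact hexp l
  have hgN : ∀ i, ‖dm E e y (L (bb i))‖ ≤ g i := by
    rintro (k | l)
    · exact hst k
    · show ‖dm E e y (L (c l))‖ ≤ C * ‖dm E e y (L (c l))‖
      have := mul_le_mul_of_nonneg_right hC (norm_nonneg (dm E e y (L (c l))))
      linarith
  -- the volume of the image frame
  set V := ∏ l, ‖dm E e y (L (c l))‖ with hV
  have hV0 : 0 ≤ V := Finset.prod_nonneg fun _ _ => norm_nonneg _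
  have hVw : c₀ * V ≤ |w y (fun i => L (c i))| :=
    hlb y (fun i => L (c i)) (fun j => h.mapU n x (c j) (hc j)) (fun i j hij => hcp i j hij)
  have hwc : |w x c| ≤ B := by
    have h1 := hub x c
    have h2 : ∏ j, ‖dm E e x (c j)‖ = 1 := Finset.prod_eq_one fun j _ => hco.1 j
    rwa [h2, mul_one] at h1
  have hVd : ∀ k, V * ‖dm E e y (L (d k))‖ ≤ B / c₀ * T := by
    intro k
    have h1 := hTx c hc (d k) (hd k)
    rw [hdo.1 k, mul_one] at h1
    have h2 : c₀ * (V * ‖dm E e y (L (d k))‖) ≤ B * T := by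
      calc c₀ * (V * ‖dm E e y (L (d k))‖) = (c₀ * V) * ‖dm E e y (L (d k))‖ := by ring
        _ ≤ |w y (fun i => L (c i))| * ‖dm E e y (L (d k))‖ :=
            mul_le_mul_of_nonneg_right hVw (norm_nonneg _)
        _ ≤ T * |w x c| := h1
        _ ≤ T * B := mul_le_mul_of_nonneg_left hwc hT
        _ = _ := by ring
    rw [div_mul_eq_mul_div, le_div_iff₀ hc₀]
    linarith
  have hprodg : ∏ i, g i = C ^ s * (C ^ u * V) := by
    rw [Fintype.prod_sum_type]
    simp only [hg, Sum.elim_inl, Sum.elim_inr]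
    rw [Finset.prod_const, Finset.card_univ, Fintype.card_fin, Finset.prod_mul_distrib,
      Finset.prod_const, Finset.card_univ, Fintype.card_fin]
  -- values on the frame
  have hval : ∀ r : Fin (u + 1) → Fin s ⊕ Fin u, Function.Injective r →
      |(η y).compContinuousLinearMap L (fun j => bb (r j))| ≤ κ₁ * T := by
    intro r hr
    obtain ⟨j₀, k, hk⟩ : ∃ (j₀ : Fin (u + 1)) (k : Fin s), r j₀ = Sum.inl k := by
      by_contra hcon
      push Not at hcon
      have h1 : ∀ j, ∃ l : Fin u, r j = Sum.inr l := by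
        intro j
        rcases hj : r j with k | l
        · exact absurd hj (hcon j k)
        · exact ⟨l, rfl⟩
      choose l hl using h1
      have h2 : Function.Injective l := by
        intro i j hij
        apply hr
        rw [hl i, hl j, hij]
      have h3 := Fintype.card_le_of_injective l h2
      rw [Fintype.card_fin, Fintype.card_fin] at h3
      omega
    have h1 : |(η y).compContinuousLinearMap L (fun j => bb (r j))| ≤
        B' * ∏ j, ‖dm E e y (L (bb (r j)))‖ := hub' y (fun j => L (bb (r j)))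
    have h2 : ∏ j, ‖dm E e y (L (bb (r j)))‖ = ‖dm E e y (L (bb (r j₀)))‖ *
        ∏ j : Fin u, ‖dm E e y (L (bb (r (j₀.succAbove j))))‖ :=
      Fin.prod_univ_succAbove (fun j => ‖dm E e y (L (bb (r j)))‖) j₀
    have h3 : ∏ j : Fin u, ‖dm E e y (L (bb (r (j₀.succAbove j))))‖ ≤
        ∏ j : Fin u, g (r (j₀.succAbove j)) :=
      Finset.prod_le_prod (fun _ _ => norm_nonneg _) fun j _ => hgN _
    have h4 : ∏ j : Fin u, g (r (j₀.succAbove j)) ≤ ∏ i, g i := by
      classical
      have hinj' : Function.Injective (fun j : Fin u => r (j₀.succAbove j)) :=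
        hr.comp Fin.succAbove_right_injective
      rw [← Finset.prod_image (f := g) (s := Finset.univ) (g := fun j : Fin u => r (j₀.succAbove j))
        (fun i _ j _ hij => hinj' hij)]
      exact Finset.prod_le_prod_of_subset_of_one_le (Finset.subset_univ _)
        (fun i _ => zero_le_one.trans (hg1 i)) (fun i _ _ => hg1 i)
    have h5 : bb (r j₀) = d k := by rw [hk]; rfl
    rw [h5] at h2
    calc |(η y).compContinuousLinearMap L (fun j => bb (r j))| ≤
        B' * ∏ j, ‖dm E e y (L (bb (r j)))‖ := h1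
      _ ≤ B' * (‖dm E e y (L (d k))‖ * (C ^ s * (C ^ u * V))) := by
          rw [h2]
          apply mul_le_mul_of_nonneg_left _ hB'.le
          apply mul_le_mul_of_nonneg_left _ (norm_nonneg _)
          exact (h3.trans h4).trans (le_of_eq hprodg)
      _ = B' * (C ^ s * C ^ u) * (V * ‖dm E e y (L (d k))‖) := by ring
      _ ≤ B' * (C ^ s * C ^ u) * (B / c₀ * T) :=
          mul_le_mul_of_nonneg_left (hVd k) (by positivity)
      _ = _ := by rw [hκ₁]; ring
  have hκ0 : 0 ≤ κ₁ * T := by positivity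
  have hcoord : ∀ j, ∃ α : Fin s ⊕ Fin u → ℝ, (∀ i, |α i| ≤ K₀ * ‖dm E e x (v j)‖) ∧
      v j = ∑ i, α i • bb i := by
    intro j
    obtain ⟨q, hq, p, hp, hqp⟩ : ∃ q ∈ Es x, ∃ p ∈ Eu x, q + p = v j := by
      have h1 : v j ∈ Es x ⊔ Eu x := by
        rw [(h.compl x).sup_eq_top]
        exact Submodule.mem_top
      exact Submodule.mem_sup.mp h1
    obtain ⟨h1, h2⟩ := hang x q hq p hp
    rw [hqp] at h1 h2
    refine ⟨Sum.elim (fun k => inner ℝ (dm E e x (d k)) (dm E e x q))
      (fun l => inner ℝ (dm E e x (c l)) (dm E e x p)), ?_, ?_⟩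
    · rintro (k | l)
      · show |inner ℝ (dm E e x (d k)) (dm E e x q)| ≤ _
        refine (abs_real_inner_le_norm _ _).trans ?_
        rw [hdo.1 k, one_mul]
        exact h1
      · show |inner ℝ (dm E e x (c l)) (dm E e x p)| ≤ _
        refine (abs_real_inner_le_norm _ _).trans ?_
        rw [hco.1 l, one_mul]
        exact h2
    · rw [Fintype.sum_sum_type]
      simp only [hbb, Sum.elim_inl, Sum.elim_inr]
      rw [← frame_expand (dm E e x) (Es x) (hs x) d hd hdo q hq,
        ← frame_expand (dm E e x) (Eu x) (hu x) c hc hco p hp, hqp]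
  have hfin := alt_bound ((η y).compContinuousLinearMap L) bb hval hκ0 v
    (fun j => ‖dm E e x (v j)‖) (fun j => norm_nonneg _) (by linarith) hcoord
  rw [Fintype.card_sum, Fintype.card_fin, Fintype.card_fin] at hfin
  have hP : 0 ≤ ∏ j, ‖dm E e x (v j)‖ := Finset.prod_nonneg fun _ _ => norm_nonneg _
  calc |η y (fun i => L (v i))| ≤ ((s + u : ℕ) : ℝ) ^ (u + 1) * K₀ ^ (u + 1) * (κ₁ * T) *
        ∏ j, ‖dm E e x (v j)‖ := hfin
    _ = (((s + u : ℕ) : ℝ) ^ (u + 1) * K₀ ^ (u + 1) * κ₁) * T * ∏ j, ‖dm E e x (v j)‖ := by ring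
    _ ≤ _ := by
        apply mul_le_mul_of_nonneg_right _ hP
        apply mul_le_mul_of_nonneg_right _ hT
        linarith

end Pool.Agent.H74.RS
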