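import Pool.Agent.H74.RS.CR
import Pool.Agent.H74.RS.VL
import Pool.Agent.H74.RS.Main

set_option autoImplicit false
set_option linter.unusedSectionVars false

/-!
Closed calibrating forms from pinched Jacobians.
-/

open scoped Manifold ContDiff Topology Polynomial
open Set Filter MeasureTheory Polynomial

namespace Pool.Agent.H74.RS

open Pool.Agent.H721R2

variable {E : Type*} [NormedAddCommGroup E] [NormedSpace ℝ E] [FiniteDimensional ℝ E]
  {M : Type*} [MetricSpace M] [CompactSpace M] [ChartedSpace E M]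
  [IsManifold 𝓘(ℝ, E) 1 M] [IsManifold 𝓘(ℝ, E) 2 M]
  {F : Type*} [NormedAddCommGroup F] [InnerProductSpace ℝ F] [FiniteDimensional ℝ F]
  {e : M → F} {f : M ≃ₜ M} {Es Eu : M → Submodule ℝ E} {C a b Ls Lu : ℝ} {u : ℕ}

/-- pinching of the Jacobians of the iterates -/
def Pinch (e : M → F) (f : M → M) (Es Eu : M → Submodule ℝ E) (w : M → E [⋀^Fin u]→L[ℝ] ℝ) : Prop :=
  ∀ κ > 0, ∃ (n : ℕ) (c : ℝ), 0 < c ∧
    (∀ (x : M) (v : Fin u → E), (∀ j, v j ∈ Eu x) →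
      c * |w x v| ≤ |w (f^[n] x) (fun i => dg E (f^[n]) x (v i))|) ∧
    ∀ (x : M) (v : Fin u → E), (∀ j, v j ∈ Eu x) → ∀ ξ ∈ Es x,
      |w (f^[n] x) (fun i => dg E (f^[n]) x (v i))| *
        ‖dm E e (f^[n] x) (dg E (f^[n]) x ξ)‖ ≤ κ * c * |w x v| * ‖dm E e x ξ‖

theorem pb_zero {k : ℕ} (G : M → M) : pb G (0 : M → E [⋀^Fin k]→L[ℝ] ℝ) = 0 := rfl

/-- two forms close to each other on orthonormal frames have the same sign -/
theorem same_sign {P : Submodule ℝ E} (hP : Module.finrank ℝ P = u) (α ζ : E [⋀^Fin u]→L[ℝ] ℝ)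
    (p : Fin u → E) (hp : ∀ j, p j ∈ P) (h : |α p - ζ p| < |α p|)
    (v : Fin u → E) (hv : ∀ j, v j ∈ P) (hα : α v ≠ 0) : 0 < ζ v * α v := by
  have h1 : 0 < ζ p * α p := by
    rcases le_total 0 (α p) with h0 | h0
    · rw [abs_of_nonneg h0] at h
      have h2 := (abs_lt.mp h).2
      have h3 : 0 < α p := lt_of_le_of_ne h0 (by
        intro h4; rw [← h4] at h; exact absurd h (not_lt.mpr (abs_nonneg _)))
      exact mul_pos (by linarith) h3
    · rw [abs_of_nonpos h0] at h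
      have h2 := (abs_lt.mp h).1
      have h3 : α p < 0 := lt_of_le_of_ne h0 (by
        intro h4; rw [h4, neg_zero] at h; exact absurd h (not_lt.mpr (abs_nonneg _)))
      exact mul_pos_of_neg_of_neg (by linarith) h3
  have h2 := ratio2 P (Module.finBasisOfFinrankEq ℝ P hP) ζ α v p hv hp
  have h3 : α p ≠ 0 := right_ne_zero_of_mul h1.ne'
  have h4 : (ζ v * α v) * (α p * α p) = (ζ p * α p) * (α v * α v) := by
    linear_combination (α v * α p) * h2
  have h5 : 0 < (ζ p * α p) * (α v * α v) := mul_pos h1 (mul_self_pos.mpr hα)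
  rw [← h4] at h5
  exact pos_of_mul_pos_left h5 (mul_self_nonneg _)

theorem pb_succ (hf : ContMDiff 𝓘(ℝ, E) 𝓘(ℝ, E) 1 f) {k : ℕ} (n : ℕ)
    (w : M → E [⋀^Fin k]→L[ℝ] ℝ) : pb f (pb (f^[n]) w) = pb (f^[n]) (pb f w) := by
  have h1 := T_pow (k := k) f hf (n + 1) w
  rw [pow_succ', Module.End.mul_apply, T_pow f hf n, T_apply] at h1
  have h2 := T_pow (k := k) f hf (n + 1) w
  rw [pow_succ, Module.End.mul_apply, T_pow f hf n, T_apply] at h2
  rw [h1, h2]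

/-- transfer of the sign condition -/
theorem sign_transfer (h : EAnosov e f Es Eu C a b Ls Lu) {s : ℝ}
    {w : M → E [⋀^Fin u]→L[ℝ] ℝ} {ζ : M → E [⋀^Fin u]→L[ℝ] ℝ}
    (hpos : ∀ x, ∀ v : Fin u → E, (∀ j, v j ∈ Eu x) → LinearIndependent ℝ v →
      0 < s * (w x v * pb f w x v))
    (hsame : ∀ x, ∀ v : Fin u → E, (∀ j, v j ∈ Eu x) → LinearIndependent ℝ v →
      0 < ζ x v * w x v) (x : M) (v : Fin u → E) (hv : ∀ j, v j ∈ Eu x)
    (hl : LinearIndependent ℝ v) : 0 < s * (ζ x v * pb f ζ x v) := by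
  set v' : Fin u → E := fun i => dg E f x (v i) with hv'
  have hv'm : ∀ i, v' i ∈ Eu (f x) := fun i => h.mapU 1 x _ (hv i)
  have hinj : Function.Injective (dg E f x) := by
    intro y z hyz
    have h1 := fun v => dg_inv f f.symm h.smooth h.smooth' (fun x => f.symm_apply_apply x) x v
    rw [← h1 y, ← h1 z, hyz]
  have hv'l : LinearIndependent ℝ v' := by
    have := hl.map' (dg E f x).toLinearMap (LinearMap.ker_eq_bot.mpr hinj)
    exact this
  have h1 := hpos x v hv hl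
  have h2 := hsame x v hv hl
  have h3 := hsame (f x) v' hv'm hv'l
  have e1 : pb f w x v = w (f x) v' := rfl
  have e2 : pb f ζ x v = ζ (f x) v' := rfl
  rw [e1] at h1
  rw [e2]
  have h4 : 0 < (s * (w x v * w (f x) v')) * ((ζ x v * w x v) * (ζ (f x) v' * w (f x) v')) :=
    mul_pos h1 (mul_pos h2 h3)
  have h5 : (s * (w x v * w (f x) v')) * ((ζ x v * w x v) * (ζ (f x) v' * w (f x) v')) =
      (s * (ζ x v * ζ (f x) v')) * (w x v * w (f x) v') ^ 2 := by ring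
  rw [h5] at h4
  exact pos_of_mul_pos_left h4 (sq_nonneg _)

theorem ne_of_pos_sign {s : ℝ} {w w' : M → E [⋀^Fin u]→L[ℝ] ℝ}
    (hpos : ∀ x, ∀ v : Fin u → E, (∀ j, v j ∈ Eu x) → LinearIndependent ℝ v →
      0 < s * (w x v * w' x v)) :
    ∀ z, ∀ v : Fin u → E, (∀ j, v j ∈ Eu z) → LinearIndependent ℝ v → w z v ≠ 0 := by
  intro x v hv hl h0
  have := hpos x v hv hl
  rw [h0, zero_mul, mul_zero] at this
  exact lt_irrefl _ this

section main

variable [MeasurableSpace F] [BorelSpace F] {μ : Measure F} [μ.IsAddHaarMeasure] (D : SmD E μ e)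

include D in
/-- Existence of a closed calibrating form, for a differentiable volume form. -/
theorem exists_calib (he : ContMDiff 𝓘(ℝ, E) 𝓘(ℝ, F) 2 e)
    (hinj : ∀ x, Function.Injective (dm E e x)) (hiso : ∀ x y, dist x y = ‖e x - e y‖)
    (h : EAnosov e f Es Eu C a b Ls Lu) (hf2 : ContMDiff 𝓘(ℝ, E) 𝓘(ℝ, E) 2 f) {l : ℕ}
    (hu : ∀ x, Module.finrank ℝ (Eu x) = u) (hs : ∀ x, Module.finrank ℝ (Es x) = l)
    {w : M → E [⋀^Fin u]→L[ℝ] ℝ} {η : M → E [⋀^Fin (u + 1)]→L[ℝ] ℝ} (hw : C1Form w)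
    (hη : C1Form η) (hd : IsEx η w) (hd2 : IsEx 0 η) {s : ℝ}
    (hpos : ∀ x, ∀ v : Fin u → E, (∀ j, v j ∈ Eu x) → LinearIndependent ℝ v →
      0 < s * (w x v * pb f w x v))
    (hpin : Pinch e f Es Eu w) :
    ∃ ζ : M → E [⋀^Fin u]→L[ℝ] ℝ, Cl ζ ∧
      ∀ x, ∀ v : Fin u → E, (∀ j, v j ∈ Eu x) → LinearIndependent ℝ v →
        0 < s * (ζ x v * pb f ζ x v) := by
  have he1 : ContMDiff 𝓘(ℝ, E) 𝓘(ℝ, F) 1 e := he.of_le (by norm_num)
  have hnz := ne_of_pos_sign hpos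
  obtain ⟨C₁, hC₁, hcr⟩ := closed_range D he hinj hiso u
  obtain ⟨K, hK, hV⟩ := vlemma he1 hinj h hu hs (c1_c0 hw) hnz (c1_c0 hη)
  obtain ⟨c₁, hc₁, hlb⟩ := form_lb_orth he1 hinj h (c1_c0 hw) hnz
  obtain ⟨n, c, hc, hlow, hup⟩ := hpin (c₁ / (2 * (C₁ * K))) (by positivity)
  have hfn : ContMDiff 𝓘(ℝ, E) 𝓘(ℝ, E) 2 (f^[n]) := iter_smooth2' f hf2 n
  set κ := c₁ / (2 * (C₁ * K)) with hκ
  have hκ0 : 0 < κ := by positivity
  have hκ1 : C₁ * (K * (κ * c)) = c₁ / 2 * c := by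
    rw [hκ]; field_simp
  have hbd : Bd e (pb (f^[n]) η) (K * (κ * c)) := fun x v =>
    hV n x (κ * c) (by positivity) (hup x) v
  obtain ⟨ζ, hζ, hζb⟩ := hcr (pb (f^[n]) w) (pb (f^[n]) η) (K * (κ * c)) (pb_c1 hw _ hfn)
    (pb_c1 hη _ hfn) (hd.pb hw _ hfn) (by
      have := hd2.pb hη _ hfn
      rwa [pb_zero] at this) (by positivity) hbd
  rw [hκ1] at hζb
  refine ⟨ζ, hζ, ?_⟩
  -- the form `(fⁿ)^* w` satisfies the sign condition
  have hα : ∀ x, ∀ v : Fin u → E, (∀ j, v j ∈ Eu x) → LinearIndependent ℝ v →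
      0 < s * (pb (f^[n]) w x v * pb f (pb (f^[n]) w) x v) := by
    intro x v hv hl
    rw [pb_succ h.smooth]
    have hl' : LinearIndependent ℝ (fun i => dg E (f^[n]) x (v i)) := by
      have := hl.map' (dg E (f^[n]) x).toLinearMap
        (LinearMap.ker_eq_bot.mpr (dg_iter_inj h n x))
      exact this
    exact hpos (f^[n] x) (fun i => dg E (f^[n]) x (v i)) (fun i => h.mapU n x _ (hv i)) hl'
  have hαne := ne_of_pos_sign hα
  refine fun x v hv hl => sign_transfer h hα (fun x v hv hl => ?_) x v hv hl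
  obtain ⟨p, hp, hpo⟩ := exists_frame (dm E e x) (hinj x) (Eu x) (hu x)
  refine same_sign (hu x) (pb (f^[n]) w x) (ζ x) p hp ?_ v hv (hαne x v hv hl)
  have h1 := hζb x p
  have h2 : ∏ j, ‖dm E e x (p j)‖ = 1 := Finset.prod_eq_one fun j _ => hpo.1 j
  rw [h2, mul_one] at h1
  have h3 := hlb x p hp (fun i j hij => hpo.2 hij)
  rw [h2, mul_one] at h3
  have h4 : c * |w x p| ≤ |pb (f^[n]) w x p| := hlow x p hp
  have h5 : c * c₁ ≤ c * |w x p| := mul_le_mul_of_nonneg_left h3 hc.le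
  have h6 : 0 < c * c₁ := by positivity
  calc |pb (f^[n]) w x p - ζ x p| ≤ c₁ / 2 * c := h1
    _ < c * c₁ := by linarith
    _ ≤ |pb (f^[n]) w x p| := h5.trans h4

end main

end Pool.Agent.H74.RS
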