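import Pool.Agent.H74.RS.Err

set_option autoImplicit false
set_option linter.unusedSectionVars false

open scoped Manifold ContDiff Topology Polynomial
open Set Filter Polynomial

namespace Pool.Agent.H74.RS

open Pool.Agent.H721R2

section eval

variable {E : Type*} [NormedAddCommGroup E] [NormedSpace ℝ E] [FiniteDimensional ℝ E]

/-- alternating forms are recovered linearly from finitely many values -/
theorem exists_recover (E : Type*) [NormedAddCommGroup E] [NormedSpace ℝ E]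
    [FiniteDimensional ℝ E] (k : ℕ) : ∃ (R : ((Fin k → Fin (Module.finrank ℝ E)) → ℝ) →L[ℝ]
      (E [⋀^Fin k]→L[ℝ] ℝ)), ∀ w : E [⋀^Fin k]→L[ℝ] ℝ,
      R (fun I => w fun i => Module.finBasis ℝ E (I i)) = w := by
  let ev : (E [⋀^Fin k]→L[ℝ] ℝ) →ₗ[ℝ] ((Fin k → Fin (Module.finrank ℝ E)) → ℝ) :=
    { toFun := fun w I => w fun i => Module.finBasis ℝ E (I i)
      map_add' := fun _ _ => rfl
      map_smul' := fun _ _ => rfl }
  have hinj : Function.Injective ev := by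
    intro w w' h
    have h1 : w.toAlternatingMap = w'.toAlternatingMap := by
      apply Module.Basis.ext_alternating (Module.finBasis ℝ E)
      intro I _
      exact congrFun h I
    ext v
    exact congrArg (fun g : E [⋀^Fin k]→ₗ[ℝ] ℝ => g v) h1
  obtain ⟨L, hL⟩ := LinearMap.exists_leftInverse_of_injective ev (LinearMap.ker_eq_bot.mpr hinj)
  refine ⟨LinearMap.toContinuousLinearMap L, fun w => ?_⟩
  exact LinearMap.congr_fun hL w

theorem contDiffOn_of_eval {k : ℕ} {n : WithTop ℕ∞} {s : Set E} {h : E → E [⋀^Fin k]→L[ℝ] ℝ}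
    (hh : ∀ v, ContDiffOn ℝ n (fun y => h y v) s) : ContDiffOn ℝ n h s := by
  obtain ⟨R, hR⟩ := exists_recover E k
  have h1 : h = fun y => R (fun I => h y fun i => Module.finBasis ℝ E (I i)) := by
    funext y; exact (hR (h y)).symm
  rw [h1]
  apply R.contDiff.comp_contDiffOn
  rw [contDiffOn_pi]
  intro I
  exact hh _

theorem continuousOn_of_eval {k : ℕ} {s : Set E} {h : E → E [⋀^Fin k]→L[ℝ] ℝ}
    (hh : ∀ v, ContinuousOn (fun y => h y v) s) : ContinuousOn h s := by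
  have h1 : ContDiffOn ℝ 0 h s := contDiffOn_of_eval fun v => contDiffOn_zero.mpr (hh v)
  exact contDiffOn_zero.mp h1

end eval

variable {E : Type*} [NormedAddCommGroup E] [NormedSpace ℝ E]
  {M : Type*} [TopologicalSpace M] [ChartedSpace E M]

/-- pull-back of a form under a self-map -/
noncomputable def pb {k : ℕ} (G : M → M) (w : M → E [⋀^Fin k]→L[ℝ] ℝ) :
    M → E [⋀^Fin k]→L[ℝ] ℝ := fun x => (w (G x)).compContinuousLinearMap (dg E G x)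

theorem pb_apply {k : ℕ} (G : M → M) (w : M → E [⋀^Fin k]→L[ℝ] ℝ) (x : M) (v : Fin k → E) :
    pb G w x v = w (G x) (fun i => dg E G x (v i)) := rfl

theorem pl_pb' [IsManifold 𝓘(ℝ, E) 1 M] {k : ℕ} (f G : M → M)
    (hf : ContMDiff 𝓘(ℝ, E) 𝓘(ℝ, E) 1 f) (hG : ContMDiff 𝓘(ℝ, E) 𝓘(ℝ, E) 1 G)
    (w : M → E [⋀^Fin k]→L[ℝ] ℝ) (x₀ : M) {y : E} (hy : y ∈ tg E x₀) :
    pl ((f ∘ G) ∘ ic E x₀) w y = pl (G ∘ ic E x₀) (pb f w) y := by
  ext v
  rw [pl_apply, pl_apply, pb_apply]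
  have e2 : (fun i => dc ((f ∘ G) ∘ ic E x₀) y (v i)) =
      fun i => dg E f ((G ∘ ic E x₀) y) (dc (G ∘ ic E x₀) y (v i)) := by
    funext i
    rw [dc_comp (f ∘ G) (hf.comp hG) x₀ hy (v i), dg_comp G f hG hf, dc_comp G hG x₀ hy (v i)]
    rfl
  rw [e2]
  rfl

theorem pl_pb [IsManifold 𝓘(ℝ, E) 1 M] {k : ℕ} (f : M → M)
    (hf : ContMDiff 𝓘(ℝ, E) 𝓘(ℝ, E) 1 f)
    (w : M → E [⋀^Fin k]→L[ℝ] ℝ) (x₀ : M) {y : E} (hy : y ∈ tg E x₀) :
    pl (ic E x₀) (pb f w) y = pl (f ∘ ic E x₀) w y :=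
  (pl_pb' f id hf contMDiff_id w x₀ hy).symm

/-- the pull-back as a linear operator -/
noncomputable def T (k : ℕ) (f : M → M) : Module.End ℝ (M → E [⋀^Fin k]→L[ℝ] ℝ) where
  toFun := pb f
  map_add' := fun _ _ => rfl
  map_smul' := fun _ _ => rfl

theorem T_apply {k : ℕ} (f : M → M) (w : M → E [⋀^Fin k]→L[ℝ] ℝ) : T k f w = pb f w := rfl

theorem T_pow [IsManifold 𝓘(ℝ, E) 1 M] {k : ℕ} (f : M → M) (hf : ContMDiff 𝓘(ℝ, E) 𝓘(ℝ, E) 1 f)
    (n : ℕ) (w : M → E [⋀^Fin k]→L[ℝ] ℝ) : (T k f ^ n) w = pb (f^[n]) w := by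
  induction n generalizing w with
  | zero =>
    funext x
    ext v
    rw [pow_zero, pb_apply]
    have h1 : ∀ i, dg E (f^[0]) x (v i) = v i := by
      intro i
      show mfderiv 𝓘(ℝ, E) 𝓘(ℝ, E) id x (v i) = v i
      rw [mfderiv_id]; rfl
    simp only [h1]
    rfl
  | succ n ih =>
    rw [pow_succ, Module.End.mul_apply, ih, T_apply]
    funext x
    ext v
    rw [pb_apply, pb_apply, pb_apply]
    have e2 : (fun i => dg E (f^[n + 1]) x (v i)) =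
        fun i => dg E f (f^[n] x) (dg E (f^[n]) x (v i)) := by
      funext i
      rw [Function.iterate_succ', dg_comp _ _ (iter_smooth f hf n) hf]
    rw [e2, Function.iterate_succ_apply']

/-- `w = dβ`, in charts -/
def IsEx {k : ℕ} (w : M → E [⋀^Fin (k + 1)]→L[ℝ] ℝ) (β : M → E [⋀^Fin k]→L[ℝ] ℝ) : Prop :=
  ∀ (x₀ : M), ∀ y ∈ tg E x₀, pl (ic E x₀) w y = extDeriv (pl (ic E x₀) β) y

theorem pl_add {k : ℕ} (g : E → M) (w w' : M → E [⋀^Fin k]→L[ℝ] ℝ) (y : E) :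
    pl g (w + w') y = pl g w y + pl g w' y := rfl

theorem pl_smul {k : ℕ} (g : E → M) (c : ℝ) (w : M → E [⋀^Fin k]→L[ℝ] ℝ) (y : E) :
    pl g (c • w) y = c • pl g w y := rfl

theorem pl_zero {k : ℕ} (g : E → M) (y : E) :
    pl g (0 : M → E [⋀^Fin k]→L[ℝ] ℝ) y = 0 := rfl

theorem pl_sum {k : ℕ} {ι : Type*} (s : Finset ι) (g : E → M) (w : ι → M → E [⋀^Fin k]→L[ℝ] ℝ)
    (y : E) : pl g (∑ i ∈ s, w i) y = ∑ i ∈ s, pl g (w i) y := by
  classical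
  induction s using Finset.induction_on with
  | empty => simp [pl_zero]
  | insert i s hi ih => rw [Finset.sum_insert hi, Finset.sum_insert hi, pl_add, ih]

theorem c1_diff {k : ℕ} {β : M → E [⋀^Fin k]→L[ℝ] ℝ} (h : C1Form β) (x₀ : M) {y : E}
    (hy : y ∈ tg E x₀) : DifferentiableAt ℝ (pl (ic E x₀) β) y :=
  ((h x₀).contDiffAt ((isOpen_extChartAt_target x₀).mem_nhds hy)).differentiableAt (by norm_num)

theorem c0_add {k : ℕ} {w w' : M → E [⋀^Fin k]→L[ℝ] ℝ} (h : C0Form w) (h' : C0Form w') :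
    C0Form (w + w') := fun x₀ => (h x₀).add (h' x₀)

theorem c0_smul {k : ℕ} (c : ℝ) {w : M → E [⋀^Fin k]→L[ℝ] ℝ} (h : C0Form w) :
    C0Form (c • w) := fun x₀ => (h x₀).const_smul c

theorem c1_add {k : ℕ} {w w' : M → E [⋀^Fin k]→L[ℝ] ℝ} (h : C1Form w) (h' : C1Form w') :
    C1Form (w + w') := fun x₀ => (h x₀).add (h' x₀)

theorem c1_smul {k : ℕ} (c : ℝ) {w : M → E [⋀^Fin k]→L[ℝ] ℝ} (h : C1Form w) :
    C1Form (c • w) := fun x₀ => (h x₀).const_smul c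

theorem c0_zero {k : ℕ} : C0Form (0 : M → E [⋀^Fin k]→L[ℝ] ℝ) := fun _ =>
  continuousOn_const (c := (0 : E [⋀^Fin k]→L[ℝ] ℝ))

theorem c1_zero {k : ℕ} : C1Form (0 : M → E [⋀^Fin k]→L[ℝ] ℝ) := fun _ =>
  contDiffOn_const (c := (0 : E [⋀^Fin k]→L[ℝ] ℝ))

theorem c1_c0 {k : ℕ} {b : M → E [⋀^Fin k]→L[ℝ] ℝ} (h : C1Form b) : C0Form b :=
  fun x₀ => (h x₀).continuousOn

theorem c0_sum {k : ℕ} {ι : Type*} (s : Finset ι) {w : ι → M → E [⋀^Fin k]→L[ℝ] ℝ}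
    (h : ∀ i ∈ s, C0Form (w i)) : C0Form (∑ i ∈ s, w i) := by
  classical
  induction s using Finset.induction_on with
  | empty => rw [Finset.sum_empty]; exact c0_zero
  | insert i s hi ih =>
    rw [Finset.sum_insert hi]
    exact c0_add (h i (Finset.mem_insert_self _ _)) (ih fun j hj => h j (Finset.mem_insert_of_mem hj))

theorem c1_sum {k : ℕ} {ι : Type*} (s : Finset ι) {w : ι → M → E [⋀^Fin k]→L[ℝ] ℝ}
    (h : ∀ i ∈ s, C1Form (w i)) : C1Form (∑ i ∈ s, w i) := by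
  classical
  induction s using Finset.induction_on with
  | empty => rw [Finset.sum_empty]; exact c1_zero
  | insert i s hi ih =>
    rw [Finset.sum_insert hi]
    exact c1_add (h i (Finset.mem_insert_self _ _)) (ih fun j hj => h j (Finset.mem_insert_of_mem hj))

theorem IsEx.add {k : ℕ} {w w' : M → E [⋀^Fin (k + 1)]→L[ℝ] ℝ} {β β' : M → E [⋀^Fin k]→L[ℝ] ℝ}
    (h : IsEx w β) (h' : IsEx w' β') (hβ : C1Form β) (hβ' : C1Form β') :
    IsEx (w + w') (β + β') := by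
  intro x₀ y hy
  rw [pl_add, h x₀ y hy, h' x₀ y hy]
  exact (extDeriv_add (c1_diff hβ x₀ hy) (c1_diff hβ' x₀ hy)).symm

theorem IsEx.smul {k : ℕ} (c : ℝ) {w : M → E [⋀^Fin (k + 1)]→L[ℝ] ℝ}
    {β : M → E [⋀^Fin k]→L[ℝ] ℝ} (h : IsEx w β) : IsEx (c • w) (c • β) := by
  intro x₀ y hy
  rw [pl_smul, h x₀ y hy]
  exact (extDeriv_smul c (pl (ic E x₀) β)).symm

theorem IsEx.zero {k : ℕ} :
    IsEx (0 : M → E [⋀^Fin (k + 1)]→L[ℝ] ℝ) (0 : M → E [⋀^Fin k]→L[ℝ] ℝ) := by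
  have := IsEx.smul (M := M) (k := k) (0 : ℝ) (w := 0) (β := 0) (fun x₀ y hy => by
    have h0 := extDeriv_smul (x := y) (0 : ℝ) (pl (ic E x₀) (0 : M → E [⋀^Fin k]→L[ℝ] ℝ))
    have e0 : (0 : ℝ) • (pl (ic E x₀) (0 : M → E [⋀^Fin k]→L[ℝ] ℝ)) =
        pl (ic E x₀) (0 : M → E [⋀^Fin k]→L[ℝ] ℝ) := by
      funext y; exact zero_smul ℝ _
    rw [e0, zero_smul] at h0
    rw [h0]; rfl)
  rwa [zero_smul, zero_smul] at this

section c2

variable [IsManifold 𝓘(ℝ, E) 1 M] [IsManifold 𝓘(ℝ, E) 2 M]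

/-- pull-back of an exact form -/
theorem IsEx.pull {k : ℕ} {w : M → E [⋀^Fin (k + 1)]→L[ℝ] ℝ} {β : M → E [⋀^Fin k]→L[ℝ] ℝ}
    (h : IsEx w β) (hβ : C1Form β) (G : M → M) (hG : ContMDiff 𝓘(ℝ, E) 𝓘(ℝ, E) 2 G) (x₀ : M)
    {y : E} (hy : y ∈ tg E x₀) : pl (G ∘ ic E x₀) w y = extDeriv (pl (G ∘ ic E x₀) β) y := by
  have hG1 : ContMDiff 𝓘(ℝ, E) 𝓘(ℝ, E) 1 G := hG.of_le (by norm_num)
  have hs := mem_extChartAt_source (I := 𝓘(ℝ, E)) (G (ic E x₀ y))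
  rw [pl_extDeriv G hG hβ x₀ hy, pl_tr G hG1 x₀ _ w hy hs, h _ _ (tr_mem G x₀ _ hs)]

theorem pl_eval_cont {k : ℕ} {w : M → E [⋀^Fin k]→L[ℝ] ℝ} (hw : C0Form w) (G : M → M)
    (hG : ContMDiff 𝓘(ℝ, E) 𝓘(ℝ, E) 1 G) (x₀ : M) {y : E} (hy : y ∈ tg E x₀) (v : Fin k → E) :
    ContinuousAt (fun y' => pl (G ∘ ic E x₀) w y' v) y := by
  set x₁ := G (ic E x₀ y) with hx₁
  have h1 := tr_contDiffAt 1 G hG x₀ x₁ hy (mem_extChartAt_source _)
  have h2 : ContinuousAt (pl (ic E x₁) w) (tr G x₀ x₁ y) :=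
    (hw x₁).continuousAt ((isOpen_extChartAt_target x₁).mem_nhds
      (tr_mem G x₀ _ (mem_extChartAt_source _)))
  have h3 : ContinuousAt (fun y' => (pl (ic E x₁) w (tr G x₀ x₁ y'),
      fun i => fderiv ℝ (tr G x₀ x₁ : E → E) y' (v i))) y := by
    apply ContinuousAt.prodMk
    · exact ContinuousAt.comp (f := (tr G x₀ x₁ : E → E)) h2 h1.continuousAt
    · rw [continuousAt_pi]
      intro i
      have h4 : ContinuousAt (fderiv ℝ (tr G x₀ x₁ : E → E)) y :=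
        (h1.fderiv_right (m := 0) (by norm_num)).continuousAt
      exact h4.clm_apply continuousAt_const
  have h5 : ContinuousAt (fun y' => ((pl (ic E x₁) w (tr G x₀ x₁ y')).compContinuousLinearMap
      (fderiv ℝ (tr G x₀ x₁ : E → E) y')) v) y :=
    ContinuousAt.comp (f := fun y' => (pl (ic E x₁) w (tr G x₀ x₁ y'),
      fun i => fderiv ℝ (tr G x₀ x₁ : E → E) y' (v i)))
      ((eval_contDiff (E := E) k 0).continuous.continuousAt) h3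
  refine h5.congr ?_
  filter_upwards [eventually_source G hG.continuous x₀ x₁ hy (mem_extChartAt_source _)]
    with y' hy'
  rw [pl_tr G hG x₀ x₁ w hy'.1 hy'.2]

theorem pb_c0 [FiniteDimensional ℝ E] {k : ℕ} {w : M → E [⋀^Fin k]→L[ℝ] ℝ} (hw : C0Form w)
    (G : M → M) (hG : ContMDiff 𝓘(ℝ, E) 𝓘(ℝ, E) 1 G) : C0Form (pb G w) := by
  intro x₀
  refine continuousOn_of_eval fun v => ?_
  intro y hy
  have h1 : ContinuousAt (fun y' => pl (G ∘ ic E x₀) w y' v) y :=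
    pl_eval_cont hw G hG x₀ hy v
  have h2 : (fun y' => pl (ic E x₀) (pb G w) y' v) =ᶠ[𝓝 y] fun y' => pl (G ∘ ic E x₀) w y' v := by
    filter_upwards [(isOpen_extChartAt_target x₀).mem_nhds hy] with y' hy'
    rw [pl_pb G hG w x₀ hy']
  exact (h1.congr h2.symm).continuousWithinAt

theorem pb_c1 [FiniteDimensional ℝ E] {k : ℕ} {b : M → E [⋀^Fin k]→L[ℝ] ℝ} (hb : C1Form b)
    (G : M → M) (hG : ContMDiff 𝓘(ℝ, E) 𝓘(ℝ, E) 2 G) : C1Form (pb G b) := by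
  have hG1 : ContMDiff 𝓘(ℝ, E) 𝓘(ℝ, E) 1 G := hG.of_le (by norm_num)
  intro x₀
  apply contDiffOn_of_eval
  intro v y hy
  apply ContDiffAt.contDiffWithinAt
  refine (pl_eval_contDiffAt G hG hb x₀ hy v).congr_of_eventuallyEq ?_
  filter_upwards [(isOpen_extChartAt_target x₀).mem_nhds hy] with y' hy'
  rw [pl_pb G hG1 b x₀ hy']

theorem IsEx.pb {k : ℕ} {w : M → E [⋀^Fin (k + 1)]→L[ℝ] ℝ} {β : M → E [⋀^Fin k]→L[ℝ] ℝ}
    (h : IsEx w β) (hβ : C1Form β) (G : M → M) (hG : ContMDiff 𝓘(ℝ, E) 𝓘(ℝ, E) 2 G) :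
    IsEx (pb G w) (pb G β) := by
  have hG1 : ContMDiff 𝓘(ℝ, E) 𝓘(ℝ, E) 1 G := hG.of_le (by norm_num)
  intro x₀ y hy
  have h1 : pl (ic E x₀) (RS.pb G β) =ᶠ[𝓝 y] pl (G ∘ ic E x₀) β := by
    filter_upwards [(isOpen_extChartAt_target x₀).mem_nhds hy] with y' hy'
    rw [pl_pb G hG1 β x₀ hy']
  rw [h1.extDeriv_eq, pl_pb G hG1 w x₀ hy]
  exact h.pull hβ G hG x₀ hy

theorem iter_smooth2' (f : M → M) (hf : ContMDiff 𝓘(ℝ, E) 𝓘(ℝ, E) 2 f) (n : ℕ) :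
    ContMDiff 𝓘(ℝ, E) 𝓘(ℝ, E) 2 (f^[n]) := by
  induction n with
  | zero => exact contMDiff_id
  | succ n ih => rw [Function.iterate_succ']; exact hf.comp ih

/-- polynomials in the pull-back operator -/
theorem aeval_T {k : ℕ} (f : M → M) (hf : ContMDiff 𝓘(ℝ, E) 𝓘(ℝ, E) 1 f) (p : ℝ[X])
    (w : M → E [⋀^Fin k]→L[ℝ] ℝ) :
    (aeval (T k f) p) w = ∑ j ∈ Finset.range (p.natDegree + 1), p.coeff j • pb (f^[j]) w := by
  rw [aeval_eq_sum_range]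
  rw [LinearMap.sum_apply]
  apply Finset.sum_congr rfl
  intro j _
  rw [LinearMap.smul_apply, T_pow f hf]

theorem aeval_c0 [FiniteDimensional ℝ E] {k : ℕ} (f : M → M) (hf : ContMDiff 𝓘(ℝ, E) 𝓘(ℝ, E) 1 f)
    (p : ℝ[X]) {w : M → E [⋀^Fin k]→L[ℝ] ℝ} (hw : C0Form w) : C0Form ((aeval (T k f) p) w) := by
  rw [aeval_T f hf]
  exact c0_sum _ fun j _ => c0_smul _ (pb_c0 hw _ (iter_smooth f hf j))

theorem aeval_c1 [FiniteDimensional ℝ E] {k : ℕ} (f : M → M) (hf : ContMDiff 𝓘(ℝ, E) 𝓘(ℝ, E) 2 f)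
    (p : ℝ[X]) {w : M → E [⋀^Fin k]→L[ℝ] ℝ} (hw : C1Form w) : C1Form ((aeval (T k f) p) w) := by
  rw [aeval_T f (hf.of_le (by norm_num))]
  exact c1_sum _ fun j _ => c1_smul _ (pb_c1 hw _ (iter_smooth2' f hf j))

theorem isEx_sum {k : ℕ} {ι : Type*} (s : Finset ι) {w : ι → M → E [⋀^Fin (k + 1)]→L[ℝ] ℝ}
    {β : ι → M → E [⋀^Fin k]→L[ℝ] ℝ} (h : ∀ i ∈ s, IsEx (w i) (β i))
    (hβ : ∀ i ∈ s, C1Form (β i)) : IsEx (∑ i ∈ s, w i) (∑ i ∈ s, β i) := by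
  classical
  induction s using Finset.induction_on with
  | empty => rw [Finset.sum_empty, Finset.sum_empty]; exact IsEx.zero
  | insert i s hi ih =>
    rw [Finset.sum_insert hi, Finset.sum_insert hi]
    exact (h i (Finset.mem_insert_self _ _)).add (ih (fun j hj => h j (Finset.mem_insert_of_mem hj))
      (fun j hj => hβ j (Finset.mem_insert_of_mem hj))) (hβ i (Finset.mem_insert_self _ _))
      (c1_sum s fun j hj => hβ j (Finset.mem_insert_of_mem hj))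

theorem IsEx.aeval [FiniteDimensional ℝ E] {k : ℕ} {w : M → E [⋀^Fin (k + 1)]→L[ℝ] ℝ}
    {β : M → E [⋀^Fin k]→L[ℝ] ℝ} (h : IsEx w β) (hβ : C1Form β) (f : M → M)
    (hf : ContMDiff 𝓘(ℝ, E) 𝓘(ℝ, E) 2 f) (p : ℝ[X]) :
    IsEx ((Polynomial.aeval (T (k + 1) f) p) w) ((Polynomial.aeval (T k f) p) β) := by
  have hf1 : ContMDiff 𝓘(ℝ, E) 𝓘(ℝ, E) 1 f := hf.of_le (by norm_num)
  rw [aeval_T f hf1, aeval_T f hf1]
  exact isEx_sum _ (fun j _ => (h.pb hβ _ (iter_smooth2' f hf j)).smul _)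
    (fun j _ => c1_smul _ (pb_c1 hβ _ (iter_smooth2' f hf j)))

end c2

end Pool.Agent.H74.RS
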