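import Mathlib

set_option autoImplicit false
set_option linter.unusedSectionVars false

/-!
Mollification and the homotopy operator for differential forms on a vector space.
-/

open scoped ContDiff Topology
open Set Filter MeasureTheory

namespace Pool.Agent.H74.RS

section alg

variable {F : Type*} [NormedAddCommGroup F] [NormedSpace ℝ F]

/-- contraction with a vector -/
noncomputable def iotaB (F : Type*) [NormedAddCommGroup F] [NormedSpace ℝ F] (k : ℕ) :
    F →L[ℝ] (F [⋀^Fin (k + 1)]→L[ℝ] ℝ) →L[ℝ] (F [⋀^Fin k]→L[ℝ] ℝ) :=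
  ((ContinuousAlternatingMap.curryLeftLI (𝕜 := ℝ) (E := F) (F := ℝ) (n := k)).toContinuousLinearMap).flip

theorem iotaB_apply {k : ℕ} (v : F) (A : F [⋀^Fin (k + 1)]→L[ℝ] ℝ) :
    iotaB F k v A = A.curryLeft v := rfl

theorem iotaB_norm {k : ℕ} (v : F) : ‖iotaB F k v‖ ≤ ‖v‖ := by
  apply ContinuousLinearMap.opNorm_le_bound _ (norm_nonneg _)
  intro A
  rw [iotaB_apply]
  calc ‖A.curryLeft v‖ ≤ ‖A.curryLeft‖ * ‖v‖ := A.curryLeft.le_opNorm v
    _ = ‖v‖ * ‖A‖ := by rw [ContinuousAlternatingMap.norm_curryLeft, mul_comm]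

/-- Cartan's formula for a constant vector -/
theorem cartan {k : ℕ} (D : F →L[ℝ] F [⋀^Fin (k + 1)]→L[ℝ] ℝ) (w : F) :
    ContinuousAlternatingMap.alternatizeUncurryFin ((iotaB F k w).comp D) =
      D w - (ContinuousAlternatingMap.alternatizeUncurryFin D).curryLeft w := by
  ext v
  rw [ContinuousAlternatingMap.sub_apply, ContinuousAlternatingMap.curryLeft_apply_apply,
    ContinuousAlternatingMap.alternatizeUncurryFin_apply,
    ContinuousAlternatingMap.alternatizeUncurryFin_apply,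
    Fin.sum_univ_succ (n := k + 1) (fun i => (-1 : ℤ) ^ (i : ℕ) •
      D (Matrix.vecCons w v i) (i.removeNth (Matrix.vecCons w v)))]
  have h0 : (0 : Fin (k + 2)).removeNth (Matrix.vecCons w v) = v := by
    funext i
    simp [Fin.removeNth]
  have h1 : ∀ j : Fin (k + 1), j.succ.removeNth (Matrix.vecCons w v) =
      Matrix.vecCons w (j.removeNth v) := by
    intro j
    funext i
    refine Fin.cases ?_ (fun l => ?_) i
    · simp [Fin.removeNth]
    · simp [Fin.removeNth]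
  have h2 : ∀ j : Fin (k + 1), (-1 : ℤ) ^ ((j.succ : Fin (k + 2)) : ℕ) •
      D (Matrix.vecCons w v j.succ) (j.succ.removeNth (Matrix.vecCons w v)) =
      - ((-1 : ℤ) ^ (j : ℕ) • ((iotaB F k w).comp D) (v j) (j.removeNth v)) := by
    intro j
    rw [h1 j]
    have e1 : ((iotaB F k w).comp D) (v j) (j.removeNth v) =
      D (v j) (Matrix.vecCons w (j.removeNth v)) := rfl
    rw [e1, Fin.val_succ, pow_succ]
    simp
  rw [Finset.sum_congr rfl fun j _ => h2 j, Finset.sum_neg_distrib, h0]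
  simp

end alg

variable {F : Type*} [NormedAddCommGroup F] [NormedSpace ℝ F] [FiniteDimensional ℝ F]
  [MeasurableSpace F] [BorelSpace F] (μ : Measure F) [μ.IsAddHaarMeasure]
  {W : Type*} [NormedAddCommGroup W] [NormedSpace ℝ W] [CompleteSpace W]

/-- mollifiers -/
structure Mol (ρ : F → ℝ) (ε : ℝ) : Prop where
  smooth : ContDiff ℝ ∞ ρ
  supp : HasCompactSupport ρ
  far : ∀ v, ε ≤ ‖v‖ → ρ v = 0
  nonneg : ∀ v, 0 ≤ ρ v
  int : ∫ v, ρ v ∂μ = 1

theorem exists_mol {ε : ℝ} (hε : 0 < ε) : ∃ ρ : F → ℝ, Mol μ ρ ε := by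
  let φ : ContDiffBump (0 : F) := ⟨ε / 2, ε, by positivity, by linarith⟩
  refine ⟨φ.normed μ, ⟨φ.contDiff_normed, φ.hasCompactSupport_normed, fun v hv => ?_,
    φ.nonneg_normed, φ.integral_normed⟩⟩
  have h1 : v ∉ Function.support (φ.normed μ) := by
    rw [φ.support_normed_eq, Metric.mem_ball, dist_zero_right]
    exact not_lt.mpr hv
  exact Function.notMem_support.mp h1

/-- mollification -/
noncomputable def cv (ρ : F → ℝ) (A : F → W) (p : F) : W := ∫ v, ρ v • A (p - v) ∂μ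

theorem cv_eq (ρ : F → ℝ) (A : F → W) :
    cv μ ρ A = MeasureTheory.convolution ρ A (ContinuousLinearMap.lsmul ℝ ℝ) μ := rfl

variable {μ} {ρ : F → ℝ} {ε : ℝ}

theorem Mol.integrable (h : Mol μ ρ ε) : Integrable ρ μ :=
  h.smooth.continuous.integrable_of_hasCompactSupport h.supp

theorem Mol.integrable_smul (h : Mol μ ρ ε) {g : F → W} (hg : Continuous g) :
    Integrable (fun v => ρ v • g v) μ :=
  (h.smooth.continuous.smul hg).integrable_of_hasCompactSupport h.supp.smul_right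

theorem cv_smooth (h : Mol μ ρ ε) {A : F → W} (hA : Continuous A) : ContDiff ℝ ∞ (cv μ ρ A) := by
  rw [cv_eq]
  exact h.supp.contDiff_convolution_left (n := ⊤) _ h.smooth hA.locallyIntegrable

theorem cv_norm_le (h : Mol μ ρ ε) {A : F → W} {b : ℝ} (hb : ∀ p, ‖A p‖ ≤ b) (p : F) :
    ‖cv μ ρ A p‖ ≤ b := by
  have h1 : ‖cv μ ρ A p‖ ≤ ∫ v, ρ v * b ∂μ := by
    apply norm_integral_le_of_norm_le (h.integrable.mul_const b)
    refine Eventually.of_forall fun v => ?_
    rw [norm_smul, Real.norm_of_nonneg (h.nonneg v)]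
    exact mul_le_mul_of_nonneg_left (hb _) (h.nonneg v)
  rw [integral_mul_const, h.int, one_mul] at h1
  exact h1

theorem cv_sub (h : Mol μ ρ ε) {A A' : F → W} (hA : Continuous A) (hA' : Continuous A') (p : F) :
    cv μ ρ (fun q => A q - A' q) p = cv μ ρ A p - cv μ ρ A' p := by
  have i1 : Integrable (fun v => ρ v • A (p - v)) μ :=
    h.integrable_smul (g := fun v => A (p - v)) (hA.comp (continuous_const.sub continuous_id))
  have i2 : Integrable (fun v => ρ v • A' (p - v)) μ :=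
    h.integrable_smul (g := fun v => A' (p - v)) (hA'.comp (continuous_const.sub continuous_id))
  unfold cv
  rw [← integral_sub i1 i2]
  apply integral_congr_ae
  refine Eventually.of_forall fun v => ?_
  exact smul_sub _ _ _

theorem cv_smul (c : ℝ) (A : F → W) (p : F) :
    cv μ ρ (fun q => c • A q) p = c • cv μ ρ A p := by
  unfold cv
  rw [← integral_smul]
  apply integral_congr_ae
  refine Eventually.of_forall fun v => ?_
  exact smul_comm _ _ _

theorem cv_fderiv_le (h : Mol μ ρ ε) : ∃ C > 0, ∀ {A : F → W} {b : ℝ}, Continuous A →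
    (∀ p, ‖A p‖ ≤ b) → ∀ p, ‖fderiv ℝ (cv μ ρ A) p‖ ≤ C * b := by
  have h1 : Continuous (fderiv ℝ ρ) := h.smooth.continuous_fderiv (by simp)
  have h2 : HasCompactSupport (fderiv ℝ ρ) := h.supp.fderiv ℝ
  have h3 : Integrable (fderiv ℝ ρ) μ := h1.integrable_of_hasCompactSupport h2
  have h4 : 0 ≤ ∫ v, ‖fderiv ℝ ρ v‖ ∂μ := integral_nonneg fun v => norm_nonneg _
  refine ⟨∫ v, ‖fderiv ℝ ρ v‖ ∂μ + 1, by linarith, fun {A b} hA hb p => ?_⟩
  have hb0 : 0 ≤ b := (norm_nonneg _).trans (hb 0)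
  have h5 := (h.supp.hasFDerivAt_convolution_left (ContinuousLinearMap.lsmul ℝ ℝ)
    (h.smooth.of_le (by simp)) (hA.locallyIntegrable (μ := μ)) p).fderiv
  rw [cv_eq, h5]
  have h6 : ‖MeasureTheory.convolution (fderiv ℝ ρ) A
      ((ContinuousLinearMap.lsmul ℝ ℝ).precompL F) μ p‖ ≤ ∫ v, ‖fderiv ℝ ρ v‖ * b ∂μ := by
    apply norm_integral_le_of_norm_le (h3.norm.mul_const b)
    refine Eventually.of_forall fun v => ?_
    apply ContinuousLinearMap.opNorm_le_bound _ (by positivity)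
    intro u
    rw [ContinuousLinearMap.precompL_apply, ContinuousLinearMap.lsmul_apply, norm_smul]
    calc ‖fderiv ℝ ρ v u‖ * ‖A (p - v)‖ ≤ (‖fderiv ℝ ρ v‖ * ‖u‖) * b :=
          mul_le_mul ((fderiv ℝ ρ v).le_opNorm u) (hb _) (norm_nonneg _) (by positivity)
      _ = ‖fderiv ℝ ρ v‖ * b * ‖u‖ := by ring
  rw [integral_mul_const] at h6
  refine h6.trans ?_
  apply mul_le_mul_of_nonneg_right _ hb0
  linarith

theorem cv_hasFDerivAt (h : Mol μ ρ ε) {A : F → W} (hA : ContDiff ℝ 1 A)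
    (hAc : HasCompactSupport A) (p : F) :
    HasFDerivAt (cv μ ρ A) (∫ v, ρ v • fderiv ℝ A (p - v) ∂μ) p := by
  rw [cv_eq]
  exact hAc.hasFDerivAt_convolution_right (ContinuousLinearMap.lsmul ℝ ℝ)
    h.integrable.locallyIntegrable hA p

theorem cv_alt {W' : Type*} [NormedAddCommGroup W'] [NormedSpace ℝ W'] [CompleteSpace W']
    (h : Mol μ ρ ε) {A : F → W} (hA : ContDiff ℝ 1 A)
    (hAc : HasCompactSupport A) (alt : (F →L[ℝ] W) →L[ℝ] W') (p : F) :
    alt (fderiv ℝ (cv μ ρ A) p) = cv μ ρ (fun q => alt (fderiv ℝ A q)) p := by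
  rw [(cv_hasFDerivAt h hA hAc p).fderiv]
  have i1 : Integrable (fun v => ρ v • fderiv ℝ A (p - v)) μ :=
    h.integrable_smul (g := fun v => fderiv ℝ A (p - v))
      ((hA.continuous_fderiv (by norm_num)).comp (continuous_const.sub continuous_id))
  rw [← ContinuousLinearMap.integral_comp_comm alt i1]
  unfold cv
  apply integral_congr_ae
  refine Eventually.of_forall fun v => ?_
  show alt (ρ v • fderiv ℝ A (p - v)) = ρ v • alt (fderiv ℝ A (p - v))
  rw [map_smul]

theorem cv_extDeriv (h : Mol μ ρ ε) {k : ℕ} {A : F → F [⋀^Fin k]→L[ℝ] ℝ} (hA : ContDiff ℝ 1 A)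
    (hAc : HasCompactSupport A) (p : F) :
    extDeriv (cv μ ρ A) p = cv μ ρ (extDeriv A) p :=
  cv_alt h hA hAc (ContinuousAlternatingMap.alternatizeUncurryFinCLM (n := k) ℝ F ℝ) p

section hop

variable {W₁ : Type*} [NormedAddCommGroup W₁] [NormedSpace ℝ W₁] [CompleteSpace W₁]
  {W₂ : Type*} [NormedAddCommGroup W₂] [NormedSpace ℝ W₂] [CompleteSpace W₂]

/-- homotopy operator -/
noncomputable def hop (μ : Measure F) (ρ : F → ℝ) (Q : F →L[ℝ] W₁ →L[ℝ] W₂) (A : F → W₁)
    (p : F) : W₂ :=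
  ∫ z, ρ z.1 • Q (-z.1) (A (p - z.2 • z.1)) ∂(μ.prod (volume.restrict (Icc (0 : ℝ) 1)))

theorem Mol.integrable_prod (h : Mol μ ρ ε) (c : ℝ) :
    Integrable (fun z : F × ℝ => ρ z.1 * c) (μ.prod (volume.restrict (Icc (0 : ℝ) 1))) :=
  (h.integrable.mul_const c).comp_fst _

theorem Mol.integral_prod (h : Mol μ ρ ε) (c : ℝ) :
    ∫ z : F × ℝ, ρ z.1 * c ∂(μ.prod (volume.restrict (Icc (0 : ℝ) 1))) = c := by
  rw [MeasureTheory.integral_prod _ (h.integrable_prod c)]
  simp only [integral_const, smul_eq_mul]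
  rw [integral_const_mul, integral_mul_const, h.int]
  simp

variable {Q : F →L[ℝ] W₁ →L[ℝ] W₂} {A : F → W₁}

theorem hop_int_norm (h : Mol μ ρ ε) (hε : 0 ≤ ε) (hQ : ∀ v, ‖Q v‖ ≤ ‖v‖) {b : ℝ}
    (hb : ∀ p, ‖A p‖ ≤ b) (p : F) (z : F × ℝ) :
    ‖ρ z.1 • Q (-z.1) (A (p - z.2 • z.1))‖ ≤ ρ z.1 * (ε * b) := by
  have hb0 : 0 ≤ b := (norm_nonneg _).trans (hb 0)
  rw [norm_smul, Real.norm_of_nonneg (h.nonneg z.1)]
  by_cases hz : ε ≤ ‖z.1‖
  · rw [h.far z.1 hz]; simp
  · push Not at hz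
    apply mul_le_mul_of_nonneg_left _ (h.nonneg z.1)
    refine (ContinuousLinearMap.le_opNorm _ _).trans ?_
    apply mul_le_mul _ (hb _) (norm_nonneg _) hε
    refine (hQ _).trans ?_
    rw [norm_neg]
    exact hz.le

theorem hop_norm_le (h : Mol μ ρ ε) (hε : 0 ≤ ε) (hQ : ∀ v, ‖Q v‖ ≤ ‖v‖) {b : ℝ}
    (hb : ∀ p, ‖A p‖ ≤ b) (p : F) : ‖hop μ ρ Q A p‖ ≤ ε * b := by
  have h1 : ‖hop μ ρ Q A p‖ ≤
      ∫ z : F × ℝ, ρ z.1 * (ε * b) ∂(μ.prod (volume.restrict (Icc (0 : ℝ) 1))) := by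
    apply norm_integral_le_of_norm_le (h.integrable_prod _)
    exact Eventually.of_forall fun z => hop_int_norm h hε hQ hb p z
  rwa [h.integral_prod] at h1

/-- derivative of the integrand -/
noncomputable def hopD (ρ : F → ℝ) (Q : F →L[ℝ] W₁ →L[ℝ] W₂) (A : F → W₁) (p : F) (z : F × ℝ) :
    F →L[ℝ] W₂ :=
  ρ z.1 • (Q (-z.1)).comp (fderiv ℝ A (p - z.2 • z.1))

theorem hopD_continuous (h : Mol μ ρ ε) (hA : ContDiff ℝ 1 A) :
    Continuous (fun q : F × (F × ℝ) => hopD ρ Q A q.1 q.2) := by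
  have h1 : Continuous (fderiv ℝ A) := hA.continuous_fderiv (by norm_num)
  have h2 : Continuous ρ := h.smooth.continuous
  unfold hopD
  apply Continuous.smul (h2.comp (continuous_fst.comp continuous_snd))
  apply Continuous.clm_comp
  · exact Q.continuous.comp (continuous_fst.comp continuous_snd).neg
  · apply h1.comp
    fun_prop

theorem hopD_norm (h : Mol μ ρ ε) (hε : 0 ≤ ε) (hQ : ∀ v, ‖Q v‖ ≤ ‖v‖) {b : ℝ}
    (hb : ∀ p, ‖fderiv ℝ A p‖ ≤ b) (p : F) (z : F × ℝ) :
    ‖hopD ρ Q A p z‖ ≤ ρ z.1 * (ε * b) := by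
  have hb0 : 0 ≤ b := (norm_nonneg (fderiv ℝ A 0)).trans (hb 0)
  unfold hopD
  rw [norm_smul, Real.norm_of_nonneg (h.nonneg z.1)]
  by_cases hz : ε ≤ ‖z.1‖
  · rw [h.far z.1 hz]; simp
  · push Not at hz
    apply mul_le_mul_of_nonneg_left _ (h.nonneg z.1)
    refine (ContinuousLinearMap.opNorm_comp_le _ _).trans ?_
    apply mul_le_mul _ (hb _) (norm_nonneg _) hε
    refine (hQ _).trans ?_
    rw [norm_neg]
    exact hz.le

theorem hop_integrand_continuous (h : Mol μ ρ ε) (hA : ContDiff ℝ 1 A) :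
    Continuous (fun q : F × (F × ℝ) =>
      ρ q.2.1 • Q (-q.2.1) (A (q.1 - q.2.2 • q.2.1))) := by
  have h2 : Continuous ρ := h.smooth.continuous
  apply Continuous.smul (h2.comp (continuous_fst.comp continuous_snd))
  apply Continuous.clm_apply
  · exact Q.continuous.comp (continuous_fst.comp continuous_snd).neg
  · apply hA.continuous.comp
    fun_prop

theorem hop_hasFDerivAt (h : Mol μ ρ ε) (hε : 0 ≤ ε) (hQ : ∀ v, ‖Q v‖ ≤ ‖v‖) (hA : ContDiff ℝ 1 A)
    (hAc : HasCompactSupport A) (p : F) :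
    HasFDerivAt (hop μ ρ Q A)
      (∫ z, hopD ρ Q A p z ∂(μ.prod (volume.restrict (Icc (0 : ℝ) 1)))) p := by
  obtain ⟨b₀, hb₀⟩ := hA.continuous.bounded_above_of_compact_support hAc
  obtain ⟨b₁, hb₁⟩ := (hA.continuous_fderiv (by norm_num)).bounded_above_of_compact_support
    (hAc.fderiv ℝ)
  have hc := hop_integrand_continuous (Q := Q) h hA
  have hc' := hopD_continuous (Q := Q) h hA
  refine hasFDerivAt_integral_of_dominated_of_fderiv_le (s := univ)
    (bound := fun z => ρ z.1 * (ε * b₁)) univ_mem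
    (F := fun p z => ρ z.1 • Q (-z.1) (A (p - z.2 • z.1)))
    (F' := fun p z => hopD ρ Q A p z) ?_ ?_ ?_ ?_ (h.integrable_prod _) ?_
  · refine Eventually.of_forall fun q => ?_
    exact (hc.comp (Continuous.prodMk_right q)).aestronglyMeasurable
  · refine (h.integrable_prod (ε * b₀)).mono'
      (hc.comp (Continuous.prodMk_right p)).aestronglyMeasurable ?_
    exact Eventually.of_forall fun z => hop_int_norm h hε hQ hb₀ p z
  · exact (hc'.comp (Continuous.prodMk_right p)).aestronglyMeasurable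
  · exact Eventually.of_forall fun z q _ => hopD_norm h hε hQ hb₁ q z
  · refine Eventually.of_forall fun z q _ => ?_
    have h1 : HasFDerivAt (fun q : F => A (q - z.2 • z.1)) (fderiv ℝ A (q - z.2 • z.1)) q := by
      have h2 : HasFDerivAt A (fderiv ℝ A (q - z.2 • z.1)) (q - z.2 • z.1) :=
        (hA.differentiable (by norm_num) _).hasFDerivAt
      have h3 := h2.comp q ((hasFDerivAt_id q).sub_const (z.2 • z.1))
      rw [ContinuousLinearMap.comp_id] at h3
      exact h3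
    have h2 := ((Q (-z.1)).hasFDerivAt.comp q h1).const_smul (ρ z.1)
    exact h2

theorem hop_contDiff (h : Mol μ ρ ε) (hε : 0 ≤ ε) (hQ : ∀ v, ‖Q v‖ ≤ ‖v‖) (hA : ContDiff ℝ 1 A)
    (hAc : HasCompactSupport A) : ContDiff ℝ 1 (hop μ ρ Q A) := by
  obtain ⟨b₁, hb₁⟩ := (hA.continuous_fderiv (by norm_num)).bounded_above_of_compact_support
    (hAc.fderiv ℝ)
  have hc' := hopD_continuous (Q := Q) h hA
  rw [contDiff_one_iff_fderiv]
  refine ⟨fun p => (hop_hasFDerivAt h hε hQ hA hAc p).differentiableAt, ?_⟩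
  have h1 : fderiv ℝ (hop μ ρ Q A) = fun p =>
      ∫ z, hopD ρ Q A p z ∂(μ.prod (volume.restrict (Icc (0 : ℝ) 1))) :=
    funext fun p => (hop_hasFDerivAt h hε hQ hA hAc p).fderiv
  rw [h1]
  refine continuous_of_dominated (bound := fun z => ρ z.1 * (ε * b₁)) ?_ ?_
    (h.integrable_prod _) ?_
  · intro q
    exact (hc'.comp (Continuous.prodMk_right q)).aestronglyMeasurable
  · intro q
    exact Eventually.of_forall fun z => hopD_norm h hε hQ hb₁ q z
  · refine Eventually.of_forall fun z => ?_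
    exact hc'.comp (Continuous.prodMk_left z)

/-- The homotopy formula. -/
theorem hop_formula (h : Mol μ ρ ε) (hε : 0 ≤ ε) (hQ : ∀ v, ‖Q v‖ ≤ ‖v‖) (hA : ContDiff ℝ 1 A)
    (hAc : HasCompactSupport A) (p : F) (alt : (F →L[ℝ] W₂) →L[ℝ] W₁)
    (hcl : ∀ v : F, ‖v‖ < ε → ∀ t ∈ Icc (0 : ℝ) 1,
      alt ((Q (-v)).comp (fderiv ℝ A (p - t • v))) = fderiv ℝ A (p - t • v) (-v)) :
    alt (fderiv ℝ (hop μ ρ Q A) p) = cv μ ρ A p - A p := by
  obtain ⟨b₁, hb₁⟩ := (hA.continuous_fderiv (by norm_num)).bounded_above_of_compact_support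
    (hAc.fderiv ℝ)
  have hc' := hopD_continuous (Q := Q) h hA
  have hint : Integrable (hopD ρ Q A p) (μ.prod (volume.restrict (Icc (0 : ℝ) 1))) := by
    refine (h.integrable_prod (ε * b₁)).mono'
      (hc'.comp (Continuous.prodMk_right p)).aestronglyMeasurable ?_
    exact Eventually.of_forall fun z => hopD_norm h hε hQ hb₁ p z
  rw [(hop_hasFDerivAt h hε hQ hA hAc p).fderiv, ← ContinuousLinearMap.integral_comp_comm alt hint]
  have h2 : ∀ z : F × ℝ, z.2 ∈ Icc (0 : ℝ) 1 →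
      alt (hopD ρ Q A p z) = ρ z.1 • fderiv ℝ A (p - z.2 • z.1) (-z.1) := by
    intro z hz
    unfold hopD
    rw [map_smul]
    by_cases hzε : ε ≤ ‖z.1‖
    · rw [h.far z.1 hzε, zero_smul, zero_smul]
    · push Not at hzε
      rw [hcl z.1 hzε z.2 hz]
  have hint2 : Integrable (fun z : F × ℝ => ρ z.1 • fderiv ℝ A (p - z.2 • z.1) (-z.1))
      (μ.prod (volume.restrict (Icc (0 : ℝ) 1))) := by
    refine (h.integrable_prod (b₁ * ε)).mono' ?_ ?_
    · have : Continuous (fun z : F × ℝ => ρ z.1 • fderiv ℝ A (p - z.2 • z.1) (-z.1)) := by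
        have h1 : Continuous (fderiv ℝ A) := hA.continuous_fderiv (by norm_num)
        have h2 : Continuous ρ := h.smooth.continuous
        apply Continuous.smul (h2.comp continuous_fst)
        apply Continuous.clm_apply
        · apply h1.comp; fun_prop
        · fun_prop
      exact this.aestronglyMeasurable
    · refine Eventually.of_forall fun z => ?_
      rw [norm_smul, Real.norm_of_nonneg (h.nonneg z.1)]
      by_cases hz : ε ≤ ‖z.1‖
      · rw [h.far z.1 hz]; simp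
      · push Not at hz
        apply mul_le_mul_of_nonneg_left _ (h.nonneg z.1)
        refine (ContinuousLinearMap.le_opNorm _ _).trans ?_
        rw [norm_neg]
        exact mul_le_mul (hb₁ _) hz.le (norm_nonneg _) ((norm_nonneg _).trans (hb₁ 0))
  have h3 : ∫ z, alt (hopD ρ Q A p z) ∂(μ.prod (volume.restrict (Icc (0 : ℝ) 1))) =
      ∫ z : F × ℝ, ρ z.1 • fderiv ℝ A (p - z.2 • z.1) (-z.1)
        ∂(μ.prod (volume.restrict (Icc (0 : ℝ) 1))) := by
    apply integral_congr_ae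
    have h4 : ∀ᵐ z ∂(μ.prod (volume.restrict (Icc (0 : ℝ) 1))), z.2 ∈ Icc (0 : ℝ) 1 := by
      have h5 : ∀ᵐ t ∂(volume.restrict (Icc (0 : ℝ) 1)), t ∈ Icc (0 : ℝ) 1 :=
        ae_restrict_mem measurableSet_Icc
      exact Measure.quasiMeasurePreserving_snd.ae h5
    filter_upwards [h4] with z hz using h2 z hz
  rw [h3, MeasureTheory.integral_prod _ hint2]
  have h4 : ∀ v : F, ∫ t in Icc (0 : ℝ) 1, ρ v • fderiv ℝ A (p - t • v) (-v) =
      ρ v • (A (p - v) - A p) := by
    intro v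
    rw [integral_smul, integral_Icc_eq_integral_Ioc, ← intervalIntegral.integral_of_le zero_le_one]
    congr 1
    have h5 : ∀ t ∈ uIcc (0 : ℝ) 1, HasDerivAt (fun t : ℝ => A (p - t • v))
        (fderiv ℝ A (p - t • v) (-v)) t := by
      intro t _
      have h6 : HasFDerivAt A (fderiv ℝ A (p - t • v)) (p - t • v) :=
        (hA.differentiable (by norm_num) _).hasFDerivAt
      have h7 : HasDerivAt (fun t : ℝ => p - t • v) (-v) t := by
        have := ((hasDerivAt_id t).smul_const v).const_sub p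
        simpa using this
      exact h6.comp_hasDerivAt t h7
    have h6 : Continuous fun t : ℝ => fderiv ℝ A (p - t • v) (-v) := by
      have h1 : Continuous (fderiv ℝ A) := hA.continuous_fderiv (by norm_num)
      exact (h1.comp (by fun_prop)).clm_apply continuous_const
    rw [intervalIntegral.integral_eq_sub_of_hasDerivAt h5 (h6.intervalIntegrable _ _)]
    simp
  simp only [h4]
  have i1 : Integrable (fun v => ρ v • A (p - v)) μ :=
    h.integrable_smul (g := fun v => A (p - v))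
      (hA.continuous.comp (continuous_const.sub continuous_id))
  have i2 : Integrable (fun v => ρ v • A p) μ :=
    h.integrable_smul (g := fun v => A p) continuous_const
  have h5 : ∀ v : F, ρ v • (A (p - v) - A p) = ρ v • A (p - v) - ρ v • A p := fun v =>
    smul_sub _ _ _
  simp only [h5]
  rw [integral_sub i1 i2, integral_smul_const, h.int, one_smul]
  rfl

end hop

/-- The homotopy formula for forms. -/
theorem hop_extDeriv (h : Mol μ ρ ε) (hε : 0 ≤ ε) {k : ℕ} {A : F → F [⋀^Fin (k + 1)]→L[ℝ] ℝ}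
    (hA : ContDiff ℝ 1 A) (hAc : HasCompactSupport A) (p : F)
    (hcl : ∀ v : F, ‖v‖ < ε → ∀ t ∈ Icc (0 : ℝ) 1, extDeriv A (p - t • v) = 0) :
    extDeriv (hop μ ρ (iotaB F k) A) p = cv μ ρ A p - A p := by
  refine hop_formula h hε (iotaB_norm (k := k)) hA hAc p
    (ContinuousAlternatingMap.alternatizeUncurryFinCLM (n := k) ℝ F ℝ) fun v hv t ht => ?_
  have h1 := cartan (fderiv ℝ A (p - t • v)) (-v)
  have h2 : ContinuousAlternatingMap.alternatizeUncurryFin (fderiv ℝ A (p - t • v)) = 0 :=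
    hcl v hv t ht
  rw [h2, ContinuousAlternatingMap.curryLeft_zero] at h1
  rw [ContinuousAlternatingMap.alternatizeUncurryFinCLM_apply, h1]
  simp

end Pool.Agent.H74.RS
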