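import Pool.Agent.H74.RS.PF
import Pool.Agent.H74.RS.Smo
import Pool.Agent.H74.RS.Ret

set_option autoImplicit false
set_option linter.unusedSectionVars false

/-!
Smoothing operators for differential forms on a compact manifold embedded in a vector space.
-/

open scoped Manifold ContDiff Topology
open Set Filter MeasureTheory

namespace Pool.Agent.H74.RS

open Pool.Agent.H721R2

variable {E : Type*} [NormedAddCommGroup E] [NormedSpace ℝ E] [FiniteDimensional ℝ E]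
  {M : Type*} [MetricSpace M] [ChartedSpace E M]
  {F : Type*} [NormedAddCommGroup F] [InnerProductSpace ℝ F] [FiniteDimensional ℝ F]

/-- bound of a form with respect to the norm of the ambient space -/
def Bd {k : ℕ} (e : M → F) (w : M → E [⋀^Fin k]→L[ℝ] ℝ) (b : ℝ) : Prop :=
  ∀ (x : M) (v : Fin k → E), |w x v| ≤ b * ∏ j, ‖dm E e x (v j)‖

theorem Bd.mono {k : ℕ} {e : M → F} {w : M → E [⋀^Fin k]→L[ℝ] ℝ} {b b' : ℝ} (h : Bd e w b)
    (hb : b ≤ b') : Bd e w b' := fun x v => (h x v).trans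
  (mul_le_mul_of_nonneg_right hb (Finset.prod_nonneg fun _ _ => norm_nonneg _))

theorem Bd.add {k : ℕ} {e : M → F} {w w' : M → E [⋀^Fin k]→L[ℝ] ℝ} {b b' : ℝ} (h : Bd e w b)
    (h' : Bd e w' b') : Bd e (w + w') (b + b') := fun x v => by
  have h1 := h x v
  have h2 := h' x v
  have h3 : (w + w') x v = w x v + w' x v := rfl
  rw [h3, add_mul]
  exact (abs_add_le _ _).trans (add_le_add h1 h2)

theorem Bd.smul {k : ℕ} {e : M → F} {w : M → E [⋀^Fin k]→L[ℝ] ℝ} {b : ℝ} (h : Bd e w b) (c : ℝ) :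
    Bd e (c • w) (|c| * b) := fun x v => by
  have h1 := h x v
  have h3 : (c • w) x v = c * w x v := rfl
  rw [h3, abs_mul, mul_assoc]
  exact mul_le_mul_of_nonneg_left h1 (abs_nonneg _)

theorem pM_bd {k : ℕ} (e : M → F) {B : M → F [⋀^Fin k]→L[ℝ] ℝ} {b : ℝ} (hB : ∀ x, ‖B x‖ ≤ b) :
    Bd (E := E) e (pM e B) b := fun x v => by
  rw [pM_apply, ← Real.norm_eq_abs]
  refine ((B x).le_opNorm _).trans ?_
  exact mul_le_mul_of_nonneg_right (hB x) (Finset.prod_nonneg fun _ _ => norm_nonneg _)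

variable [MeasurableSpace F] [BorelSpace F] (μ : Measure F) [μ.IsAddHaarMeasure]

/-- smoothing data -/
structure SmD (E : Type*) [NormedAddCommGroup E] [NormedSpace ℝ E]
    {M : Type*} [MetricSpace M] [ChartedSpace E M]
    {F : Type*} [NormedAddCommGroup F] [InnerProductSpace ℝ F] [FiniteDimensional ℝ F]
    [MeasurableSpace F] [BorelSpace F] (μ : Measure F) (e : M → F) where
  r : F → M
  χ : F → ℝ
  ρ : F → ℝ
  ε : ℝ
  ε_pos : 0 < ε
  inv : ∀ x, r (e x) = x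
  smooth : ∀ p ∈ tsupport χ, ∀ᶠ q in 𝓝 p, ContMDiffAt 𝓘(ℝ, F) 𝓘(ℝ, E) ∞ r q
  χ_smooth : ContDiff ℝ ∞ χ
  χ_supp : HasCompactSupport χ
  χ_one : ∀ (x : M) (p : F), ‖p - e x‖ < 2 * ε → χ p = 1
  χ_le : ∀ p, ‖χ p‖ ≤ 1
  mol : Mol μ ρ ε

theorem exists_smD [CompactSpace M] [IsManifold 𝓘(ℝ, E) ∞ M] [Nonempty M]
    {e : M → F} (he : ContMDiff 𝓘(ℝ, E) 𝓘(ℝ, F) ∞ e) (hemb : Topology.IsEmbedding e)
    (hinj : ∀ y, Function.Injective (dm E e y)) : Nonempty (SmD E μ e) := by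
  obtain ⟨r, hr1, hr2⟩ := exists_retraction he hemb hinj
  set U : Set F := {p | ∀ᶠ q in 𝓝 p, ContMDiffAt 𝓘(ℝ, F) 𝓘(ℝ, E) ∞ r q} with hU
  have hUo : IsOpen U := isOpen_setOfPred_eventually_nhds
  have hK : IsCompact (range e) := isCompact_range he.continuous
  have hKU : range e ⊆ U := by
    rintro _ ⟨x, rfl⟩
    exact hr2 x
  obtain ⟨δ, hδ, hδU⟩ := hK.exists_cthickening_subset_open hUo hKU
  have hd : Disjoint (Metric.thickening δ (range e))ᶜ (Metric.cthickening (δ / 2) (range e)) := by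
    rw [disjoint_compl_left_iff_subset]
    exact Metric.cthickening_subset_thickening' hδ (by linarith) _
  obtain ⟨χ, h0, h1, h01⟩ := exists_contMDiffMap_zero_one_of_isClosed (n := ⊤) 𝓘(ℝ, F)
    Metric.isOpen_thickening.isClosed_compl Metric.isClosed_cthickening hd
  obtain ⟨ρ, hρ⟩ := exists_mol μ (show 0 < δ / 4 by positivity)
  have hts : tsupport χ ⊆ Metric.cthickening δ (range e) := by
    refine (closure_mono ?_).trans (Metric.closure_thickening_subset_cthickening δ (range e))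
    intro p hp
    by_contra hcon
    exact hp (h0 hcon)
  refine ⟨⟨r, χ, ρ, δ / 4, by positivity, hr1, fun p hp => hδU (hts hp),
    χ.contMDiff.contDiff, ?_, fun x p hp => ?_, fun p => ?_, hρ⟩⟩
  · exact (hK.cthickening (r := δ)).of_isClosed_subset (isClosed_tsupport _) hts
  · apply h1
    apply Metric.thickening_subset_cthickening
    rw [Metric.mem_thickening_iff]
    refine ⟨e x, mem_range_self x, ?_⟩
    rw [dist_eq_norm]
    linarith
  · have := h01 p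
    rw [Real.norm_of_nonneg this.1]
    exact this.2

variable {μ} {e : M → F} (D : SmD E μ e)

/-- extension of a form to the ambient space -/
noncomputable def SmD.A {k : ℕ} (w : M → E [⋀^Fin k]→L[ℝ] ℝ) (p : F) : F [⋀^Fin k]→L[ℝ] ℝ :=
  D.χ p • pF D.r w p

theorem SmD.A_supp {k : ℕ} (w : M → E [⋀^Fin k]→L[ℝ] ℝ) : HasCompactSupport (D.A w) := by
  have : tsupport (D.A w) ⊆ tsupport D.χ := by
    apply closure_mono
    intro p hp
    by_contra hcon
    apply hp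
    show D.χ p • pF D.r w p = 0
    rw [Function.notMem_support.mp hcon, zero_smul]
  exact D.χ_supp.of_isClosed_subset (isClosed_tsupport _) this

theorem SmD.A_zero {k : ℕ} (w : M → E [⋀^Fin k]→L[ℝ] ℝ) {p : F} (hp : p ∉ tsupport D.χ) :
    D.A w =ᶠ[𝓝 p] fun _ => 0 := by
  filter_upwards [(isClosed_tsupport D.χ).isOpen_compl.mem_nhds hp] with q hq
  show D.χ q • pF D.r w q = 0
  rw [image_eq_zero_of_notMem_tsupport hq, zero_smul]

theorem SmD.A_near {k : ℕ} (w : M → E [⋀^Fin k]→L[ℝ] ℝ) {x : M} {p : F}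
    (hp : ‖p - e x‖ < 2 * D.ε) : D.A w =ᶠ[𝓝 p] pF D.r w := by
  have h1 : Metric.ball (e x) (2 * D.ε) ∈ 𝓝 p := Metric.isOpen_ball.mem_nhds (by
    rw [Metric.mem_ball, dist_eq_norm]; exact hp)
  filter_upwards [h1] with q hq
  rw [Metric.mem_ball, dist_eq_norm] at hq
  show D.χ q • pF D.r w q = _
  rw [D.χ_one x q hq, one_smul]

theorem SmD.near_mem {x : M} {p : F} (hp : ‖p - e x‖ < 2 * D.ε) : p ∈ tsupport D.χ := by
  apply subset_tsupport
  rw [Function.mem_support, D.χ_one x p hp]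
  exact one_ne_zero

theorem SmD.A_cont [IsManifold 𝓘(ℝ, E) 1 M] {k : ℕ} {w : M → E [⋀^Fin k]→L[ℝ] ℝ}
    (hw : C0Form w) : Continuous (D.A w) := by
  rw [continuous_iff_continuousAt]
  intro p
  by_cases hp : p ∈ tsupport D.χ
  · exact D.χ_smooth.continuous.continuousAt.smul
      (pF_continuousAt D.r hw ((D.smooth p hp).mono fun q h => h.of_le (by simp)))
  · exact (continuousAt_const.congr (D.A_zero w hp).symm)

section c2

variable [IsManifold 𝓘(ℝ, E) 1 M] [IsManifold 𝓘(ℝ, E) 2 M]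

theorem SmD.A_c1 {k : ℕ} {w : M → E [⋀^Fin k]→L[ℝ] ℝ} (hw : C1Form w) :
    ContDiff ℝ 1 (D.A w) := by
  rw [contDiff_iff_contDiffAt]
  intro p
  by_cases hp : p ∈ tsupport D.χ
  · exact (D.χ_smooth.contDiffAt.of_le (by simp)).smul
      (pF_contDiffAt D.r hw ((D.smooth p hp).mono fun q h => h.of_le (by norm_cast)))
  · exact (contDiffAt_const.congr_of_eventuallyEq (D.A_zero w hp))

theorem SmD.A_ext {k : ℕ} {w : M → E [⋀^Fin k]→L[ℝ] ℝ}
    {ξ : M → E [⋀^Fin (k + 1)]→L[ℝ] ℝ} (hw : C1Form w) (hξ : IsEx ξ w) {x : M} {p : F}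
    (hp : ‖p - e x‖ < 2 * D.ε) : extDeriv (D.A w) p = pF D.r ξ p := by
  rw [(D.A_near w hp).extDeriv_eq]
  exact pF_extDeriv D.r hw hξ ((D.smooth p (D.near_mem hp)).mono fun q h => h.of_le (by norm_cast))

end c2

/-- the extension is bounded -/
theorem SmD.A_bd [IsManifold 𝓘(ℝ, E) 1 M] (he : ContMDiff 𝓘(ℝ, E) 𝓘(ℝ, F) 1 e) (k : ℕ) :
    ∃ C > 0, ∀ {w : M → E [⋀^Fin k]→L[ℝ] ℝ} {b : ℝ}, 0 ≤ b → Bd e w b → ∀ p,
      ‖D.A w p‖ ≤ C * b := by
  have hsm : ∀ p ∈ tsupport D.χ, ContDiffAt ℝ 1 (e ∘ D.r) p := by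
    intro p hp
    rw [← contMDiffAt_iff_contDiffAt]
    have h1 : ContMDiffAt 𝓘(ℝ, F) 𝓘(ℝ, E) 1 D.r p := (D.smooth p hp).self_of_nhds.of_le (by simp)
    exact he.contMDiffAt.comp p h1
  have hcont : ContinuousOn (fun p => fderiv ℝ (e ∘ D.r) p) (tsupport D.χ) := fun p hp =>
    ((hsm p hp).fderiv_right (m := 0) (by norm_num)).continuousAt.continuousWithinAt
  obtain ⟨L, hL⟩ := D.χ_supp.isCompact.exists_bound_of_continuousOn hcont
  refine ⟨(|L| + 1) ^ k, by positivity, fun {w b} hb0 hb p => ?_⟩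
  have hC : 0 ≤ (|L| + 1) ^ k * b := by positivity
  by_cases hp : p ∈ tsupport D.χ
  · have h1 : ‖pF D.r w p‖ ≤ (|L| + 1) ^ k * b := by
      apply ContinuousAlternatingMap.opNorm_le_bound _ hC
      intro v
      rw [pF_apply, Real.norm_eq_abs]
      refine (hb _ _).trans ?_
      have h2 : ∀ j, ‖dm E e (D.r p) (dr (E := E) D.r p (v j))‖ ≤ (|L| + 1) * ‖v j‖ := by
        intro j
        have a1 : MDifferentiableAt 𝓘(ℝ, E) 𝓘(ℝ, F) e (D.r p) := he.mdifferentiableAt (by norm_num)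
        have a2 : MDifferentiableAt 𝓘(ℝ, F) 𝓘(ℝ, E) D.r p :=
          (D.smooth p hp).self_of_nhds.mdifferentiableAt (by simp)
        have h3 := mfderiv_comp p a1 a2
        rw [mfderiv_eq_fderiv] at h3
        have h4 : dm E e (D.r p) (dr (E := E) D.r p (v j)) = fderiv ℝ (e ∘ D.r) p (v j) := by
          have := DFunLike.congr_fun h3 (v j)
          exact this.symm
        rw [h4]
        refine (ContinuousLinearMap.le_opNorm _ _).trans ?_
        apply mul_le_mul_of_nonneg_right _ (norm_nonneg _)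
        have h5 := hL p hp
        have h6 := le_abs_self L
        linarith
      calc b * ∏ j, ‖dm E e (D.r p) (dr (E := E) D.r p (v j))‖ ≤
          b * ∏ j, ((|L| + 1) * ‖v j‖) := by
            apply mul_le_mul_of_nonneg_left _ hb0
            exact Finset.prod_le_prod (fun _ _ => norm_nonneg _) fun j _ => h2 j
        _ = (|L| + 1) ^ k * b * ∏ j, ‖v j‖ := by
            rw [Finset.prod_mul_distrib, Finset.prod_const, Finset.card_univ, Fintype.card_fin]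
            ring
    show ‖D.χ p • pF D.r w p‖ ≤ _
    rw [norm_smul]
    calc ‖D.χ p‖ * ‖pF D.r w p‖ ≤ 1 * ((|L| + 1) ^ k * b) :=
          mul_le_mul (D.χ_le p) h1 (norm_nonneg _) zero_le_one
      _ = _ := one_mul _
  · rw [(D.A_zero w hp).self_of_nhds, norm_zero]
    exact hC

/-- smoothing operator -/
noncomputable def SmD.S {k : ℕ} (w : M → E [⋀^Fin k]→L[ℝ] ℝ) : M → E [⋀^Fin k]→L[ℝ] ℝ :=
  pM e (cv μ D.ρ (D.A w) ∘ e)

/-- homotopy operator -/
noncomputable def SmD.K {k : ℕ} (w : M → E [⋀^Fin (k + 1)]→L[ℝ] ℝ) : M → E [⋀^Fin k]→L[ℝ] ℝ :=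
  pM e (hop μ D.ρ (iotaB F k) (D.A w) ∘ e)

section c2

variable [IsManifold 𝓘(ℝ, E) 1 M] [IsManifold 𝓘(ℝ, E) 2 M]

theorem SmD.S_c1 (he : ContMDiff 𝓘(ℝ, E) 𝓘(ℝ, F) 2 e) {k : ℕ} {w : M → E [⋀^Fin k]→L[ℝ] ℝ}
    (hw : C0Form w) : C1Form (D.S w) :=
  pM_c1 he fun _ => ((cv_smooth D.mol (D.A_cont hw)).of_le (by simp)).contDiffAt

theorem SmD.K_c1 (he : ContMDiff 𝓘(ℝ, E) 𝓘(ℝ, F) 2 e) {k : ℕ}
    {w : M → E [⋀^Fin (k + 1)]→L[ℝ] ℝ} (hw : C1Form w) : C1Form (D.K w) :=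
  pM_c1 he fun _ => (hop_contDiff D.mol D.ε_pos.le iotaB_norm (D.A_c1 hw)
    (D.A_supp w)).contDiffAt

theorem SmD.S_ext0 (he : ContMDiff 𝓘(ℝ, E) 𝓘(ℝ, F) 2 e) {k : ℕ} {w : M → E [⋀^Fin k]→L[ℝ] ℝ}
    (hw : C0Form w) : IsEx (pM (E := E) e (extDeriv (cv μ D.ρ (D.A w)) ∘ e)) (D.S w) :=
  pM_isEx he fun _ => ((cv_smooth D.mol (D.A_cont hw)).of_le (by simp)).contDiffAt

theorem SmD.S_ext1 {k : ℕ} {w : M → E [⋀^Fin k]→L[ℝ] ℝ}
    {ξ : M → E [⋀^Fin (k + 1)]→L[ℝ] ℝ} (hw : C1Form w) (hξ : IsEx ξ w) (x : M) :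
    extDeriv (cv μ D.ρ (D.A w)) (e x) = cv μ D.ρ (D.A ξ) (e x) := by
  rw [cv_extDeriv D.mol (D.A_c1 hw) (D.A_supp w)]
  unfold cv
  apply integral_congr_ae
  refine Eventually.of_forall fun v => ?_
  show D.ρ v • extDeriv (D.A w) (e x - v) = D.ρ v • D.A ξ (e x - v)
  by_cases hv : D.ε ≤ ‖v‖
  · rw [D.mol.far v hv, zero_smul, zero_smul]
  · push Not at hv
    have h1 : ‖e x - v - e x‖ < 2 * D.ε := by
      rw [show e x - v - e x = -v by abel, norm_neg]
      have := D.ε_pos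
      linarith
    rw [D.A_ext hw hξ h1, (D.A_near ξ h1).self_of_nhds]

/-- the smoothing operator commutes with `d` -/
theorem SmD.S_ext (he : ContMDiff 𝓘(ℝ, E) 𝓘(ℝ, F) 2 e) {k : ℕ} {w : M → E [⋀^Fin k]→L[ℝ] ℝ}
    {ξ : M → E [⋀^Fin (k + 1)]→L[ℝ] ℝ} (hw : C1Form w) (hξ : IsEx ξ w) :
    IsEx (D.S ξ) (D.S w) := by
  have h1 : D.S ξ = pM e (extDeriv (cv μ D.ρ (D.A w)) ∘ e) := by
    unfold SmD.S
    congr 1
    funext x
    exact (D.S_ext1 hw hξ x).symm
  rw [h1]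
  exact D.S_ext0 he (c1_c0 hw)

/-- the homotopy formula -/
theorem SmD.K_ext (he : ContMDiff 𝓘(ℝ, E) 𝓘(ℝ, F) 2 e) {k : ℕ}
    {w : M → E [⋀^Fin (k + 1)]→L[ℝ] ℝ} (hw : C1Form w)
    (hcl : IsEx (0 : M → E [⋀^Fin (k + 1 + 1)]→L[ℝ] ℝ) w) : IsEx (D.S w - w) (D.K w) := by
  have he1 : ContMDiff 𝓘(ℝ, E) 𝓘(ℝ, F) 1 e := he.of_le (by norm_num)
  have h1 : D.S w - w = pM e (extDeriv (hop μ D.ρ (iotaB F k) (D.A w)) ∘ e) := by
    have h2 : pM e (pF D.r w ∘ e) = w := pM_pF he1 D.inv (fun x =>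
      (D.smooth (e x) (D.near_mem (x := x) (by
        rw [sub_self, norm_zero]; have := D.ε_pos; linarith))).self_of_nhds.of_le (by simp)) w
    have h3 : ∀ x, extDeriv (hop μ D.ρ (iotaB F k) (D.A w)) (e x) =
        cv μ D.ρ (D.A w) (e x) - pF D.r w (e x) := by
      intro x
      have h0 : ‖e x - e x‖ < 2 * D.ε := by
        rw [sub_self, norm_zero]; have := D.ε_pos; linarith
      rw [hop_extDeriv D.mol D.ε_pos.le (D.A_c1 hw) (D.A_supp w), (D.A_near w h0).self_of_nhds]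
      intro v hv t ht
      have h4 : ‖e x - t • v - e x‖ < 2 * D.ε := by
        rw [show e x - t • v - e x = -(t • v) by abel, norm_neg, norm_smul,
          Real.norm_of_nonneg ht.1]
        have h5 : t * ‖v‖ ≤ 1 * ‖v‖ := mul_le_mul_of_nonneg_right ht.2 (norm_nonneg _)
        have := D.ε_pos
        linarith
      rw [D.A_ext hw hcl h4]
      ext u
      rfl
    funext x
    conv_lhs => rw [← h2]
    ext v
    show D.S (pM e (pF D.r w ∘ e)) x v - (pM e (pF D.r w ∘ e)) x v = _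
    rw [h2]
    have h6 : w x v = pF D.r w (e x) (fun i => dm E e x (v i)) := by
      conv_lhs => rw [← h2]
      rfl
    rw [h6, pM_apply]
    show D.S w x v - _ = extDeriv (hop μ D.ρ (iotaB F k) (D.A w)) (e x) (fun i => dm E e x (v i))
    rw [h3 x]
    rfl
  rw [h1]
  exact pM_isEx he fun _ => (hop_contDiff D.mol D.ε_pos.le iotaB_norm (D.A_c1 hw)
    (D.A_supp w)).contDiffAt

end c2

end Pool.Agent.H74.RS
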