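import Pool.Agent.H74.RS.Forms

set_option autoImplicit false
set_option linter.unusedSectionVars false

open scoped Manifold ContDiff Topology
open Set Filter MeasureTheory

namespace Pool.Agent.H74.RS

variable {E : Type*} [NormedAddCommGroup E] [NormedSpace ℝ E]

/-- exterior product of a linear form and an alternating form -/
noncomputable def dw {k : ℕ} (l : E →L[ℝ] ℝ) (b : E [⋀^Fin k]→L[ℝ] ℝ) : E [⋀^Fin (k + 1)]→L[ℝ] ℝ :=
  ContinuousAlternatingMap.alternatizeUncurryFin (l.smulRight b)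

theorem dw_apply {k : ℕ} (l : E →L[ℝ] ℝ) (b : E [⋀^Fin k]→L[ℝ] ℝ) (v : Fin (k + 1) → E) :
    dw l b v = ∑ i : Fin (k + 1), (-1) ^ (i : ℕ) * (l (v i) * b (i.removeNth v)) := by
  rw [dw, ContinuousAlternatingMap.alternatizeUncurryFin_apply]
  refine Finset.sum_congr rfl fun i _ => ?_
  simp

/-- product of a compactly supported continuous function with a function continuous near the
support -/
theorem continuous_mul_of_tsupport {X : Type*} [TopologicalSpace X] {φ h : X → ℝ} {O : Set X}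
    (hφ : Continuous φ) (hO : tsupport φ ⊆ O) (hh : ∀ x ∈ O, ContinuousAt h x) :
    Continuous fun x => φ x * h x := by
  rw [continuous_iff_continuousAt]
  intro x
  by_cases hx : x ∈ tsupport φ
  · exact hφ.continuousAt.mul (hh x (hO hx))
  · have h1 : (fun x => φ x * h x) =ᶠ[𝓝 x] fun _ => 0 := by
      filter_upwards [(isClosed_tsupport φ).isOpen_compl.mem_nhds hx] with z hz
      rw [image_eq_zero_of_notMem_tsupport hz, zero_mul]
    exact continuousAt_const.congr h1.symm

variable [FiniteDimensional ℝ E] [MeasurableSpace E] [BorelSpace E]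

theorem integrable_mul_of_tsupport (μ : Measure E) [IsFiniteMeasureOnCompacts μ]
    {φ h : E → ℝ} {O : Set E}
    (hφ : Continuous φ) (hc : HasCompactSupport φ) (hO : tsupport φ ⊆ O)
    (hh : ∀ x ∈ O, ContinuousAt h x) :
    Integrable (fun x => φ x * h x) μ :=
  (continuous_mul_of_tsupport hφ hO hh).integrable_of_hasCompactSupport hc.mul_right

theorem stokes_integrable (μ : Measure E) [μ.IsAddHaarMeasure] {O : Set E} {k : ℕ}
    {γ : E → E [⋀^Fin k]→L[ℝ] ℝ}
    (hγ : ∀ (v : Fin k → E), ∀ y ∈ O, ContDiffAt ℝ 1 (fun y => γ y v) y)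
    {φ : E → ℝ} (hφ : ContDiff ℝ 1 φ) (hc : HasCompactSupport φ) (hφO : tsupport φ ⊆ O)
    (e : Fin (k + 1) → E) (i : Fin (k + 1)) :
    Integrable (fun y => fderiv ℝ φ y (e i) * γ y (i.removeNth e)) μ := by
  refine integrable_mul_of_tsupport μ ?_ (hc.fderiv_apply (𝕜 := ℝ) (e i))
    ((tsupport_fderiv_apply_subset ℝ (e i)).trans hφO)
    (fun y hy => (hγ _ y hy).continuousAt)
  exact (hφ.continuous_fderiv (by norm_num)).clm_apply continuous_const

/-- Integration by parts on a coordinate domain. -/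
theorem stokes (μ : Measure E) [μ.IsAddHaarMeasure] {O : Set E} {k : ℕ}
    {γ : E → E [⋀^Fin k]→L[ℝ] ℝ} (hγ1 : ∀ y ∈ O, DifferentiableAt ℝ γ y)
    (hγ : ∀ (v : Fin k → E), ∀ y ∈ O, ContDiffAt ℝ 1 (fun y => γ y v) y)
    {φ : E → ℝ} (hφ : ContDiff ℝ 1 φ) (hc : HasCompactSupport φ) (hφO : tsupport φ ⊆ O)
    (e : Fin (k + 1) → E) :
    Integrable (fun y => φ y * extDeriv γ y e) μ ∧ Integrable (fun y => dw (fderiv ℝ φ y) (γ y) e) μ ∧
    ∫ y, φ y * extDeriv γ y e ∂μ = - ∫ y, dw (fderiv ℝ φ y) (γ y) e ∂μ := by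
  have i1 := stokes_integrable μ hγ hφ hc hφO e
  have hcd : ∀ i : Fin (k + 1), ∀ y ∈ O,
      ContinuousAt (fun y => fderiv ℝ (fun y => γ y (i.removeNth e)) y (e i)) y := by
    intro i y hy
    have h1 := hγ (i.removeNth e) y hy
    have h2 : ContDiffAt ℝ 0 (fderiv ℝ (fun y => γ y (i.removeNth e))) y :=
      h1.fderiv_right (by norm_num)
    exact h2.continuousAt.clm_apply continuousAt_const
  have i2 : ∀ i : Fin (k + 1),
      Integrable (fun y => φ y * fderiv ℝ (fun y => γ y (i.removeNth e)) y (e i)) μ :=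
    fun i => integrable_mul_of_tsupport μ hφ.continuous hc hφO (hcd i)
  have i3 : ∀ i : Fin (k + 1), Integrable (fun y => φ y * γ y (i.removeNth e)) μ :=
    fun i => integrable_mul_of_tsupport μ hφ.continuous hc hφO
      (fun y hy => (hγ _ y hy).continuousAt)
  have key : ∀ i : Fin (k + 1), ∫ y, φ y * fderiv ℝ (fun y => γ y (i.removeNth e)) y (e i) ∂μ =
      - ∫ y, fderiv ℝ φ y (e i) * γ y (i.removeNth e) ∂μ := by
    intro i
    exact integral_mul_fderiv_eq_neg_fderiv_mul_of_integrable (i1 i) (i2 i) (i3 i)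
      (fun y _ => hφ.differentiable (by norm_num) y)
      (fun y hy => (hγ _ y (hφO hy)).differentiableAt (by norm_num))
  have e1 : (fun y => φ y * extDeriv γ y e) = fun y => ∑ i : Fin (k + 1), (-1) ^ (i : ℕ) *
      (φ y * fderiv ℝ (fun y => γ y (i.removeNth e)) y (e i)) := by
    funext y
    by_cases hy : y ∈ tsupport φ
    · rw [extDeriv_apply (hγ1 y (hφO hy)), Finset.mul_sum]
      refine Finset.sum_congr rfl fun i _ => ?_
      rw [zsmul_eq_mul]; push_cast; ring
    · simp [image_eq_zero_of_notMem_tsupport hy]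
  have e2 : (fun y => dw (fderiv ℝ φ y) (γ y) e) = fun y => ∑ i : Fin (k + 1), (-1) ^ (i : ℕ) *
      (fderiv ℝ φ y (e i) * γ y (i.removeNth e)) := by
    funext y; rw [dw_apply]
  refine ⟨?_, ?_, ?_⟩
  · rw [e1]; exact integrable_finsetSum _ fun i _ => (i2 i).const_mul _
  · rw [e2]; exact integrable_finsetSum _ fun i _ => (i1 i).const_mul _
  · rw [e1, e2, integral_finsetSum _ fun i _ => (i2 i).const_mul _,
      integral_finsetSum _ fun i _ => (i1 i).const_mul _, ← Finset.sum_neg_distrib]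
    refine Finset.sum_congr rfl fun i _ => ?_
    rw [integral_const_mul, integral_const_mul, key i]; ring

end Pool.Agent.H74.RS
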