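import Pool.Agent.H74.RS.Count
import Pool.Agent.H74.RS.Pull

set_option autoImplicit false
set_option linter.unusedSectionVars false

open scoped Manifold ContDiff Topology
open Set Filter MeasureTheory

namespace Pool.Agent.H74.RS

open Pool.Agent.H721R2 Pool.Agent.Y331.EP Q70.AnG

/-- shadowing in the form needed for the gluing of orbits -/
theorem hyp_shad {X F : Type*} [MetricSpace X] [CompactSpace X] [NormedAddCommGroup F]
    [NormedSpace ℝ F] (S : HypSys X F) : Shad S.g := by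
  intro ε hε
  obtain ⟨ε₀, hε₀, h⟩ := S.shadowing
  have hK := S.one_le_K
  have hK0 : 0 < S.K := by linarith
  refine ⟨min ε₀ (ε / (8 * S.K)), lt_min hε₀ (by positivity), fun x hx => ?_⟩
  obtain ⟨y, hy, hd⟩ := h _ (min_le_left _ _) x hx
  refine ⟨y, hy, fun n => ?_⟩
  rw [dist_comm]
  refine (hd n).trans ?_
  have h1 : min ε₀ (ε / (8 * S.K)) ≤ ε / (8 * S.K) := min_le_right _ _
  rw [le_div_iff₀ (by positivity)] at h1
  linarith

/-- Two-sided pure exponential growth of the separated orbits excludes wandering points. -/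
theorem no_wander {X : Type*} [MetricSpace X] [CompactSpace X] {g : X ≃ₜ X} (hSh : Shad g) {z : X}
    {r : ℝ} (hr : 0 < r)
    (hw : ∀ m : ℕ, 1 ≤ m → ∀ x ∈ Metric.ball z r, g^[m] x ∉ Metric.ball z r) {μu μs : ℝ}
    (hμu : 0 < μu) (hμs : 0 < μs)
    (hup : ∀ ε > 0, ∃ A > 0, ∀ m : ℕ, (sN g univ ε m : ℝ) ≤ A * μu ^ m)
    (hup' : ∀ ε > 0, ∃ A > 0, ∀ m : ℕ, (sN g.symm univ ε m : ℝ) ≤ A * μs ^ m)
    (hlo : ∃ ε₀ > 0, ∀ ε > 0, ε < ε₀ → ∀ U ∈ 𝓝 z, ∃ c > 0, ∀ m : ℕ,
      c * μu ^ m ≤ (sN g U ε m : ℝ))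
    (hlo' : ∃ ε₀ > 0, ∀ ε > 0, ε < ε₀ → ∀ U ∈ 𝓝 z, ∃ c > 0, ∀ m : ℕ,
      c * μs ^ m ≤ (sN g.symm U ε m : ℝ)) : False := by
  obtain ⟨ε₁, hε₁, h1⟩ := hlo
  obtain ⟨ε₂, hε₂, h2⟩ := hlo'
  set w := min ε₁ ε₂ / 2 with hwd
  have hm0 : 0 < min ε₁ ε₂ := lt_min hε₁ hε₂
  have hw0 : 0 < w := by positivity
  have hw1 : w < ε₁ := by
    have := min_le_left ε₁ ε₂
    linarith
  have hw2 : w < ε₂ := by
    have := min_le_right ε₁ ε₂
    linarith
  obtain ⟨ρ, v, hρ, hv, hsum⟩ := wander_sum hSh hr hw hw0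
  obtain ⟨c₁, hc₁, h1'⟩ := h1 w hw0 hw1 _ (Metric.ball_mem_nhds z hρ)
  obtain ⟨c₂, hc₂, h2'⟩ := h2 w hw0 hw2 _ (Metric.ball_mem_nhds z hρ)
  obtain ⟨A₁, hA₁, h3⟩ := hup v hv
  obtain ⟨A₂, hA₂, h4⟩ := hup' v hv
  set μ := min μu μs with hμ
  have hμ0 : 0 < μ := lt_min hμu hμs
  have hAll : ∀ n, (sN g univ v n : ℝ) ≤ max A₁ A₂ * μ ^ n := by
    intro n
    rcases le_total μu μs with h | h
    · have : μ = μu := min_eq_left h
      rw [this]
      exact (h3 n).trans (mul_le_mul_of_nonneg_right (le_max_left _ _) (by positivity))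
    · have : μ = μs := min_eq_right h
      rw [this, ← sN_symm g hv n]
      exact (h4 n).trans (mul_le_mul_of_nonneg_right (le_max_right _ _) (by positivity))
  have key : ∀ n : ℕ, ((n : ℝ) + 1) * (c₂ * c₁) ≤ max A₁ A₂ := by
    intro n
    have h5 : ((n : ℝ) + 1) * (c₂ * c₁) * μ ^ n ≤ max A₁ A₂ * μ ^ n := by
      calc ((n : ℝ) + 1) * (c₂ * c₁) * μ ^ n
          = ∑ k ∈ Finset.range (n + 1), (c₂ * c₁) * μ ^ n := by
            rw [Finset.sum_const, Finset.card_range, nsmul_eq_mul]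
            push_cast; ring
        _ ≤ ∑ k ∈ Finset.range (n + 1), ((sN g.symm (Metric.ball z ρ) w k : ℝ) *
              (sN g (Metric.ball z ρ) w (n - k) : ℝ)) := by
            apply Finset.sum_le_sum
            intro k hk
            have hk' : k ≤ n := Nat.lt_succ_iff.mp (Finset.mem_range.mp hk)
            have e1 : μ ^ n = μ ^ k * μ ^ (n - k) := by
              rw [← pow_add]; congr 1; omega
            have a1 : c₂ * μ ^ k ≤ (sN g.symm (Metric.ball z ρ) w k : ℝ) :=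
              (mul_le_mul_of_nonneg_left (pow_le_pow_left₀ hμ0.le (min_le_right _ _) k)
                hc₂.le).trans (h2' k)
            have a2 : c₁ * μ ^ (n - k) ≤ (sN g (Metric.ball z ρ) w (n - k) : ℝ) :=
              (mul_le_mul_of_nonneg_left (pow_le_pow_left₀ hμ0.le (min_le_left _ _) (n - k))
                hc₁.le).trans (h1' (n - k))
            calc c₂ * c₁ * μ ^ n = (c₂ * μ ^ k) * (c₁ * μ ^ (n - k)) := by rw [e1]; ring
              _ ≤ _ := mul_le_mul a1 a2 (by positivity) (by positivity)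
        _ = ((∑ k ∈ Finset.range (n + 1), sN g.symm (Metric.ball z ρ) w k *
              sN g (Metric.ball z ρ) w (n - k) : ℕ) : ℝ) := by push_cast; rfl
        _ ≤ (sN g univ v n : ℝ) := by exact_mod_cast hsum n
        _ ≤ _ := hAll n
    exact le_of_mul_le_mul_right h5 (by positivity)
  obtain ⟨n, hn⟩ := exists_nat_gt (max A₁ A₂ / (c₂ * c₁))
  rw [div_lt_iff₀ (by positivity)] at hn
  have h6 := key n
  have h7 : 0 < c₂ * c₁ := by positivity
  linarith

/-- concatenation of pseudo-orbits -/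
theorem pth_trans {X : Type*} [MetricSpace X] {g : X → X} {δ : ℝ} {m n : ℕ} {q r : ℕ → X}
    (hq : Pth g δ m q) (hr : Pth g δ n r) (h : q m = r 0) :
    ∃ t : ℕ → X, Pth g δ (m + n) t ∧ t 0 = q 0 ∧ t (m + n) = r n := by
  refine ⟨fun k => if k ≤ m then q k else r (k - m), ?_, ?_, ?_⟩
  · intro k hk
    show dist (g (if k ≤ m then q k else r (k - m)))
      (if k + 1 ≤ m then q (k + 1) else r (k + 1 - m)) ≤ δ
    by_cases h1 : k + 1 ≤ m
    · rw [if_pos (by omega), if_pos h1]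
      exact hq k (by omega)
    · rw [if_neg h1]
      by_cases h2 : k ≤ m
      · have h3 : k = m := by omega
        subst h3
        rw [if_pos le_rfl, h]
        have h4 : k + 1 - k = 0 + 1 := by omega
        rw [h4]
        exact hr 0 (by omega)
      · rw [if_neg h2]
        have h4 : k + 1 - m = (k - m) + 1 := by omega
        rw [h4]
        exact hr (k - m) (by omega)
  · show (if 0 ≤ m then q 0 else r (0 - m)) = q 0
    rw [if_pos (Nat.zero_le _)]
  · show (if m + n ≤ m then q (m + n) else r (m + n - m)) = r n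
    by_cases h1 : m + n ≤ m
    · have h2 : n = 0 := by omega
      subst h2
      rw [if_pos h1]
      exact h
    · rw [if_neg h1]
      congr 1
      omega

/-- nonwandering homeomorphisms with shadowing of connected spaces are transitive -/
theorem trans_of_nw {X : Type*} [MetricSpace X] [CompactSpace X] [PreconnectedSpace X]
    {g : X ≃ₜ X} (hSh : Shad g)
    (hnw : ∀ U : Set X, IsOpen U → U.Nonempty → ∃ m : ℕ, 1 ≤ m ∧ (g^[m] '' U ∩ U).Nonempty)
    (U V : Set X) (hU : IsOpen U) (hUn : U.Nonempty) (hV : IsOpen V) (hVn : V.Nonempty) :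
    ∃ n : ℕ, (g^[n] '' U ∩ V).Nonempty := by
  obtain ⟨u, hu⟩ := hUn
  obtain ⟨v, hv⟩ := hVn
  obtain ⟨ε₁, hε₁, hεU⟩ := Metric.isOpen_iff.mp hU u hu
  obtain ⟨ε₂, hε₂, hεV⟩ := Metric.isOpen_iff.mp hV v hv
  set ε := min ε₁ ε₂ / 2 with hε
  have hm0 : 0 < min ε₁ ε₂ := lt_min hε₁ hε₂
  have hε0 : 0 < ε := by positivity
  obtain ⟨δ, hδ, hsh⟩ := hSh ε hε0
  have huc : UniformContinuous g := CompactSpace.uniformContinuous_of_continuous g.continuous
  obtain ⟨η₁, hη₁, hηg⟩ := Metric.uniformContinuous_iff.1 huc (δ / 3) (by positivity)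
  set η := min η₁ (δ / 3) with hη
  have hη0 : 0 < η := lt_min hη₁ (by positivity)
  have hη1 : η ≤ η₁ := min_le_left _ _
  have hη2 : η ≤ δ / 3 := min_le_right _ _
  have step : ∀ x y, dist x y < η → ∃ (n : ℕ) (q : ℕ → X), Pth g δ n q ∧ q 0 = x ∧ q n = y := by
    intro x y hxy
    obtain ⟨m, hm, _, ⟨x', hx', rfl⟩, hx''⟩ := hnw (Metric.ball x η) Metric.isOpen_ball
      ⟨x, Metric.mem_ball_self hη0⟩
    have a1 : dist x' x < η := hx'
    have a2 : dist (g^[m] x') x < η := hx''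
    have a3 : dist (g x') (g x) < δ / 3 := hηg (a1.trans_le hη1)
    refine ⟨m, fun k => if k = 0 then x else if k < m then g^[k] x' else y, ?_, rfl, ?_⟩
    · intro k hk
      show dist (g (if k = 0 then x else if k < m then g^[k] x' else y))
        (if k + 1 = 0 then x else if k + 1 < m then g^[k + 1] x' else y) ≤ δ
      rw [if_neg (Nat.succ_ne_zero k)]
      by_cases h0 : k = 0
      · subst h0
        rw [if_pos rfl]
        by_cases h1 : 0 + 1 < m
        · rw [if_pos h1]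
          have e1 : g^[0 + 1] x' = g x' := rfl
          rw [e1, dist_comm]
          linarith
        · rw [if_neg h1]
          have h2 : m = 1 := by omega
          subst h2
          have e1 : g^[1] x' = g x' := rfl
          rw [e1] at a2
          have t1 := dist_triangle (g x) (g x') y
          have t2 := dist_triangle (g x') x y
          rw [dist_comm (g x) (g x')] at t1
          linarith
      · rw [if_neg h0, if_pos hk, ← Function.iterate_succ_apply' g k x']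
        by_cases h1 : k + 1 < m
        · rw [if_pos h1, dist_self]
          exact hδ.le
        · rw [if_neg h1]
          have h2 : k + 1 = m := by omega
          subst h2
          have t2 := dist_triangle (g^[k + 1] x') x y
          exact (t2.trans (add_le_add a2.le hxy.le)).trans (by linarith)
    · show (if m = 0 then x else if m < m then g^[m] x' else y) = y
      rw [if_neg (by omega), if_neg (lt_irrefl _)]
  set R : Set X := {y | ∃ (n : ℕ) (q : ℕ → X), Pth g δ n q ∧ q 0 = u ∧ q n = y} with hR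
  have hRt : ∀ y ∈ R, ∀ z, dist y z < η → z ∈ R := by
    rintro y ⟨n, q, h1, h2, h3⟩ z hyz
    obtain ⟨n', q', h1', h2', h3'⟩ := step y z hyz
    obtain ⟨t, h4, h5, h6⟩ := pth_trans h1 h1' (h3.trans h2'.symm)
    exact ⟨n + n', t, h4, h5.trans h2, h6.trans h3'⟩
  have hRo : IsOpen R := Metric.isOpen_iff.mpr fun y hy => ⟨η, hη0, fun z hz =>
    hRt y hy z (by rw [dist_comm]; exact hz)⟩
  have hRc : IsClosed R := by
    rw [← isOpen_compl_iff, Metric.isOpen_iff]
    intro y hy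
    exact ⟨η, hη0, fun z hz hzR => hy (hRt z hzR y hz)⟩
  have hRn : R.Nonempty := ⟨u, 0, fun _ => u, fun k hk => absurd hk (Nat.not_lt_zero k), rfl, rfl⟩
  have hRu : R = univ := IsClopen.eq_univ ⟨hRc, hRo⟩ hRn
  obtain ⟨n, q, h1, h2, h3⟩ : v ∈ R := by rw [hRu]; exact mem_univ v
  obtain ⟨p, hp1, -, hp3⟩ := glue hδ.le hsh n q h1 h2 h3
  have hp0 : dist u p ≤ ε := hp1 0
  have hpn : dist v (g^[n] p) ≤ ε := hp3 0
  have m1 := min_le_left ε₁ ε₂
  have m2 := min_le_right ε₁ ε₂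
  refine ⟨n, g^[n] p, ⟨p, hεU ?_, rfl⟩, hεV ?_⟩
  · rw [Metric.mem_ball, dist_comm]
    linarith
  · rw [Metric.mem_ball, dist_comm]
    linarith

/-- a hyperbolic system with growth conditions is transitive -/
theorem trans_of_growth {X F : Type*} [MetricSpace X] [CompactSpace X] [PreconnectedSpace X]
    [NormedAddCommGroup F] [InnerProductSpace ℝ F] [FiniteDimensional ℝ F] (S : HypSys X F) {μu μs : ℝ}
    (hμu : 0 < μu) (hμs : 0 < μs)
    (hup : ∀ ε > 0, ∃ A > 0, ∀ m : ℕ, (sN S.g univ ε m : ℝ) ≤ A * μu ^ m)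
    (hup' : ∀ ε > 0, ∃ A > 0, ∀ m : ℕ, (sN S.g.symm univ ε m : ℝ) ≤ A * μs ^ m)
    (hlo : ∀ z, ∃ ε₀ > 0, ∀ ε > 0, ε < ε₀ → ∀ U ∈ 𝓝 z, ∃ c > 0, ∀ m : ℕ,
      c * μu ^ m ≤ (sN S.g U ε m : ℝ))
    (hlo' : ∀ z, ∃ ε₀ > 0, ∀ ε > 0, ε < ε₀ → ∀ U ∈ 𝓝 z, ∃ c > 0, ∀ m : ℕ,
      c * μs ^ m ≤ (sN S.g.symm U ε m : ℝ)) (U V : Set X) (hU : IsOpen U) (hUn : U.Nonempty)
    (hV : IsOpen V) (hVn : V.Nonempty) : ∃ n : ℕ, (S.g^[n] '' U ∩ V).Nonempty := by
  refine trans_of_nw (hyp_shad S) (fun O hO hOn => ?_) U V hU hUn hV hVn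
  by_contra hcon
  push Not at hcon
  obtain ⟨z, hz⟩ := hOn
  obtain ⟨r, hr, hrO⟩ := Metric.isOpen_iff.mp hO z hz
  refine no_wander (hyp_shad S) (z := z) hr (fun m hm x hx hgx => ?_) hμu hμs hup hup' (hlo z)
    (hlo' z)
  have h1 := hcon m hm
  have h2 : S.g^[m] x ∈ S.g^[m] '' O ∩ O := ⟨⟨x, hrO hx, rfl⟩, hrO hgx⟩
  rw [h1] at h2
  exact h2

end Pool.Agent.H74.RS
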