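import Pool.Agent.H74.RS.MainEst
import Pool.Agent.H74.RS.Err

set_option autoImplicit false
set_option linter.unusedSectionVars false

open scoped Manifold ContDiff Topology
open Set Filter MeasureTheory

namespace Pool.Agent.H74.RS

open Pool.Agent.H721R2

/-- `Q` is the projection onto `Vs` along `Vu` -/
structure IsProj {E : Type*} [NormedAddCommGroup E] [NormedSpace ℝ E] (Q : E →L[ℝ] E)
    (Vs Vu : Submodule ℝ E) : Prop where
  mem : ∀ v, Q v ∈ Vs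
  sub : ∀ v, v - Q v ∈ Vu
  zero : ∀ v ∈ Vu, Q v = 0
  id : ∀ v ∈ Vs, Q v = v

theorem exists_proj {E : Type*} [NormedAddCommGroup E] [NormedSpace ℝ E] [FiniteDimensional ℝ E]
    (Vs Vu : Submodule ℝ E) (h : IsCompl Vs Vu) : ∃ Q : E →L[ℝ] E, IsProj Q Vs Vu := by
  let p : E →ₗ[ℝ] Vs := Submodule.projectionOnto Vs Vu h
  refine ⟨LinearMap.toContinuousLinearMap (Vs.subtype ∘ₗ p), ?_, ?_, ?_, ?_⟩
  · intro v; exact (p v).2
  · intro v
    show v - (p v : E) ∈ Vu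
    rw [← Submodule.ker_projectionOnto h, LinearMap.mem_ker, map_sub,
      Submodule.projectionOnto_apply_left h (p v)]
    exact sub_self _
  · intro v hv
    show (p v : E) = 0
    have : p v = 0 := (Submodule.projectionOnto_apply_eq_zero_iff h).mpr hv
    rw [this]; rfl
  · intro v hv
    show (p v : E) = v
    have : p v = ⟨v, hv⟩ := Submodule.projectionOnto_apply_left h ⟨v, hv⟩
    rw [this]

section phi

variable {E : Type*} [NormedAddCommGroup E] [NormedSpace ℝ E] [FiniteDimensional ℝ E]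
  {M : Type*} [MetricSpace M] [CompactSpace M] [ChartedSpace E M] [IsManifold 𝓘(ℝ, E) 1 M]
  {F : Type*} [NormedAddCommGroup F] [InnerProductSpace ℝ F] [FiniteDimensional ℝ F]

/-- the inclusion of coordinates -/
noncomputable def inc {u : ℕ} {P : Submodule ℝ E} (B : Module.Basis (Fin u) ℝ P) :
    (Fin u → ℝ) →L[ℝ] E :=
  LinearMap.toContinuousLinearMap (P.subtype ∘ₗ B.equivFun.symm.toLinearMap)

theorem inc_mem {u : ℕ} {P : Submodule ℝ E} (B : Module.Basis (Fin u) ℝ P) (ξ : Fin u → ℝ) :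
    inc B ξ ∈ P := (B.equivFun.symm ξ).2

theorem inc_bound {u : ℕ} {P : Submodule ℝ E} (B : Module.Basis (Fin u) ℝ P) :
    ∃ c > 0, ∀ ξ, ‖ξ‖ ≤ c * ‖inc B ξ‖ := by
  have hinj : Function.Injective (inc B) := by
    intro ξ ξ' h
    have h1 : (B.equivFun.symm ξ : P) = B.equivFun.symm ξ' := Subtype.ext h
    exact B.equivFun.symm.injective h1
  obtain ⟨K, hK0, hK⟩ := (LinearMap.injective_iff_antilipschitz (inc B : (Fin u → ℝ) →ₗ[ℝ] E)).mp hinj
  exact ⟨K, hK0, fun ξ => ZeroHomClass.bound_of_antilipschitz (inc B : (Fin u → ℝ) →ₗ[ℝ] E) hK ξ⟩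

/-- the coordinate map -/
noncomputable def phi {u : ℕ} (e : M → F) (f : M → M) (x₀ : M) (Q : E →L[ℝ] E) {P : Submodule ℝ E}
    (B : Module.Basis (Fin u) ℝ P) (Pr : F →L[ℝ] (Fin u → ℝ)) (n : ℕ) (y : E) : E :=
  Q y + inc B (Pr (e (f^[n] (ic E x₀ y))))

/-- its derivative -/
noncomputable def dphi {u : ℕ} (e : M → F) (f : M → M) (x₀ : M) (Q : E →L[ℝ] E) {P : Submodule ℝ E}
    (B : Module.Basis (Fin u) ℝ P) (Pr : F →L[ℝ] (Fin u → ℝ)) (n : ℕ) (y : E) : E →L[ℝ] E :=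
  Q + (inc B).comp (Pr.comp (fderiv ℝ (hatMap (e ∘ f^[n]) x₀ : E → F) y))

theorem phi_deriv {u : ℕ} (e : M → F) (he : ContMDiff 𝓘(ℝ, E) 𝓘(ℝ, F) 1 e) (f : M → M)
    (hf : ContMDiff 𝓘(ℝ, E) 𝓘(ℝ, E) 1 f) (x₀ : M) (Q : E →L[ℝ] E) {P : Submodule ℝ E}
    (B : Module.Basis (Fin u) ℝ P) (Pr : F →L[ℝ] (Fin u → ℝ)) (n : ℕ) {y : E} (hy : y ∈ tg E x₀) :
    HasStrictFDerivAt (phi e f x₀ Q B Pr n) (dphi e f x₀ Q B Pr n y) y := by
  have h1 : ContMDiff 𝓘(ℝ, E) 𝓘(ℝ, F) 1 (e ∘ f^[n]) := he.comp (iter_smooth f hf n)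
  have h2 := (hatMap_contDiffAt (e ∘ f^[n]) h1 x₀ y hy).hasStrictFDerivAt (by norm_num)
  have h3 := ((inc B).comp Pr).hasStrictFDerivAt.comp y h2
  exact Q.hasStrictFDerivAt.add h3

theorem dphi_det {u : ℕ} (e : M → F) (he : ContMDiff 𝓘(ℝ, E) 𝓘(ℝ, F) 1 e) (f : M → M)
    (hf : ContMDiff 𝓘(ℝ, E) 𝓘(ℝ, E) 1 f) (x₀ : M) (Q : E →L[ℝ] E) {Vs P : Submodule ℝ E}
    (hQ : IsProj Q Vs P)
    (B : Module.Basis (Fin u) ℝ P) (Pr : F →L[ℝ] (Fin u → ℝ)) (n : ℕ) {y : E} (hy : y ∈ tg E x₀) :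
    (dphi e f x₀ Q B Pr n y).det = pl (f^[n] ∘ ic E x₀) (pform e Pr) y (fun j => (B j : E)) := by
  have h1 : ContMDiff 𝓘(ℝ, E) 𝓘(ℝ, F) 1 (e ∘ f^[n]) := he.comp (iter_smooth f hf n)
  have h2 : ∀ v, fderiv ℝ (hatMap (e ∘ f^[n]) x₀ : E → F) y v =
      dm E e (f^[n] (ic E x₀ y)) (dc (f^[n] ∘ ic E x₀) y v) := by
    intro v
    rw [fderiv_hatMap (e ∘ f^[n]) h1 x₀ hy, dm_comp e he _ (iter_smooth f hf n),
      dc_comp _ (iter_smooth f hf n) x₀ hy]
  rw [pl_apply, pform_apply, detA_apply]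
  refine block_det P B (dphi e f x₀ Q B Pr n y).toLinearMap (fun v => ?_) _ (fun j => ?_)
  · show Q v + inc B _ - v ∈ P
    have h3 : Q v + inc B (Pr (fderiv ℝ (hatMap (e ∘ f^[n]) x₀ : E → F) y v)) - v =
      inc B (Pr (fderiv ℝ (hatMap (e ∘ f^[n]) x₀ : E → F) y v)) - (v - Q v) := by abel
    exact h3 ▸ P.sub_mem (inc_mem B _) (hQ.sub v)
  · show Q (B j : E) + inc B (Pr (fderiv ℝ (hatMap (e ∘ f^[n]) x₀ : E → F) y (B j))) = _
    rw [hQ.zero _ (B j).2, zero_add, h2]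
    rfl

theorem dphi_surj {u : ℕ} (e : M → F) (f : M → M) (x₀ : M) (Q : E →L[ℝ] E) {P : Submodule ℝ E}
    (B : Module.Basis (Fin u) ℝ P) (Pr : F →L[ℝ] (Fin u → ℝ)) (n : ℕ) {y : E}
    (h : (dphi e f x₀ Q B Pr n y).det ≠ 0) :
    (dphi e f x₀ Q B Pr n y).range = ⊤ := by
  have h1 : LinearMap.det (dphi e f x₀ Q B Pr n y).toLinearMap ≠ 0 := h
  have h3 : Function.Surjective (dphi e f x₀ Q B Pr n y).toLinearMap :=
    (LinearMap.equivOfDetNeZero (dphi e f x₀ Q B Pr n y).toLinearMap h1).surjective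
  exact LinearMap.range_eq_top.mpr h3

theorem phi_Q {u : ℕ} (e : M → F) (f : M → M) (x₀ : M) (Q : E →L[ℝ] E) {Vs P : Submodule ℝ E}
    (hQ : IsProj Q Vs P) (B : Module.Basis (Fin u) ℝ P) (Pr : F →L[ℝ] (Fin u → ℝ)) (n : ℕ)
    (y y' : E) :
    Q (y' - y) = Q (phi e f x₀ Q B Pr n y' - phi e f x₀ Q B Pr n y) ∧
    inc B (Pr (e (f^[n] (ic E x₀ y')) - e (f^[n] (ic E x₀ y)))) =
      (phi e f x₀ Q B Pr n y' - phi e f x₀ Q B Pr n y) - Q (y' - y) := by
  have h1 : ∀ y, Q (phi e f x₀ Q B Pr n y) = Q y := by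
    intro y
    show Q (Q y + inc B _) = Q y
    rw [map_add, hQ.zero _ (inc_mem B _), add_zero, hQ.id _ (hQ.mem y)]
  constructor
  · rw [map_sub, map_sub, h1, h1]
  · rw [map_sub, map_sub, map_sub]
    show _ = (Q y' + inc B (Pr (e (f^[n] (ic E x₀ y')))) - (Q y + inc B (Pr (e (f^[n] (ic E x₀ y)))))) - _
    abel

end phi

/-- The common setting. -/
structure Sys {E : Type*} [NormedAddCommGroup E] [NormedSpace ℝ E] [FiniteDimensional ℝ E]
    {M : Type*} [MetricSpace M] [CompactSpace M] [ChartedSpace E M] [IsManifold 𝓘(ℝ, E) 1 M]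
    {F : Type*} [NormedAddCommGroup F] [InnerProductSpace ℝ F] [FiniteDimensional ℝ F]
    (e : M → F) (f : M ≃ₜ M) (Es Eu : M → Submodule ℝ E) (C a b Ls Lu : ℝ) (u N₀ : ℕ)
    (S : HypSys M F) : Prop where
  he : ContMDiff 𝓘(ℝ, E) 𝓘(ℝ, F) 1 e
  hiso : ∀ x y, dist x y = ‖e x - e y‖
  hinj : ∀ x, Function.Injective (dm E e x)
  h : EAnosov e f Es Eu C a b Ls Lu
  hu : ∀ x, Module.finrank ℝ (Eu x) = u
  hSe : S.e = e
  hSg : S.g = iterHomeo f N₀
  hVs : ∀ x, S.Vs x = Submodule.map (dm E e x).toLinearMap (Es x)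
  hVu : ∀ x, S.Vu x = Submodule.map (dm E e x).toLinearMap (Eu x)
  hN₀ : 1 ≤ N₀

section vol

variable {E : Type*} [NormedAddCommGroup E] [NormedSpace ℝ E] [FiniteDimensional ℝ E]
  {M : Type*} [MetricSpace M] [CompactSpace M] [ChartedSpace E M] [IsManifold 𝓘(ℝ, E) 1 M]
  {F : Type*} [NormedAddCommGroup F] [InnerProductSpace ℝ F] [FiniteDimensional ℝ F]
  {e : M → F} {f : M ≃ₜ M} {Es Eu : M → Submodule ℝ E} {C a b Ls Lu : ℝ} {u N₀ : ℕ}
  {S : HypSys M F}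

theorem Sys.iter (hS : Sys e f Es Eu C a b Ls Lu u N₀ S) (m : ℕ) : S.g^[m] = f^[N₀ * m] := by
  rw [hS.hSg, Function.iterate_mul]; rfl

theorem bdd_e (he : ContMDiff 𝓘(ℝ, E) 𝓘(ℝ, F) 1 e) : ∃ R > 0, ∀ z : M, ‖e z‖ ≤ R := by
  obtain ⟨R, hR⟩ := (isCompact_range (he.continuous)).isBounded.exists_norm_le
  refine ⟨max R 1, lt_max_of_lt_right one_pos, fun z => (hR _ ⟨z, rfl⟩).trans (le_max_left _ _)⟩

/-- Upper bound for the integral over small dynamical balls, near a final point. -/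
theorem vol_upper_loc [MeasurableSpace E] [BorelSpace E] (ν : Measure E) [ν.IsAddHaarMeasure]
    (hS : Sys e f Es Eu C a b Ls Lu u N₀ S) (x₀ : M)
    (B : Module.Basis (Fin u) ℝ (Eu x₀)) {w : M → E [⋀^Fin u]→L[ℝ] ℝ} (hw : C0Form w) (z₀ : M) :
    ∃ r > 0, ∃ C' > 0, ∃ N : ℕ, ∀ m : ℕ, N ≤ N₀ * m → ∀ K : Set E, MeasurableSet K →
      K ⊆ Metric.ball (extChartAt 𝓘(ℝ, E) x₀ x₀) r →
      (∀ y ∈ K, dist (S.g^[m] (ic E x₀ y)) z₀ < r) →
      (∀ y ∈ K, ∀ y' ∈ K, ∀ k ≤ m, dist (S.g^[k] (ic E x₀ y)) (S.g^[k] (ic E x₀ y')) < r) →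
      ∫⁻ y in K, ENNReal.ofReal |pl (f^[N₀ * m] ∘ ic E x₀) w y (fun j => (B j : E))| ∂ν ≤
        ENNReal.ofReal C' := by
  obtain ⟨Pr, C₁, hC₁, hPr⟩ := exists_final hS.he hS.hinj hS.h hS.hu z₀
  obtain ⟨Q, hQ⟩ := exists_proj (Es x₀) (Eu x₀) (hS.h.compl x₀)
  obtain ⟨r1, hr1, C₃, hC₃, hb1, hmain⟩ := main_est hS.he hS.hiso hS.hinj hS.h S hS.hSe hS.hVs hS.hVu
    x₀ z₀ Q hQ.mem hQ.sub Pr hC₁ hPr
  obtain ⟨rF, C₂, hF⟩ := exists_frameBall hS.he hS.hinj hS.h hS.hu x₀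
  obtain ⟨r', hr', hP'⟩ := hPr 1 one_pos
  have hpf : C0Form (pform (E := E) e Pr) := pform_c0 e hS.he Pr
  obtain ⟨C₄, hC₄, N, hN⟩ := pe_compare hS.he hS.hinj hS.h hF B hpf
    (Z := Metric.closedBall z₀ (r' / 2)) Metric.isClosed_closedBall (by
      intro z hz v hv hlin
      have hz' : dist z z₀ < r' := lt_of_le_of_lt hz (by linarith)
      exact pform_ne e Pr z (Eu z) (hS.hinj z) (hP' z hz').1 v hv hlin) hw
  obtain ⟨Re, hRe, hRe'⟩ := bdd_e hS.he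
  set y₀ := extChartAt 𝓘(ℝ, E) x₀ x₀ with hy₀
  set r := min (min r1 rF) (r' / 2) with hr
  have hr0 : 0 < r := lt_min (lt_min hr1 hF.1) (by positivity)
  have hrr1 : r ≤ r1 := (min_le_left _ _).trans (min_le_left _ _)
  have hrrF : r ≤ rF := (min_le_left _ _).trans (min_le_right _ _)
  have hrr' : r ≤ r' / 2 := min_le_right _ _
  set R := ‖Q‖ * (‖y₀‖ + r) + ‖inc B‖ * (‖Pr‖ * Re) with hR
  have hfin : ν (Metric.closedBall (0 : E) R) ≠ ⊤ := (isCompact_closedBall _ _).measure_lt_top.ne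
  refine ⟨r, hr0, C₄ * (ν (Metric.closedBall (0 : E) R)).toReal + 1, by positivity, N,
    fun m hm K hKm hKb hKz hKd => ?_⟩
  have hit := hS.iter m
  have hKt : ∀ y ∈ K, y ∈ tg E x₀ := fun y hy => hb1 (Metric.ball_subset_ball hrr1 (hKb hy))
  set Φ := phi e f x₀ Q B Pr (N₀ * m) with hΦ
  have hder : ∀ y ∈ K, HasFDerivWithinAt Φ (dphi e f x₀ Q B Pr (N₀ * m) y) K y := fun y hy =>
    (phi_deriv e hS.he f hS.h.smooth x₀ Q B Pr (N₀ * m) (hKt y hy)).hasFDerivAt.hasFDerivWithinAt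
  have hinjOn : InjOn Φ K := by
    intro y hy y' hy' hyy
    obtain ⟨q1, q2⟩ := phi_Q e f x₀ Q hQ B Pr (N₀ * m) y y'
    have h0 : phi e f x₀ Q B Pr (N₀ * m) y' - phi e f x₀ Q B Pr (N₀ * m) y = 0 := by
      rw [sub_eq_zero]; exact hyy.symm
    rw [h0, map_zero] at q1
    rw [h0, q1, sub_zero] at q2
    obtain ⟨c, hc, hinc⟩ := inc_bound B
    have h1 := hinc (Pr (e (f^[N₀ * m] (ic E x₀ y')) - e (f^[N₀ * m] (ic E x₀ y))))
    rw [q2, norm_zero, mul_zero] at h1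
    obtain ⟨g1, g2⟩ := hmain y (Metric.ball_subset_ball hrr1 (hKb hy)) y'
      (Metric.ball_subset_ball hrr1 (hKb hy'))
    have g3 := g2 m ((hKz y hy).trans_le hrr1) (fun k hk => (hKd y hy y' hy' k hk).trans_le hrr1)
      0 (Nat.zero_le _)
    rw [hit, q1, norm_zero, zero_add] at g3
    have g4 : dist (ic E x₀ y) (ic E x₀ y') ≤ 0 := by
      refine (show dist (ic E x₀ y) (ic E x₀ y') ≤ _ from g3).trans ?_
      exact mul_nonpos_of_nonneg_of_nonpos hC₃.le h1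
    have g5 : ‖y' - y‖ ≤ 0 := g1.trans (mul_nonpos_of_nonneg_of_nonpos hC₃.le g4)
    have g6 : y' - y = 0 := norm_le_zero_iff.mp g5
    exact (sub_eq_zero.mp g6).symm
  have himg : Φ '' K ⊆ Metric.closedBall (0 : E) R := by
    rintro _ ⟨y, hy, rfl⟩
    rw [mem_closedBall_zero_iff]
    show ‖Q y + inc B (Pr (e (f^[N₀ * m] (ic E x₀ y))))‖ ≤ R
    have h1 : ‖y‖ ≤ ‖y₀‖ + r := by
      have h2 : dist y y₀ < r := hKb hy
      rw [dist_eq_norm] at h2
      have h3 := norm_le_norm_add_norm_sub' y y₀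
      linarith
    refine (norm_add_le _ _).trans (add_le_add ?_ ?_)
    · exact (Q.le_opNorm y).trans (mul_le_mul_of_nonneg_left h1 (norm_nonneg _))
    · refine ((inc B).le_opNorm _).trans (mul_le_mul_of_nonneg_left ?_ (norm_nonneg _))
      exact (Pr.le_opNorm _).trans (mul_le_mul_of_nonneg_left (hRe' _) (norm_nonneg _))
  calc ∫⁻ y in K, ENNReal.ofReal |pl (f^[N₀ * m] ∘ ic E x₀) w y (fun j => (B j : E))| ∂ν
      ≤ ∫⁻ y in K, ENNReal.ofReal C₄ *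
          ENNReal.ofReal |(dphi e f x₀ Q B Pr (N₀ * m) y).det| ∂ν := by
        apply setLIntegral_mono' hKm
        intro y hy
        rw [← ENNReal.ofReal_mul hC₄.le]
        apply ENNReal.ofReal_le_ofReal
        rw [dphi_det e hS.he f hS.h.smooth x₀ Q hQ B Pr (N₀ * m) (hKt y hy)]
        refine hN y (Metric.ball_subset_ball hrrF (hKb hy)) (N₀ * m) hm ?_
        have := hKz y hy
        rw [hit] at this
        exact (this.trans_le hrr').le
    _ = ENNReal.ofReal C₄ * ∫⁻ y in K, ENNReal.ofReal |(dphi e f x₀ Q B Pr (N₀ * m) y).det| ∂ν :=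
        lintegral_const_mul' _ _ ENNReal.ofReal_ne_top
    _ ≤ ENNReal.ofReal C₄ * ν (Φ '' K) := by
        gcongr
        exact lintegral_abs_det_fderiv_le_addHaar_image ν hKm hder hinjOn
    _ ≤ ENNReal.ofReal C₄ * ν (Metric.closedBall (0 : E) R) := by
        gcongr
    _ = ENNReal.ofReal (C₄ * (ν (Metric.closedBall (0 : E) R)).toReal) := by
        rw [ENNReal.ofReal_mul hC₄.le, ENNReal.ofReal_toReal hfin]
    _ ≤ _ := ENNReal.ofReal_le_ofReal (by linarith)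

/-- Lower bound for the integral over small dynamical balls, near a final point. -/
theorem vol_lower_loc [MeasurableSpace E] [BorelSpace E] (ν : Measure E) [ν.IsAddHaarMeasure]
    (hS : Sys e f Es Eu C a b Ls Lu u N₀ S) (x₀ : M)
    (B : Module.Basis (Fin u) ℝ (Eu x₀)) {w : M → E [⋀^Fin u]→L[ℝ] ℝ} (hw : C0Form w)
    (hnz : ∀ z, ∀ v : Fin u → E, (∀ j, v j ∈ Eu z) → LinearIndependent ℝ v → w z v ≠ 0)
    (z₀ : M) {R₀ : ℝ} (hR₀ : 0 < R₀) :
    ∃ r > 0, r ≤ R₀ ∧ Metric.ball (extChartAt 𝓘(ℝ, E) x₀ x₀) r ⊆ tg E x₀ ∧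
      ∀ ρ < r, ∀ δ > 0, ∃ c > 0, ∃ N : ℕ, ∀ m : ℕ, N ≤ N₀ * m →
      ∀ y ∈ Metric.closedBall (extChartAt 𝓘(ℝ, E) x₀ x₀) ρ, dist (S.g^[m] (ic E x₀ y)) z₀ < r →
      ENNReal.ofReal c ≤
        ∫⁻ y' in {y' ∈ Metric.ball (extChartAt 𝓘(ℝ, E) x₀ x₀) r |
          ∀ k ≤ m, dist (S.g^[k] (ic E x₀ y)) (S.g^[k] (ic E x₀ y')) ≤ δ},
        ENNReal.ofReal |pl (f^[N₀ * m] ∘ ic E x₀) w y' (fun j => (B j : E))| ∂ν := by
  obtain ⟨Pr, C₁, hC₁, hPr⟩ := exists_final hS.he hS.hinj hS.h hS.hu z₀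
  obtain ⟨Q, hQ⟩ := exists_proj (Es x₀) (Eu x₀) (hS.h.compl x₀)
  obtain ⟨r1, hr1, C₃, hC₃, hb1, hmain⟩ := main_est hS.he hS.hiso hS.hinj hS.h S hS.hSe hS.hVs hS.hVu
    x₀ z₀ Q hQ.mem hQ.sub Pr hC₁ hPr
  obtain ⟨rF, C₂, hF⟩ := exists_frameBall hS.he hS.hinj hS.h hS.hu x₀
  obtain ⟨r', hr', hP'⟩ := hPr 1 one_pos
  have hpf : C0Form (pform (E := E) e Pr) := pform_c0 e hS.he Pr
  -- both comparisons
  obtain ⟨C₄, hC₄, N, hN⟩ := pe_compare hS.he hS.hinj hS.h hF B hw isClosed_univ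
    (fun z _ => hnz z) hpf
  obtain ⟨C₅, hC₅, N', hN'⟩ := pe_compare hS.he hS.hinj hS.h hF B hpf
    (Z := Metric.closedBall z₀ (r' / 2)) Metric.isClosed_closedBall (by
      intro z hz v hv hlin
      have hz' : dist z z₀ < r' := lt_of_le_of_lt hz (by linarith)
      exact pform_ne e Pr z (Eu z) (hS.hinj z) (hP' z hz').1 v hv hlin) hw
  set y₀ := extChartAt 𝓘(ℝ, E) x₀ x₀ with hy₀
  set r := min (min r1 (rF / 2)) (min (r' / 4) R₀) with hr
  have hrF0 := hF.1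
  have hr0 : 0 < r := lt_min (lt_min hr1 (by positivity)) (lt_min (by positivity) hR₀)
  have hrr1 : r ≤ r1 := (min_le_left _ _).trans (min_le_left _ _)
  have hrrF : r ≤ rF / 2 := (min_le_left _ _).trans (min_le_right _ _)
  have hrr' : r ≤ r' / 4 := (min_le_right _ _).trans (min_le_left _ _)
  refine ⟨r, hr0, (min_le_right _ _).trans (min_le_right _ _),
    (Metric.ball_subset_ball hrr1).trans hb1, fun ρ hρ δ hδ => ?_⟩
  -- lower bound for the coefficient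
  have hlow := pe_ne hS.he hS.hinj hS.h hF B hw hnz
  obtain ⟨N'', hN''⟩ := hlow
  obtain ⟨c, hc, hinc⟩ := inc_bound B
  set δ' := min δ (r / 2) with hδ'
  have hδ'0 : 0 < δ' := lt_min hδ (by positivity)
  set ρ' := (r - ρ) / 2 with hρ'
  have hρ'0 : 0 < ρ' := by rw [hρ']; linarith
  set NQ := ‖Q‖ + 1 with hNQ
  have hNQ0 : 0 < NQ := by positivity
  have hQn : ∀ v, ‖Q v‖ ≤ NQ * ‖v‖ := fun v => (Q.le_opNorm v).trans
    (mul_le_mul_of_nonneg_right (by rw [hNQ]; linarith) (norm_nonneg _))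
  set A := C₃ * (NQ + c * (1 + NQ)) with hA
  have hA0 : 0 < A := by positivity
  set t := min (δ' / (2 * A)) (ρ' / (2 * (C₃ * A))) with ht
  have ht0 : 0 < t := lt_min (by positivity) (by positivity)
  have ht1 : A * t < δ' := by
    have h1 : t ≤ δ' / (2 * A) := min_le_left _ _
    rw [le_div_iff₀ (by positivity)] at h1
    linarith
  have ht2 : C₃ * (A * t) < ρ' := by
    have h1 : t ≤ ρ' / (2 * (C₃ * A)) := min_le_right _ _
    rw [le_div_iff₀ (by positivity)] at h1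
    linarith
  have hfin : ν (Metric.ball (0 : E) t) ≠ ⊤ := Metric.isBounded_ball.measure_lt_top.ne
  have hposm : 0 < (ν (Metric.ball (0 : E) t)).toReal :=
    ENNReal.toReal_pos (Metric.measure_ball_pos ν 0 ht0).ne' hfin
  refine ⟨(ν (Metric.ball (0 : E) t)).toReal / C₄, by positivity, max (max N N') N'', ?_⟩
  intro m hm y hy hz
  have hit := hS.iter m
  have hmN : N ≤ N₀ * m := (le_max_left _ _).trans ((le_max_left _ _).trans hm)
  have hmN' : N' ≤ N₀ * m := (le_max_right _ _).trans ((le_max_left _ _).trans hm)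
  have hmN'' : N'' ≤ N₀ * m := (le_max_right _ _).trans hm
  set Φ := phi e f x₀ Q B Pr (N₀ * m) with hΦ
  have hyr : dist y y₀ ≤ ρ := hy
  -- the compact set
  set K : Set E := {y' ∈ Metric.closedBall y ρ' |
    ∀ k ≤ m, dist (S.g^[k] (ic E x₀ y)) (S.g^[k] (ic E x₀ y')) ≤ δ'} with hK
  have hsub : Metric.closedBall y ρ' ⊆ Metric.ball y₀ r := by
    intro y' hy'
    have h1 : dist y' y ≤ ρ' := hy'
    have h2 := dist_triangle y' y y₀
    show dist y' y₀ < r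
    rw [hρ'] at h1
    linarith
  have hsubt : Metric.closedBall y ρ' ⊆ tg E x₀ :=
    hsub.trans ((Metric.ball_subset_ball hrr1).trans hb1)
  have hcont : ∀ k, ContinuousOn (fun y' => dist (S.g^[k] (ic E x₀ y)) (S.g^[k] (ic E x₀ y')))
      (Metric.closedBall y ρ') := by
    intro k y' hy'
    have h1 : ContinuousAt (ic E x₀) y' := (ic_contMDiffAt (M := M) 1 x₀ (hsubt hy')).continuousAt
    have h2 : Continuous (S.g^[k]) := S.g.continuous.iterate k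
    have h3 : ContinuousAt (fun y' => S.g^[k] (ic E x₀ y')) y' := h2.continuousAt.comp h1
    have h4 : ContinuousAt (fun y' => dist (S.g^[k] (ic E x₀ y)) (S.g^[k] (ic E x₀ y'))) y' := by
      fun_prop
    exact h4.continuousWithinAt
  have hKcl : IsClosed K := by
    have : K = Metric.closedBall y ρ' ∩ ⋂ k ∈ Finset.range (m + 1),
        (Metric.closedBall y ρ' ∩ (fun y' => dist (S.g^[k] (ic E x₀ y)) (S.g^[k] (ic E x₀ y'))) ⁻¹'
          Iic δ') := by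
      ext y'
      simp only [hK, mem_ofPred_eq, mem_inter_iff, mem_iInter, mem_preimage, mem_Iic,
        Finset.mem_range, Nat.lt_succ_iff]
      constructor
      · rintro ⟨h1, h2⟩
        exact ⟨h1, fun k hk => ⟨h1, h2 k hk⟩⟩
      · rintro ⟨h1, h2⟩
        exact ⟨h1, fun k hk => (h2 k hk).2⟩
    rw [this]
    apply Metric.isClosed_closedBall.inter
    apply isClosed_biInter
    intro k _
    exact (hcont k).preimage_isClosed_of_isClosed Metric.isClosed_closedBall isClosed_Iic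
  have hKc : IsCompact K := (isCompact_closedBall y ρ').of_isClosed_subset hKcl (fun _ h => h.1)
  have hKm : MeasurableSet K := hKcl.measurableSet
  have hyK : y ∈ K := ⟨Metric.mem_closedBall_self hρ'0.le, fun k _ => by
    rw [dist_self]; exact hδ'0.le⟩
  have hKt : ∀ y' ∈ K, y' ∈ tg E x₀ := fun y' hy' => hsubt hy'.1
  have hder : ∀ y' ∈ K, HasStrictFDerivAt Φ (dphi e f x₀ Q B Pr (N₀ * m) y') y' := fun y' hy' =>
    phi_deriv e hS.he f hS.h.smooth x₀ Q B Pr (N₀ * m) (hKt y' hy')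
  have hyb : y ∈ Metric.ball y₀ r1 := Metric.ball_subset_ball hrr1 (hsub (Metric.mem_closedBall_self hρ'0.le))
  -- final points
  have hfinal : ∀ y' ∈ K, f^[N₀ * m] (ic E x₀ y') ∈ Metric.closedBall z₀ (r' / 2) := by
    intro y' hy'
    have h1 := hy'.2 m le_rfl
    rw [← hit]
    have h2 := dist_triangle_left (S.g^[m] (ic E x₀ y')) z₀ (S.g^[m] (ic E x₀ y))
    have h3 : δ' ≤ r / 2 := min_le_right _ _
    show dist (S.g^[m] (ic E x₀ y')) z₀ ≤ r' / 2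
    linarith
  -- points of `K` with image in the small ball are interior
  have hint : ∀ y' ∈ K, Φ y' ∈ Metric.ball (Φ y) t → K ∈ 𝓝 y' := by
    intro y' hy' hyt
    have hyt' : ‖Φ y' - Φ y‖ < t := by rwa [← dist_eq_norm]
    obtain ⟨q1, q2⟩ := phi_Q e f x₀ Q hQ B Pr (N₀ * m) y y'
    have k1 : ‖Q (y' - y)‖ ≤ NQ * t := by
      rw [q1]
      exact (hQn _).trans (mul_le_mul_of_nonneg_left hyt'.le hNQ0.le)
    have k2 := hinc (Pr (e (f^[N₀ * m] (ic E x₀ y')) - e (f^[N₀ * m] (ic E x₀ y))))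
    rw [q2] at k2
    have k3 : ‖phi e f x₀ Q B Pr (N₀ * m) y' - phi e f x₀ Q B Pr (N₀ * m) y - Q (y' - y)‖ ≤
        (1 + NQ) * t := by
      refine (norm_sub_le _ _).trans ?_
      have : ‖phi e f x₀ Q B Pr (N₀ * m) y' - phi e f x₀ Q B Pr (N₀ * m) y‖ < t := hyt'
      linarith
    have k4 : ‖Pr (e (f^[N₀ * m] (ic E x₀ y')) - e (f^[N₀ * m] (ic E x₀ y)))‖ ≤
        c * ((1 + NQ) * t) := k2.trans (mul_le_mul_of_nonneg_left k3 hc.le)
    obtain ⟨g1, g2⟩ := hmain y hyb y' (Metric.ball_subset_ball hrr1 (hsub hy'.1))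
    have hδr : δ' < r1 := by
      have h3 : δ' ≤ r / 2 := min_le_right _ _
      linarith
    have g3 := g2 m (hz.trans_le hrr1) (fun k hk => (hy'.2 k hk).trans_lt hδr)
    have g4 : ∀ k ≤ m, dist (S.g^[k] (ic E x₀ y)) (S.g^[k] (ic E x₀ y')) ≤ A * t := by
      intro k hk
      refine (g3 k hk).trans ?_
      rw [hit, hA, mul_assoc]
      apply mul_le_mul_of_nonneg_left _ hC₃.le
      linarith
    have g5 : ‖y' - y‖ < ρ' := by
      have h1 := g4 0 (Nat.zero_le _)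
      have h2 : dist (ic E x₀ y) (ic E x₀ y') ≤ A * t := h1
      have h3 := mul_le_mul_of_nonneg_left h2 hC₃.le
      exact (g1.trans h3).trans_lt ht2
    have g6 : y' ∈ Metric.ball y ρ' := by
      rw [Metric.mem_ball, dist_eq_norm]; exact g5
    have g7 : Metric.ball y ρ' ∈ 𝓝 y' := Metric.isOpen_ball.mem_nhds g6
    have g8 : ∀ᶠ y'' in 𝓝 y', ∀ k ∈ Finset.range (m + 1),
        dist (S.g^[k] (ic E x₀ y)) (S.g^[k] (ic E x₀ y'')) < δ' := by
      rw [Filter.eventually_all_finset]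
      intro k hk
      have h1 : ContinuousAt (fun y' => dist (S.g^[k] (ic E x₀ y)) (S.g^[k] (ic E x₀ y'))) y' :=
        (hcont k).continuousAt (Filter.mem_of_superset g7 Metric.ball_subset_closedBall)
      exact h1.eventually_lt continuousAt_const
        ((g4 k (Nat.lt_succ_iff.mp (Finset.mem_range.mp hk))).trans_lt ht1)
    filter_upwards [g7, g8] with y'' h1 h2
    exact ⟨Metric.ball_subset_closedBall h1, fun k hk =>
      (h2 k (Finset.mem_range.mpr (Nat.lt_succ_iff.mpr hk))).le⟩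
  -- `Φ` is open at the points of `K`
  have hopen : ∀ y' ∈ K, Φ y' ∈ Metric.ball (Φ y) t → Φ '' K ∈ 𝓝 (Φ y') := by
    intro y' hy' hyt
    have hyF : y' ∈ Metric.ball y₀ rF :=
      Metric.ball_subset_ball (by linarith) (hsub hy'.1)
    have h1 : pl (f^[N₀ * m] ∘ ic E x₀) w y' (fun j => (B j : E)) ≠ 0 := hN'' y' hyF _ hmN''
    have h2 := hN' y' hyF _ hmN' (hfinal y' hy')
    have h3 : (dphi e f x₀ Q B Pr (N₀ * m) y').det ≠ 0 := by
      rw [dphi_det e hS.he f hS.h.smooth x₀ Q hQ B Pr (N₀ * m) (hKt y' hy')]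
      intro h0
      rw [h0, abs_zero, mul_zero] at h2
      exact h1 (abs_nonpos_iff.mp h2)
    have h4 := (hder y' hy').map_nhds_eq_of_surj (dphi_surj e f x₀ Q B Pr (N₀ * m) h3)
    rw [← h4]
    exact image_mem_map (hint y' hy' hyt)
  -- the image contains a ball
  have himg : Metric.ball (Φ y) t ⊆ Φ '' K := by
    have hc1 : IsClosed (Φ '' K) := (hKc.image_of_continuousOn fun y' hy' =>
      (hder y' hy').continuousAt.continuousWithinAt).isClosed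
    have h1 : Metric.ball (Φ y) t ⊆ interior (Φ '' K) := by
      apply (Metric.isPreconnected_ball).subset_of_closure_inter_subset isOpen_interior
      · refine ⟨Φ y, Metric.mem_ball_self ht0, ?_⟩
        exact mem_interior_iff_mem_nhds.mpr (hopen y hyK (Metric.mem_ball_self ht0))
      · rintro p ⟨hp1, hp2⟩
        have hp3 : p ∈ Φ '' K := by
          have := closure_mono interior_subset hp1
          rwa [hc1.closure_eq] at this
        obtain ⟨y', hy', rfl⟩ := hp3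
        exact mem_interior_iff_mem_nhds.mpr (hopen y' hy' hp2)
    exact h1.trans interior_subset
  have hKsub : K ⊆ {y' ∈ Metric.ball y₀ r |
          ∀ k ≤ m, dist (S.g^[k] (ic E x₀ y)) (S.g^[k] (ic E x₀ y')) ≤ δ} := fun y' hy' =>
    ⟨hsub hy'.1, fun k hk => (hy'.2 k hk).trans (min_le_left _ _)⟩
  have hC₄' : ENNReal.ofReal ((ν (Metric.ball (0 : E) t)).toReal / C₄) =
      (ENNReal.ofReal C₄)⁻¹ * ν (Metric.ball (0 : E) t) := by
    rw [div_eq_inv_mul, ENNReal.ofReal_mul (by positivity), ENNReal.ofReal_toReal hfin,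
      ENNReal.ofReal_inv_of_pos hC₄]
  have hC₄0 : ENNReal.ofReal C₄ ≠ 0 := by
    rw [Ne, ENNReal.ofReal_eq_zero, not_le]; exact hC₄
  rw [hC₄']
  calc (ENNReal.ofReal C₄)⁻¹ * ν (Metric.ball (0 : E) t)
      = (ENNReal.ofReal C₄)⁻¹ * ν (Metric.ball (Φ y) t) := by
        rw [Measure.addHaar_ball_center ν (Φ y) t]
    _ ≤ (ENNReal.ofReal C₄)⁻¹ * ν (Φ '' K) := by gcongr
    _ ≤ (ENNReal.ofReal C₄)⁻¹ *
        ∫⁻ y' in K, ENNReal.ofReal |(dphi e f x₀ Q B Pr (N₀ * m) y').det| ∂ν := by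
        gcongr
        exact addHaar_image_le_lintegral_abs_det_fderiv ν hKm
          (fun y' hy' => (hder y' hy').hasFDerivAt.hasFDerivWithinAt)
    _ ≤ (ENNReal.ofReal C₄)⁻¹ * ∫⁻ y' in K, ENNReal.ofReal C₄ *
        ENNReal.ofReal |pl (f^[N₀ * m] ∘ ic E x₀) w y' (fun j => (B j : E))| ∂ν := by
        refine mul_le_mul_right (setLIntegral_mono' hKm ?_) _
        intro y' hy'
        rw [← ENNReal.ofReal_mul hC₄.le]
        apply ENNReal.ofReal_le_ofReal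
        rw [dphi_det e hS.he f hS.h.smooth x₀ Q hQ B Pr (N₀ * m) (hKt y' hy')]
        exact hN y' (Metric.ball_subset_ball (by linarith) (hsub hy'.1)) _ hmN trivial
    _ = ∫⁻ y' in K, ENNReal.ofReal |pl (f^[N₀ * m] ∘ ic E x₀) w y' (fun j => (B j : E))| ∂ν := by
        rw [lintegral_const_mul' _ _ ENNReal.ofReal_ne_top, ← mul_assoc,
          ENNReal.inv_mul_cancel hC₄0 ENNReal.ofReal_ne_top, one_mul]
    _ ≤ _ := lintegral_mono_set hKsub

end vol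

end Pool.Agent.H74.RS
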